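import Mathlib
import Pool.Agent.Helper7.LS.Basic

/-!
# Link surgery manifolds with Lefschetz singularities: the cell complex

An explicit regular cell complex `X(D)` for every grid diagram `D` of a link `L` in the 3-sphere, together with a
set of nodes (columns, a multiple `12 n_i` of 12 on every component `L_i`).  It is a cell structure on the
Fintushel-Stern link surgery manifold `E(n_1, ..., n_r)_L`: the product of the circle and the exterior `E_L`, closed at every component
by the complement of a regular fibre in the elliptic surface `E(n_i)`, with its `12 n_i` nodal fibres.

## The exterior of the link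

The grid diagram gives an arc presentation: the rows are points `a_k` on the axis (a circle), the columns are pages (discs
bounded by the axis, in cyclic order around it), and column `m` carries an arc of `L` in page `m` from `a_(sig m)` to
`a_(tau m)`.  So `S^3` has the following cells: points `a_k`, axis segments `A_k` from `a_k` to `a_(k+1)`, arcs, two
pieces of every page (`s = false`: the piece containing the `A_k` with `k` in the cyclic interval `[sig m, tau m)`;
`s = true`: the other one), and the sector between page `m` and page `m + 1`.
The exterior `E_L` of an open tube around `L` has the following cells (blow up first the points `a_k`, then the arcs).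
* dimension 0: `up k`, `dn k` (the two ends of the axis at `a_k`, on `A_k` and on `A_(k-1)`),
  `pt m e s` (the tube of arc `m` at its end `e`, on the page piece `s`; end `false` is `a_(sig m)` and end `true` is `a_(tau m)`);
* dimension 1: `ax k` (the axis segment), `seg m k` (page `m` at the point `a_k` not on its arc), `leg m e s` (page
  piece `(m, s)` at the end `e` of its arc), `arc m e x` (half of the meridian circle at the end `e` of arc `m`, in
  front, `x = false`, in the sector between the pages `m` and `m + 1`, or in the back, `x = true`),
  `lon m s` (the tube along arc `m` on the page piece `s`);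
* dimension 2: `page m s`, `sec m k` (the sector between pages `m` and `m + 1` at the point `a_k`), `ann m x`
  (half of the tube along arc `m`);
* dimension 3: `chamber m` (the sector between pages `m` and `m + 1`).

The circle `S^1` has four vertices and four edges, so `S^1 x E_L` has the cells `prod q b y`: the cell `q` times the
vertex `y` (`b = false`) or the edge from `y` to `y + 1` (`b = true`).

## The fibre torus

The fibre torus is the product of the meridian circle and of `S^1`; let `μ` and `τ` be the classes of the two circles.
`SCell` is its product structure with `2 x 4` squares, and `TCell` a triangulation with the four vertices `(x, y)`, three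
families of edges (`m`, `t`, `s` in the directions `μ`, `τ` and `μ + τ`) and eight triangles.  The shear
`M (x, y) = (x + y, y)` (a Dehn twist) and the rotation `rho` of order 6 act on its vertices; `rho` is an automorphism.
`even c` and `odd c` are the realisations of the cells `c` and `M c` by chains of `SCell`s, and `psi c` is a chain of `TCell`s which
realises `M c`.

## The nodes

A node (a nodal fibre, Lefschetz singularity) sits on a column `m` with `node m = true`.  The state `st m` is the number of the nodes
passed on the component before `m`, modulo 12.  The monodromy of two consecutive nodes is `rho`, the vanishing cycles are `μ` in an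
even state and `μ + τ` in an odd state.  The cells of the node are, for the cells `c` of `TCell`:
`apex` (the singular point), `star c` (the nodal fibre: the torus with the vanishing cycle collapsed to `apex`), `rad e c` (between
the nodal fibre and the fibre at the end `e` of the arc), `tri c` (between the nodal fibre, the two ends and the tube along the arc), `inn c` (the
fibres over an inner path from one end to the other), `fil c` (between `inn` and the nodal fibre).

## The closing

For every component `κ` the remaining part is the product of the fibre torus and a disc; its cells are `cl κ c`, the cell `c` times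
the disc.
-/

set_option autoImplicit false

namespace Pool.MP_f18604_gt.LSN

open Pool.MP_f18604_gt.LS

/-- A grid diagram of a link with `N` rows and `N` columns, and nodes.  The link has in column `m` an
arc from row `sig m` to row `tau m`.  The functions `eps` and `st` exist if and only if every component has an
even number of columns (can be reached by a stabilisation) and a number of nodes which is divisible by 12. -/
structure Diagram (N : ℕ) where
  sig : Equiv.Perm (Fin N)
  tau : Equiv.Perm (Fin N)
  ne : ∀ m, sig m ≠ tau m
  node : Fin N → Bool
  eps : Fin N → Bool
  st : Fin N → Fin 12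
  eps_next : ∀ m, eps (sig.symm (tau m)) = !eps m
  st_next : ∀ m, st (sig.symm (tau m)) = st m + if node m then 1 else 0

namespace Diagram

variable {N : ℕ} (D : Diagram N)

/-- The permutation of the columns: the next arc of the oriented link. -/
def next : Equiv.Perm (Fin N) := D.tau.trans D.sig.symm

/-- The columns of the component of the link which contains the arc in column `m`. -/
def orbit (m : Fin N) : Finset (Fin N) := (Finset.range N).image fun i => D.next^[i] m

/-- The components of the link, given by their sets of columns. -/
def Comp : Type := {C : Finset (Fin N) // ∃ m, C = D.orbit m}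

instance : DecidableEq D.Comp := inferInstanceAs (DecidableEq {C : Finset (Fin N) // _})

/-- The row of the end `e` of the arc in column `m`. -/
def row (m : Fin N) (e : Bool) : Fin N := if e then D.tau m else D.sig m

/-- The piece of page `m` which contains the axis segment `A_k`. -/
def side (m k : Fin N) : Bool := !cyc (D.sig m) (D.tau m) k

/-- The parity of the state. -/
def par (m : Fin N) : Bool := (D.st m).val.bodd

end Diagram

/-- The cells of the exterior of the link. -/
inductive ECell {N : ℕ} (D : Diagram N) : Type
  | up (k : Fin N)
  | dn (k : Fin N)
  | pt (m : Fin N) (e s : Bool)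
  | ax (k : Fin N)
  | seg (m k : Fin N) (h : k ≠ D.sig m ∧ k ≠ D.tau m)
  | leg (m : Fin N) (e s : Bool)
  | arc (m : Fin N) (e x : Bool)
  | lon (m : Fin N) (s : Bool)
  | page (m : Fin N) (s : Bool)
  | sec (m k : Fin N)
  | ann (m : Fin N) (x : Bool)
  | chamber (m : Fin N)
  deriving DecidableEq

/-- The cells of the triangulation of the fibre torus. -/
inductive TCell : Type
  | v (x y : Bool)
  | m (x y : Bool)
  | t (x y : Bool)
  | s (x y : Bool)
  | lo (x y : Bool)
  | hi (x y : Bool)
  deriving DecidableEq, Fintype

/-- The cells of the product structure of the fibre torus: the product of the vertex `x` (`a = false`) or the edge from `x` to `!x`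
(`a = true`) of the meridian circle, and the vertex `y` (`b = false`) or the edge from `y` to `y + 1` (`b = true`) of `S^1`. -/
structure SCell : Type where
  a : Bool
  b : Bool
  x : Bool
  y : Fin 4
  deriving DecidableEq, Fintype

/-- A cell `c` is collapsed at a node of parity `p` (it lies on the vanishing cycle). -/
def TCell.coll (p : Bool) : TCell → Bool
  | .v x y => if p then x ^^ y else y
  | .m _ y => !p && y
  | .s x y => p && (x ^^ y)
  | _ => false

/-- The cells of a node of parity `p`. -/
inductive NCell (p : Bool) : Type
  | apex
  | star (c : TCell) (h : c.coll p = false)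
  | rad (e : Bool) (c : TCell)
  | tri (c : TCell)
  | inn (c : TCell)
  | fil (c : TCell)
  deriving DecidableEq, Fintype

/-- The cells of a node of parity `p` and of the tube around its arc: `tube (some e) z` is the cell `z` of the fibre torus at
the end `e`, and `tube none z` is `z` times the arc. -/
inductive LCell (p : Bool) : Type
  | tube (w : Option Bool) (z : SCell)
  | nd (c : NCell p)
  deriving DecidableEq, Fintype

/-- The cells of `X(D)`. -/
inductive XCell {N : ℕ} (D : Diagram N) : Type
  | prod (q : ECell D) (b : Bool) (y : Fin 4)
  | nd (m : Fin N) (h : D.node m = true) (c : NCell (D.par m))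
  | cl (κ : D.Comp) (c : TCell)
  deriving DecidableEq

section

variable {N : ℕ} {D : Diagram N}

/-- The dimension of a cell of the exterior. -/
def ECell.dim : ECell D → ℕ
  | .up _ | .dn _ | .pt _ _ _ => 0
  | .ax _ | .seg _ _ _ | .leg _ _ _ | .arc _ _ _ | .lon _ _ => 1
  | .page _ _ | .sec _ _ | .ann _ _ => 2
  | .chamber _ => 3

/-- The edges of page `m` at the point `a_k`; if the arc of page `m` ends at `a_k` they form a path
through the half meridian `arc m e x`. -/
def ECell.rim (m k : Fin N) (x : Bool) : List (ECell D) :=
  if h : k = D.sig m then [.leg m false false, .leg m false true, .arc m false x]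
  else if h' : k = D.tau m then [.leg m true false, .leg m true true, .arc m true x]
  else [.seg m k ⟨h, h'⟩]

/-- The facets of a cell of the exterior. -/
def ECell.facets : ECell D → List (ECell D)
  | .up _ => []
  | .dn _ => []
  | .pt _ _ _ => []
  | .ax k => [.up k, .dn (rot k)]
  | .seg _ k _ => [.up k, .dn k]
  | .leg m e s => [.pt m e s, if s = e then .up (D.row m e) else .dn (D.row m e)]
  | .arc m e _ => [.pt m e false, .pt m e true]
  | .lon m s => [.pt m false s, .pt m true s]
  | .page m s =>
    ((List.finRange N).filter fun k => D.side m k = s).map .ax ++
    (List.finRange N).flatMap (fun k =>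
      if h : k ≠ D.sig m ∧ k ≠ D.tau m then
        if D.side m k = s then [.seg m k h] else []
      else []) ++
    [.leg m false s, .leg m true s, .lon m s]
  | .sec m k => ECell.rim m k false ++ ECell.rim (rot m) k true
  | .ann m x => [.lon m false, .lon m true, .arc m false x, .arc m true x]
  | .chamber m =>
    [.page m false, .page m true, .page (rot m) false, .page (rot m) true,
      .ann m false, .ann (rot m) true] ++
    (List.finRange N).map fun k => .sec m k

end

namespace TCell

/-- The dimension. -/
def dim : TCell → ℕ
  | .v _ _ => 0
  | .m _ _ | .t _ _ | .s _ _ => 1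
  | .lo _ _ | .hi _ _ => 2

/-- The facets: the edges join `(x, y)` with `(x + 1, y)`, `(x, y + 1)` and `(x + 1, y + 1)`, and every parallelogram
`(x, y), (x + 1, y), (x + 1, y + 1), (x, y + 1)` is divided into the triangles `lo` and `hi`. -/
def facets : TCell → List TCell
  | .v _ _ => []
  | .m x y => [.v x y, .v (!x) y]
  | .t x y => [.v x y, .v x (!y)]
  | .s x y => [.v x y, .v (!x) (!y)]
  | .lo x y => [.m x y, .t (!x) y, .s x y]
  | .hi x y => [.t x y, .m x (!y), .s x y]

/-- The rotation: `μ ↦ τ ↦ τ - μ`, that is `(x, y) ↦ (y, x + y)` on the vertices. -/
def rho : TCell → TCell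
  | .v x y => .v y (x ^^ y)
  | .m x y => .t y !(x ^^ y)
  | .t x y => .s y (x ^^ y)
  | .s x y => .m y (x ^^ y)
  | .lo x y => .hi y !(x ^^ y)
  | .hi x y => .lo y (x ^^ y)

/-- `2 y`. -/
def dbl (y : Bool) : Fin 4 := if y then 2 else 0

/-- The realisation of `c` by `SCell`s; the vertex `(x, y)` is at `(x, 2 y)`. -/
def even : TCell → List SCell
  | .v x y => [⟨false, false, x, dbl y⟩]
  | .m x y => [⟨true, false, x, dbl y⟩]
  | .t x y => [⟨false, true, x, dbl y⟩, ⟨false, true, x, dbl y + 1⟩]
  | .s x y => [⟨false, true, x, dbl y⟩, ⟨true, false, x, dbl y + 1⟩, ⟨false, true, !x, dbl y + 1⟩]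
  | .lo x y => [⟨true, true, x, dbl y⟩]
  | .hi x y => [⟨true, true, x, dbl y + 1⟩]

/-- The realisation of `M c` by `SCell`s. -/
def odd : TCell → List SCell
  | .v x y => [⟨false, false, x ^^ y, dbl y⟩]
  | .m x y => [⟨true, false, x ^^ y, dbl y⟩]
  | .t x y =>
    [⟨false, true, x ^^ y, dbl y⟩, ⟨true, false, x ^^ y, dbl y + 1⟩, ⟨false, true, !(x ^^ y), dbl y + 1⟩]
  | .s x y =>
    [⟨true, false, x ^^ y, dbl y⟩, ⟨false, true, !(x ^^ y), dbl y⟩, ⟨false, true, !(x ^^ y), dbl y + 1⟩,
      ⟨true, false, !(x ^^ y), dbl y + 2⟩]
  | .lo x y => [⟨true, true, !(x ^^ y), dbl y + 1⟩]
  | .hi x y => [⟨true, true, x ^^ y, dbl y⟩]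

/-- `M c` as a chain of `TCell`s. -/
def psi : TCell → List TCell
  | .v x y => [.v (x ^^ y) y]
  | .m x y => [.m (x ^^ y) y]
  | .t x y => [.s (x ^^ y) y]
  | .s x y => [.m (x ^^ y) y, .t (!(x ^^ y)) y, .m (!(x ^^ y)) !y]
  | .lo x y => [.hi (!(x ^^ y)) y]
  | .hi x y => [.lo (x ^^ y) y]

/-- The triangle of the nodal fibre between the two sides of `fil c`. -/
def cap (p : Bool) : TCell → List TCell
  | .m x y => if p then [if x then .lo (x ^^ y) y else .hi (x ^^ y) !y] else []
  | .t x y => if p then [] else [if y then .lo (!x) true else .hi x false]
  | .s x y => if p then [if x then .lo (x ^^ y) y else .hi (!(x ^^ y)) y]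
    else [if y then .hi x true else .lo x false]
  | _ => []

/-- The realisation of the cell `c` in the state `s`: after `s / 2` rotations, and the shear `M` in an odd state. -/
def real (s : Fin 12) (c : TCell) : List SCell :=
  if s.val.bodd then (rho^[s.val / 2] c).odd else (rho^[s.val / 2] c).even

end TCell

namespace NCell

variable {p : Bool}

/-- The dimension. -/
def dim : NCell p → ℕ
  | .apex => 0
  | .star c _ => c.dim
  | .rad _ c => c.dim + 1
  | .tri c => c.dim + 2
  | .inn c => c.dim + 1
  | .fil c => c.dim + 2

/-- The image of `c` in the nodal fibre: nothing if it is a collapsed edge. -/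
def fib (c : TCell) : List (NCell p) :=
  if h : c.coll p = false then [.star c h] else if c.dim = 0 then [.apex] else []

/-- The facets of a cell of a node. -/
def facets : NCell p → List (LCell p)
  | .apex => []
  | .star c _ => (c.facets.flatMap fib).map .nd
  | .rad e c =>
    c.even.map (.tube (some e)) ++ (fib c).map .nd ++ c.facets.map fun d => .nd (.rad e d)
  | .tri c =>
    c.even.map (.tube none) ++ [.nd (.rad false c), .nd (.rad true c)] ++
      c.facets.map fun d => .nd (.tri d)
  | .inn c =>
    (if p then c.odd else c.even).map (.tube (some false)) ++
    (if p then c.rho.even else c.odd).map (.tube (some true)) ++ c.facets.map fun d => .nd (.inn d)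
  | .fil c =>
    [.nd (.inn c)] ++ (if p then c.psi else [c]).map (fun d => .nd (.rad false d)) ++
    (if p then [c.rho] else c.psi).map (fun d => .nd (.rad true d)) ++
    ((c.cap p).flatMap fib).map .nd ++ c.facets.map fun d => .nd (.fil d)

end NCell

section

variable {N : ℕ} {D : Diagram N}

/-- The cell `z` of the fibre torus at an end of the arc of column `m` or, for `w = none`, times the arc. -/
def XCell.tube (m : Fin N) (w : Option Bool) (z : SCell) : XCell D :=
  .prod (match w with
    | none => if z.a then .ann m (z.x ^^ D.eps m) else .lon m (z.x ^^ D.eps m)
    | some e => if z.a then .arc m e (z.x ^^ D.eps m) else .pt m e (z.x ^^ D.eps m)) z.b z.y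

/-- The cell `z` of the fibre torus between the arc of column `m` and the next arc: two legs, or the sectors at the point
`a_(tau m)` on one side of the link. -/
def XCell.corner (m : Fin N) (z : SCell) : List (XCell D) :=
  if z.a then
    ((List.finRange N).filter fun l =>
      if z.x ^^ D.eps m then cyc (D.next m) m l else cyc m (D.next m) l).map fun l =>
        .prod (.sec l (D.tau m)) z.b z.y
  else [.prod (.leg m true (z.x ^^ D.eps m)) z.b z.y,
    .prod (.leg (D.next m) false !(z.x ^^ D.eps m)) z.b z.y]

/-- The cell of `X(D)` given by a cell at the node on column `m`. -/
def XCell.place (m : Fin N) (h : D.node m = true) : LCell (D.par m) → XCell D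
  | .tube w z => .tube m w z
  | .nd c => .nd m h c

/-- The part of the boundary of `cl κ c` at the column `m`. -/
def XCell.layer (m : Fin N) (c : TCell) : List (XCell D) :=
  (if h : D.node m = true then [.nd m h (.inn (TCell.rho^[(D.st m).val / 2] c))]
    else (c.real (D.st m)).map (.tube m none)) ++
  (c.real (D.st (D.next m))).flatMap (XCell.corner m)

/-- The dimension of a cell of `X(D)`. -/
def XCell.dim : XCell D → ℕ
  | .prod q b _ => q.dim + if b then 1 else 0
  | .nd _ _ c => c.dim
  | .cl _ c => c.dim + 2

/-- The facets of a cell of `X(D)`. -/
def XCell.facets : XCell D → List (XCell D)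
  | .prod q b y =>
    (if b then [.prod q false y, .prod q false (y + 1)] else []) ++ q.facets.map fun r => .prod r b y
  | .nd m h c => c.facets.map (.place m h)
  | .cl κ c => c.facets.map (.cl κ) ++
    ((List.finRange N).filter fun m => m ∈ κ.1).flatMap fun m => XCell.layer m c

end

namespace Diagram

variable {N : ℕ} (D : Diagram N)

/-- Row `k`, not on the arc of column `m`, crosses the page piece `(m, s)`: it has a mark to the left
and a mark to the right of column `m`, and the point `a_k` lies on the piece `s` of page `m`. -/
def Crosses (m : Fin N) (s : Bool) (k : Fin N) : Prop :=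
  D.side m k = s ∧ (∃ l e, l < m ∧ D.row l e = k) ∧ ∃ l e, m < l ∧ D.row l e = k

/-- The colouring rule of the Wirtinger number, for the horizontal strands of a grid diagram.  Seeds are the
rows in `S` and the rows of the ends `false` of the arcs with a node (only the nodes in an even state if
`all = false`); a colour passes from one end of a column to the other end if all rows crossing one of the two page
pieces are coloured. -/
inductive Coloured (S : Finset (Fin N)) (all : Bool) : Fin N → Prop
  | seed (k : Fin N) : k ∈ S → Coloured S all k
  | node (m : Fin N) : D.node m = true → (D.par m = true → all = true) → Coloured S all (D.sig m)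
  | pass (m : Fin N) (s e : Bool) : (∀ k, D.Crosses m s k → Coloured S all k) →
      Coloured S all (D.row m e) → Coloured S all (D.row m !e)

/-- The seeds `S` and the nodes colour all rows, and `S` and the nodes in an even state colour the row of the end
`false` of an arc with a node in an odd state. -/
def Sufficient (S : Finset (Fin N)) : Prop :=
  (∃ m, D.node m = true ∧ D.par m = true ∧ D.Coloured S false (D.sig m)) ∧
    ∀ k, D.Coloured S true k

end Diagram

end Pool.MP_f18604_gt.LSN
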