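import Mathlib
import Pool.Agent.Helper7.LSN.Cells

/-!
# LSN: tools for the proofs

The facets and the dimension of `SCell`s and of `LCell`s; finiteness; the cell `c` in the frame of a column.
-/

set_option autoImplicit false

namespace Pool.MP_f18604_gt.LSN

open Pool.MP_f18604_gt.LS

/-- The facets of a square cell of the fibre torus. -/
def SCell.facets (z : SCell) : List SCell :=
  (if z.a then [⟨false, z.b, z.x, z.y⟩, ⟨false, z.b, !z.x, z.y⟩] else []) ++
  if z.b then [⟨z.a, false, z.x, z.y⟩, ⟨z.a, false, z.x, z.y + 1⟩] else []

/-- The dimension of a square cell. -/
def SCell.dim (z : SCell) : ℕ := (if z.a then 1 else 0) + if z.b then 1 else 0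

variable {p : Bool}

/-- The facets in the local complex of a node. -/
def LCell.facets : LCell p → List (LCell p)
  | .tube w z => (match w with
      | none => [.tube (some false) z, .tube (some true) z]
      | some _ => []) ++ z.facets.map (.tube w)
  | .nd c => c.facets

/-- The dimension in the local complex of a node. -/
def LCell.dim : LCell p → ℕ
  | .tube w z => z.dim + (match w with
      | none => 1
      | some _ => 0)
  | .nd c => c.dim

variable {N : ℕ}

/-- The cell `c` in the frame of column `m`. -/
def Diagram.fr (D : Diagram N) (m : Fin N) (c : TCell) : TCell := TCell.rho^[(D.st m).val / 2] c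

instance (D : Diagram N) : Fintype D.Comp :=
  inferInstanceAs (Fintype {C : Finset (Fin N) // ∃ m, C = D.orbit m})

deriving instance Fintype for ECell

deriving instance Fintype for XCell

end Pool.MP_f18604_gt.LSN
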