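import Mathlib
import Pool.Agent.Helper7.LSN.Tools

/-!
# LSN-02: the fibre torus, by computation
-/

set_option autoImplicit false

namespace Pool.MP_f18604_gt.LSN

open Pool.MP_f18604_gt.LS

theorem two_of_list {α : Type} {P : α → Prop} (l : List α) (hn : l.Nodup) (hl : l.length = 2)
    (h : ∀ b, P b ↔ b ∈ l) : Two P := by
  obtain ⟨a, b, rfl⟩ := List.length_eq_two.1 hl
  refine ⟨a, b, ?_, fun t => ?_⟩
  · simp only [List.nodup_cons, List.mem_singleton] at hn
    exact hn.1
  · rw [h t]
    simp

theorem two_filter {α : Type} (l : List α) (q : α → Bool) (hn : l.Nodup)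
    (h : (l.filter q).length = 2) : Two fun b => b ∈ l ∧ q b = true :=
  two_of_list (l.filter q) (hn.filter q) h fun b => by rw [List.mem_filter]

theorem two_congr {α : Type} {P Q : α → Prop} (h : Two P) (hPQ : ∀ t, P t ↔ Q t) : Two Q := by
  obtain ⟨a, b, hab, hP⟩ := h
  exact ⟨a, b, hab, fun t => (hPQ t).symm.trans (hP t)⟩

namespace TCell

theorem facets_nodup (c : TCell) : c.facets.Nodup := by
  revert c; decide

theorem dim_facets (c d : TCell) (h : d ∈ c.facets) : c.dim = d.dim + 1 := by
  revert c d; decide

private theorem dia_aux : ∀ a : TCell, ∀ c ∈ a.facets.flatMap facets,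
    (a.facets.filter fun b => decide (c ∈ b.facets)).length = 2 := by decide

theorem dia (a c : TCell) (h : ∃ b ∈ a.facets, c ∈ b.facets) :
    Two fun b => b ∈ a.facets ∧ c ∈ b.facets := by
  obtain ⟨b, hb, hc⟩ := h
  exact two_congr (two_filter _ _ a.facets_nodup
    (dia_aux a c (List.mem_flatMap.2 ⟨b, hb, hc⟩))) fun t => by simp

/-- An edge has two ends. -/
theorem edge (a : TCell) (h : a.dim = 1) : Two fun b => b ∈ a.facets := by
  have h1 : ∀ a : TCell, a.dim = 1 → (a.facets.filter fun _ => true).length = 2 := by decide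
  exact two_congr (two_filter _ _ a.facets_nodup (h1 a h)) fun t => by simp

/-- An edge lies in two triangles. -/
theorem coedge (b : TCell) (h : b.dim = 1) : Two fun a : TCell => b ∈ a.facets := by
  have h1 : ∀ b : TCell, b.dim = 1 →
      (((Finset.univ : Finset TCell).filter fun a => b ∈ a.facets).card = 2) := by decide
  have h2 := h1 b h
  rw [Finset.card_eq_two] at h2
  obtain ⟨x, y, hxy, h3⟩ := h2
  refine ⟨x, y, hxy, fun t => ?_⟩
  have h4 : t ∈ (Finset.univ : Finset TCell).filter (fun a => b ∈ a.facets) ↔
      t ∈ ({x, y} : Finset TCell) := by rw [h3]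
  simpa using h4

theorem rho_inj {c d : TCell} (h : c.rho = d.rho) : c = d := by
  revert c d; decide

theorem rho_facets (c d : TCell) : d.rho ∈ c.rho.facets ↔ d ∈ c.facets := by
  revert c d; decide

theorem rho_surj (c : TCell) : ∃ d : TCell, d.rho = c := by
  revert c; decide

theorem rho_dim (c : TCell) : c.rho.dim = c.dim := by
  revert c; decide

/-- The cells in a realisation have the right dimension. -/
theorem real_dim (s : Fin 12) (c : TCell) : ∀ z ∈ c.real s, z.dim = c.dim := by
  revert s c; decide +kernel

theorem real_nodup (s : Fin 12) (c : TCell) : (c.real s).Nodup := by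
  revert s c; decide +kernel

private theorem real_two_aux : ∀ (s : Fin 12) (c : TCell),
    ∀ w ∈ (c.real s).flatMap SCell.facets ++ c.facets.flatMap (real s),
      ((c.real s).filter fun z => decide (w ∈ z.facets)).length +
        (c.facets.filter fun d => decide (w ∈ d.real s)).length = 2 := by decide +kernel

/-- The realisation is compatible with the boundary: a square cell `w` is a facet of a square cell of `c` or lies in the
realisation of a facet of `c`, exactly twice. -/
theorem real_two (s : Fin 12) (c : TCell) (w : SCell)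
    (h : (∃ z ∈ c.real s, w ∈ z.facets) ∨ ∃ d ∈ c.facets, w ∈ d.real s) :
    ((c.real s).filter fun z => decide (w ∈ z.facets)).length +
      (c.facets.filter fun d => decide (w ∈ d.real s)).length = 2 := by
  refine real_two_aux s c w (List.mem_append.2 ?_)
  rcases h with ⟨z, hz, hw⟩ | ⟨d, hd, hw⟩
  · exact Or.inl (List.mem_flatMap.2 ⟨z, hz, hw⟩)
  · exact Or.inr (List.mem_flatMap.2 ⟨d, hd, hw⟩)

/-- Every square lies in the realisation of exactly one triangle. -/
theorem real_square (s : Fin 12) (z : SCell) (h : z.dim = 2) : ∃! c : TCell, z ∈ c.real s := by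
  have h1 : ∀ (s : Fin 12) (z : SCell), z.dim = 2 →
      ∃ c : TCell, z ∈ c.real s ∧ ∀ d : TCell, z ∈ d.real s → d = c := by decide +kernel
  obtain ⟨c, hc, hd⟩ := h1 s z h
  exact ⟨c, hc, hd⟩

/-- Every square lies in `even c` for exactly one `c`. -/
theorem even_square (z : SCell) (h : z.dim = 2) : ∃! c : TCell, z ∈ c.even := by
  have h1 : ∀ z : SCell, z.dim = 2 →
      ∃ c : TCell, z ∈ c.even ∧ ∀ d : TCell, z ∈ d.even → d = c := by decide +kernel
  obtain ⟨c, hc, hd⟩ := h1 z h
  exact ⟨c, hc, hd⟩

/-- The realisation after a node. -/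
theorem real_succ (s : Fin 12) (c : TCell) : c.real (s + 1) =
    if s.val.bodd then (rho^[s.val / 2] c).rho.even else (rho^[s.val / 2] c).odd := by
  revert s c; decide +kernel

end TCell

end Pool.MP_f18604_gt.LSN
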