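import Mathlib
import Pool.Agent.Helper7.LSN.Tor

/-!
# LSN-03: the local complex of a node, by computation

`code` is an injective numbering of the local cells, so that the kernel compares numbers; `ncells` and `lcells` are
lists of all cells.
-/

set_option autoImplicit false

namespace Pool.MP_f18604_gt.LSN

open Pool.MP_f18604_gt.LS

private def bN (b : Bool) : ℕ := if b then 1 else 0

private def tN : TCell → ℕ
  | .v x y => 4 * 0 + 2 * bN x + bN y
  | .m x y => 4 * 1 + 2 * bN x + bN y
  | .t x y => 4 * 2 + 2 * bN x + bN y
  | .s x y => 4 * 3 + 2 * bN x + bN y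
  | .lo x y => 4 * 4 + 2 * bN x + bN y
  | .hi x y => 4 * 5 + 2 * bN x + bN y

private def sN (z : SCell) : ℕ := 16 * bN z.a + 8 * bN z.b + 4 * bN z.x + z.y.val

variable {p : Bool}

/-- A numbering. -/
def LCell.code : LCell p → ℕ
  | .tube none z => sN z
  | .tube (some e) z => 32 * (1 + bN e) + sN z
  | .nd .apex => 100
  | .nd (.star c _) => 128 + tN c
  | .nd (.rad e c) => 160 + 32 * bN e + tN c
  | .nd (.tri c) => 224 + tN c
  | .nd (.inn c) => 256 + tN c
  | .nd (.fil c) => 288 + tN c

private def bools : List Bool := [false, true]

private def tris : List TCell :=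
  bools.flatMap fun x => bools.flatMap fun y => [.lo x y, .hi x y]

private def tcells : List TCell :=
  bools.flatMap fun x => bools.flatMap fun y =>
    [.v x y, .m x y, .t x y, .s x y, .lo x y, .hi x y]

private def scells : List SCell :=
  bools.flatMap fun a => bools.flatMap fun b => bools.flatMap fun x =>
    [⟨a, b, x, 0⟩, ⟨a, b, x, 1⟩, ⟨a, b, x, 2⟩, ⟨a, b, x, 3⟩]

private def ncells (p : Bool) : List (NCell p) :=
  .apex :: tcells.flatMap fun c => (if h : c.coll p = false then [.star c h] else []) ++
    [.rad false c, .rad true c, .tri c, .inn c, .fil c]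

private def lcells (p : Bool) : List (LCell p) :=
  (scells.flatMap fun z => [.tube none z, .tube (some false) z, .tube (some true) z]) ++
    (ncells p).map .nd

private theorem mem_tcells (c : TCell) : c ∈ tcells := by
  revert c; decide +kernel

private theorem mem_scells (z : SCell) : z ∈ scells := by
  revert z; decide +kernel

private theorem mem_tris (c : TCell) (h : c.dim = 2) : c ∈ tris := by
  revert c; decide +kernel

private theorem mem_ncells (a : NCell p) : a ∈ ncells p := by
  cases a with
  | apex => exact List.mem_cons_self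
  | star c h =>
    refine List.mem_cons_of_mem _ (List.mem_flatMap.2 ⟨c, mem_tcells c, ?_⟩)
    rw [dif_pos h]
    simp
  | rad e c =>
    refine List.mem_cons_of_mem _ (List.mem_flatMap.2 ⟨c, mem_tcells c, ?_⟩)
    cases e <;> simp
  | tri c =>
    refine List.mem_cons_of_mem _ (List.mem_flatMap.2 ⟨c, mem_tcells c, ?_⟩)
    simp
  | inn c =>
    refine List.mem_cons_of_mem _ (List.mem_flatMap.2 ⟨c, mem_tcells c, ?_⟩)
    simp
  | fil c =>
    refine List.mem_cons_of_mem _ (List.mem_flatMap.2 ⟨c, mem_tcells c, ?_⟩)
    simp

private theorem mem_lcells (a : LCell p) : a ∈ lcells p := by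
  cases a with
  | tube w z =>
    refine List.mem_append.2 (Or.inl (List.mem_flatMap.2 ⟨z, mem_scells z, ?_⟩))
    rcases w with _ | e
    · simp
    · cases e <;> simp
  | nd c => exact List.mem_append.2 (Or.inr (List.mem_map.2 ⟨c, mem_ncells c, rfl⟩))

private theorem all_l {q : LCell p → Bool} (h : (lcells p).all q = true) (a : LCell p) :
    q a = true := List.all_eq_true.1 h a (mem_lcells a)

private theorem all_n {q : NCell p → Bool} (h : (ncells p).all q = true) (a : NCell p) :
    q a = true := List.all_eq_true.1 h a (mem_ncells a)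

private theorem code_nodup : ∀ p : Bool, ((lcells p).map LCell.code).Nodup := by decide +kernel

theorem LCell.code_inj {a b : LCell p} (h : a.code = b.code) : a = b :=
  List.inj_on_of_nodup_map (code_nodup p) (mem_lcells a) (mem_lcells b) h

/-- The facets are different. -/
theorem LCell.facets_nodup (a : LCell p) : a.facets.Nodup := by
  have h1 : ∀ p : Bool, (lcells p).all (fun a => decide (a.facets.map code).Nodup) = true := by
    decide +kernel
  exact List.Nodup.of_map _ (of_decide_eq_true (all_l (h1 p) a))

theorem LCell.dim_facets (a b : LCell p) (h : b ∈ a.facets) : a.dim = b.dim + 1 := by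
  have h1 : ∀ p : Bool, (lcells p).all
      (fun a => a.facets.all fun b => a.dim == b.dim + 1) = true := by decide +kernel
  exact beq_iff_eq.1 (List.all_eq_true.1 (all_l (h1 p) a) b h)

private def diaB (a : LCell p) : Bool :=
  (a.facets.map fun b => b.facets.map LCell.code).flatten.all fun c =>
    ((a.facets.map fun b => b.facets.map LCell.code).filter fun l => l.contains c).length == 2

private theorem length_filter_map {α β : Type} (l : List α) (f : α → β) (q : β → Bool) :
    ((l.map f).filter q).length = (l.filter fun a => q (f a)).length := by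
  rw [List.filter_map, List.length_map]
  rfl

/-- The local complex is thin. -/
theorem LCell.dia (a c : LCell p) (h : ∃ b ∈ a.facets, c ∈ b.facets) :
    Two fun b => b ∈ a.facets ∧ c ∈ b.facets := by
  have h1 : ∀ p : Bool, (lcells p).all diaB = true := by decide +kernel
  have h2 := all_l (h1 p) a
  unfold diaB at h2
  simp only [List.all_eq_true] at h2
  obtain ⟨b, hb, hc⟩ := h
  have h3 := h2 c.code (List.mem_flatten.2 ⟨b.facets.map LCell.code,
    List.mem_map.2 ⟨b, hb, rfl⟩, List.mem_map.2 ⟨c, hc, rfl⟩⟩)
  rw [beq_iff_eq, length_filter_map] at h3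
  refine two_congr (two_filter _ _ a.facets_nodup h3) fun t => ?_
  simp only [List.contains_iff_mem, List.mem_map]
  constructor
  · rintro ⟨h4, d, hd, h5⟩
    rw [LCell.code_inj h5] at hd
    exact ⟨h4, hd⟩
  · rintro ⟨h4, h5⟩
    exact ⟨h4, c, h5, rfl⟩

private def tops (p : Bool) : List (NCell p) := tris.flatMap fun c => [.tri c, .fil c]

private theorem mem_tops (a : NCell p) (h : a.dim = 4) : a ∈ tops p := by
  have h1 : ∀ c : TCell, c.dim ≤ 2 := by decide +kernel
  cases a with
  | apex => simp [NCell.dim] at h
  | star c _ =>
    have h2 := h1 c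
    simp only [NCell.dim] at h
    omega
  | rad e c =>
    have h2 := h1 c
    simp only [NCell.dim] at h
    omega
  | inn c =>
    have h2 := h1 c
    simp only [NCell.dim] at h
    omega
  | tri c =>
    simp only [NCell.dim] at h
    exact List.mem_flatMap.2 ⟨c, mem_tris c (by omega), by simp⟩
  | fil c =>
    simp only [NCell.dim] at h
    exact List.mem_flatMap.2 ⟨c, mem_tris c (by omega), by simp⟩

private theorem mem_code (a : NCell p) (b : LCell p) :
    (a.facets.map LCell.code).contains b.code = true ↔ b ∈ a.facets := by
  rw [List.contains_iff_mem, List.mem_map]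
  constructor
  · rintro ⟨d, hd, h5⟩
    rwa [LCell.code_inj h5] at hd
  · intro h5
    exact ⟨_, h5, rfl⟩

private theorem tops_nodup : ∀ p : Bool, (tops p).Nodup := by decide +kernel

private def isInn : NCell p → Bool
  | .inn _ => true
  | _ => false

/-- The cells of dimension 3 of a node, except `inn c`, lie in two cells of dimension 4 of the node. -/
theorem NCell.co3 (b : NCell p) (hb : b.dim = 3) (h : ∀ c, b ≠ .inn c) :
    Two fun a : NCell p => (LCell.nd b) ∈ a.facets := by
  have h1 : ∀ p : Bool, (ncells p).all (fun b => !(b.dim == 3) || isInn b ||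
      (((tops p).filter fun a => (a.facets.map LCell.code).contains (LCell.nd b).code).length == 2))
      = true := by
    decide +kernel
  have h2 := all_n (h1 p) b
  have h3 : isInn b = false := by
    cases b with
    | inn c => exact absurd rfl (h c)
    | _ => rfl
  rw [hb, h3] at h2
  simp only [beq_self_eq_true, Bool.not_true, Bool.false_or, beq_iff_eq] at h2
  refine two_congr (two_filter _ _ (tops_nodup p) h2) fun t => ?_
  rw [mem_code]
  constructor
  · exact fun h => h.2
  · intro h4
    refine ⟨mem_tops t ?_, h4⟩
    have h5 := LCell.dim_facets (.nd t) (.nd b) h4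
    simp only [LCell.dim] at h5
    omega

/-- The cell `inn c` of a triangle `c` lies in `fil c` only. -/
theorem NCell.co_inn (c : TCell) (hc : c.dim = 2) (a : NCell p) :
    (LCell.nd (.inn c)) ∈ a.facets ↔ a = .fil c := by
  constructor
  · intro h
    have h5 : a.dim = c.dim + 1 + 1 := LCell.dim_facets (.nd a) (.nd (.inn c)) h
    have h6 := mem_tops a (by omega)
    have h7 : ∀ p : Bool, (tops p).all (fun a => tris.all fun c =>
        !((a.facets.map LCell.code).contains (LCell.nd (NCell.inn c : NCell p)).code) ||
          decide (a = .fil c)) = true := by decide +kernel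
    have h8 := List.all_eq_true.1 (List.all_eq_true.1 (h7 p) a h6) c (mem_tris c hc)
    rw [(mem_code a _).2 h] at h8
    simpa using h8
  · rintro rfl
    simp [NCell.facets]

/-- A square of the tube along the arc lies in exactly one cell of the node. -/
theorem NCell.co_tube (z : SCell) (hz : z.dim = 2) :
    ∃ b : NCell p, ∀ a : NCell p, (LCell.tube none z) ∈ a.facets ↔ a = b := by
  obtain ⟨c, hc, hd⟩ := TCell.even_square z hz
  refine ⟨.tri c, fun a => ?_⟩
  constructor
  · intro h
    cases a with
    | tri d =>
      simp only [NCell.facets, List.mem_append, List.mem_map, List.mem_cons, List.not_mem_nil,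
        or_false, reduceCtorEq, and_false, exists_false, false_or] at h
      obtain ⟨z', h1, h2⟩ := h
      rw [LCell.tube.injEq] at h2
      rw [h2.2] at h1
      rw [hd d h1]
    | _ => simp [NCell.facets] at h
  · rintro rfl
    simp only [NCell.facets, List.mem_append, List.mem_map]
    exact Or.inl (Or.inl ⟨z, hc, rfl⟩)

private def tco : TCell → TCell
  | .v x y => .m x y
  | .m x y => .lo x y
  | .t x y => .hi x y
  | .s x y => .lo x y
  | c => c

private def nco : NCell p → NCell p
  | .apex => .rad false (.v false true)
  | .star c _ => .rad false c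
  | .rad _ c => .tri c
  | .tri c => .tri (tco c)
  | .inn c => .fil c
  | .fil c => .fil (tco c)

/-- A cell of dimension at most 3 of a node lies in a cell of the node. -/
theorem NCell.pure (b : NCell p) (hb : b.dim < 4) : ∃ a : NCell p, (LCell.nd b) ∈ a.facets := by
  have h1 : ∀ p : Bool, (ncells p).all (fun b => !decide (b.dim < 4) ||
      ((nco b).facets.map LCell.code).contains (LCell.nd b).code) = true := by decide +kernel
  have h2 := all_n (h1 p) b
  rw [decide_eq_true hb] at h2
  simp only [Bool.not_true, Bool.false_or] at h2
  exact ⟨nco b, (mem_code _ _).1 h2⟩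

/-- The Euler characteristic of a node. -/
theorem NCell.euler : ∑ a : NCell p, (-1 : ℤ) ^ a.dim = 1 := by
  have h0 : ∀ p : Bool, (ncells p).Nodup := by decide +kernel
  have h1 : (Finset.univ : Finset (NCell p)) = ⟨ncells p, h0 p⟩ := by
    ext a
    exact ⟨fun _ => mem_ncells a, fun _ => Finset.mem_univ a⟩
  rw [h1]
  have h2 : ∀ p : Bool, ((ncells p).map fun a => (-1 : ℤ) ^ a.dim).sum = 1 := by decide +kernel
  exact h2 p

/-- The edges have two ends. -/
theorem NCell.edge (a : NCell p) (ha : a.dim = 1) : Two fun b => b ∈ a.facets := by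
  have h1 : ∀ p : Bool, (ncells p).all (fun a => !(a.dim == 1) || a.facets.length == 2) = true := by
    decide +kernel
  have h2 := all_n (h1 p) a
  rw [ha] at h2
  simp only [beq_self_eq_true, Bool.not_true, Bool.false_or, beq_iff_eq] at h2
  exact two_of_list a.facets (LCell.facets_nodup (.nd a)) h2 fun b => Iff.rfl

end Pool.MP_f18604_gt.LSN
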