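import Mathlib
import Pool.Agent.Helper7.LSN.Tools
import Pool.Agent.Helper7.LS.Cert

/-!
# LSN-01: the exterior as a subcomplex of the complex of the project LS

The diagram without folds; `ECell D` embeds in `LS.QCell D.toLS` (level `0`, sheet `false`), with the same facets.  So edges and
diamonds of the exterior are known from LS.

PROOFS.  `toLS_inj`: cases.  `toLS_bd`: cases, unfold `QCell.bd`, `QCell.rim`, `ECell.facets`, `ECell.rim`.  `e_dim`: from `LS.bd_dim`.
`e_edge`: `LS.two_edge`.  `e_dia`: `LS.dia_q` for `q.toLS`, sheet `false`; the two elements are `(q1.toLS, false)`.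
-/

set_option autoImplicit false

namespace Pool.MP_f18604_gt.LSN

open Pool.MP_f18604_gt.LS

variable {N : ℕ}

/-- The diagram without folds. -/
def Diagram.toLS (D : Diagram N) : LS.Diagram N where
  sig := D.sig
  tau := D.tau
  ne := D.ne
  c := fun _ => 0
  eps := D.eps
  del := fun _ => false
  eps_next := D.eps_next
  del_next := fun _ => rfl

variable {D : Diagram N}

/-- The cell of LS. -/
def ECell.toLS : ECell D → LS.QCell D.toLS
  | .up k => .up k
  | .dn k => .dn k
  | .pt m e s => .pt m e s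
  | .ax k => .ax k
  | .seg m k h => .seg m k h
  | .leg m e s => .leg m e s
  | .arc m e x => .arc m e x
  | .lon m s => .lon m 0 s
  | .page m s => .page m s
  | .sec m k => .sec m k
  | .ann m x => .ann m 0 x
  | .chamber m => .chamber m

theorem toLS_inj {q r : ECell D} (h : q.toLS = r.toLS) : q = r := by
  cases q <;> cases r <;> simp only [ECell.toLS, LS.QCell.up.injEq, LS.QCell.dn.injEq,
    LS.QCell.pt.injEq, LS.QCell.ax.injEq, LS.QCell.seg.injEq, LS.QCell.leg.injEq,
    LS.QCell.arc.injEq, LS.QCell.lon.injEq, LS.QCell.page.injEq, LS.QCell.sec.injEq,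
    LS.QCell.ann.injEq, LS.QCell.chamber.injEq, reduceCtorEq] at h <;> simp_all

theorem toLS_dim (q : ECell D) : q.toLS.dim = q.dim := by
  cases q <;> rfl

theorem toLS_rim (m k : Fin N) (x : Bool) :
    (LS.QCell.rim m k x : List (LS.QCell D.toLS)) = (ECell.rim m k x : List (ECell D)).map
      ECell.toLS := by
  unfold LS.QCell.rim ECell.rim
  by_cases h : k = D.sig m
  · rw [dif_pos (show k = D.toLS.sig m from h), dif_pos h]
    rfl
  · rw [dif_neg (show ¬ k = D.toLS.sig m from h), dif_neg h]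
    by_cases h' : k = D.tau m
    · rw [dif_pos (show k = D.toLS.tau m from h'), dif_pos h']
      rfl
    · rw [dif_neg (show ¬ k = D.toLS.tau m from h'), dif_neg h']
      rfl

theorem toLS_bd (q : ECell D) : q.toLS.bd false = q.facets.map fun r => (r.toLS, false) := by
  cases q with
  | leg m e s =>
    simp only [ECell.toLS, LS.QCell.bd, ECell.facets, List.map_cons, List.map_nil]
    by_cases h : s = e
    · rw [if_pos h, if_pos h]; rfl
    · rw [if_neg h, if_neg h]; rfl
  | page m s =>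
    simp only [ECell.toLS, LS.QCell.bd, ECell.facets, List.map_append, List.map_map,
      List.map_flatMap, List.map_cons, List.map_nil]
    congr 1
    congr 1
    refine List.flatMap_congr fun k _ => ?_
    by_cases h : k ≠ D.sig m ∧ k ≠ D.tau m
    · rw [dif_pos h]
      rw [dif_pos (show k ≠ D.toLS.sig m ∧ k ≠ D.toLS.tau m from h)]
      by_cases h2 : D.side m k = s
      · rw [if_pos h2, if_pos (show D.toLS.side m k = s from h2)]; rfl
      · rw [if_neg h2, if_neg (show ¬ D.toLS.side m k = s from h2)]; rfl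
    · rw [dif_neg h, dif_neg (show ¬ (k ≠ D.toLS.sig m ∧ k ≠ D.toLS.tau m) from h)]; rfl
  | sec m k =>
    simp only [ECell.toLS, LS.QCell.bd, ECell.facets, toLS_rim, List.map_append, List.map_map]
    rfl
  | chamber m =>
    simp only [ECell.toLS, LS.QCell.bd, ECell.facets, List.map_append, List.map_map]
    rfl
  | lon m s => simp [ECell.toLS, LS.QCell.bd, ECell.facets]
  | ann m x => simp [ECell.toLS, LS.QCell.bd, ECell.facets]
  | _ => rfl

theorem e_dim (q r : ECell D) (h : r ∈ q.facets) : q.dim = r.dim + 1 := by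
  have h1 : (LS.XCell.ord r.toLS false : LS.XCell D.toLS) ∈ (LS.XCell.ord q.toLS false).bd := by
    simp only [LS.XCell.bd, toLS_bd, List.map_map, List.mem_map]
    exact ⟨r, h, rfl⟩
  have h2 := LS.bd_dim _ _ h1
  simpa only [LS.XCell.dim, toLS_dim] using h2

theorem e_edge (q : ECell D) (h : q.dim = 1) : Two fun r => r ∈ q.facets := by
  obtain ⟨a, b, hab, hP⟩ := LS.two_edge q.toLS (by rw [toLS_dim, h]) false
  rw [toLS_bd] at hP
  obtain ⟨a', ha', rfl⟩ := List.mem_map.1 ((hP a).2 (Or.inl rfl))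
  obtain ⟨b', hb', rfl⟩ := List.mem_map.1 ((hP b).2 (Or.inr rfl))
  refine ⟨a', b', fun h' => hab (by rw [h']), fun t => ⟨fun ht => ?_, ?_⟩⟩
  · rcases (hP (t.toLS, false)).1 (List.mem_map.2 ⟨t, ht, rfl⟩) with h1 | h1
    · exact Or.inl (toLS_inj (Prod.mk.inj h1).1)
    · exact Or.inr (toLS_inj (Prod.mk.inj h1).1)
  · rintro (rfl | rfl) <;> assumption

theorem e_dia (q s : ECell D) (h : ∃ r ∈ q.facets, s ∈ r.facets) :
    Two fun r => r ∈ q.facets ∧ s ∈ r.facets := by
  have key : ∀ r : ECell D, (r ∈ q.facets ∧ s ∈ r.facets) ↔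
      (((r.toLS, false) : LS.QCell D.toLS × Bool) ∈ q.toLS.bd false ∧
        ((s.toLS, false) : LS.QCell D.toLS × Bool) ∈ r.toLS.bd false) := by
    intro r
    rw [toLS_bd, toLS_bd]
    constructor
    · rintro ⟨h1, h2⟩
      exact ⟨List.mem_map.2 ⟨r, h1, rfl⟩, List.mem_map.2 ⟨s, h2, rfl⟩⟩
    · rintro ⟨h1, h2⟩
      obtain ⟨r', h3, h4⟩ := List.mem_map.1 h1
      obtain ⟨s', h5, h6⟩ := List.mem_map.1 h2
      have h7 := toLS_inj (Prod.mk.inj h4).1
      have h8 := toLS_inj (Prod.mk.inj h6).1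
      subst h7 h8
      exact ⟨h3, h5⟩
  obtain ⟨r0, h1, h2⟩ := h
  have h3 := (key r0).1 ⟨h1, h2⟩
  obtain ⟨a, b, hab, hP⟩ := LS.dia_q q.toLS false (s.toLS, false) ⟨_, h3.1, h3.2⟩
  have hform : ∀ t : LS.QCell D.toLS × Bool, t ∈ q.toLS.bd false → ∃ r : ECell D,
      t = (r.toLS, false) := by
    intro t ht
    rw [toLS_bd] at ht
    obtain ⟨r, _, rfl⟩ := List.mem_map.1 ht
    exact ⟨r, rfl⟩
  obtain ⟨a', rfl⟩ := hform a ((hP a).2 (Or.inl rfl)).1
  obtain ⟨b', rfl⟩ := hform b ((hP b).2 (Or.inr rfl)).1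
  refine ⟨a', b', fun h' => hab (by rw [h']), fun t => ⟨fun ht => ?_, ?_⟩⟩
  · rcases (hP (t.toLS, false)).1 ((key t).1 ht) with h1 | h1
    · exact Or.inl (toLS_inj (Prod.mk.inj h1).1)
    · exact Or.inr (toLS_inj (Prod.mk.inj h1).1)
  · rintro (rfl | rfl)
    · exact (key _).2 ((hP _).2 (Or.inl rfl))
    · exact (key _).2 ((hP _).2 (Or.inr rfl))

end Pool.MP_f18604_gt.LSN
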