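import Mathlib
import Pool.Agent.Helper7.LSN.ToLS
import Pool.Agent.Helper7.LSN.Tor

/-!
# LSN-04: columns and components (from LS)
-/

set_option autoImplicit false

namespace Pool.MP_f18604_gt.LSN

open Pool.MP_f18604_gt.LS

variable {N : ℕ} {D : Diagram N}

theorem next_mem (κ : D.Comp) (m : Fin N) : D.next m ∈ κ.1 ↔ m ∈ κ.1 :=
  LS.next_mem (D := D.toLS) ⟨κ.1, κ.2⟩ m

/-- The component of a column. -/
def compOf (D : Diagram N) (m : Fin N) : D.Comp := ⟨D.orbit m, m, rfl⟩

theorem mem_compOf (m : Fin N) : m ∈ (compOf D m).1 := LS.self_mem_orbit (D := D.toLS) m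

theorem comp_unique {κ : D.Comp} {m : Fin N} (h : m ∈ κ.1) : κ = compOf D m := by
  have h1 := LS.comp_unique (D := D.toLS) (κ := ⟨κ.1, κ.2⟩) (m := m) h
  exact Subtype.ext (congrArg Subtype.val h1)

theorem next_ne (m : Fin N) : D.next m ≠ m := LS.next_ne (D := D.toLS) m

theorem sig_next (m : Fin N) : D.sig (D.next m) = D.tau m := LS.sig_next (D := D.toLS) m

theorem eps_next (m : Fin N) : D.eps (D.next m) = !D.eps m := D.eps_next m

theorem st_next (m : Fin N) : D.st (D.next m) = D.st m + if D.node m then 1 else 0 := D.st_next m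

theorem next_symm (m : Fin N) : ∃ m', D.next m' = m := ⟨D.next.symm m, D.next.apply_symm_apply m⟩

theorem next_inj {m m' : Fin N} (h : D.next m = D.next m') : m = m' := D.next.injective h

theorem tau_inj {m m' : Fin N} (h : D.tau m = D.tau m') : m = m' := D.tau.injective h

theorem rot_ne' (D : Diagram N) (m : Fin N) : rot m ≠ m := LS.rot_ne D.toLS m

end Pool.MP_f18604_gt.LSN
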