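import Mathlib
import Pool.Agent.Helper7.LSN.Orb
import Pool.Agent.Helper7.LSN.Loc

/-!
# LSN-05: the local complex of a node sits in `X(D)`

PROOFS.
`tube_inj`: the cell of the exterior (`lon`, `ann`, `pt`, `arc`) determines `w`, `m`, `z.a` and `z.x` (`x ^^ eps m = x' ^^ eps m` gives `x = x'`), and `prod _ z.b z.y` the rest; `cases` on `w`, `w'`,
`z.a`, `z'.a`.
`mem_tube`: cases on `w` and `z.a`, `z.b`; unfold `XCell.facets`, `ECell.facets`, `SCell.facets`.  E.g. for `w = none`, `z.a = false`: `lon m s` with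
`s = z.x ^^ eps m` has the facets `pt m false s`, `pt m true s`: these are `tube m (some e) z`; for `z.a = true`: `ann m s` has the facets
`lon m false`, `lon m true` (the two `tube m none ⟨false, z.b, x, z.y⟩`, in some order, cases on `z.x ^^ eps m`) and `arc m false s`, `arc m true s`.
`mem_place`: for `tube` from `mem_tube` (`LCell.facets`), for `nd` by definition.
`nd_dia`: a facet of `nd m h c` is `place m h b` with `b ∈ (LCell.nd c).facets`, and a facet of it is `place m h d`, `d ∈ b.facets`
(`mem_place`); so by `place_inj` the claim is `LCell.dia`.  `nd_edge`: `NCell.edge`.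
-/

set_option autoImplicit false

namespace Pool.MP_f18604_gt.LSN

open Pool.MP_f18604_gt.LS

variable {N : ℕ} {D : Diagram N}

private theorem place_xor {p q r : Bool} (h : (p ^^ r) = (q ^^ r)) : p = q := by
  revert h
  cases p <;> cases q <;> cases r <;> simp

theorem tube_inj {m m' : Fin N} {w w' : Option Bool} {z z' : SCell}
    (h : (XCell.tube m w z : XCell D) = XCell.tube m' w' z') : m = m' ∧ w = w' ∧ z = z' := by
  obtain ⟨a, b, x, y⟩ := z
  obtain ⟨a', b', x', y'⟩ := z'
  unfold XCell.tube at h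
  rw [XCell.prod.injEq] at h
  obtain ⟨h1, h2, h3⟩ := h
  replace h2 : b = b' := h2
  replace h3 : y = y' := h3
  subst h2
  subst h3
  rcases w with _ | e <;> rcases w' with _ | e' <;> cases a <;> cases a' <;>
    simp only [Bool.false_eq_true, if_true, if_false, reduceCtorEq, ECell.ann.injEq,
      ECell.lon.injEq, ECell.arc.injEq, ECell.pt.injEq] at h1
  · obtain ⟨h4, h5⟩ := h1
    subst h4
    rw [place_xor h5]
    exact ⟨rfl, rfl, rfl⟩
  · obtain ⟨h4, h5⟩ := h1
    subst h4
    rw [place_xor h5]
    exact ⟨rfl, rfl, rfl⟩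
  · obtain ⟨h4, h6, h5⟩ := h1
    subst h4
    subst h6
    rw [place_xor h5]
    exact ⟨rfl, rfl, rfl⟩
  · obtain ⟨h4, h6, h5⟩ := h1
    subst h4
    subst h6
    rw [place_xor h5]
    exact ⟨rfl, rfl, rfl⟩

theorem tube_dim (m : Fin N) (w : Option Bool) (z : SCell) : (XCell.tube m w z : XCell D).dim =
    z.dim + (match w with
      | none => 1
      | some _ => 0) := by
  obtain ⟨a, b, x, y⟩ := z
  rcases w with _ | e <;> cases a <;> cases b <;> rfl

theorem mem_tube (m : Fin N) (w : Option Bool) (z : SCell) (x : XCell D) :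
    x ∈ (XCell.tube m w z : XCell D).facets ↔
      (w = none ∧ ∃ e, x = XCell.tube m (some e) z) ∨ ∃ z' ∈ z.facets, x = XCell.tube m w z' := by
  obtain ⟨a, b, u, y⟩ := z
  rcases w with _ | e <;> cases a <;> cases b <;>
    simp only [XCell.tube, XCell.facets, ECell.facets, SCell.facets, Bool.false_eq_true, if_true,
      if_false, List.nil_append, List.append_nil, List.map_cons, List.map_nil, List.mem_append,
      List.mem_cons, List.not_mem_nil, or_false, false_or, true_and, false_and, reduceCtorEq,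
      Bool.exists_bool, or_and_right, exists_or, exists_eq_left, exists_false] <;>
    generalize D.eps m = ε <;> cases u <;> cases ε <;>
    simp only [Bool.false_xor, Bool.true_xor, Bool.not_false, Bool.not_true] <;> tauto

theorem place_inj {m : Fin N} {h : D.node m = true} {b c : LCell (D.par m)}
    (hbc : XCell.place m h b = XCell.place m h c) : b = c := by
  cases b with
  | tube w z =>
    cases c with
    | tube w' z' =>
      obtain ⟨_, h1, h2⟩ := tube_inj (D := D) hbc
      rw [h1, h2]
    | nd c' =>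
      simp only [XCell.place, XCell.tube, reduceCtorEq] at hbc
  | nd b' =>
    cases c with
    | tube w' z' =>
      simp only [XCell.place, XCell.tube, reduceCtorEq] at hbc
    | nd c' =>
      simp only [XCell.place] at hbc
      injection hbc with _ h2
      rw [h2]

theorem place_dim (m : Fin N) (h : D.node m = true) (b : LCell (D.par m)) :
    (XCell.place m h b).dim = b.dim := by
  cases b with
  | tube w z => exact tube_dim m w z
  | nd c => rfl

theorem mem_place (m : Fin N) (h : D.node m = true) (b : LCell (D.par m)) (x : XCell D) :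
    x ∈ (XCell.place m h b).facets ↔ ∃ c ∈ b.facets, x = XCell.place m h c := by
  cases b with
  | tube w z =>
    have h1 : XCell.place m h (LCell.tube w z) = XCell.tube m w z := rfl
    rw [h1, mem_tube]
    unfold LCell.facets
    simp only [List.mem_append, List.mem_map]
    constructor
    · rintro (⟨rfl, e, rfl⟩ | ⟨z', hz', rfl⟩)
      · refine ⟨.tube (some e) z, Or.inl ?_, rfl⟩
        cases e <;> simp
      · exact ⟨.tube w z', Or.inr ⟨z', hz', rfl⟩, rfl⟩
    · rintro ⟨c, hc | ⟨z', hz', rfl⟩, rfl⟩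
      · rcases w with _ | e
        · simp only [List.mem_cons, List.not_mem_nil, or_false] at hc
          rcases hc with rfl | rfl
          · exact Or.inl ⟨rfl, false, rfl⟩
          · exact Or.inl ⟨rfl, true, rfl⟩
        · simp only [List.not_mem_nil] at hc
      · exact Or.inr ⟨z', hz', rfl⟩
  | nd c =>
    have h1 : (XCell.place m h (LCell.nd c)).facets = c.facets.map (XCell.place m h) := rfl
    rw [h1, List.mem_map]
    constructor
    · rintro ⟨a, ha, rfl⟩
      exact ⟨a, ha, rfl⟩
    · rintro ⟨a, ha, rfl⟩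
      exact ⟨a, ha, rfl⟩

theorem nd_dia (m : Fin N) (h : D.node m = true) (c : NCell (D.par m)) (x : XCell D)
    (hx : ∃ b ∈ (XCell.nd m h c).facets, x ∈ b.facets) :
    Two fun b => b ∈ (XCell.nd m h c).facets ∧ x ∈ b.facets := by
  have h0 : XCell.place m h (LCell.nd c) = XCell.nd m h c := rfl
  rw [← h0] at hx ⊢
  obtain ⟨b, hb, hxb⟩ := hx
  obtain ⟨b', hb', rfl⟩ := (mem_place m h _ _).1 hb
  obtain ⟨d, hd, rfl⟩ := (mem_place m h _ _).1 hxb
  obtain ⟨p, q, hpq, h1⟩ := LCell.dia (LCell.nd c) d ⟨b', hb', hd⟩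
  refine ⟨XCell.place m h p, XCell.place m h q, fun e => hpq (place_inj e), fun t => ?_⟩
  constructor
  · rintro ⟨h2, h3⟩
    obtain ⟨t', h4, rfl⟩ := (mem_place m h _ _).1 h2
    obtain ⟨d', h5, h6⟩ := (mem_place m h _ _).1 h3
    rw [← place_inj h6] at h5
    rcases (h1 t').1 ⟨h4, h5⟩ with h7 | h7
    · exact Or.inl (by rw [h7])
    · exact Or.inr (by rw [h7])
  · rintro (rfl | rfl)
    · obtain ⟨h2, h3⟩ := (h1 p).2 (Or.inl rfl)
      exact ⟨(mem_place m h _ _).2 ⟨p, h2, rfl⟩, (mem_place m h _ _).2 ⟨d, h3, rfl⟩⟩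
    · obtain ⟨h2, h3⟩ := (h1 q).2 (Or.inr rfl)
      exact ⟨(mem_place m h _ _).2 ⟨q, h2, rfl⟩, (mem_place m h _ _).2 ⟨d, h3, rfl⟩⟩

theorem nd_edge (m : Fin N) (h : D.node m = true) (c : NCell (D.par m)) (hc : c.dim = 1) :
    Two fun b => b ∈ (XCell.nd m h c).facets := by
  have h0 : XCell.place m h (LCell.nd c) = XCell.nd m h c := rfl
  rw [← h0]
  obtain ⟨p, q, hpq, h1⟩ := NCell.edge c hc
  refine ⟨XCell.place m h p, XCell.place m h q, fun e => hpq (place_inj e), fun t => ?_⟩
  constructor
  · intro h2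
    obtain ⟨t', h4, rfl⟩ := (mem_place m h _ _).1 h2
    rcases (h1 t').1 h4 with h7 | h7
    · exact Or.inl (by rw [h7])
    · exact Or.inr (by rw [h7])
  · rintro (rfl | rfl)
    · exact (mem_place m h _ _).2 ⟨p, (h1 p).2 (Or.inl rfl), rfl⟩
    · exact (mem_place m h _ _).2 ⟨q, (h1 q).2 (Or.inr rfl), rfl⟩

end Pool.MP_f18604_gt.LSN
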