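import Mathlib
import Pool.Agent.Helper7.LSN.Place

/-!
# LSN-07: the facets of the closing cells and of the cells `inn`

PROOFS.  `mem_cl`, `mem_layer`: unfold `XCell.facets`, `XCell.layer`, `List.mem_append`, `mem_map`, `mem_flatMap`, `mem_filter`; `D.fr m c` is by definition
`TCell.rho^[(D.st m).val / 2] c`.
`mem_inn`: `(nd m h (inn d)).facets = (NCell.inn d).facets.map (place m h)` with `d = D.fr m c`.  `if par then d.odd else d.even` is `c.real (D.st m)` by definition (`D.par m =
(D.st m).val.bodd`); `if par then d.rho.even else d.odd` is `c.real (D.st (D.next m))` by `st_next` (`node m = true`) and `TCell.real_succ`.  The facets of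
`d = rho^[i] c` are `rho^[i] c'`, `c' ∈ c.facets` (`fr_facets`, by induction on `i` from `TCell.rho_facets` and `TCell.rho_surj`).
-/

set_option autoImplicit false

namespace Pool.MP_f18604_gt.LSN

open Pool.MP_f18604_gt.LS

variable {N : ℕ} {D : Diagram N}

private theorem rho_injective : Function.Injective TCell.rho := fun _ _ h => TCell.rho_inj h

private theorem rho_surjective : Function.Surjective TCell.rho := fun c => TCell.rho_surj c

theorem fr_inj {m : Fin N} {c d : TCell} (h : D.fr m c = D.fr m d) : c = d :=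
  rho_injective.iterate _ h

private theorem iter_dim (i : ℕ) (c : TCell) : (TCell.rho^[i] c).dim = c.dim := by
  induction i with
  | zero => rfl
  | succ i ih => rw [Function.iterate_succ_apply', TCell.rho_dim, ih]

theorem fr_dim (m : Fin N) (c : TCell) : (D.fr m c).dim = c.dim :=
  iter_dim _ c

theorem fr_surj (m : Fin N) (c : TCell) : ∃ d, D.fr m d = c :=
  rho_surjective.iterate _ c

private theorem iter_facets (i : ℕ) (c d : TCell) :
    TCell.rho^[i] d ∈ (TCell.rho^[i] c).facets ↔ d ∈ c.facets := by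
  induction i with
  | zero => exact Iff.rfl
  | succ i ih => rw [Function.iterate_succ_apply', Function.iterate_succ_apply', TCell.rho_facets, ih]

theorem fr_facets (m : Fin N) (c d : TCell) : D.fr m d ∈ (D.fr m c).facets ↔ d ∈ c.facets :=
  iter_facets _ c d

theorem mem_cl (κ : D.Comp) (c : TCell) (x : XCell D) : x ∈ (XCell.cl κ c).facets ↔
    (∃ d ∈ c.facets, x = .cl κ d) ∨ ∃ m ∈ κ.1, x ∈ (XCell.layer m c : List (XCell D)) := by
  simp only [XCell.facets, List.mem_append, List.mem_map, List.mem_flatMap, List.mem_filter, List.mem_finRange,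
    true_and, decide_eq_true_eq]
  constructor
  · rintro (⟨d, hd, rfl⟩ | h)
    · exact Or.inl ⟨d, hd, rfl⟩
    · exact Or.inr h
  · rintro (⟨d, hd, rfl⟩ | h)
    · exact Or.inl ⟨d, hd, rfl⟩
    · exact Or.inr h

theorem mem_layer (m : Fin N) (c : TCell) (x : XCell D) : x ∈ (XCell.layer m c : List (XCell D)) ↔
    (∃ h : D.node m = true, x = .nd m h (.inn (D.fr m c))) ∨
    (D.node m = false ∧ ∃ z ∈ c.real (D.st m), x = XCell.tube m none z) ∨
    ∃ z ∈ c.real (D.st (D.next m)), x ∈ (XCell.corner m z : List (XCell D)) := by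
  rw [XCell.layer, List.mem_append, List.mem_flatMap]
  by_cases hn : D.node m = true
  · rw [dif_pos hn]
    constructor
    · rintro (h | h)
      · exact Or.inl ⟨hn, List.mem_singleton.1 h⟩
      · exact Or.inr (Or.inr h)
    · rintro (⟨h, rfl⟩ | ⟨h, -⟩ | h)
      · exact Or.inl (List.mem_singleton.2 rfl)
      · rw [hn] at h
        cases h
      · exact Or.inr h
  · rw [dif_neg hn]
    have hn' : D.node m = false := by simpa using hn
    constructor
    · rintro (h | h)
      · obtain ⟨z, hz, rfl⟩ := List.mem_map.1 h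
        exact Or.inr (Or.inl ⟨hn', z, hz, rfl⟩)
      · exact Or.inr (Or.inr h)
    · rintro (⟨h, -⟩ | ⟨-, z, hz, rfl⟩ | h)
      · exact absurd h hn
      · exact Or.inl (List.mem_map.2 ⟨z, hz, rfl⟩)
      · exact Or.inr h

theorem mem_inn (m : Fin N) (h : D.node m = true) (c : TCell) (x : XCell D) :
    x ∈ (XCell.nd m h (.inn (D.fr m c))).facets ↔
      (∃ z ∈ c.real (D.st m), x = XCell.tube m (some false) z) ∨
      (∃ z ∈ c.real (D.st (D.next m)), x = XCell.tube m (some true) z) ∨
      ∃ d ∈ c.facets, x = .nd m h (.inn (D.fr m d)) := by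
  have h1 : (if D.par m then (D.fr m c).odd else (D.fr m c).even) = c.real (D.st m) := rfl
  have h2 : (if D.par m then (D.fr m c).rho.even else (D.fr m c).odd) = c.real (D.st (D.next m)) := by
    rw [st_next, h, if_pos rfl, TCell.real_succ]
    rfl
  have h3 : (XCell.nd m h (.inn (D.fr m c)) : XCell D).facets =
      ((c.real (D.st m)).map (LCell.tube (some false)) ++
        (c.real (D.st (D.next m))).map (LCell.tube (some true)) ++
        (D.fr m c).facets.map fun d => LCell.nd (.inn d)).map (XCell.place m h) := by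
    rw [← h1, ← h2]
    rfl
  rw [h3]
  simp only [List.map_append, List.map_map, List.mem_append, List.mem_map, Function.comp_apply]
  constructor
  · rintro ((⟨z, hz, rfl⟩ | ⟨z, hz, rfl⟩) | ⟨d, hd, rfl⟩)
    · exact Or.inl ⟨z, hz, rfl⟩
    · exact Or.inr (Or.inl ⟨z, hz, rfl⟩)
    · obtain ⟨d', rfl⟩ := fr_surj (D := D) m d
      exact Or.inr (Or.inr ⟨d', (fr_facets m c d').1 hd, rfl⟩)
  · rintro (⟨z, hz, rfl⟩ | ⟨z, hz, rfl⟩ | ⟨d, hd, rfl⟩)
    · exact Or.inl (Or.inl ⟨z, hz, rfl⟩)
    · exact Or.inl (Or.inr ⟨z, hz, rfl⟩)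
    · exact Or.inr ⟨_, (fr_facets m c d).2 hd, rfl⟩

end Pool.MP_f18604_gt.LSN
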