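import Mathlib
import Pool.Agent.Helper7.LSN.Place

/-!
# LSN-08: the corners, first part

`corner m z` is the cell `z` of the fibre torus between the end `true` of column `m` and the end `false` of column `next m`.  Put `s = z.x ^^ eps m`, `k = tau m = sig (next m)`.
`mid m z x`: `x` is an inner facet of the corner: `up k` or `dn k` (for a `z` with `z.a = false`), or `seg l k` for a page `l` strictly between `m` and `next m` on the side `s`.

PROOFS.  `leg_true`, `leg_false`: the facets of the two legs.  `leg m true s` has the facets `pt m true s` and `up k` if `s = true`, `dn k` if `s = false`; `leg (next m) false (!s)` has the facets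
`pt (next m) false (!s)` and `up (sig (next m)) = up k` (`sig_next`) if `!s = false`, that is again `s = true`, and `dn k` otherwise; `eps (next m) = !eps m` (`eps_next`), so
`pt (next m) false (!s)` is in `tube (next m) (some false)`.
`corner_disj`: `leg m true s` determines `m` and `s`; `leg (next m) false (!s)` too (`next_inj`); `sec l (tau m)` determines `m` (`tau_inj`), and the side `s` is determined
by `l`, because `cyc (next m) m l = !cyc m (next m) l` (`LS.cyc_swap`, `next_ne`); `z.a` by the kind of the cell, `z.b`, `z.y` by `prod`.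
`mid_disj`: `up (tau m)`, `dn (tau m)`, `seg l (tau m)` determine `m` (`tau_inj`), `z.a`, `z.b`, `z.y`; the side as before.
The others: constructor mismatch (`tube` is a `prod` of `lon`, `ann`, `pt`, `arc`; `corner` of `leg`, `sec`; `mid` of `up`, `dn`, `seg`).
-/

set_option autoImplicit false

namespace Pool.MP_f18604_gt.LSN

open Pool.MP_f18604_gt.LS

variable {N : ℕ} {D : Diagram N}

/-- The inner facets of a corner. -/
def XCell.mid (m : Fin N) (z : SCell) (x : XCell D) : Prop :=
  (z.a = false ∧ x = .prod (if z.x ^^ D.eps m then .up (D.tau m) else .dn (D.tau m)) z.b z.y) ∨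
  (z.a = true ∧ ∃ l h, (if z.x ^^ D.eps m then cyc (D.next m) m l else cyc m (D.next m) l) = true ∧
    x = .prod (.seg l (D.tau m) h) z.b z.y)

private theorem corner_side {m l : Fin N} {s s' : Bool}
    (h : (if s then cyc (D.next m) m l else cyc m (D.next m) l) = true)
    (h' : (if s' then cyc (D.next m) m l else cyc m (D.next m) l) = true) : s = s' := by
  have h1 := cyc_swap (next_ne (D := D) m) l
  cases s <;> cases s' <;> simp_all

private theorem corner_xor {p q r : Bool} (h : (p ^^ r) = (q ^^ r)) : p = q := by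
  revert h
  cases p <;> cases q <;> cases r <;> simp

/-- The elements of a corner, in direction `S^1` only. -/
theorem mem_corner_false (m : Fin N) (z : SCell) (h : z.a = false) (x : XCell D) :
    x ∈ (XCell.corner m z : List (XCell D)) ↔
      x = .prod (.leg m true (z.x ^^ D.eps m)) z.b z.y ∨
      x = .prod (.leg (D.next m) false !(z.x ^^ D.eps m)) z.b z.y := by
  unfold XCell.corner
  rw [h, if_neg Bool.false_ne_true, List.mem_cons, List.mem_singleton]

/-- The elements of a corner in both directions. -/
theorem mem_corner_true (m : Fin N) (z : SCell) (h : z.a = true) (x : XCell D) :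
    x ∈ (XCell.corner m z : List (XCell D)) ↔
      ∃ l, (if z.x ^^ D.eps m then cyc (D.next m) m l else cyc m (D.next m) l) = true ∧
        x = .prod (.sec l (D.tau m)) z.b z.y := by
  unfold XCell.corner
  rw [h, if_pos rfl, List.mem_map]
  constructor
  · rintro ⟨l, hl, rfl⟩
    exact ⟨l, (List.mem_filter.1 hl).2, rfl⟩
  · rintro ⟨l, hl, rfl⟩
    exact ⟨l, List.mem_filter.2 ⟨List.mem_finRange l, hl⟩, rfl⟩

theorem leg_true (m : Fin N) (s : Bool) : (ECell.leg m true s : ECell D).facets =
    [.pt m true s, if s then .up (D.tau m) else .dn (D.tau m)] := by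
  cases s <;> rfl

theorem leg_false (m : Fin N) (s : Bool) : (ECell.leg (D.next m) false (!s) : ECell D).facets =
    [.pt (D.next m) false (!s), if s then .up (D.tau m) else .dn (D.tau m)] := by
  have h : D.row (D.next m) false = D.tau m := sig_next m
  rw [← h]
  cases s <;> rfl

theorem corner_disj {m m' : Fin N} {z z' : SCell} {x : XCell D}
    (h : x ∈ (XCell.corner m z : List (XCell D))) (h' : x ∈ (XCell.corner m' z' : List (XCell D))) :
    m = m' ∧ z = z' := by
  obtain ⟨a, b, u, y⟩ := z
  obtain ⟨a', b', u', y'⟩ := z'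
  cases a <;> cases a'
  · rw [mem_corner_false _ _ rfl] at h h'
    rcases h with rfl | rfl <;> rcases h' with h' | h' <;>
      simp only [XCell.prod.injEq, ECell.leg.injEq, reduceCtorEq, false_and, and_false,
        true_and] at h'
    · obtain ⟨⟨rfl, h1⟩, rfl, rfl⟩ := h'
      rw [corner_xor h1]
      exact ⟨rfl, rfl⟩
    · obtain ⟨⟨h0, h1⟩, rfl, rfl⟩ := h'
      obtain rfl := next_inj h0
      rw [corner_xor (Bool.not_inj h1)]
      exact ⟨rfl, rfl⟩
  · rw [mem_corner_false _ _ rfl] at h
    rw [mem_corner_true _ _ rfl] at h'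
    obtain ⟨l, _, rfl⟩ := h'
    rcases h with h | h <;>
      simp only [XCell.prod.injEq, reduceCtorEq, false_and] at h
  · rw [mem_corner_true _ _ rfl] at h
    rw [mem_corner_false _ _ rfl] at h'
    obtain ⟨l, _, rfl⟩ := h
    rcases h' with h | h <;>
      simp only [XCell.prod.injEq, reduceCtorEq, false_and] at h
  · rw [mem_corner_true _ _ rfl] at h h'
    obtain ⟨l, hl, rfl⟩ := h
    obtain ⟨l', hl', h'⟩ := h'
    simp only [XCell.prod.injEq, ECell.sec.injEq] at h'
    obtain ⟨⟨rfl, h1⟩, rfl, rfl⟩ := h'
    obtain rfl := tau_inj h1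
    have e : u = u' := corner_xor (corner_side hl hl')
    subst e
    exact ⟨rfl, rfl⟩

theorem mid_disj {m m' : Fin N} {z z' : SCell} {x : XCell D}
    (h : XCell.mid m z x) (h' : XCell.mid m' z' x) : m = m' ∧ z = z' := by
  obtain ⟨a, b, u, y⟩ := z
  obtain ⟨a', b', u', y'⟩ := z'
  unfold XCell.mid at h h'
  rcases h with ⟨h0, rfl⟩ | ⟨h0, l, hl, hl2, rfl⟩ <;>
    rcases h' with ⟨h0', h'⟩ | ⟨h0', l', hl', hl2', h'⟩
  · replace h0 : a = false := h0
    replace h0' : a' = false := h0'
    subst h0 h0'
    rw [XCell.prod.injEq] at h'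
    obtain ⟨h1, h2, h3⟩ := h'
    replace h2 : b = b' := h2
    replace h3 : y = y' := h3
    subst h2 h3
    replace h1 : (if u ^^ D.eps m then ECell.up (D.tau m) else ECell.dn (D.tau m) : ECell D) =
      if u' ^^ D.eps m' then ECell.up (D.tau m') else ECell.dn (D.tau m') := h1
    have h4 : m = m' ∧ (u ^^ D.eps m) = (u' ^^ D.eps m') := by
      revert h1
      generalize (u ^^ D.eps m) = p
      generalize (u' ^^ D.eps m') = q
      cases p <;> cases q <;>
        simp only [Bool.false_eq_true, if_true, if_false, reduceCtorEq, ECell.up.injEq,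
          ECell.dn.injEq, and_true, and_false, imp_false, not_false_eq_true]
      · exact tau_inj
      · exact tau_inj
    obtain ⟨rfl, h5⟩ := h4
    rw [corner_xor h5]
    exact ⟨rfl, rfl⟩
  · exfalso
    rw [XCell.prod.injEq] at h'
    obtain ⟨h1, -⟩ := h'
    split at h1 <;> simp only [reduceCtorEq] at h1
  · exfalso
    rw [XCell.prod.injEq] at h'
    obtain ⟨h1, -⟩ := h'
    split at h1 <;> simp only [reduceCtorEq] at h1
  · replace h0 : a = true := h0
    replace h0' : a' = true := h0'
    subst h0 h0'
    rw [XCell.prod.injEq, ECell.seg.injEq] at h'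
    obtain ⟨⟨h1, h4⟩, h2, h3⟩ := h'
    replace h2 : b = b' := h2
    replace h3 : y = y' := h3
    subst h1 h2 h3
    obtain rfl := tau_inj h4
    have e : u = u' := corner_xor (corner_side hl2 hl2')
    subst e
    exact ⟨rfl, rfl⟩

theorem corner_ne_tube {m m' : Fin N} {z z' : SCell} {w : Option Bool}
    (h : (XCell.tube m' w z' : XCell D) ∈ (XCell.corner m z : List (XCell D))) : False := by
  obtain ⟨a, b, u, y⟩ := z
  unfold XCell.tube at h
  cases a
  · rw [mem_corner_false _ _ rfl] at h
    rcases h with h | h <;> rw [XCell.prod.injEq] at h <;> obtain ⟨h1, -⟩ := h <;>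
      rcases w with _ | e <;> simp only at h1 <;> split at h1 <;> simp only [reduceCtorEq] at h1
  · rw [mem_corner_true _ _ rfl] at h
    obtain ⟨l, -, h⟩ := h
    rw [XCell.prod.injEq] at h
    obtain ⟨h1, -⟩ := h
    rcases w with _ | e <;> simp only at h1 <;> split at h1 <;> simp only [reduceCtorEq] at h1

theorem corner_ne_nd {m m' : Fin N} {z : SCell} {hn : D.node m' = true} {c : NCell (D.par m')}
    (h : (XCell.nd m' hn c : XCell D) ∈ (XCell.corner m z : List (XCell D))) : False := by
  obtain ⟨a, b, u, y⟩ := z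
  cases a
  · rw [mem_corner_false _ _ rfl] at h
    rcases h with h | h <;> simp only [reduceCtorEq] at h
  · rw [mem_corner_true _ _ rfl] at h
    obtain ⟨l, -, h⟩ := h
    simp only [reduceCtorEq] at h

theorem corner_ne_cl {m : Fin N} {z : SCell} {κ : D.Comp} {c : TCell}
    (h : (XCell.cl κ c : XCell D) ∈ (XCell.corner m z : List (XCell D))) : False := by
  obtain ⟨a, b, u, y⟩ := z
  cases a
  · rw [mem_corner_false _ _ rfl] at h
    rcases h with h | h <;> simp only [reduceCtorEq] at h
  · rw [mem_corner_true _ _ rfl] at h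
    obtain ⟨l, -, h⟩ := h
    simp only [reduceCtorEq] at h

theorem mid_ne_tube {m m' : Fin N} {z z' : SCell} {w : Option Bool}
    (h : XCell.mid m z (XCell.tube m' w z' : XCell D)) : False := by
  unfold XCell.mid XCell.tube at h
  rcases h with ⟨-, h⟩ | ⟨-, l, hl, -, h⟩
  · rw [XCell.prod.injEq] at h
    obtain ⟨h1, -⟩ := h
    rcases w with _ | e <;> simp only at h1 <;> split at h1 <;> split at h1 <;>
      simp only [reduceCtorEq] at h1
  · rw [XCell.prod.injEq] at h
    obtain ⟨h1, -⟩ := h
    rcases w with _ | e <;> simp only at h1 <;> split at h1 <;> simp only [reduceCtorEq] at h1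

theorem mid_ne_corner {m m' : Fin N} {z z' : SCell} {x : XCell D}
    (h : XCell.mid m z x) (h' : x ∈ (XCell.corner m' z' : List (XCell D))) : False := by
  obtain ⟨a, b, u, y⟩ := z'
  unfold XCell.mid at h
  cases a
  · rw [mem_corner_false _ _ rfl] at h'
    rcases h with ⟨-, rfl⟩ | ⟨-, l, hl, -, rfl⟩ <;> rcases h' with h | h <;>
      rw [XCell.prod.injEq] at h <;> obtain ⟨h1, -⟩ := h
    · split at h1 <;> simp only [reduceCtorEq] at h1
    · split at h1 <;> simp only [reduceCtorEq] at h1
    · simp only [reduceCtorEq] at h1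
    · simp only [reduceCtorEq] at h1
  · rw [mem_corner_true _ _ rfl] at h'
    obtain ⟨l', -, h'⟩ := h'
    rcases h with ⟨-, rfl⟩ | ⟨-, l, hl, -, rfl⟩ <;> rw [XCell.prod.injEq] at h' <;>
      obtain ⟨h1, -⟩ := h'
    · split at h1 <;> simp only [reduceCtorEq] at h1
    · simp only [reduceCtorEq] at h1

end Pool.MP_f18604_gt.LSN
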