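import Mathlib
import Pool.Agent.Helper7.LSN.Corner
import Pool.Agent.Helper7.LS.Cyc

/-!
# LSN-09: the sectors at the corner

Let `k = tau m = sig n`, `n = next m ≠ m`.  The pages `l` with `cyc m n l` are `m, ..., n - 1` (cyclically), those with `cyc n m l` are `n, ..., m - 1`.
The facets of `sec l k` are `rim l k false ++ rim (rot l) k true`, and `rim l k x` is
`[leg m true false, leg m true true, arc m true x]` for `l = m`, `[leg n false false, leg n false true, arc n false x]` for `l = n`, and `[seg l k _]` otherwise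
(`k = sig l` iff `l = n`, `k = tau l` iff `l = m`).
PROOFS of the four statements, for `s = false` (front, pages `m, ..., n - 1`; `s = true` is the same with `m`, `n` exchanged):
* `sec_leg_true`: `leg m true t` is in `rim l k false` iff `l = m` (in `[m, n)`, `LS.cyc_left`) and in `rim (rot l) k true` iff `rot l = m` (not in `[m, n)`: `LS.cyc_pred_left`).
  For `s = true` the page is the one with `rot l = m` (`LS.rot_surj`, `LS.cyc_pred_right`), and `l = m` is not in `[n, m)` (`LS.cyc_right`).
* `sec_leg_false`: `leg n false t`: `l = n` or `rot l = n`: for `s = false` the page with `rot l = n` (`LS.cyc_pred_right`), for `s = true` the page `n`.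
* `sec_arc_true`: `arc m true x` is in `rim l k false` iff `l = m` and `x = false`, in `rim (rot l) k true` iff `rot l = m` and `x = true`.  So for `s = false` it is a facet only if `x = false`, of `sec m k`; for `s = true`
  only if `x = true`, of `sec l k` with `rot l = m`.
* `sec_arc_false`: `arc n false x`: `rim n k false` (`l = n`, `x = false`), `rim (rot l) k true` (`rot l = n`, `x = true`). For `s = false` the page with `rot l = n`, `x = true`; for `s = true` the page `n`, `x = false`:
  in both cases `x = !s`.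
* `sec_seg`: `seg l' k` (`l' ≠ m, n`) is a facet of `sec l' k` and of `sec l k` with `rot l = l'`, and both pages are on the same side as `l'` (`LS.cyc_rot`).
* `sec_facets`: these are all facets.
-/

set_option autoImplicit false

namespace Pool.MP_f18604_gt.LSN

open Pool.MP_f18604_gt.LS

variable {N : ℕ} {D : Diagram N}

/-- The pages at the corner `m` on the side `s`. -/
def Diagram.pages (D : Diagram N) (m : Fin N) (s : Bool) (l : Fin N) : Prop :=
  (if s then cyc (D.next m) m l else cyc m (D.next m) l) = true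

/-- The edges of a page at the corner. -/
private theorem mem_rim (m l : Fin N) (x : Bool) (q : ECell D) :
    q ∈ (ECell.rim l (D.tau m) x : List (ECell D)) ↔
      (l = D.next m ∧ (q = .leg (D.next m) false false ∨ q = .leg (D.next m) false true ∨
        q = .arc (D.next m) false x)) ∨
      (l = m ∧ (q = .leg m true false ∨ q = .leg m true true ∨ q = .arc m true x)) ∨
      ∃ h, q = .seg l (D.tau m) h := by
  have hn : D.next m ≠ m := next_ne m
  have hs : D.sig (D.next m) = D.tau m := sig_next m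
  unfold ECell.rim
  by_cases h1 : D.tau m = D.sig l
  · have hl : l = D.next m := D.sig.injective (h1.symm.trans hs.symm)
    subst hl
    rw [dif_pos h1]
    constructor
    · intro h
      left
      exact ⟨rfl, by simpa using h⟩
    · rintro (⟨_, h⟩ | ⟨h, _⟩ | ⟨h, _⟩)
      · simpa using h
      · exact absurd h hn
      · exact absurd h1 h.1
  · rw [dif_neg h1]
    by_cases h2 : D.tau m = D.tau l
    · have hl : m = l := tau_inj h2
      subst hl
      rw [dif_pos h2]
      constructor
      · intro h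
        right; left
        exact ⟨rfl, by simpa using h⟩
      · rintro (⟨h, _⟩ | ⟨_, h⟩ | ⟨h, _⟩)
        · exact absurd h.symm hn
        · simpa using h
        · exact absurd h2 h.2
    · rw [dif_neg h2]
      constructor
      · intro h
        right; right
        exact ⟨⟨h1, h2⟩, by simpa using h⟩
      · rintro (⟨h, _⟩ | ⟨h, _⟩ | ⟨_, h⟩)
        · exact absurd (h ▸ hs.symm) h1
        · exact absurd (h ▸ rfl) h2
        · simpa using h

private theorem mem_sec (l k : Fin N) (q : ECell D) : q ∈ (ECell.sec l k : ECell D).facets ↔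
    q ∈ (ECell.rim l k false : List (ECell D)) ∨ q ∈ (ECell.rim (rot l) k true : List (ECell D)) :=
  List.mem_append

private theorem leg_true_iff (m l : Fin N) (t : Bool) :
    (ECell.leg m true t : ECell D) ∈ (ECell.sec l (D.tau m)).facets ↔ l = m ∨ rot l = m := by
  rw [mem_sec, mem_rim, mem_rim]
  cases t <;> simp

private theorem leg_false_iff (m l : Fin N) (t : Bool) :
    (ECell.leg (D.next m) false t : ECell D) ∈ (ECell.sec l (D.tau m)).facets ↔
      l = D.next m ∨ rot l = D.next m := by
  rw [mem_sec, mem_rim, mem_rim]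
  cases t <;> simp

private theorem arc_true_iff (m l : Fin N) (x : Bool) :
    (ECell.arc m true x : ECell D) ∈ (ECell.sec l (D.tau m)).facets ↔
      (l = m ∧ x = false) ∨ (rot l = m ∧ x = true) := by
  rw [mem_sec, mem_rim, mem_rim]
  simp

private theorem arc_false_iff (m l : Fin N) (x : Bool) :
    (ECell.arc (D.next m) false x : ECell D) ∈ (ECell.sec l (D.tau m)).facets ↔
      (l = D.next m ∧ x = false) ∨ (rot l = D.next m ∧ x = true) := by
  rw [mem_sec, mem_rim, mem_rim]
  simp

private theorem seg_iff (m l l' : Fin N) (h : D.tau m ≠ D.sig l' ∧ D.tau m ≠ D.tau l') :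
    (ECell.seg l' (D.tau m) h : ECell D) ∈ (ECell.sec l (D.tau m)).facets ↔
      l = l' ∨ rot l = l' := by
  rw [mem_sec, mem_rim, mem_rim]
  constructor
  · rintro ((⟨_, h | h | h⟩ | ⟨_, h | h | h⟩ | ⟨_, h⟩) | (⟨_, h | h | h⟩ | ⟨_, h | h | h⟩ | ⟨_, h⟩)) <;>
      cases h
    · left; rfl
    · right; rfl
  · rintro (rfl | rfl)
    · left; right; right; exact ⟨h, rfl⟩
    · right; right; right; exact ⟨h, rfl⟩

/-- The page before the column `a` and the page `a`, on the two sides. -/
private theorem pages_false (m l : Fin N) : D.pages m false l ↔ cyc m (D.next m) l = true := by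
  simp [Diagram.pages]

private theorem pages_true (m l : Fin N) : D.pages m true l ↔ cyc (D.next m) m l = true := by
  simp [Diagram.pages]

/-- At the end `true` of column `m`. -/
private theorem end_true (m : Fin N) (s : Bool) : ∃ l0, D.pages m s l0 ∧
    (∀ l, D.pages m s l → (l = m ∨ rot l = m ↔ l = l0)) ∧
    (∀ l, D.pages m s l → ((l = m ↔ s = false ∧ l = l0) ∧ (rot l = m ↔ s = true ∧ l = l0))) := by
  have hn : D.next m ≠ m := next_ne m
  cases s
  · have key : ∀ l, D.pages m false l → ¬ rot l = m := fun l hl h => by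
      rw [pages_false, cyc_pred_left hn.symm h] at hl
      exact Bool.noConfusion hl
    refine ⟨m, (pages_false m m).2 (cyc_left hn.symm), fun l hl => ?_, fun l hl => ⟨?_, ?_⟩⟩
    · exact ⟨fun h => h.resolve_right (key l hl), fun h => Or.inl h⟩
    · simp
    · simp [key l hl]
  · obtain ⟨l0, hl0⟩ := rot_surj m
    have key : ∀ l, D.pages m true l → ¬ l = m := fun l hl h => by
      rw [h, pages_true, cyc_right hn] at hl
      exact Bool.noConfusion hl
    have key2 : ∀ l, rot l = m ↔ l = l0 := fun l =>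
      ⟨fun h => rot_inj (h.trans hl0.symm), fun h => h ▸ hl0⟩
    refine ⟨l0, (pages_true m l0).2 (cyc_pred_right hn hl0), fun l hl => ?_, fun l hl => ⟨?_, ?_⟩⟩
    · exact ⟨fun h => (key2 l).1 (h.resolve_left (key l hl)), fun h => Or.inr ((key2 l).2 h)⟩
    · simp [key l hl]
    · simp [key2 l]

/-- At the end `false` of the next column. -/
private theorem end_false (m : Fin N) (s : Bool) : ∃ l0, D.pages m s l0 ∧
    (∀ l, D.pages m s l → (l = D.next m ∨ rot l = D.next m ↔ l = l0)) ∧
    (∀ l, D.pages m s l →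
      ((l = D.next m ↔ s = true ∧ l = l0) ∧ (rot l = D.next m ↔ s = false ∧ l = l0))) := by
  have hn : D.next m ≠ m := next_ne m
  cases s
  · obtain ⟨l0, hl0⟩ := rot_surj (D.next m)
    have key : ∀ l, D.pages m false l → ¬ l = D.next m := fun l hl h => by
      rw [h, pages_false, cyc_right hn.symm] at hl
      exact Bool.noConfusion hl
    have key2 : ∀ l, rot l = D.next m ↔ l = l0 := fun l =>
      ⟨fun h => rot_inj (h.trans hl0.symm), fun h => h ▸ hl0⟩
    refine ⟨l0, (pages_false m l0).2 (cyc_pred_right hn.symm hl0), fun l hl => ?_,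
      fun l hl => ⟨?_, ?_⟩⟩
    · exact ⟨fun h => (key2 l).1 (h.resolve_left (key l hl)), fun h => Or.inr ((key2 l).2 h)⟩
    · simp [key l hl]
    · simp [key2 l]
  · have key : ∀ l, D.pages m true l → ¬ rot l = D.next m := fun l hl h => by
      rw [pages_true, cyc_pred_left hn h] at hl
      exact Bool.noConfusion hl
    refine ⟨D.next m, (pages_true m _).2 (cyc_left hn), fun l hl => ?_, fun l hl => ⟨?_, ?_⟩⟩
    · exact ⟨fun h => h.resolve_right (key l hl), fun h => Or.inl h⟩
    · simp
    · simp [key l hl]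

/-- Away from the ends both pages are on the same side. -/
private theorem pages_rot {m l : Fin N} (s : Bool) (h1 : rot l ≠ m) (h2 : rot l ≠ D.next m) :
    D.pages m s (rot l) ↔ D.pages m s l := by
  have hn : D.next m ≠ m := next_ne m
  cases s
  · rw [pages_false, pages_false, cyc_rot hn.symm h1 h2]
  · rw [pages_true, pages_true, cyc_rot hn h2 h1]

theorem sec_leg_true (m : Fin N) (s t : Bool) : ∃ l0, D.pages m s l0 ∧
    ∀ l, D.pages m s l → ((ECell.leg m true t : ECell D) ∈ (ECell.sec l (D.tau m)).facets ↔ l = l0) := by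
  obtain ⟨l0, h0, h1, _⟩ := end_true (D := D) m s
  exact ⟨l0, h0, fun l hl => (leg_true_iff m l t).trans (h1 l hl)⟩

theorem sec_leg_false (m : Fin N) (s t : Bool) : ∃ l0, D.pages m s l0 ∧
    ∀ l, D.pages m s l →
      ((ECell.leg (D.next m) false t : ECell D) ∈ (ECell.sec l (D.tau m)).facets ↔ l = l0) := by
  obtain ⟨l0, h0, h1, _⟩ := end_false (D := D) m s
  exact ⟨l0, h0, fun l hl => (leg_false_iff m l t).trans (h1 l hl)⟩

theorem sec_arc_true (m : Fin N) (s : Bool) : ∃ l0, D.pages m s l0 ∧
    ∀ l x, D.pages m s l →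
      ((ECell.arc m true x : ECell D) ∈ (ECell.sec l (D.tau m)).facets ↔ x = s ∧ l = l0) := by
  obtain ⟨l0, h0, _, h2⟩ := end_true (D := D) m s
  refine ⟨l0, h0, fun l x hl => ?_⟩
  rw [arc_true_iff, (h2 l hl).1, (h2 l hl).2]
  cases s <;> cases x <;> simp

theorem sec_arc_false (m : Fin N) (s : Bool) : ∃ l0, D.pages m s l0 ∧
    ∀ l x, D.pages m s l →
      ((ECell.arc (D.next m) false x : ECell D) ∈ (ECell.sec l (D.tau m)).facets ↔
        x = (!s) ∧ l = l0) := by
  obtain ⟨l0, h0, _, h2⟩ := end_false (D := D) m s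
  refine ⟨l0, h0, fun l x hl => ?_⟩
  rw [arc_false_iff, (h2 l hl).1, (h2 l hl).2]
  cases s <;> cases x <;> simp

theorem sec_seg (m : Fin N) (s : Bool) (l' : Fin N) (h : D.tau m ≠ D.sig l' ∧ D.tau m ≠ D.tau l')
    (hl : D.pages m s l') : ∃ l1, l1 ≠ l' ∧ D.pages m s l1 ∧
    ∀ l, (ECell.seg l' (D.tau m) h : ECell D) ∈ (ECell.sec l (D.tau m)).facets ↔ l = l' ∨ l = l1 := by
  obtain ⟨l1, rfl⟩ := rot_surj l'
  have hs : D.sig (D.next m) = D.tau m := sig_next m
  have h1 : rot l1 ≠ m := fun h' => h.2 (h' ▸ rfl)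
  have h2 : rot l1 ≠ D.next m := fun h' => h.1 (h' ▸ hs.symm)
  refine ⟨l1, (rot_ne' D l1).symm, (pages_rot s h1 h2).1 hl, fun l => ?_⟩
  rw [seg_iff]
  exact or_congr Iff.rfl ⟨fun h' => rot_inj h', fun h' => h' ▸ rfl⟩

theorem sec_facets (m : Fin N) (s : Bool) (l : Fin N) (hl : D.pages m s l) (q : ECell D)
    (hq : q ∈ (ECell.sec l (D.tau m)).facets) :
    (∃ t, q = .leg m true t) ∨ (∃ t, q = .leg (D.next m) false t) ∨ q = .arc m true s ∨
      q = .arc (D.next m) false (!s) ∨
      ∃ l' h, D.pages m s l' ∧ q = .seg l' (D.tau m) h := by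
  have hs : D.sig (D.next m) = D.tau m := sig_next m
  obtain ⟨l0, _, _, ht⟩ := end_true (D := D) m s
  obtain ⟨l1, _, _, hf⟩ := end_false (D := D) m s
  have hq' := hq
  rw [mem_sec, mem_rim, mem_rim] at hq'
  rcases hq' with (⟨h0, h | h | h⟩ | ⟨h0, h | h | h⟩ | ⟨h0, h⟩) |
    (⟨h0, h | h | h⟩ | ⟨h0, h | h | h⟩ | ⟨h0, h⟩)
  · exact Or.inr (Or.inl ⟨_, h⟩)
  · exact Or.inr (Or.inl ⟨_, h⟩)
  · have h3 := ((hf l hl).1.1 h0).1
    subst h3
    exact Or.inr (Or.inr (Or.inr (Or.inl h)))
  · exact Or.inl ⟨_, h⟩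
  · exact Or.inl ⟨_, h⟩
  · have h3 := ((ht l hl).1.1 h0).1
    subst h3
    exact Or.inr (Or.inr (Or.inl h))
  · exact Or.inr (Or.inr (Or.inr (Or.inr ⟨l, h0, hl, h⟩)))
  · exact Or.inr (Or.inl ⟨_, h⟩)
  · exact Or.inr (Or.inl ⟨_, h⟩)
  · have h3 := ((hf l hl).2.1 h0).1
    subst h3
    exact Or.inr (Or.inr (Or.inr (Or.inl h)))
  · exact Or.inl ⟨_, h⟩
  · exact Or.inl ⟨_, h⟩
  · have h3 := ((ht l hl).2.1 h0).1
    subst h3
    exact Or.inr (Or.inr (Or.inl h))
  · have h1 : rot l ≠ m := fun h' => h0.2 (h' ▸ rfl)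
    have h2 : rot l ≠ D.next m := fun h' => h0.1 (h' ▸ hs.symm)
    exact Or.inr (Or.inr (Or.inr (Or.inr ⟨rot l, h0, (pages_rot s h1 h2).2 hl, h⟩)))

end Pool.MP_f18604_gt.LSN
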