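import Mathlib
import Pool.Agent.Helper7.LSN.Rims

/-!
# LSN-10: the facets of the cells of a corner

PROOFS, with `s = z.x ^^ eps m`, `n = next m`, `k = tau m`; cases on `z.a` and use `mem_corner_false`, `mem_corner_true`, `leg_true`, `leg_false`, and the lemmas of
`Rims.lean`.
`corner_facets`: let `b` be in the corner and `x` a facet of `b`.
* `z.a = false`: `b = prod (leg ..) z.b z.y`. If `x` is `prod (leg ..) false y'` (`z.b = true`, `y' ∈ {z.y, z.y + 1}`) it is in `corner m ⟨false, false, z.x, y'⟩`.  If `x = prod (pt m true s) z.b z.y` it is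
  `tube m (some true) z`; if `x = prod (pt n false (!s)) z.b z.y` it is `tube n (some false) z`, as `z.x ^^ eps n = !s`; otherwise `x` is `up k` or `dn k`: `mid`.
* `z.a = true`: `b = prod (sec l k) z.b z.y` with `pages m s l`.  If `x = prod (sec l k) false y'` it is in `corner m ⟨true, false, z.x, y'⟩`. Otherwise `x = prod q z.b z.y` with `q` a facet of `sec l k`
  (`sec_facets`): `leg m true t` is in `corner m ⟨false, z.b, t ^^ eps m, z.y⟩` (a facet of `z`: `⟨false, z.b, x', z.y⟩` is a facet for both values of `x'`); `leg n false t` is in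
  `corner m ⟨false, z.b, !t ^^ eps m, z.y⟩`; `arc m true s` is `tube m (some true) z`; `arc n false (!s)` is `tube n (some false) z`; `seg`: `mid`.
`corner_one`: let `z'` be a facet of `z` and `x ∈ corner m z'`.  If `z'` is `z` with `b` replaced by `false` (`z.b = true`, `z'.a = z.a`): `x = prod q false z'.y` and the only `b` is `prod q true z.y`: it has the facets
`prod q false z.y`, `prod q false (z.y + 1)`; the other facets are `prod _ true _`.  If `z'.a = false`, `z.a = true`: `x = prod (leg ..) z.b z.y`, `b = prod (sec l k) z.b z.y`; now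
`sec_leg_true`, `sec_leg_false` (if `z.b = true` the facets `prod (sec l k) false _` of `b` are not legs).  (`z.a = true` and `z'.a = true` is only possible in the first case.)
`corner_tube_true`, `corner_tube_false`: `z.a = false`: the leg; `z.a = true`: `sec_arc_true`, `sec_arc_false`.
`corner_mid`: `z.a = false`: both legs have the facet `up k` / `dn k`; `z.a = true`: `sec_seg`.
-/

set_option autoImplicit false

namespace Pool.MP_f18604_gt.LSN

open Pool.MP_f18604_gt.LS

variable {N : ℕ} {D : Diagram N}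

private theorem mem_prod {q : ECell D} {b : Bool} {y : Fin 4} {x : XCell D} :
    x ∈ (XCell.prod q b y).facets ↔
      (b = true ∧ (x = .prod q false y ∨ x = .prod q false (y + 1))) ∨
        ∃ r ∈ q.facets, x = .prod r b y := by
  cases b <;> simp [XCell.facets, eq_comm, or_assoc]

private theorem mem_prod_false {q q' : ECell D} {y y' : Fin 4} (hy : y' = y ∨ y' = y + 1) :
    (XCell.prod q false y' : XCell D) ∈ (XCell.prod q' true y).facets ↔ q = q' := by
  rw [mem_prod]
  constructor
  · rintro (⟨_, h | h⟩ | ⟨r, _, h⟩)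
    · injection h
    · injection h
    · injection h with _ h2 _
      exact absurd h2 (by decide)
  · rintro rfl
    rcases hy with rfl | rfl
    · exact Or.inl ⟨rfl, Or.inl rfl⟩
    · exact Or.inl ⟨rfl, Or.inr rfl⟩

private theorem mem_prod_same {q q' : ECell D} {b : Bool} {y : Fin 4} (hq : q ≠ q') :
    (XCell.prod q b y : XCell D) ∈ (XCell.prod q' b y).facets ↔ q ∈ q'.facets := by
  rw [mem_prod]
  constructor
  · rintro (⟨_, h | h⟩ | ⟨r, hr, h⟩)
    · injection h with h1 _ _
      exact absurd h1 hq
    · injection h with h1 _ _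
      exact absurd h1 hq
    · injection h with h1 _ _
      rw [h1]
      exact hr
  · intro h
    exact Or.inr ⟨q, h, rfl⟩

private theorem xe (x e : Bool) : (x ^^ !e) = !(x ^^ e) := by
  cases x <;> cases e <;> rfl

private theorem xx (x e : Bool) : ((x ^^ e) ^^ e) = x := by
  cases x <;> cases e <;> rfl

private theorem fac_b {z : SCell} (h : z.b = true) {y' : Fin 4} (hy : y' = z.y ∨ y' = z.y + 1) :
    (⟨z.a, false, z.x, y'⟩ : SCell) ∈ z.facets := by
  unfold SCell.facets
  rw [if_pos h]
  rcases hy with rfl | rfl <;> simp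

private theorem fac_a {z : SCell} (h : z.a = true) (t : Bool) :
    (⟨false, z.b, t, z.y⟩ : SCell) ∈ z.facets := by
  unfold SCell.facets
  rw [if_pos h]
  have : t = z.x ∨ t = !z.x := by cases t <;> cases z.x <;> simp
  rcases this with rfl | rfl <;> simp

private theorem fac_cases {z z' : SCell} (h : z' ∈ z.facets) :
    (z.a = true ∧ ∃ t, z' = ⟨false, z.b, t, z.y⟩) ∨
      (z.b = true ∧ ∃ y', (y' = z.y ∨ y' = z.y + 1) ∧ z' = ⟨z.a, false, z.x, y'⟩) := by
  unfold SCell.facets at h
  rw [List.mem_append] at h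
  rcases h with h | h
  · by_cases ha : z.a = true
    · rw [if_pos ha] at h
      rcases List.mem_cons.1 h with h | h
      · exact Or.inl ⟨ha, _, h⟩
      · rcases List.mem_cons.1 h with h | h
        · exact Or.inl ⟨ha, _, h⟩
        · exact absurd h List.not_mem_nil
    · rw [if_neg ha] at h
      exact absurd h List.not_mem_nil
  · by_cases hb : z.b = true
    · rw [if_pos hb] at h
      rcases List.mem_cons.1 h with h | h
      · exact Or.inr ⟨hb, _, Or.inl rfl, h⟩
      · rcases List.mem_cons.1 h with h | h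
        · exact Or.inr ⟨hb, _, Or.inr rfl, h⟩
        · exact absurd h List.not_mem_nil
    · rw [if_neg hb] at h
      exact absurd h List.not_mem_nil

private theorem tube_t_f (m : Fin N) {z : SCell} (h : z.a = false) :
    (XCell.tube m (some true) z : XCell D) = .prod (.pt m true (z.x ^^ D.eps m)) z.b z.y := by
  unfold XCell.tube
  simp [h]

private theorem tube_t_t (m : Fin N) {z : SCell} (h : z.a = true) :
    (XCell.tube m (some true) z : XCell D) = .prod (.arc m true (z.x ^^ D.eps m)) z.b z.y := by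
  unfold XCell.tube
  simp [h]

private theorem tube_f_f (m : Fin N) {z : SCell} (h : z.a = false) :
    (XCell.tube (D.next m) (some false) z : XCell D) =
      .prod (.pt (D.next m) false !(z.x ^^ D.eps m)) z.b z.y := by
  unfold XCell.tube
  simp [h, eps_next]

private theorem tube_f_t (m : Fin N) {z : SCell} (h : z.a = true) :
    (XCell.tube (D.next m) (some false) z : XCell D) =
      .prod (.arc (D.next m) false !(z.x ^^ D.eps m)) z.b z.y := by
  unfold XCell.tube
  simp [h, eps_next]

private theorem leg_t_mem (m : Fin N) (s : Bool) (r : ECell D) :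
    r ∈ (ECell.leg m true s : ECell D).facets ↔
      r = .pt m true s ∨ r = if s then .up (D.tau m) else .dn (D.tau m) := by
  rw [leg_true]
  simp

private theorem leg_f_mem (m : Fin N) (s : Bool) (r : ECell D) :
    r ∈ (ECell.leg (D.next m) false (!s) : ECell D).facets ↔
      r = .pt (D.next m) false (!s) ∨ r = if s then .up (D.tau m) else .dn (D.tau m) := by
  rw [leg_false]
  simp

private theorem mem_corner_pages (m : Fin N) (z : SCell) (h : z.a = true) (x : XCell D) :
    x ∈ (XCell.corner m z : List (XCell D)) ↔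
      ∃ l, D.pages m (z.x ^^ D.eps m) l ∧ x = .prod (.sec l (D.tau m)) z.b z.y :=
  mem_corner_true m z h x

private theorem sec_inj {l l' k : Fin N} {b : Bool} {y : Fin 4}
    (h : (XCell.prod (.sec l k) b y : XCell D) = .prod (.sec l' k) b y) : l = l' := by
  injection h with h1 _ _
  injection h1

theorem corner_facets {m : Fin N} {z : SCell} {b x : XCell D}
    (hb : b ∈ (XCell.corner m z : List (XCell D))) (hx : x ∈ b.facets) :
    (∃ z' ∈ z.facets, x ∈ (XCell.corner m z' : List (XCell D))) ∨ x = XCell.tube m (some true) z ∨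
      x = XCell.tube (D.next m) (some false) z ∨ XCell.mid m z x := by
  cases ha : z.a with
  | false =>
    rw [mem_corner_false m z ha] at hb
    rcases hb with rfl | rfl
    · rw [mem_prod] at hx
      rcases hx with ⟨hzb, hx⟩ | ⟨r, hr, rfl⟩
      · obtain ⟨y', hy, rfl⟩ : ∃ y', (y' = z.y ∨ y' = z.y + 1) ∧
            x = .prod (.leg m true (z.x ^^ D.eps m)) false y' := by
          rcases hx with hx | hx
          · exact ⟨_, Or.inl rfl, hx⟩
          · exact ⟨_, Or.inr rfl, hx⟩
        exact Or.inl ⟨_, fac_b hzb hy,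
          (mem_corner_false m (⟨z.a, false, z.x, y'⟩ : SCell) ha _).2 (Or.inl rfl)⟩
      · rw [leg_t_mem] at hr
        rcases hr with rfl | rfl
        · exact Or.inr (Or.inl (tube_t_f m ha).symm)
        · exact Or.inr (Or.inr (Or.inr (Or.inl ⟨ha, rfl⟩)))
    · rw [mem_prod] at hx
      rcases hx with ⟨hzb, hx⟩ | ⟨r, hr, rfl⟩
      · obtain ⟨y', hy, rfl⟩ : ∃ y', (y' = z.y ∨ y' = z.y + 1) ∧
            x = .prod (.leg (D.next m) false !(z.x ^^ D.eps m)) false y' := by
          rcases hx with hx | hx
          · exact ⟨_, Or.inl rfl, hx⟩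
          · exact ⟨_, Or.inr rfl, hx⟩
        exact Or.inl ⟨_, fac_b hzb hy,
          (mem_corner_false m (⟨z.a, false, z.x, y'⟩ : SCell) ha _).2 (Or.inr rfl)⟩
      · rw [leg_f_mem] at hr
        rcases hr with rfl | rfl
        · exact Or.inr (Or.inr (Or.inl (tube_f_f m ha).symm))
        · exact Or.inr (Or.inr (Or.inr (Or.inl ⟨ha, rfl⟩)))
  | true =>
    rw [mem_corner_pages m z ha] at hb
    obtain ⟨l, hl, rfl⟩ := hb
    rw [mem_prod] at hx
    rcases hx with ⟨hzb, hx⟩ | ⟨r, hr, rfl⟩
    · obtain ⟨y', hy, rfl⟩ : ∃ y', (y' = z.y ∨ y' = z.y + 1) ∧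
          x = .prod (.sec l (D.tau m)) false y' := by
        rcases hx with hx | hx
        · exact ⟨_, Or.inl rfl, hx⟩
        · exact ⟨_, Or.inr rfl, hx⟩
      exact Or.inl ⟨_, fac_b hzb hy,
        (mem_corner_pages m (⟨z.a, false, z.x, y'⟩ : SCell) ha _).2 ⟨l, hl, rfl⟩⟩
    · rcases sec_facets m _ l hl r hr with ⟨t, rfl⟩ | ⟨t, rfl⟩ | rfl | rfl | ⟨l', h', hl', rfl⟩
      · refine Or.inl ⟨_, fac_a ha (t ^^ D.eps m), ?_⟩
        rw [mem_corner_false _ _ rfl]
        left
        show _ = XCell.prod (.leg m true ((t ^^ D.eps m) ^^ D.eps m)) z.b z.y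
        rw [xx]
      · refine Or.inl ⟨_, fac_a ha ((!t) ^^ D.eps m), ?_⟩
        rw [mem_corner_false _ _ rfl]
        right
        show _ = XCell.prod (.leg (D.next m) false !(((!t) ^^ D.eps m) ^^ D.eps m)) z.b z.y
        rw [xx, Bool.not_not]
      · exact Or.inr (Or.inl (tube_t_t m ha).symm)
      · exact Or.inr (Or.inr (Or.inl (tube_f_t m ha).symm))
      · exact Or.inr (Or.inr (Or.inr (Or.inr ⟨ha, l', h', hl', rfl⟩)))

theorem corner_one {m : Fin N} {z z' : SCell} {x : XCell D} (hz : z' ∈ z.facets)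
    (hx : x ∈ (XCell.corner m z' : List (XCell D))) :
    ∃ b0 ∈ (XCell.corner m z : List (XCell D)), ∀ b ∈ (XCell.corner m z : List (XCell D)),
      x ∈ b.facets ↔ b = b0 := by
  rcases fac_cases hz with ⟨ha, t, rfl⟩ | ⟨hzb, y', hy, rfl⟩
  · rw [mem_corner_false _ _ rfl] at hx
    rcases hx with rfl | rfl
    · obtain ⟨l0, h0, h1⟩ := sec_leg_true (D := D) m (z.x ^^ D.eps m) (t ^^ D.eps m)
      refine ⟨.prod (.sec l0 (D.tau m)) z.b z.y, (mem_corner_pages m z ha _).2 ⟨l0, h0, rfl⟩,
        fun b hb => ?_⟩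
      obtain ⟨l, hl, rfl⟩ := (mem_corner_pages m z ha _).1 hb
      show XCell.prod (.leg m true (t ^^ D.eps m)) z.b z.y ∈ _ ↔ _
      rw [mem_prod_same (by intro h; cases h), h1 l hl]
      exact ⟨fun h => by rw [h], fun h => sec_inj h⟩
    · obtain ⟨l0, h0, h1⟩ := sec_leg_false (D := D) m (z.x ^^ D.eps m) (!(t ^^ D.eps m))
      refine ⟨.prod (.sec l0 (D.tau m)) z.b z.y, (mem_corner_pages m z ha _).2 ⟨l0, h0, rfl⟩,
        fun b hb => ?_⟩
      obtain ⟨l, hl, rfl⟩ := (mem_corner_pages m z ha _).1 hb
      show XCell.prod (.leg (D.next m) false !(t ^^ D.eps m)) z.b z.y ∈ _ ↔ _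
      rw [mem_prod_same (by intro h; cases h), h1 l hl]
      exact ⟨fun h => by rw [h], fun h => sec_inj h⟩
  · -- the cell `x` is `prod q false y'`
    have key : ∃ q : ECell D, x = .prod q false y' ∧
        XCell.prod q true z.y ∈ (XCell.corner m z : List (XCell D)) := by
      cases ha : z.a with
      | false =>
        rcases (mem_corner_false m (⟨z.a, false, z.x, y'⟩ : SCell) ha x).1 hx with rfl | rfl
        · exact ⟨_, rfl, (mem_corner_false m z ha _).2 (Or.inl (by rw [hzb]))⟩
        · exact ⟨_, rfl, (mem_corner_false m z ha _).2 (Or.inr (by rw [hzb]))⟩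
      | true =>
        obtain ⟨l, hl, rfl⟩ := (mem_corner_pages m (⟨z.a, false, z.x, y'⟩ : SCell) ha x).1 hx
        exact ⟨_, rfl, (mem_corner_pages m z ha _).2 ⟨l, hl, by rw [hzb]⟩⟩
    obtain ⟨q, rfl, hq⟩ := key
    refine ⟨_, hq, fun b hb => ?_⟩
    obtain ⟨q', rfl⟩ : ∃ q' : ECell D, b = .prod q' true z.y := by
      cases ha : z.a with
      | false =>
        rcases (mem_corner_false m z ha _).1 hb with rfl | rfl
        · exact ⟨_, by rw [hzb]⟩
        · exact ⟨_, by rw [hzb]⟩
      | true =>
        obtain ⟨l, _, rfl⟩ := (mem_corner_pages m z ha _).1 hb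
        exact ⟨_, by rw [hzb]⟩
    rw [mem_prod_false hy]
    constructor
    · rintro rfl
      rfl
    · intro h
      injection h with h1 _ _
      exact h1.symm

theorem corner_tube_true (m : Fin N) (z : SCell) :
    ∃ b0 ∈ (XCell.corner m z : List (XCell D)), ∀ b ∈ (XCell.corner m z : List (XCell D)),
      (XCell.tube m (some true) z : XCell D) ∈ b.facets ↔ b = b0 := by
  cases ha : z.a with
  | false =>
    refine ⟨_, (mem_corner_false m z ha _).2 (Or.inl rfl), fun b hb => ?_⟩
    rw [tube_t_f m ha]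
    rcases (mem_corner_false m z ha _).1 hb with rfl | rfl
    · rw [mem_prod_same (by intro h; cases h), leg_t_mem]
      exact ⟨fun _ => rfl, fun _ => Or.inl rfl⟩
    · rw [mem_prod_same (by intro h; cases h), leg_f_mem]
      constructor
      · rintro (h | h)
        · injection h with _ h2 _
          exact absurd h2 (by decide)
        · split_ifs at h
      · intro h
        injection h with h1 _ _
        injection h1 with _ h2 _
        exact absurd h2 (by decide)
  | true =>
    obtain ⟨l0, h0, h1⟩ := sec_arc_true (D := D) m (z.x ^^ D.eps m)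
    refine ⟨.prod (.sec l0 (D.tau m)) z.b z.y, (mem_corner_pages m z ha _).2 ⟨l0, h0, rfl⟩,
      fun b hb => ?_⟩
    obtain ⟨l, hl, rfl⟩ := (mem_corner_pages m z ha _).1 hb
    rw [tube_t_t m ha, mem_prod_same (by intro h; cases h), h1 l _ hl]
    exact ⟨fun h => by rw [h.2], fun h => ⟨rfl, sec_inj h⟩⟩

theorem corner_tube_false (m : Fin N) (z : SCell) :
    ∃ b0 ∈ (XCell.corner m z : List (XCell D)), ∀ b ∈ (XCell.corner m z : List (XCell D)),
      (XCell.tube (D.next m) (some false) z : XCell D) ∈ b.facets ↔ b = b0 := by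
  cases ha : z.a with
  | false =>
    refine ⟨_, (mem_corner_false m z ha _).2 (Or.inr rfl), fun b hb => ?_⟩
    rw [tube_f_f m ha]
    rcases (mem_corner_false m z ha _).1 hb with rfl | rfl
    · rw [mem_prod_same (by intro h; cases h), leg_t_mem]
      constructor
      · rintro (h | h)
        · injection h with _ h2 _
          exact absurd h2 (by decide)
        · split_ifs at h
      · intro h
        injection h with h1 _ _
        injection h1 with _ h2 _
        exact absurd h2 (by decide)
    · rw [mem_prod_same (by intro h; cases h), leg_f_mem]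
      exact ⟨fun _ => rfl, fun _ => Or.inl rfl⟩
  | true =>
    obtain ⟨l0, h0, h1⟩ := sec_arc_false (D := D) m (z.x ^^ D.eps m)
    refine ⟨.prod (.sec l0 (D.tau m)) z.b z.y, (mem_corner_pages m z ha _).2 ⟨l0, h0, rfl⟩,
      fun b hb => ?_⟩
    obtain ⟨l, hl, rfl⟩ := (mem_corner_pages m z ha _).1 hb
    rw [tube_f_t m ha, mem_prod_same (by intro h; cases h), h1 l _ hl]
    exact ⟨fun h => by rw [h.2], fun h => ⟨rfl, sec_inj h⟩⟩

theorem corner_mid {m : Fin N} {z : SCell} {x : XCell D} (h : XCell.mid m z x) :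
    Two fun b => b ∈ (XCell.corner m z : List (XCell D)) ∧ x ∈ b.facets := by
  rcases h with ⟨ha, rfl⟩ | ⟨ha, l', h', hl', rfl⟩
  · refine ⟨.prod (.leg m true (z.x ^^ D.eps m)) z.b z.y,
      .prod (.leg (D.next m) false !(z.x ^^ D.eps m)) z.b z.y, ?_, fun t => ?_⟩
    · intro h
      injection h with h1 _ _
      injection h1 with _ h2 _
      exact absurd h2 (by decide)
    · beta_reduce
      rw [mem_corner_false m z ha]
      constructor
      · exact fun h => h.1
      · rintro (rfl | rfl)
        · refine ⟨Or.inl rfl, ?_⟩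
          rw [mem_prod]
          exact Or.inr ⟨_, (leg_t_mem m _ _).2 (Or.inr rfl), rfl⟩
        · refine ⟨Or.inr rfl, ?_⟩
          rw [mem_prod]
          exact Or.inr ⟨_, (leg_f_mem m _ _).2 (Or.inr rfl), rfl⟩
  · obtain ⟨l1, hne, hl1, h1⟩ := sec_seg (D := D) m (z.x ^^ D.eps m) l' h' hl'
    refine ⟨.prod (.sec l' (D.tau m)) z.b z.y, .prod (.sec l1 (D.tau m)) z.b z.y,
      fun h => hne (sec_inj h).symm, fun t => ?_⟩
    beta_reduce
    rw [mem_corner_pages m z ha]
    constructor
    · rintro ⟨⟨l, hl, rfl⟩, hx⟩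
      rw [mem_prod_same (by intro h; cases h), h1 l] at hx
      rcases hx with rfl | rfl
      · exact Or.inl rfl
      · exact Or.inr rfl
    · rintro (rfl | rfl)
      · refine ⟨⟨l', hl', rfl⟩, ?_⟩
        rw [mem_prod_same (by intro h; cases h), h1]
        exact Or.inl rfl
      · refine ⟨⟨l1, hl1, rfl⟩, ?_⟩
        rw [mem_prod_same (by intro h; cases h), h1]
        exact Or.inr rfl

end Pool.MP_f18604_gt.LSN
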