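import Mathlib
import Pool.Agent.Helper7.LSN.ClMem
import Pool.Agent.Helper7.LSN.Corner2

/-!
# LSN-11: diamonds below a closing cell, easy types

Let `b` be a facet of `cl κ c` and `x` a facet of `b`.  By `mem_cl`, `mem_layer`: `b = cl κ d` (`d ∈ c.facets`), `b = nd m h (inn (fr m c))` (`m ∈ κ`), `b = tube m none z` (`m ∈ κ` not a node,
`z ∈ c.real (st m)`), or `b ∈ corner m z` (`m ∈ κ`, `z ∈ c.real (st (next m))`).  The facets of these: `mem_cl` + `mem_layer`, `mem_inn`, `mem_tube`, `corner_facets`.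

PROOFS.
`cl_dia_cl` (`x = cl κ' d'`): only the cells `b = cl κ d` have a facet `cl κ' d'` (the facets of `nd m h (inn _)`, of `tube m none z` and of corner cells are `tube`s, `nd`s, `corner`s and `mid`s, which are
not of the form `cl`: `corner_ne_cl`, `tube` and `mid` are `prod`s), and then `κ' = κ`, `d' ∈ d.facets`; so the two `b` are given by `TCell.dia c d'`.
`cl_dia_nd` (`x = nd m h e`): `x` is a facet of `cl κ d` iff `m ∈ κ` and `e = inn (fr m d)` (`mem_cl`, `mem_layer`), and of the cell `nd m h (inn (fr m c))` iff `e = inn (fr m d)` for a facet `d` of `c` (`mem_inn`); it is no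
facet of a `tube` or of a corner cell.  So `m ∈ κ` and `e = inn (fr m d)`, `d ∈ c.facets`, with a unique `d` (`fr_inj`), and the two cells are `cl κ d` and `nd m h (inn (fr m c))`.
-/

set_option autoImplicit false

namespace Pool.MP_f18604_gt.LSN

open Pool.MP_f18604_gt.LS

variable {N : ℕ} {D : Diagram N}

private theorem cl_ne_tube {κ : D.Comp} {c : TCell} {m : Fin N} {w : Option Bool} {z : SCell}
    (h : (XCell.cl κ c : XCell D) = XCell.tube m w z) : False := by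
  unfold XCell.tube at h
  cases h

private theorem nd_ne_tube {m' : Fin N} {hn : D.node m' = true} {e : NCell (D.par m')} {m : Fin N}
    {w : Option Bool} {z : SCell}
    (h : (XCell.nd m' hn e : XCell D) = XCell.tube m w z) : False := by
  unfold XCell.tube at h
  cases h

private theorem cl_ne_mid {κ : D.Comp} {c : TCell} {m : Fin N} {z : SCell}
    (h : XCell.mid m z (XCell.cl κ c : XCell D)) : False := by
  rcases h with ⟨_, h⟩ | ⟨_, l, hl, _, h⟩
  · cases h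
  · cases h

private theorem nd_ne_mid {m' : Fin N} {hn : D.node m' = true} {e : NCell (D.par m')} {m : Fin N}
    {z : SCell} (h : XCell.mid m z (XCell.nd m' hn e : XCell D)) : False := by
  rcases h with ⟨_, h⟩ | ⟨_, l, hl, _, h⟩
  · cases h
  · cases h

private theorem cl_layer {κ : D.Comp} {c d : TCell} {m : Fin N}
    (h : (XCell.cl κ d : XCell D) ∈ (XCell.layer m c : List (XCell D))) : False := by
  rcases (mem_layer m c _).1 h with ⟨_, h1⟩ | ⟨_, z, _, h1⟩ | ⟨z, _, h1⟩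
  · cases h1
  · exact cl_ne_tube h1
  · exact corner_ne_cl h1

private theorem cl_mem_cl {κ κ' : D.Comp} {d d' : TCell} :
    (XCell.cl κ' d' : XCell D) ∈ (XCell.cl κ d).facets ↔ κ' = κ ∧ d' ∈ d.facets := by
  rw [mem_cl]
  constructor
  · rintro (⟨d'', hd, h⟩ | ⟨m, _, h⟩)
    · cases h
      exact ⟨rfl, hd⟩
    · exact (cl_layer h).elim
  · rintro ⟨rfl, hd⟩
    exact Or.inl ⟨d', hd, rfl⟩

/-- Below a cell of a layer there is no closing cell. -/
private theorem cl_below_layer {κ : D.Comp} {c d : TCell} {m : Fin N} {b : XCell D}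
    (hb : b ∈ (XCell.layer m c : List (XCell D))) (h : (XCell.cl κ d : XCell D) ∈ b.facets) :
    False := by
  rcases (mem_layer m c _).1 hb with ⟨hn, rfl⟩ | ⟨_, z, _, rfl⟩ | ⟨z, _, h1⟩
  · rcases (mem_inn m hn c _).1 h with ⟨z, _, h2⟩ | ⟨z, _, h2⟩ | ⟨d', _, h2⟩
    · exact cl_ne_tube h2
    · exact cl_ne_tube h2
    · cases h2
  · rcases (mem_tube m none z _).1 h with ⟨_, e, h2⟩ | ⟨z', _, h2⟩
    · exact cl_ne_tube h2
    · exact cl_ne_tube h2
  · rcases corner_facets h1 h with ⟨z', _, h2⟩ | h2 | h2 | h2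
    · exact corner_ne_cl h2
    · exact cl_ne_tube h2
    · exact cl_ne_tube h2
    · exact cl_ne_mid h2

theorem cl_dia_cl (κ κ' : D.Comp) (c d' : TCell)
    (h : ∃ b ∈ (XCell.cl κ c).facets, XCell.cl κ' d' ∈ b.facets) :
    Two fun b => b ∈ (XCell.cl κ c).facets ∧ XCell.cl κ' d' ∈ b.facets := by
  have key : ∀ b : XCell D, (b ∈ (XCell.cl κ c).facets ∧ XCell.cl κ' d' ∈ b.facets) ↔
      κ' = κ ∧ ∃ d, (d ∈ c.facets ∧ d' ∈ d.facets) ∧ b = .cl κ d := by
    intro b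
    constructor
    · rintro ⟨hb, hx⟩
      rcases (mem_cl κ c b).1 hb with ⟨d, hd, rfl⟩ | ⟨m, _, hm⟩
      · obtain ⟨h1, h2⟩ := cl_mem_cl.1 hx
        exact ⟨h1, d, ⟨hd, h2⟩, rfl⟩
      · exact (cl_below_layer hm hx).elim
    · rintro ⟨h1, d, ⟨hd, h2⟩, rfl⟩
      exact ⟨(mem_cl κ c _).2 (Or.inl ⟨d, hd, rfl⟩), cl_mem_cl.2 ⟨h1, h2⟩⟩
  obtain ⟨b, hb, hx⟩ := h
  obtain ⟨h1, d, ⟨hd, h2⟩, -⟩ := (key b).1 ⟨hb, hx⟩
  obtain ⟨a1, a2, ha, hP⟩ := TCell.dia c d' ⟨d, hd, h2⟩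
  refine ⟨.cl κ a1, .cl κ a2, fun h3 => ?_, fun t => ?_⟩
  · cases h3
    exact ha rfl
  · show (t ∈ (XCell.cl κ c).facets ∧ XCell.cl κ' d' ∈ t.facets) ↔ _
    rw [key t]
    constructor
    · rintro ⟨-, d3, h3, rfl⟩
      rcases (hP d3).1 h3 with rfl | rfl
      · exact Or.inl rfl
      · exact Or.inr rfl
    · rintro (rfl | rfl)
      · exact ⟨h1, a1, (hP a1).2 (Or.inl rfl), rfl⟩
      · exact ⟨h1, a2, (hP a2).2 (Or.inr rfl), rfl⟩

private theorem nd_mem_layer {c : TCell} {m m' : Fin N} {hm : D.node m = true}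
    {e : NCell (D.par m)}
    (h : (XCell.nd m hm e : XCell D) ∈ (XCell.layer m' c : List (XCell D))) :
    m = m' ∧ e = .inn (D.fr m c) := by
  rcases (mem_layer m' c _).1 h with ⟨hn, h1⟩ | ⟨_, z, _, h1⟩ | ⟨z, _, h1⟩
  · cases h1
    exact ⟨rfl, rfl⟩
  · exact (nd_ne_tube h1).elim
  · exact (corner_ne_nd h1).elim

private theorem nd_mem_cl {κ : D.Comp} {d : TCell} {m : Fin N} {hm : D.node m = true}
    {e : NCell (D.par m)} :
    (XCell.nd m hm e : XCell D) ∈ (XCell.cl κ d).facets ↔ m ∈ κ.1 ∧ e = .inn (D.fr m d) := by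
  rw [mem_cl]
  constructor
  · rintro (⟨d'', hd, h⟩ | ⟨m', hm', h⟩)
    · cases h
    · obtain ⟨rfl, h2⟩ := nd_mem_layer h
      exact ⟨hm', h2⟩
  · rintro ⟨h1, rfl⟩
    exact Or.inr ⟨m, h1, (mem_layer m d _).2 (Or.inl ⟨hm, rfl⟩)⟩

private theorem nd_below_layer {c : TCell} {m m' : Fin N} {hm : D.node m = true}
    {e : NCell (D.par m)} {b : XCell D}
    (hb : b ∈ (XCell.layer m' c : List (XCell D))) (h : (XCell.nd m hm e : XCell D) ∈ b.facets) :
    m = m' ∧ b = .nd m hm (.inn (D.fr m c)) ∧ ∃ d ∈ c.facets, e = .inn (D.fr m d) := by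
  rcases (mem_layer m' c _).1 hb with ⟨hn, rfl⟩ | ⟨_, z, _, rfl⟩ | ⟨z, _, h1⟩
  · rcases (mem_inn m' hn c _).1 h with ⟨z, _, h2⟩ | ⟨z, _, h2⟩ | ⟨d', hd', h2⟩
    · exact (nd_ne_tube h2).elim
    · exact (nd_ne_tube h2).elim
    · cases h2
      exact ⟨rfl, rfl, d', hd', rfl⟩
  · rcases (mem_tube m' none z _).1 h with ⟨_, e, h2⟩ | ⟨z', _, h2⟩
    · exact (nd_ne_tube h2).elim
    · exact (nd_ne_tube h2).elim
  · rcases corner_facets h1 h with ⟨z', _, h2⟩ | h2 | h2 | h2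
    · exact (corner_ne_nd h2).elim
    · exact (nd_ne_tube h2).elim
    · exact (nd_ne_tube h2).elim
    · exact (nd_ne_mid h2).elim

theorem cl_dia_nd (κ : D.Comp) (c : TCell) (m : Fin N) (hm : D.node m = true) (e : NCell (D.par m))
    (h : ∃ b ∈ (XCell.cl κ c).facets, XCell.nd m hm e ∈ b.facets) :
    Two fun b => b ∈ (XCell.cl κ c).facets ∧ XCell.nd m hm e ∈ b.facets := by
  have key : ∀ b : XCell D, (b ∈ (XCell.cl κ c).facets ∧ XCell.nd m hm e ∈ b.facets) ↔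
      m ∈ κ.1 ∧ ∃ d ∈ c.facets, e = .inn (D.fr m d) ∧
        (b = .cl κ d ∨ b = .nd m hm (.inn (D.fr m c))) := by
    intro b
    constructor
    · rintro ⟨hb, hx⟩
      rcases (mem_cl κ c b).1 hb with ⟨d, hd, rfl⟩ | ⟨m', hm', hl⟩
      · obtain ⟨h1, h2⟩ := nd_mem_cl.1 hx
        exact ⟨h1, d, hd, h2, Or.inl rfl⟩
      · obtain ⟨rfl, h1, d, hd, h2⟩ := nd_below_layer hl hx
        exact ⟨hm', d, hd, h2, Or.inr h1⟩
    · rintro ⟨h1, d, hd, h2, rfl | rfl⟩
      · exact ⟨(mem_cl κ c _).2 (Or.inl ⟨d, hd, rfl⟩), nd_mem_cl.2 ⟨h1, h2⟩⟩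
      · refine ⟨(mem_cl κ c _).2 (Or.inr ⟨m, h1, (mem_layer m c _).2 (Or.inl ⟨hm, rfl⟩)⟩), ?_⟩
        rw [mem_inn]
        exact Or.inr (Or.inr ⟨d, hd, by rw [h2]⟩)
  obtain ⟨b, hb, hx⟩ := h
  obtain ⟨h1, d, hd, h2, -⟩ := (key b).1 ⟨hb, hx⟩
  refine ⟨.cl κ d, .nd m hm (.inn (D.fr m c)), fun h3 => ?_, fun t => ?_⟩
  · cases h3
  · show (t ∈ (XCell.cl κ c).facets ∧ XCell.nd m hm e ∈ t.facets) ↔ _
    rw [key t]
    constructor
    · rintro ⟨-, d3, hd3, h3, h4⟩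
      have h5 : D.fr m d = D.fr m d3 := by
        have h6 : (NCell.inn (D.fr m d) : NCell (D.par m)) = .inn (D.fr m d3) := h2.symm.trans h3
        exact NCell.inn.inj h6
      have h7 : d = d3 := fr_inj h5
      rw [← h7] at h4
      exact h4
    · intro h4
      exact ⟨h1, d, hd, h2, h4⟩

end Pool.MP_f18604_gt.LSN
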