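import Mathlib
import Pool.Agent.Helper7.LSN.ClMem
import Pool.Agent.Helper7.LSN.Corner2

/-!
# LSN-12: diamonds below a closing cell, `x` in the tube of an arc

Let `b` be a facet of `cl κ c` and `x` a facet of `b`.  By `mem_cl`, `mem_layer`: `b = cl κ d` (`d ∈ c.facets`), `b = nd m h (inn (fr m c))` (`m ∈ κ`), `b = tube m none z` (`m ∈ κ` not a node,
`z ∈ c.real (st m)`), or `b ∈ corner m z` (`m ∈ κ`, `z ∈ c.real (st (next m))`).  The facets of these: `mem_cl` + `mem_layer`, `mem_inn`, `mem_tube`, `corner_facets`.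

PROOF of `cl_dia_tube` (`x = tube m none w`).  If `x` is a facet of `b = cl κ d` then (`mem_cl`, `mem_layer`, `tube_inj`, `corner_ne_tube`) `m ∈ κ`, `m` is not a node, `w ∈ d.real (st m)`.  If it is a facet of
`nd m' h (inn _)`: impossible (`mem_inn`: the tubes there are `tube m' (some _) _`).  If it is a facet of `tube m' none z`: `m' = m`, `w ∈ z.facets` (`mem_tube`, `tube_inj`).  If it is a facet of a corner cell:
impossible (`corner_facets`, `corner_ne_tube`, `tube_inj`, `mid_ne_tube`).  So for `m ∈ κ` not a node the cells `b` are the elements of the list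
`((c.real (st m)).filter (w ∈ ·.facets)).map (tube m none) ++ (c.facets.filter (w ∈ ·.real (st m))).map (cl κ)`, which is nodup (`TCell.real_nodup`, `TCell.facets_nodup`, `tube_inj`) and
of length 2 by `TCell.real_two`; use `two_of_list`.
-/

set_option autoImplicit false

namespace Pool.MP_f18604_gt.LSN

open Pool.MP_f18604_gt.LS

variable {N : ℕ} {D : Diagram N}

private theorem tube_ne_nd {m m' : Fin N} {w : Option Bool} {z : SCell} {hn : D.node m' = true}
    {c : NCell (D.par m')} (h : (XCell.tube m w z : XCell D) = XCell.nd m' hn c) : False := by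
  cases h

private theorem tube_ne_cl {m : Fin N} {w : Option Bool} {z : SCell} {κ : D.Comp} {c : TCell}
    (h : (XCell.tube m w z : XCell D) = XCell.cl κ c) : False := by
  cases h

private theorem some_ne_none {m m' : Fin N} {e : Bool} {z z' : SCell}
    (h : (XCell.tube m none z : XCell D) = XCell.tube m' (some e) z') : False := by
  have h1 := (tube_inj h).2.1
  cases h1

private theorem tube_mem_cl {κ : D.Comp} {d : TCell} {m : Fin N} {w : SCell} :
    XCell.tube m none w ∈ (XCell.cl κ d : XCell D).facets ↔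
      m ∈ κ.1 ∧ D.node m = false ∧ w ∈ d.real (D.st m) := by
  constructor
  · intro h
    rcases (mem_cl κ d _).1 h with ⟨d', _, h'⟩ | ⟨m', hm', h'⟩
    · exact (tube_ne_cl h').elim
    · rcases (mem_layer m' d _).1 h' with ⟨hn, h1⟩ | ⟨hn, z, hz, h1⟩ | ⟨z, hz, hxz⟩
      · exact (tube_ne_nd h1).elim
      · obtain ⟨rfl, -, rfl⟩ := tube_inj h1
        exact ⟨hm', hn, hz⟩
      · exact (corner_ne_tube hxz).elim
  · rintro ⟨hm, hn, hw⟩
    exact (mem_cl κ d _).2 (Or.inr ⟨m, hm, (mem_layer m d _).2 (Or.inr (Or.inl ⟨hn, w, hw, rfl⟩))⟩)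

private theorem tube_cases {κ : D.Comp} {c : TCell} {m : Fin N} {w : SCell} {b : XCell D}
    (hb : b ∈ (XCell.cl κ c).facets) (h : XCell.tube m none w ∈ b.facets) :
    m ∈ κ.1 ∧ D.node m = false ∧ ((∃ d ∈ c.facets, w ∈ d.real (D.st m) ∧ b = .cl κ d) ∨
      ∃ z ∈ c.real (D.st m), w ∈ z.facets ∧ b = XCell.tube m none z) := by
  rcases (mem_cl κ c b).1 hb with ⟨d, hd, rfl⟩ | ⟨m', hm', h'⟩
  · obtain ⟨h1, h2, h3⟩ := tube_mem_cl.1 h
    exact ⟨h1, h2, Or.inl ⟨d, hd, h3, rfl⟩⟩
  · rcases (mem_layer m' c b).1 h' with ⟨hn, rfl⟩ | ⟨hn, z, hz, rfl⟩ | ⟨z, hz, hbz⟩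
    · rcases (mem_inn m' hn c _).1 h with ⟨z, _, h1⟩ | ⟨z, _, h1⟩ | ⟨d, _, h1⟩
      · exact (some_ne_none h1).elim
      · exact (some_ne_none h1).elim
      · exact (tube_ne_nd h1).elim
    · rcases (mem_tube m' none z _).1 h with ⟨_, e, h1⟩ | ⟨z', hz', h1⟩
      · exact (some_ne_none h1).elim
      · obtain ⟨rfl, -, rfl⟩ := tube_inj h1
        exact ⟨hm', hn, Or.inr ⟨z, hz, hz', rfl⟩⟩
    · rcases corner_facets hbz h with ⟨z', _, h1⟩ | h1 | h1 | h1
      · exact (corner_ne_tube h1).elim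
      · exact (some_ne_none h1).elim
      · exact (some_ne_none h1).elim
      · exact (mid_ne_tube h1).elim

theorem cl_dia_tube (κ : D.Comp) (c : TCell) (m : Fin N) (w : SCell)
    (h : ∃ b ∈ (XCell.cl κ c).facets, XCell.tube m none w ∈ b.facets) :
    Two fun b => b ∈ (XCell.cl κ c).facets ∧ XCell.tube m none w ∈ b.facets := by
  obtain ⟨b1, hb1, hx1⟩ := h
  obtain ⟨hm, hn, hcase⟩ := tube_cases hb1 hx1
  have hlen : (((c.real (D.st m)).filter fun z => decide (w ∈ z.facets)).map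
        (fun z => (XCell.tube m none z : XCell D)) ++
      (c.facets.filter fun d => decide (w ∈ d.real (D.st m))).map
        (XCell.cl κ)).length = 2 := by
    rw [List.length_append, List.length_map, List.length_map]
    apply TCell.real_two
    rcases hcase with ⟨d, hd, hw, _⟩ | ⟨z, hz, hw, _⟩
    · exact Or.inr ⟨d, hd, hw⟩
    · exact Or.inl ⟨z, hz, hw⟩
  refine two_of_list _ ?_ hlen ?_
  · refine List.Nodup.append ?_ ?_ ?_
    · refine List.Nodup.map ?_ ((TCell.real_nodup _ c).filter _)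
      intro z z' he
      exact (tube_inj he).2.2
    · refine List.Nodup.map ?_ ((TCell.facets_nodup c).filter _)
      intro d d' he
      injection he
    · intro b hb hb'
      obtain ⟨z, hz, rfl⟩ := List.mem_map.1 hb
      obtain ⟨d, _, he⟩ := List.mem_map.1 hb'
      exact tube_ne_cl he.symm
  · intro b
    rw [List.mem_append, List.mem_map, List.mem_map]
    constructor
    · rintro ⟨hb, hxb⟩
      rcases (tube_cases hb hxb).2.2 with ⟨d, hd, hw, rfl⟩ | ⟨z, hz, hw, rfl⟩
      · exact Or.inr ⟨d, List.mem_filter.2 ⟨hd, decide_eq_true hw⟩, rfl⟩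
      · exact Or.inl ⟨z, List.mem_filter.2 ⟨hz, decide_eq_true hw⟩, rfl⟩
    · rintro (⟨z, hz, rfl⟩ | ⟨d, hd, rfl⟩)
      · obtain ⟨hz1, hz2⟩ := List.mem_filter.1 hz
        have hw : w ∈ z.facets := of_decide_eq_true hz2
        exact ⟨(mem_cl κ c _).2 (Or.inr ⟨m, hm, (mem_layer m c _).2
          (Or.inr (Or.inl ⟨hn, z, hz1, rfl⟩))⟩), (mem_tube m none z _).2 (Or.inr ⟨w, hw, rfl⟩)⟩
      · obtain ⟨hd1, hd2⟩ := List.mem_filter.1 hd
        exact ⟨(mem_cl κ c _).2 (Or.inl ⟨d, hd1, rfl⟩),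
          tube_mem_cl.2 ⟨hm, hn, of_decide_eq_true hd2⟩⟩

end Pool.MP_f18604_gt.LSN
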