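import Mathlib
import Pool.Agent.Helper7.LSN.ClMem
import Pool.Agent.Helper7.LSN.Corner2

/-!
# LSN-13: diamonds below a closing cell, `x` at the end of an arc

Let `b` be a facet of `cl κ c` and `x` a facet of `b`.  By `mem_cl`, `mem_layer`: `b = cl κ d` (`d ∈ c.facets`), `b = nd m h (inn (fr m c))` (`m ∈ κ`), `b = tube m none z` (`m ∈ κ` not a node,
`z ∈ c.real (st m)`), or `b ∈ corner m z` (`m ∈ κ`, `z ∈ c.real (st (next m))`).  The facets of these: `mem_cl` + `mem_layer`, `mem_inn`, `mem_tube`, `corner_facets`.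

PROOF of `cl_dia_end` (`x = tube m (some e) w`).  `x` is no facet of `cl κ d` (`mem_cl`, `mem_layer`: `tube_inj`, `corner_ne_tube`).
Column part: if `m ∈ κ` is a node, `x` is a facet of `nd m h (inn (fr m c))` iff `w ∈ c.real (st m)` for `e = false`, iff `w ∈ c.real (st (next m))` for `e = true` (`mem_inn`, `tube_inj`).  If `m ∈ κ` is not a
node then `st (next m) = st m` (`st_next`) and `x` is a facet of `tube m none z`, `z ∈ c.real (st m)`, iff `z = w` (`mem_tube`, `tube_inj`).  For other columns it is no facet.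
Corner part: by `corner_facets` (`corner_ne_tube`, `tube_inj`, `mid_ne_tube`) `x` is a facet of a cell of `corner m' z` only if `e = true`, `m' = m`, `z = w`, or `e = false`, `next m' = m`, `z = w`; in both cases
exactly one cell (`corner_tube_true`, `corner_tube_false`).  For `e = false` let `m'` be the column with `next m' = m` (`next_symm`, `next_inj`), `m' ∈ κ` iff `m ∈ κ` (`next_mem`).
So in all cases: `m ∈ κ`, `w ∈ c.real (st m)` (`e = false`) or `w ∈ c.real (st (next m))` (`e = true`), and there is exactly one cell in the column part and one in the corner part; they are different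
(`corner_ne_tube`, `corner_ne_nd`).
-/

set_option autoImplicit false

namespace Pool.MP_f18604_gt.LSN

open Pool.MP_f18604_gt.LS

variable {N : ℕ} {D : Diagram N}

private theorem cls (κ : D.Comp) (c : TCell) (m : Fin N) (e : Bool) (w : SCell) (b : XCell D)
    (hb : b ∈ (XCell.cl κ c).facets) (hx : XCell.tube m (some e) w ∈ b.facets) :
    m ∈ κ.1 ∧ w ∈ c.real (D.st (if e = true then D.next m else m)) ∧
      ((∃ h : D.node m = true, b = .nd m h (.inn (D.fr m c))) ∨
        (D.node m = false ∧ b = XCell.tube m none w) ∨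
        ∃ m' : Fin N, (if e = true then m' = m else D.next m' = m) ∧
          b ∈ (XCell.corner m' w : List (XCell D))) := by
  rw [mem_cl] at hb
  rcases hb with ⟨d, hd, rfl⟩ | ⟨m1, hm1, hb⟩
  · exfalso
    rw [mem_cl] at hx
    rcases hx with ⟨d', _, h1⟩ | ⟨m2, _, h1⟩
    · cases h1
    · rw [mem_layer] at h1
      rcases h1 with ⟨h2, h3⟩ | ⟨_, z, _, h3⟩ | ⟨z, _, h3⟩
      · cases h3
      · have h4 := (tube_inj h3).2.1
        cases h4
      · exact corner_ne_tube h3
  · rw [mem_layer] at hb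
    rcases hb with ⟨h2, rfl⟩ | ⟨h2, z, hz, rfl⟩ | ⟨z, hz, hb⟩
    · rw [mem_inn] at hx
      rcases hx with ⟨z, hz, h3⟩ | ⟨z, hz, h3⟩ | ⟨d, _, h3⟩
      · obtain ⟨rfl, h4, rfl⟩ := tube_inj h3
        have h5 : e = false := by simpa using h4
        subst h5
        exact ⟨hm1, by simpa using hz, Or.inl ⟨h2, rfl⟩⟩
      · obtain ⟨rfl, h4, rfl⟩ := tube_inj h3
        have h5 : e = true := by simpa using h4
        subst h5
        exact ⟨hm1, by simpa using hz, Or.inl ⟨h2, rfl⟩⟩
      · cases h3
    · rw [mem_tube] at hx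
      rcases hx with ⟨_, e', h3⟩ | ⟨z', _, h3⟩
      · obtain ⟨rfl, _, rfl⟩ := tube_inj h3
        have h5 : D.st (D.next m) = D.st m := by
          rw [st_next, h2]
          simp
        refine ⟨hm1, ?_, Or.inr (Or.inl ⟨h2, rfl⟩)⟩
        cases e
        · simpa using hz
        · simpa [h5] using hz
      · have h4 := (tube_inj h3).2.1
        cases h4
    · rcases corner_facets hb hx with ⟨z', _, h3⟩ | h3 | h3 | h3
      · exact (corner_ne_tube h3).elim
      · obtain ⟨rfl, h4, rfl⟩ := tube_inj h3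
        have h5 : e = true := by simpa using h4
        subst h5
        exact ⟨hm1, by simpa using hz, Or.inr (Or.inr ⟨m, by simp, hb⟩)⟩
      · obtain ⟨h6, h4, rfl⟩ := tube_inj h3
        have h5 : e = false := by simpa using h4
        subst h5
        subst h6
        exact ⟨(next_mem κ m1).2 hm1, by simpa using hz, Or.inr (Or.inr ⟨m1, by simp, hb⟩)⟩
      · exact (mid_ne_tube h3).elim

private theorem col_cell (κ : D.Comp) (c : TCell) (m : Fin N) (e : Bool) (w : SCell)
    (hm : m ∈ κ.1) (hw : w ∈ c.real (D.st (if e = true then D.next m else m))) :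
    ∃ col : XCell D, col ∈ (XCell.cl κ c).facets ∧ XCell.tube m (some e) w ∈ col.facets ∧
      (∀ b : XCell D, ((∃ h : D.node m = true, b = .nd m h (.inn (D.fr m c))) ∨
        (D.node m = false ∧ b = XCell.tube m none w)) → b = col) ∧
      ∀ (m' : Fin N) (z : SCell), col ∉ (XCell.corner m' z : List (XCell D)) := by
  have hcase : D.node m = false ∨ D.node m = true := by
    cases D.node m
    · exact Or.inl rfl
    · exact Or.inr rfl
  rcases hcase with hn | hn
  · refine ⟨XCell.tube m none w, ?_, ?_, ?_, ?_⟩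
    · rw [mem_cl]
      refine Or.inr ⟨m, hm, ?_⟩
      rw [mem_layer]
      refine Or.inr (Or.inl ⟨hn, w, ?_, rfl⟩)
      have h5 : D.st (D.next m) = D.st m := by
        rw [st_next, hn]
        simp
      cases e
      · simpa using hw
      · simpa [h5] using hw
    · rw [mem_tube]
      exact Or.inl ⟨rfl, e, rfl⟩
    · rintro b (⟨h, _⟩ | ⟨_, h⟩)
      · exact absurd (hn.symm.trans h) (by simp)
      · exact h
    · intro m' z h
      exact corner_ne_tube h
  · refine ⟨.nd m hn (.inn (D.fr m c)), ?_, ?_, ?_, ?_⟩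
    · rw [mem_cl]
      refine Or.inr ⟨m, hm, ?_⟩
      rw [mem_layer]
      exact Or.inl ⟨hn, rfl⟩
    · rw [mem_inn]
      cases e
      · exact Or.inl ⟨w, by simpa using hw, rfl⟩
      · exact Or.inr (Or.inl ⟨w, by simpa using hw, rfl⟩)
    · rintro b (⟨_, h⟩ | ⟨h, _⟩)
      · exact h
      · exact absurd (hn.symm.trans h) (by simp)
    · intro m' z h
      exact corner_ne_nd h

private theorem cor_cell (κ : D.Comp) (c : TCell) (m : Fin N) (e : Bool) (w : SCell)
    (hm : m ∈ κ.1) (hw : w ∈ c.real (D.st (if e = true then D.next m else m))) :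
    ∃ m0 : Fin N, (if e = true then m0 = m else D.next m0 = m) ∧
      ∃ b0 ∈ (XCell.corner m0 w : List (XCell D)), b0 ∈ (XCell.cl κ c).facets ∧
        ∀ b ∈ (XCell.corner m0 w : List (XCell D)),
          (XCell.tube m (some e) w : XCell D) ∈ b.facets ↔ b = b0 := by
  cases e
  · obtain ⟨m0, rfl⟩ := next_symm (D := D) m
    obtain ⟨b0, hb0, hall⟩ := corner_tube_false (D := D) m0 w
    refine ⟨m0, by simp, b0, hb0, ?_, hall⟩
    rw [mem_cl]
    refine Or.inr ⟨m0, (next_mem κ m0).1 hm, ?_⟩
    rw [mem_layer]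
    exact Or.inr (Or.inr ⟨w, by simpa using hw, hb0⟩)
  · obtain ⟨b0, hb0, hall⟩ := corner_tube_true (D := D) m w
    refine ⟨m, by simp, b0, hb0, ?_, hall⟩
    rw [mem_cl]
    refine Or.inr ⟨m, hm, ?_⟩
    rw [mem_layer]
    exact Or.inr (Or.inr ⟨w, by simpa using hw, hb0⟩)

theorem cl_dia_end (κ : D.Comp) (c : TCell) (m : Fin N) (e : Bool) (w : SCell)
    (h : ∃ b ∈ (XCell.cl κ c).facets, XCell.tube m (some e) w ∈ b.facets) :
    Two fun b => b ∈ (XCell.cl κ c).facets ∧ XCell.tube m (some e) w ∈ b.facets := by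
  obtain ⟨b1, hb1, hx1⟩ := h
  obtain ⟨hm, hw, _⟩ := cls κ c m e w b1 hb1 hx1
  obtain ⟨col, hc1, hc2, hc3, hc4⟩ := col_cell κ c m e w hm hw
  obtain ⟨m0, hm0, b0, hb0, hb0c, hall⟩ := cor_cell κ c m e w hm hw
  refine ⟨col, b0, ?_, fun t => ⟨?_, ?_⟩⟩
  · rintro rfl
    exact hc4 m0 w hb0
  · rintro ⟨ht, hxt⟩
    obtain ⟨_, _, h1⟩ := cls κ c m e w t ht hxt
    rcases h1 with h1 | h1 | ⟨m', hm', h1⟩
    · exact Or.inl (hc3 t (Or.inl h1))
    · exact Or.inl (hc3 t (Or.inr h1))
    · right
      have h2 : m' = m0 := by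
        cases e
        · simp only [Bool.false_eq_true, if_false] at hm' hm0
          exact next_inj (hm'.trans hm0.symm)
        · simp only [if_true] at hm' hm0
          exact hm'.trans hm0.symm
      subst h2
      exact (hall t h1).1 hxt
  · rintro (rfl | rfl)
    · exact ⟨hc1, hc2⟩
    · exact ⟨hb0c, (hall t hb0).2 rfl⟩

end Pool.MP_f18604_gt.LSN
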