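import Mathlib
import Pool.Agent.Helper7.LSN.ClMem
import Pool.Agent.Helper7.LSN.Corner2

/-!
# LSN-14: diamonds below a closing cell, `x` in a corner

Let `b` be a facet of `cl κ c` and `x` a facet of `b`.  By `mem_cl`, `mem_layer`: `b = cl κ d` (`d ∈ c.facets`), `b = nd m h (inn (fr m c))` (`m ∈ κ`), `b = tube m none z` (`m ∈ κ` not a node,
`z ∈ c.real (st m)`), or `b ∈ corner m z` (`m ∈ κ`, `z ∈ c.real (st (next m))`).  The facets of these: `mem_cl` + `mem_layer`, `mem_inn`, `mem_tube`, `corner_facets`.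

PROOF of `cl_dia_corner` (`x ∈ corner m w`).  `x` is a facet of `cl κ d` iff `m ∈ κ` and `w ∈ d.real (st (next m))` (`mem_cl`, `mem_layer`, `corner_ne_cl`, `corner_ne_nd`, `corner_ne_tube`, `corner_disj`); no facet of
`nd _ _ (inn _)` and of `tube _ none _` (`corner_ne_tube`, `corner_ne_nd`); a facet of a cell of `corner m' z` only if `m' = m` and `w ∈ z.facets` (`corner_facets`, `corner_disj`, `corner_ne_tube`, `mid_ne_corner`), and
then of exactly one cell `β z` (`corner_one`).  So the cells `b` are the elements of the list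
`((c.real (st (next m))).filter (w ∈ ·.facets)).map β ++ (c.facets.filter (w ∈ ·.real (st (next m)))).map (cl κ)` where `β z ∈ corner m z` is chosen with `corner_one`;
nodup by `corner_disj`, `corner_ne_cl`; length 2 by `TCell.real_two`; use `two_of_list`.

PROOF of `cl_dia_mid` (`mid m w x`).  `x` is a `prod` of `up`, `dn` or `seg`: no facet of `cl κ d` (`mem_cl`, `mem_layer`, `mid_ne_tube`, `mid_ne_corner`), of `nd _ _ (inn _)` and of `tube _ none _` (`mid_ne_tube`), and by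
`corner_facets` (`mid_ne_corner`, `mid_ne_tube`, `mid_disj`) a facet of a cell of `corner m' z` only if `m' = m`, `z = w`.  So `m ∈ κ`, `w ∈ c.real (st (next m))`, and `corner_mid` gives the two cells.
-/

set_option autoImplicit false

namespace Pool.MP_f18604_gt.LSN

open Pool.MP_f18604_gt.LS

variable {N : ℕ} {D : Diagram N}

private theorem corner_mem_cl {κ : D.Comp} {d : TCell} {m : Fin N} {w : SCell} {x : XCell D}
    (hx : x ∈ (XCell.corner m w : List (XCell D))) :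
    x ∈ (XCell.cl κ d).facets ↔ m ∈ κ.1 ∧ w ∈ d.real (D.st (D.next m)) := by
  constructor
  · intro h
    rcases (mem_cl κ d x).1 h with ⟨d', _, rfl⟩ | ⟨m', hm', h'⟩
    · exact (corner_ne_cl hx).elim
    · rcases (mem_layer m' d x).1 h' with ⟨hn, rfl⟩ | ⟨_, z, _, rfl⟩ | ⟨z, hz, hxz⟩
      · exact (corner_ne_nd hx).elim
      · exact (corner_ne_tube hx).elim
      · obtain ⟨rfl, rfl⟩ := corner_disj hx hxz
        exact ⟨hm', hz⟩
  · rintro ⟨hm, hw⟩
    exact (mem_cl κ d x).2 (Or.inr ⟨m, hm, (mem_layer m d x).2 (Or.inr (Or.inr ⟨w, hw, hx⟩))⟩)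

private theorem corner_mem_corner {m m' : Fin N} {w z : SCell} {b x : XCell D}
    (hx : x ∈ (XCell.corner m w : List (XCell D)))
    (hb : b ∈ (XCell.corner m' z : List (XCell D))) (h : x ∈ b.facets) :
    m' = m ∧ w ∈ z.facets := by
  rcases corner_facets hb h with ⟨z', hz', h'⟩ | rfl | rfl | h'
  · obtain ⟨rfl, rfl⟩ := corner_disj hx h'
    exact ⟨rfl, hz'⟩
  · exact (corner_ne_tube hx).elim
  · exact (corner_ne_tube hx).elim
  · exact (mid_ne_corner h' hx).elim

private theorem corner_cases {κ : D.Comp} {c : TCell} {m : Fin N} {w : SCell} {b x : XCell D}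
    (hx : x ∈ (XCell.corner m w : List (XCell D))) (hb : b ∈ (XCell.cl κ c).facets)
    (h : x ∈ b.facets) :
    m ∈ κ.1 ∧ ((∃ d ∈ c.facets, w ∈ d.real (D.st (D.next m)) ∧ b = .cl κ d) ∨
      ∃ z ∈ c.real (D.st (D.next m)), w ∈ z.facets ∧ b ∈ (XCell.corner m z : List (XCell D))) := by
  rcases (mem_cl κ c b).1 hb with ⟨d, hd, rfl⟩ | ⟨m', hm', h'⟩
  · obtain ⟨h1, h2⟩ := (corner_mem_cl hx).1 h
    exact ⟨h1, Or.inl ⟨d, hd, h2, rfl⟩⟩
  · rcases (mem_layer m' c b).1 h' with ⟨hn, rfl⟩ | ⟨_, z, _, rfl⟩ | ⟨z, hz, hbz⟩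
    · rcases (mem_inn m' hn c x).1 h with ⟨z, _, rfl⟩ | ⟨z, _, rfl⟩ | ⟨d, _, rfl⟩
      · exact (corner_ne_tube hx).elim
      · exact (corner_ne_tube hx).elim
      · exact (corner_ne_nd hx).elim
    · rcases (mem_tube m' none z x).1 h with ⟨_, e, rfl⟩ | ⟨z', _, rfl⟩
      · exact (corner_ne_tube hx).elim
      · exact (corner_ne_tube hx).elim
    · obtain ⟨rfl, hw⟩ := corner_mem_corner hx hbz h
      exact ⟨hm', Or.inr ⟨z, hz, hw, hbz⟩⟩

theorem cl_dia_corner (κ : D.Comp) (c : TCell) (m : Fin N) (w : SCell) (x : XCell D)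
    (hx : x ∈ (XCell.corner m w : List (XCell D)))
    (h : ∃ b ∈ (XCell.cl κ c).facets, x ∈ b.facets) :
    Two fun b => b ∈ (XCell.cl κ c).facets ∧ x ∈ b.facets := by
  classical
  obtain ⟨b1, hb1, hx1⟩ := h
  obtain ⟨hm, hcase⟩ := corner_cases hx hb1 hx1
  have hone : ∀ z : SCell, ∃ b0 : XCell D, w ∈ z.facets →
      b0 ∈ (XCell.corner m z : List (XCell D)) ∧
        ∀ b ∈ (XCell.corner m z : List (XCell D)), x ∈ b.facets ↔ b = b0 := by
    intro z
    by_cases hz : w ∈ z.facets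
    · obtain ⟨b0, h1, h2⟩ := corner_one hz hx
      exact ⟨b0, fun _ => ⟨h1, h2⟩⟩
    · exact ⟨x, fun h => (hz h).elim⟩
  choose β hβ using hone
  have hlen : (((c.real (D.st (D.next m))).filter fun z => decide (w ∈ z.facets)).map β ++
      (c.facets.filter fun d => decide (w ∈ d.real (D.st (D.next m)))).map
        (XCell.cl κ)).length = 2 := by
    rw [List.length_append, List.length_map, List.length_map]
    apply TCell.real_two
    rcases hcase with ⟨d, hd, hw, _⟩ | ⟨z, hz, hw, _⟩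
    · exact Or.inr ⟨d, hd, hw⟩
    · exact Or.inl ⟨z, hz, hw⟩
  refine two_of_list _ ?_ hlen ?_
  · refine List.Nodup.append ?_ ?_ ?_
    · refine List.Nodup.map_on ?_ ((TCell.real_nodup _ c).filter _)
      intro z hz z' hz' he
      have hz1 : w ∈ z.facets := of_decide_eq_true (List.mem_filter.1 hz).2
      have hz2 : w ∈ z'.facets := of_decide_eq_true (List.mem_filter.1 hz').2
      have h1 := (hβ z hz1).1
      have h2 := (hβ z' hz2).1
      rw [he] at h1
      exact (corner_disj h1 h2).2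
    · refine List.Nodup.map ?_ ((TCell.facets_nodup c).filter _)
      intro d d' he
      injection he
    · intro b hb hb'
      obtain ⟨z, hz, rfl⟩ := List.mem_map.1 hb
      obtain ⟨d, _, he⟩ := List.mem_map.1 hb'
      have hz1 : w ∈ z.facets := of_decide_eq_true (List.mem_filter.1 hz).2
      have h1 := (hβ z hz1).1
      rw [← he] at h1
      exact corner_ne_cl h1
  · intro b
    rw [List.mem_append, List.mem_map, List.mem_map]
    constructor
    · rintro ⟨hb, hxb⟩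
      rcases (corner_cases hx hb hxb).2 with ⟨d, hd, hw, rfl⟩ | ⟨z, hz, hw, hbz⟩
      · exact Or.inr ⟨d, List.mem_filter.2 ⟨hd, decide_eq_true hw⟩, rfl⟩
      · exact Or.inl ⟨z, List.mem_filter.2 ⟨hz, decide_eq_true hw⟩,
          (((hβ z hw).2 b hbz).1 hxb).symm⟩
    · rintro (⟨z, hz, rfl⟩ | ⟨d, hd, rfl⟩)
      · obtain ⟨hz1, hz2⟩ := List.mem_filter.1 hz
        have hw : w ∈ z.facets := of_decide_eq_true hz2
        obtain ⟨h1, h2⟩ := hβ z hw
        exact ⟨(mem_cl κ c _).2 (Or.inr ⟨m, hm, (mem_layer m c _).2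
          (Or.inr (Or.inr ⟨z, hz1, h1⟩))⟩), (h2 _ h1).2 rfl⟩
      · obtain ⟨hd1, hd2⟩ := List.mem_filter.1 hd
        exact ⟨(mem_cl κ c _).2 (Or.inl ⟨d, hd1, rfl⟩),
          (corner_mem_cl hx).2 ⟨hm, of_decide_eq_true hd2⟩⟩

private theorem mid_ne_nd {m m' : Fin N} {z : SCell} {hn : D.node m' = true}
    {c : NCell (D.par m')} (h : XCell.mid m z (XCell.nd m' hn c : XCell D)) : False := by
  rcases h with ⟨_, h⟩ | ⟨_, l, hl, _, h⟩
  · cases h
  · cases h

private theorem mid_ne_cl {m : Fin N} {z : SCell} {κ : D.Comp} {c : TCell}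
    (h : XCell.mid m z (XCell.cl κ c : XCell D)) : False := by
  rcases h with ⟨_, h⟩ | ⟨_, l, hl, _, h⟩
  · cases h
  · cases h

private theorem mid_cases {κ : D.Comp} {c : TCell} {m : Fin N} {w : SCell} {b x : XCell D}
    (hx : XCell.mid m w x) (hb : b ∈ (XCell.cl κ c).facets) (h : x ∈ b.facets) :
    m ∈ κ.1 ∧ w ∈ c.real (D.st (D.next m)) ∧ b ∈ (XCell.corner m w : List (XCell D)) := by
  rcases (mem_cl κ c b).1 hb with ⟨d, hd, rfl⟩ | ⟨m', hm', h'⟩
  · rcases (mem_cl κ d x).1 h with ⟨d', _, rfl⟩ | ⟨m', hm', h'⟩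
    · exact (mid_ne_cl hx).elim
    · rcases (mem_layer m' d x).1 h' with ⟨hn, rfl⟩ | ⟨_, z, _, rfl⟩ | ⟨z, hz, hxz⟩
      · exact (mid_ne_nd hx).elim
      · exact (mid_ne_tube hx).elim
      · exact (mid_ne_corner hx hxz).elim
  · rcases (mem_layer m' c b).1 h' with ⟨hn, rfl⟩ | ⟨_, z, _, rfl⟩ | ⟨z, hz, hbz⟩
    · rcases (mem_inn m' hn c x).1 h with ⟨z, _, rfl⟩ | ⟨z, _, rfl⟩ | ⟨d, _, rfl⟩
      · exact (mid_ne_tube hx).elim
      · exact (mid_ne_tube hx).elim
      · exact (mid_ne_nd hx).elim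
    · rcases (mem_tube m' none z x).1 h with ⟨_, e, rfl⟩ | ⟨z', _, rfl⟩
      · exact (mid_ne_tube hx).elim
      · exact (mid_ne_tube hx).elim
    · rcases corner_facets hbz h with ⟨z', _, h1⟩ | rfl | rfl | h1
      · exact (mid_ne_corner hx h1).elim
      · exact (mid_ne_tube hx).elim
      · exact (mid_ne_tube hx).elim
      · obtain ⟨rfl, rfl⟩ := mid_disj hx h1
        exact ⟨hm', hz, hbz⟩

theorem cl_dia_mid (κ : D.Comp) (c : TCell) (m : Fin N) (w : SCell) (x : XCell D)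
    (hx : XCell.mid m w x) (h : ∃ b ∈ (XCell.cl κ c).facets, x ∈ b.facets) :
    Two fun b => b ∈ (XCell.cl κ c).facets ∧ x ∈ b.facets := by
  obtain ⟨b1, hb1, hx1⟩ := h
  obtain ⟨hm, hw, _⟩ := mid_cases hx hb1 hx1
  refine two_congr (corner_mid hx) fun t => ?_
  constructor
  · rintro ⟨ht, hxt⟩
    exact ⟨(mem_cl κ c t).2 (Or.inr ⟨m, hm, (mem_layer m c t).2 (Or.inr (Or.inr ⟨w, hw, ht⟩))⟩),
      hxt⟩
  · rintro ⟨ht, hxt⟩
    exact ⟨(mid_cases hx ht hxt).2.2, hxt⟩

end Pool.MP_f18604_gt.LSN
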