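import Mathlib
import Pool.Agent.Helper7.LSN.ClDiaA
import Pool.Agent.Helper7.LSN.ClDiaB
import Pool.Agent.Helper7.LSN.ClDiaC
import Pool.Agent.Helper7.LSN.ClDiaD

/-!
# LSN-15: diamonds below a closing cell

PROOF.  `x` is a facet of a facet `b` of `cl κ c`.  By `mem_cl`, `mem_layer`, `mem_inn`, `mem_tube`, `corner_facets` it is of the form `cl κ d'`, `nd m h e`, `tube m w z`, in a corner, or `mid`: the five lemmas.
-/

set_option autoImplicit false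

namespace Pool.MP_f18604_gt.LSN

open Pool.MP_f18604_gt.LS

variable {N : ℕ} {D : Diagram N}

theorem cl_dia (κ : D.Comp) (c : TCell) (x : XCell D)
    (h : ∃ b ∈ (XCell.cl κ c).facets, x ∈ b.facets) :
    Two fun b => b ∈ (XCell.cl κ c).facets ∧ x ∈ b.facets := by
  obtain ⟨b, hb, hx⟩ := h
  rcases (mem_cl κ c b).1 hb with ⟨d, hd, rfl⟩ | ⟨m, hm, hbm⟩
  · rcases (mem_cl κ d x).1 hx with ⟨d', hd', rfl⟩ | ⟨m, hm, hxm⟩
    · exact cl_dia_cl κ κ c d' ⟨_, hb, hx⟩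
    · rcases (mem_layer m d x).1 hxm with ⟨h, rfl⟩ | ⟨hn, z, hz, rfl⟩ | ⟨z, hz, hxz⟩
      · exact cl_dia_nd κ c m h _ ⟨_, hb, hx⟩
      · exact cl_dia_tube κ c m z ⟨_, hb, hx⟩
      · exact cl_dia_corner κ c m z x hxz ⟨_, hb, hx⟩
  · rcases (mem_layer m c b).1 hbm with ⟨h, rfl⟩ | ⟨hn, z, hz, rfl⟩ | ⟨z, hz, hbz⟩
    · rcases (mem_inn m h c x).1 hx with ⟨z, hz, rfl⟩ | ⟨z, hz, rfl⟩ | ⟨d, hd, rfl⟩
      · exact cl_dia_end κ c m false z ⟨_, hb, hx⟩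
      · exact cl_dia_end κ c m true z ⟨_, hb, hx⟩
      · exact cl_dia_nd κ c m h _ ⟨_, hb, hx⟩
    · rcases (mem_tube m none z x).1 hx with ⟨_, e, rfl⟩ | ⟨z', hz', rfl⟩
      · exact cl_dia_end κ c m e z ⟨_, hb, hx⟩
      · exact cl_dia_tube κ c m z' ⟨_, hb, hx⟩
    · rcases corner_facets hbz hx with ⟨z', hz', hxz⟩ | rfl | rfl | hmid
      · exact cl_dia_corner κ c m z' x hxz ⟨_, hb, hx⟩
      · exact cl_dia_end κ c m true z ⟨_, hb, hx⟩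
      · exact cl_dia_end κ c (D.next m) false z ⟨_, hb, hx⟩
      · exact cl_dia_mid κ c m z x hmid ⟨_, hb, hx⟩

end Pool.MP_f18604_gt.LSN
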