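import Mathlib
import Pool.Agent.Helper7.LSN.ClMem
import Pool.Agent.Helper7.LSN.Corner2

/-!
# LSN-16: cofaces of cells of dimension 3, cells of the exterior

Which cells have a facet `prod q b y`?  `prod q' b' y'` iff `q ∈ q'.facets`, `b' = b`, `y' = y`, or `q' = q`, `b = false`, `b' = true`, `y ∈ {y', y' + 1}`; `nd m h c` only if `prod q b y = tube m w z` (so `q` is
`lon`, `ann`, `pt`, `arc`; the facets of `nd` are `place`s); `cl κ c` only if it is in a layer: a `tube m none z` or a corner cell (`q` is `lon`, `ann`, `leg`, `sec`).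

PROOFS.
`co_chamber` (`b = false`): no facet of `prod q' false _` (no cell has the facet `chamber m`), so only `prod (chamber m) true y'` with `y = y'` or `y = y' + 1`: two values `y' = y`, `y' = y - 1`.
`co_page` (`b = true`): `page m s` is a facet of `chamber l` iff `l = m` or `rot l = m` (`LS.rot_surj`, `LS.rot_inj`, `rot_ne'`: these are two different chambers), so `prod (chamber m) true y` and
`prod (chamber l) true y`, `rot l = m`.
-/

set_option autoImplicit false

namespace Pool.MP_f18604_gt.LSN

open Pool.MP_f18604_gt.LS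

variable {N : ℕ} {D : Diagram N}

private theorem mem_prod_false (q : ECell D) (y : Fin 4) (x : XCell D) :
    x ∈ (XCell.prod q false y).facets ↔ ∃ r ∈ q.facets, x = .prod r false y := by
  simp only [XCell.facets, Bool.false_eq_true, if_false, List.nil_append, List.mem_map]
  constructor
  · rintro ⟨r, hr, rfl⟩
    exact ⟨r, hr, rfl⟩
  · rintro ⟨r, hr, rfl⟩
    exact ⟨r, hr, rfl⟩

private theorem mem_prod_true (q : ECell D) (y : Fin 4) (x : XCell D) :
    x ∈ (XCell.prod q true y).facets ↔ x = .prod q false y ∨ x = .prod q false (y + 1) ∨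
      ∃ r ∈ q.facets, x = .prod r true y := by
  simp only [XCell.facets, if_true, List.mem_append, List.mem_cons, List.not_mem_nil, or_false,
    List.mem_map, or_assoc]
  refine or_congr_right (or_congr_right ?_)
  constructor
  · rintro ⟨r, hr, rfl⟩
    exact ⟨r, hr, rfl⟩
  · rintro ⟨r, hr, rfl⟩
    exact ⟨r, hr, rfl⟩

/-- A cell `prod q b y` which is not in a tube nor in a corner is only a facet of products. -/
private theorem co_prod (q : ECell D) (b : Bool) (y : Fin 4)
    (h1 : ∀ m w z, XCell.prod q b y ≠ XCell.tube m w z)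
    (h2 : ∀ m z, XCell.prod q b y ∉ (XCell.corner m z : List (XCell D)))
    (a : XCell D) (ha : XCell.prod q b y ∈ a.facets) : ∃ q' b' y', a = .prod q' b' y' := by
  cases a with
  | prod q' b' y' => exact ⟨q', b', y', rfl⟩
  | nd m h c =>
    exfalso
    simp only [XCell.facets, List.mem_map] at ha
    obtain ⟨e, _, he⟩ := ha
    cases e with
    | tube w z => exact h1 m w z he.symm
    | nd c' => injection he
  | cl κ c =>
    exfalso
    rcases (mem_cl κ c _).1 ha with ⟨d, _, hd⟩ | ⟨m, _, hm⟩
    · injection hd
    · rcases (mem_layer m c _).1 hm with ⟨h, hn⟩ | ⟨_, z, _, hz⟩ | ⟨z, _, hz⟩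
      · injection hn
      · exact h1 m none z hz
      · exact h2 m z hz

private theorem chamber_tube (m : Fin N) (b : Bool) (y : Fin 4) (m' : Fin N) (w : Option Bool)
    (z : SCell) : (XCell.prod (.chamber m) b y : XCell D) ≠ XCell.tube m' w z := by
  intro h
  rcases w with _ | e <;> cases hz : z.a <;>
    simp [XCell.tube, hz] at h

private theorem page_tube (m : Fin N) (s b : Bool) (y : Fin 4) (m' : Fin N) (w : Option Bool)
    (z : SCell) : (XCell.prod (.page m s) b y : XCell D) ≠ XCell.tube m' w z := by
  intro h
  rcases w with _ | e <;> cases hz : z.a <;>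
    simp [XCell.tube, hz] at h

private theorem chamber_corner (m : Fin N) (b : Bool) (y : Fin 4) (m' : Fin N)
    (z : SCell) : (XCell.prod (.chamber m) b y : XCell D) ∉ (XCell.corner m' z : List (XCell D)) := by
  intro h
  cases hz : z.a
  · rw [mem_corner_false m' z hz] at h
    simp at h
  · rw [mem_corner_true m' z hz] at h
    simp at h

private theorem page_corner (m : Fin N) (s b : Bool) (y : Fin 4) (m' : Fin N)
    (z : SCell) : (XCell.prod (.page m s) b y : XCell D) ∉ (XCell.corner m' z : List (XCell D)) := by
  intro h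
  cases hz : z.a
  · rw [mem_corner_false m' z hz] at h
    simp at h
  · rw [mem_corner_true m' z hz] at h
    simp at h

private theorem no_chamber (m : Fin N) (q : ECell D) : ECell.chamber m ∉ q.facets := by
  intro h
  have h1 := e_dim q _ h
  have h2 : q.dim ≤ 3 := by cases q <;> simp [ECell.dim]
  have h3 : (ECell.chamber m : ECell D).dim = 3 := rfl
  omega

private theorem page_facet (m : Fin N) (s : Bool) (q : ECell D) :
    ECell.page m s ∈ q.facets ↔ ∃ l, (l = m ∨ rot l = m) ∧ q = .chamber l := by
  constructor
  · intro h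
    have h1 := e_dim q _ h
    have h3 : (ECell.page m s : ECell D).dim = 2 := rfl
    rw [h3] at h1
    cases q <;> simp [ECell.dim] at h1
    case chamber l =>
      refine ⟨l, ?_, rfl⟩
      simp only [ECell.facets, List.mem_append, List.mem_cons, List.not_mem_nil, or_false,
        List.mem_map, ECell.page.injEq, reduceCtorEq, and_false, exists_false] at h
      rcases h with ⟨rfl, _⟩ | ⟨rfl, _⟩ | ⟨rfl, _⟩ | ⟨rfl, _⟩
      · exact Or.inl rfl
      · exact Or.inl rfl
      · exact Or.inr rfl
      · exact Or.inr rfl
  · rintro ⟨l, hl | hl, rfl⟩ <;> subst hl <;> cases s <;> simp [ECell.facets]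

private theorem y_ne (y : Fin 4) : y ≠ y - 1 := by
  revert y; decide

private theorem y_eq (y y' : Fin 4) : y = y' + 1 ↔ y' = y - 1 := by
  revert y y'; decide

theorem co_chamber (m : Fin N) (y : Fin 4) :
    Two fun a : XCell D => XCell.prod (.chamber m) false y ∈ a.facets := by
  refine ⟨.prod (.chamber m) true y, .prod (.chamber m) true (y - 1), fun h => y_ne y ?_,
    fun a => ⟨fun ha => ?_, ?_⟩⟩
  · injection h
  · obtain ⟨q', b', y', rfl⟩ := co_prod _ _ _ (chamber_tube m false y)
      (chamber_corner m false y) a ha
    cases b'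
    · obtain ⟨r, hr, he⟩ := (mem_prod_false q' y' _).1 ha
      injection he with h1 _ _
      subst h1
      exact absurd hr (no_chamber m q')
    · rcases (mem_prod_true q' y' _).1 ha with he | he | ⟨r, hr, he⟩
      · injection he with h1 _ h2
        subst h1 h2
        exact Or.inl rfl
      · injection he with h1 _ h2
        rw [y_eq] at h2
        subst h1 h2
        exact Or.inr rfl
      · injection he with _ h1 _
        exact absurd h1 (by decide)
  · rintro (rfl | rfl)
    · exact (mem_prod_true _ _ _).2 (Or.inl rfl)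
    · refine (mem_prod_true _ _ _).2 (Or.inr (Or.inl ?_))
      rw [sub_add_cancel]

theorem co_page (m : Fin N) (s : Bool) (y : Fin 4) :
    Two fun a : XCell D => XCell.prod (.page m s) true y ∈ a.facets := by
  obtain ⟨l, hl⟩ := LS.rot_surj m
  have hlm : l ≠ m := by
    rintro rfl
    exact rot_ne' D _ hl
  refine ⟨.prod (.chamber m) true y, .prod (.chamber l) true y, fun h => hlm ?_,
    fun a => ⟨fun ha => ?_, ?_⟩⟩
  · injection h with h1 _ _
    injection h1 with h2
    exact h2.symm
  · obtain ⟨q', b', y', rfl⟩ := co_prod _ _ _ (page_tube m s true y)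
      (page_corner m s true y) a ha
    cases b'
    · obtain ⟨r, hr, he⟩ := (mem_prod_false q' y' _).1 ha
      injection he with _ h1 _
      exact absurd h1 (by decide)
    · rcases (mem_prod_true q' y' _).1 ha with he | he | ⟨r, hr, he⟩
      · injection he with _ h1 _
        exact absurd h1 (by decide)
      · injection he with _ h1 _
        exact absurd h1 (by decide)
      · injection he with h1 _ h2
        subst h1 h2
        obtain ⟨l', h3 | h3, rfl⟩ := (page_facet m s q').1 hr
        · subst h3
          exact Or.inl rfl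
        · have : l' = l := LS.rot_inj (h3.trans hl.symm)
          subst this
          exact Or.inr rfl
  · rintro (rfl | rfl)
    · exact (mem_prod_true _ _ _).2 (Or.inr (Or.inr
        ⟨_, (page_facet m s _).2 ⟨m, Or.inl rfl, rfl⟩, rfl⟩))
    · exact (mem_prod_true _ _ _).2 (Or.inr (Or.inr
        ⟨_, (page_facet m s _).2 ⟨l, Or.inr hl, rfl⟩, rfl⟩))

end Pool.MP_f18604_gt.LSN
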