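import Mathlib
import Pool.Agent.Helper7.LSN.ClMem
import Pool.Agent.Helper7.LSN.Corner2

/-!
# LSN-17: cofaces of cells of dimension 3, sectors and annuli

Which cells have a facet `prod q true y`?  `prod q' true y` iff `q ∈ q'.facets`; `nd m h c` iff `prod q true y = tube m w z` with `LCell.tube w z ∈ c.facets`; `cl κ c` iff `prod q true y` is in a layer: a `tube m none z`, `z ∈ c.real (st m)`
(`m ∈ κ` not a node), or a corner cell, `z ∈ c.real (st (next m))`.

PROOFS.
`co_sec`: `sec m k` is a facet of `chamber m` only.  No `nd`.  Let `m0` be the column with `tau m0 = k`; by `mem_corner_true` (and `mem_corner_false`: legs are no sectors) `prod (sec m k) true y` is in `corner m0 z` iff `z = ⟨true, true, x, y⟩`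
where `x ^^ eps m0` is the side of the page `m` (`cyc (next m0) m0 m = !cyc m0 (next m0) m`), so for exactly one `z`, and only for `m0` (`tau_inj`).  By `TCell.real_square` there is exactly one `c` with `z ∈ c.real (st (next m0))`,
and exactly one component contains `m0` (`comp_unique`, `mem_compOf`).  So the two cells are `prod (chamber m) true y` and `cl κ c`.
`co_ann`: `ann m x` is a facet of exactly one chamber: `chamber m` if `x = false`, `chamber l`, `rot l = m`, if `x = true`.  `prod (ann m x) true y = tube m none z` with `z = ⟨true, true, x ^^ eps m, y⟩` (unique by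
`tube_inj`).  If `m` is a node, it is a facet of exactly one cell `nd m h c` (`NCell.co_tube`) and of no `cl κ c`; otherwise of no `nd` and of exactly one `cl κ c`: `κ = compOf D m`, `TCell.real_square`.
-/

set_option autoImplicit false

namespace Pool.MP_f18604_gt.LSN

open Pool.MP_f18604_gt.LS

variable {N : ℕ} {D : Diagram N}

private lemma sec_not_rim (m k m' k' : Fin N) (x : Bool) :
    (ECell.sec m k : ECell D) ∉ ECell.rim m' k' x := by
  unfold ECell.rim
  split_ifs <;> simp

private lemma ann_not_rim (m m' k' : Fin N) (t x : Bool) :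
    (ECell.ann m t : ECell D) ∉ ECell.rim m' k' x := by
  unfold ECell.rim
  split_ifs <;> simp

private lemma seg_flat (s : Bool) (m : Fin N) (q : ECell D)
    (h : q ∈ (List.finRange N).flatMap (fun k =>
      if h : k ≠ D.sig m ∧ k ≠ D.tau m then
        if D.side m k = s then [ECell.seg m k h] else []
      else [])) : ∃ k h, q = .seg m k h := by
  rw [List.mem_flatMap] at h
  obtain ⟨k, _, hk⟩ := h
  split_ifs at hk with h1 h2
  · rw [List.mem_singleton] at hk
    exact ⟨k, h1, hk⟩
  · simp at hk
  · simp at hk

private lemma page_sec (m' : Fin N) (s : Bool) (m k : Fin N) :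
    (ECell.sec m k : ECell D) ∉ (ECell.page m' s).facets := by
  intro h
  unfold ECell.facets at h
  rw [List.mem_append, List.mem_append] at h
  rcases h with (h | h) | h
  · simp at h
  · obtain ⟨_, _, h⟩ := seg_flat s m' _ h
    simp at h
  · simp at h

private lemma page_ann (m' : Fin N) (s : Bool) (m : Fin N) (x : Bool) :
    (ECell.ann m x : ECell D) ∉ (ECell.page m' s).facets := by
  intro h
  unfold ECell.facets at h
  rw [List.mem_append, List.mem_append] at h
  rcases h with (h | h) | h
  · simp at h
  · obtain ⟨_, _, h⟩ := seg_flat s m' _ h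
    simp at h
  · simp at h

private lemma sec_mem (m k : Fin N) (q : ECell D) :
    (ECell.sec m k : ECell D) ∈ q.facets ↔ q = .chamber m := by
  cases q with
  | page m' s => exact ⟨fun h => absurd h (page_sec m' s m k), fun h => by simp at h⟩
  | sec m' k' =>
    refine ⟨fun h => ?_, fun h => by simp at h⟩
    unfold ECell.facets at h
    rw [List.mem_append] at h
    rcases h with h | h
    · exact absurd h (sec_not_rim _ _ _ _ _)
    · exact absurd h (sec_not_rim _ _ _ _ _)
  | leg m' e s =>
    simp only [ECell.facets]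
    split_ifs <;> simp
  | chamber m' =>
    unfold ECell.facets
    simp only [List.mem_append, List.mem_cons, List.mem_map, List.mem_finRange, true_and,
      reduceCtorEq, false_or, List.not_mem_nil, ECell.sec.injEq, ECell.chamber.injEq]
    constructor
    · rintro ⟨a, h1, _⟩
      exact h1
    · intro h
      exact ⟨k, h, rfl⟩
  | _ => simp [ECell.facets]

private lemma ann_mem (m : Fin N) (x : Bool) (q : ECell D) :
    (ECell.ann m x : ECell D) ∈ q.facets ↔
      ∃ l, q = .chamber l ∧ ((l = m ∧ x = false) ∨ (rot l = m ∧ x = true)) := by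
  cases q with
  | page m' s => exact ⟨fun h => absurd h (page_ann m' s m x), fun ⟨_, h, _⟩ => by simp at h⟩
  | sec m' k' =>
    refine ⟨fun h => ?_, fun ⟨_, h, _⟩ => by simp at h⟩
    unfold ECell.facets at h
    rw [List.mem_append] at h
    rcases h with h | h
    · exact absurd h (ann_not_rim _ _ _ _ _)
    · exact absurd h (ann_not_rim _ _ _ _ _)
  | leg m' e s =>
    simp only [ECell.facets]
    split_ifs <;> simp
  | chamber m' =>
    unfold ECell.facets
    simp only [List.mem_append, List.mem_cons, List.mem_map, List.mem_finRange, true_and,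
      reduceCtorEq, false_or, List.not_mem_nil, ECell.ann.injEq, ECell.chamber.injEq, or_false,
      exists_false]
    constructor
    · rintro (⟨h1, h2⟩ | ⟨h1, h2⟩)
      · exact ⟨m', rfl, Or.inl ⟨h1.symm, h2⟩⟩
      · exact ⟨m', rfl, Or.inr ⟨h1.symm, h2⟩⟩
    · rintro ⟨l, h1, h2⟩
      subst h1
      rcases h2 with ⟨h2, h3⟩ | ⟨h2, h3⟩
      · exact Or.inl ⟨h2.symm, h3⟩
      · exact Or.inr ⟨h2.symm, h3⟩
  | _ => simp [ECell.facets]

private lemma prod_true_mem (q q' : ECell D) (b : Bool) (y y' : Fin 4) :
    XCell.prod q true y ∈ (XCell.prod q' b y').facets ↔ b = true ∧ y' = y ∧ q ∈ q'.facets := by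
  unfold XCell.facets
  rw [List.mem_append, List.mem_map]
  constructor
  · rintro (h | ⟨r, hr, h⟩)
    · split_ifs at h
      · simp at h
      · simp at h
    · rw [XCell.prod.injEq] at h
      obtain ⟨h1, h2, h3⟩ := h
      subst h1
      exact ⟨h2, h3, hr⟩
  · rintro ⟨rfl, rfl, h⟩
    exact Or.inr ⟨q, h, rfl⟩

private lemma sec_ne_tube (m k m' : Fin N) (b : Bool) (y : Fin 4) (w : Option Bool) (z : SCell) :
    (XCell.prod (.sec m k) b y : XCell D) ≠ XCell.tube m' w z := by
  intro h
  unfold XCell.tube at h
  rw [XCell.prod.injEq] at h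
  have h1 := h.1
  rcases w with _ | e
  · simp only at h1
    split_ifs at h1
  · simp only at h1
    split_ifs at h1

private lemma side_eq (m0 m : Fin N) (s : Bool) :
    (if s then cyc (D.next m0) m0 m else cyc m0 (D.next m0) m) = true ↔
      s = !cyc m0 (D.next m0) m := by
  have h := cyc_swap (next_ne (D := D) m0).symm m
  cases s <;> cases hv : cyc m0 (D.next m0) m <;> simp [h, hv]

theorem co_sec (m k : Fin N) (y : Fin 4) :
    Two fun a : XCell D => XCell.prod (.sec m k) true y ∈ a.facets := by
  obtain ⟨m0, hm0⟩ := D.tau.surjective k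
  set z0 : SCell := ⟨true, true, (!cyc m0 (D.next m0) m) ^^ D.eps m0, y⟩ with hz0
  obtain ⟨c0, hc0, hu0⟩ := TCell.real_square (D.st (D.next m0)) z0 rfl
  refine ⟨.prod (.chamber m) true y, .cl (compOf D m0) c0, by simp, fun a => ?_⟩
  change XCell.prod _ true y ∈ a.facets ↔ _
  cases a with
  | prod q b y' =>
    rw [prod_true_mem, sec_mem]
    simp only [XCell.prod.injEq, reduceCtorEq, or_false]
    constructor
    · rintro ⟨h1, h2, h3⟩
      exact ⟨h3, h1, h2⟩
    · rintro ⟨h3, h1, h2⟩
      exact ⟨h1, h2, h3⟩
  | nd m' h' c =>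
    simp only [reduceCtorEq, or_self, iff_false]
    intro h
    unfold XCell.facets at h
    rw [List.mem_map] at h
    obtain ⟨b, _, hb⟩ := h
    cases b with
    | tube w z => exact sec_ne_tube _ _ _ _ _ _ _ hb.symm
    | nd d => simp [XCell.place] at hb
  | cl κ c =>
    simp only [reduceCtorEq, false_or, XCell.cl.injEq]
    rw [mem_cl]
    constructor
    · rintro (⟨d, _, hd⟩ | ⟨m', hm', hl⟩)
      · simp at hd
      · rw [mem_layer] at hl
        rcases hl with ⟨_, h⟩ | ⟨_, z, _, h⟩ | ⟨z, hz, h⟩
        · simp at h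
        · exact absurd h (sec_ne_tube _ _ _ _ _ _ _)
        · cases hza : z.a with
          | false =>
            rw [mem_corner_false m' z hza] at h
            simp at h
          | true =>
            rw [mem_corner_true m' z hza] at h
            obtain ⟨l, hl, h⟩ := h
            rw [XCell.prod.injEq, ECell.sec.injEq] at h
            obtain ⟨⟨h1, h2⟩, h3, h4⟩ := h
            have h5 : m' = m0 := tau_inj (h2.symm.trans hm0.symm)
            subst h5
            subst h1
            rw [side_eq] at hl
            have h6 : z = z0 := by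
              rw [hz0]
              rcases z with ⟨za, zb, zx, zy⟩
              simp only at hza hl h3 h4 ⊢
              rw [← hl, hza, ← h3, ← h4]
              simp
            refine ⟨comp_unique hm', ?_⟩
            exact hu0 c (h6 ▸ hz)
    · rintro ⟨h1, h2⟩
      subst h1
      subst h2
      refine Or.inr ⟨m0, mem_compOf m0, ?_⟩
      rw [mem_layer]
      refine Or.inr (Or.inr ⟨z0, hc0, ?_⟩)
      rw [mem_corner_true m0 z0 rfl]
      refine ⟨m, ?_, ?_⟩
      · rw [side_eq, hz0]
        simp
      · rw [hm0]

theorem co_ann (m : Fin N) (x : Bool) (y : Fin 4) :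
    Two fun a : XCell D => XCell.prod (.ann m x) true y ∈ a.facets := by
  set z0 : SCell := ⟨true, true, x ^^ D.eps m, y⟩ with hz0
  have ht : (XCell.prod (.ann m x) true y : XCell D) = XCell.tube m none z0 := by
    unfold XCell.tube
    rw [hz0]
    simp
  obtain ⟨mc, hmc⟩ : ∃ mc : Fin N, ∀ l, ((l = m ∧ x = false) ∨ (rot l = m ∧ x = true)) ↔ l = mc := by
    cases x with
    | false => exact ⟨m, fun l => by simp⟩
    | true =>
      obtain ⟨j, hj⟩ := rot_surj m
      refine ⟨j, fun l => ?_⟩
      constructor
      · rintro (⟨_, h⟩ | ⟨h, _⟩)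
        · simp at h
        · exact rot_inj (h.trans hj.symm)
      · rintro rfl
        exact Or.inr ⟨hj, rfl⟩
  have hprod : ∀ (q : ECell D) (b : Bool) (y' : Fin 4),
      XCell.prod (.ann m x) true y ∈ (XCell.prod q b y').facets ↔
        XCell.prod q b y' = XCell.prod (.chamber mc) true y := by
    intro q b y'
    rw [prod_true_mem, ann_mem, XCell.prod.injEq]
    constructor
    · rintro ⟨h1, h2, l, h3, h4⟩
      rw [hmc] at h4
      subst h4
      exact ⟨h3, h1, h2⟩
    · rintro ⟨h3, h1, h2⟩
      exact ⟨h1, h2, mc, h3, (hmc mc).2 rfl⟩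
  have hnd : ∀ (m' : Fin N) (h' : D.node m' = true) (c : NCell (D.par m')),
      XCell.prod (.ann m x) true y ∈ (XCell.nd m' h' c : XCell D).facets ↔
        m' = m ∧ (LCell.tube none z0) ∈ c.facets := by
    intro m' h' c
    rw [ht]
    unfold XCell.facets
    rw [List.mem_map]
    constructor
    · rintro ⟨b, hb, he⟩
      cases b with
      | tube w z =>
        obtain ⟨h1, h2, h3⟩ := tube_inj (D := D) (m := m') (m' := m) he
        subst h2
        subst h3
        exact ⟨h1, hb⟩
      | nd d => 
        have h1 : (XCell.nd m' h' d : XCell D) = XCell.tube m none z0 := he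
        rw [← ht] at h1
        simp at h1
    · rintro ⟨h1, h2⟩
      subst h1
      exact ⟨_, h2, rfl⟩
  have hcl : ∀ (κ : D.Comp) (c : TCell),
      XCell.prod (.ann m x) true y ∈ (XCell.cl κ c : XCell D).facets ↔
        m ∈ κ.1 ∧ D.node m = false ∧ z0 ∈ c.real (D.st m) := by
    intro κ c
    rw [ht, mem_cl]
    constructor
    · rintro (⟨d, _, hd⟩ | ⟨m', hm', hl⟩)
      · rw [← ht] at hd
        simp at hd
      · rw [mem_layer] at hl
        rcases hl with ⟨_, h⟩ | ⟨hn, z, hz, h⟩ | ⟨z, hz, h⟩
        · rw [← ht] at h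
          simp at h
        · obtain ⟨h1, _, h3⟩ := tube_inj h
          subst h1
          subst h3
          exact ⟨hm', hn, hz⟩
        · exact (corner_ne_tube h).elim
    · rintro ⟨h1, h2, h3⟩
      refine Or.inr ⟨m, h1, ?_⟩
      rw [mem_layer]
      exact Or.inr (Or.inl ⟨h2, z0, h3, rfl⟩)
  cases hn : D.node m with
  | true =>
    obtain ⟨b0, hb0⟩ := NCell.co_tube (p := D.par m) z0 rfl
    refine ⟨.prod (.chamber mc) true y, .nd m hn b0, by simp, fun a => ?_⟩
    change XCell.prod _ true y ∈ a.facets ↔ _
    cases a with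
    | prod q b y' =>
      rw [hprod]
      simp
    | nd m' h' c =>
      rw [hnd]
      simp only [reduceCtorEq, false_or, XCell.nd.injEq]
      constructor
      · rintro ⟨h1, h2⟩
        subst h1
        exact ⟨rfl, heq_of_eq ((hb0 c).1 h2)⟩
      · rintro ⟨h1, h2⟩
        subst h1
        exact ⟨rfl, (hb0 c).2 (eq_of_heq h2)⟩
    | cl κ c =>
      rw [hcl]
      simp [hn]
  | false =>
    obtain ⟨c0, hc0, hu0⟩ := TCell.real_square (D.st m) z0 rfl
    refine ⟨.prod (.chamber mc) true y, .cl (compOf D m) c0, by simp, fun a => ?_⟩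
    change XCell.prod _ true y ∈ a.facets ↔ _
    cases a with
    | prod q b y' =>
      rw [hprod]
      simp
    | nd m' h' c =>
      rw [hnd]
      simp only [reduceCtorEq, or_self, iff_false]
      rintro ⟨h1, _⟩
      subst h1
      rw [hn] at h'
      simp at h'
    | cl κ c =>
      rw [hcl]
      simp only [reduceCtorEq, false_or, XCell.cl.injEq]
      constructor
      · rintro ⟨h1, _, h3⟩
        exact ⟨comp_unique h1, hu0 c h3⟩
      · rintro ⟨h1, h2⟩
        subst h1
        subst h2
        exact ⟨mem_compOf m, hn, hc0⟩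

end Pool.MP_f18604_gt.LSN
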