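import Mathlib
import Pool.Agent.Helper7.LSN.ClMem
import Pool.Agent.Helper7.LSN.Corner2

/-!
# LSN-18: cofaces of cells of dimension 3, cells of the nodes and closing cells

PROOFS.
`co_nd`: `nd m h c` is no facet of a `prod`.  It is a facet of `nd m h a` iff `LCell.nd c ∈ a.facets` (`mem_place`, `place_inj`; `nd m' _ _` only for `m' = m`).  It is a facet of `cl κ d` iff `m ∈ κ` and `c = inn (fr m d)` (`mem_cl`,
`mem_layer`, `corner_ne_nd`; `tube` is a `prod`).  If `c` is not of the form `inn`: `NCell.co3`.  If `c = inn d'`: `d'.dim = 2`, so `nd m h (fil d')` is the only one of the first kind (`NCell.co_inn`), and of the second kind there is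
exactly one, `κ = compOf D m` and the unique `d` with `fr m d = d'` (`fr_surj`, `fr_inj`).
`co_cl`: `cl κ c` is a facet of `cl κ d`, `c ∈ d.facets`, only: `TCell.coedge`.
`pure_x`: `prod q false y`: a facet of `prod q true y`.  `prod q true y`, `q.dim ≤ 2`: `q` is a facet of some cell `q'` of the exterior (`up k`: `ax k`; `dn k`: `ax j`, `rot j = k`; `pt m e s`: `leg m e s`; `ax k`: `page m (D.side m k)` with `m = k` as an
element of `Fin N`; `seg m k`: `page m (D.side m k)`; `leg m e s`: `page m s`; `arc m e x`: `ann m x`; `lon m s`: `ann m false`; `page m s`, `sec m k`: `chamber m`; `ann m false`: `chamber m`; `ann m true`: `chamber l`, `rot l = m`), compare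
`LS/Pure.lean`.  `nd m h c`: `NCell.pure`.  `cl κ c`, `c.dim ≤ 1`: a facet of `cl κ d` with `c ∈ d.facets` (`∃ d`, by `decide` over `TCell`).
-/

set_option autoImplicit false

namespace Pool.MP_f18604_gt.LSN

open Pool.MP_f18604_gt.LS

variable {N : ℕ} {D : Diagram N}

private theorem nd_prod {m : Fin N} {h : D.node m = true} {c : NCell (D.par m)} {q : ECell D}
    {b : Bool} {y : Fin 4} (h1 : XCell.nd m h c = XCell.prod q b y) : False := by
  cases h1

private theorem nd_cl {m : Fin N} {h : D.node m = true} {c : NCell (D.par m)} {κ : D.Comp}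
    {d : TCell} (h1 : XCell.nd m h c = XCell.cl κ d) : False := by
  cases h1

private theorem cl_prod {κ : D.Comp} {d : TCell} {q : ECell D}
    {b : Bool} {y : Fin 4} (h1 : XCell.cl κ d = XCell.prod q b y) : False := by
  cases h1

private theorem nd_mem_iff (m : Fin N) (h : D.node m = true) (c : NCell (D.par m)) (a : XCell D) :
    XCell.nd m h c ∈ a.facets ↔
      (∃ a' : NCell (D.par m), a = .nd m h a' ∧ LCell.nd c ∈ a'.facets) ∨
        ∃ κ d, a = .cl κ d ∧ m ∈ κ.1 ∧ c = .inn (D.fr m d) := by
  cases a with
  | prod q b y =>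
    constructor
    · intro h1
      exfalso
      simp only [XCell.facets, List.mem_append, List.mem_map] at h1
      rcases h1 with h1 | ⟨r, _, h1⟩
      · cases b
        · simp at h1
        · simp only [if_true, List.mem_cons, List.not_mem_nil, or_false] at h1
          rcases h1 with h1 | h1 <;> exact nd_prod h1
      · exact nd_prod h1.symm
    · rintro (⟨a', h1, _⟩ | ⟨κ, d, h1, _⟩)
      · exact (nd_prod h1.symm).elim
      · exact (cl_prod h1.symm).elim
  | nd m' h' c' =>
    constructor
    · intro h1
      left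
      simp only [XCell.facets, List.mem_map] at h1
      obtain ⟨l, hl, h2⟩ := h1
      cases l with
      | tube w z => exact (nd_prod h2.symm).elim
      | nd c'' =>
        simp only [XCell.place] at h2
        injection h2 with h3 h4
        subst h3
        rw [heq_iff_eq] at h4
        subst h4
        exact ⟨c', rfl, hl⟩
    · rintro (⟨a', h1, h2⟩ | ⟨κ, d, h1, _⟩)
      · rw [h1]
        simp only [XCell.facets, List.mem_map]
        exact ⟨_, h2, rfl⟩
      · exact (nd_cl h1).elim
  | cl κ d =>
    rw [mem_cl]
    constructor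
    · rintro (⟨d', _, h1⟩ | ⟨m', hm', h1⟩)
      · exact (nd_cl h1).elim
      · right
        rw [mem_layer] at h1
        rcases h1 with ⟨h', h2⟩ | ⟨_, z, _, h2⟩ | ⟨z, _, h2⟩
        · injection h2 with h3 h4
          subst h3
          rw [heq_iff_eq] at h4
          exact ⟨κ, d, rfl, hm', h4⟩
        · exact (nd_prod h2).elim
        · exact (corner_ne_nd h2).elim
    · rintro (⟨a', h1, h2⟩ | ⟨κ', d', h1, hm, h2⟩)
      · exact (nd_cl h1.symm).elim
      · injection h1 with h3 h4
        subst h3
        subst h4
        refine Or.inr ⟨m, hm, ?_⟩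
        rw [mem_layer, h2]
        exact Or.inl ⟨h, rfl⟩

private theorem cl_mem_iff (κ : D.Comp) (c : TCell) (a : XCell D) :
    XCell.cl κ c ∈ a.facets ↔ ∃ d, a = .cl κ d ∧ c ∈ d.facets := by
  cases a with
  | prod q b y =>
    constructor
    · intro h1
      exfalso
      simp only [XCell.facets, List.mem_append, List.mem_map] at h1
      rcases h1 with h1 | ⟨r, _, h1⟩
      · cases b
        · simp at h1
        · simp only [if_true, List.mem_cons, List.not_mem_nil, or_false] at h1
          rcases h1 with h1 | h1 <;> exact cl_prod h1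
      · exact cl_prod h1.symm
    · rintro ⟨d, h1, _⟩
      exact (cl_prod h1.symm).elim
  | nd m' h' c' =>
    constructor
    · intro h1
      exfalso
      simp only [XCell.facets, List.mem_map] at h1
      obtain ⟨l, hl, h2⟩ := h1
      cases l with
      | tube w z => exact cl_prod h2.symm
      | nd c'' => exact nd_cl h2
    · rintro ⟨d, h1, _⟩
      exact (nd_cl h1).elim
  | cl κ' d =>
    rw [mem_cl]
    constructor
    · rintro (⟨d', hd', h1⟩ | ⟨m', hm', h1⟩)
      · injection h1 with h2 h3
        subst h2
        subst h3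
        exact ⟨d, rfl, hd'⟩
      · exfalso
        rw [mem_layer] at h1
        rcases h1 with ⟨h', h2⟩ | ⟨_, z, _, h2⟩ | ⟨z, _, h2⟩
        · exact nd_cl h2.symm
        · exact cl_prod h2
        · exact corner_ne_cl h2
    · rintro ⟨d', h1, h2⟩
      injection h1 with h3 h4
      subst h3
      subst h4
      exact Or.inl ⟨c, h2, rfl⟩

private theorem prod_mem {q t : ECell D} {b : Bool} {y : Fin 4} (h : q ∈ t.facets) :
    XCell.prod q b y ∈ (XCell.prod t b y : XCell D).facets := by
  simp only [XCell.facets, List.mem_append, List.mem_map]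
  exact Or.inr ⟨q, h, rfl⟩

theorem co_nd (m : Fin N) (h : D.node m = true) (c : NCell (D.par m)) (hc : c.dim = 3) :
    Two fun a : XCell D => XCell.nd m h c ∈ a.facets := by
  by_cases hi : ∃ d', c = .inn d'
  · obtain ⟨d', rfl⟩ := hi
    have hd : d'.dim = 2 := by
      have h1 : d'.dim + 1 = 3 := hc
      omega
    obtain ⟨d, hfr⟩ := fr_surj (D := D) m d'
    refine ⟨.nd m h (.fil d'), .cl (compOf D m) d, fun h1 => nd_cl h1, fun t => ?_⟩
    beta_reduce
    rw [nd_mem_iff]
    constructor
    · rintro (⟨a', rfl, h2⟩ | ⟨κ, e, rfl, h2, h3⟩)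
      · left
        rw [(NCell.co_inn d' hd a').1 h2]
      · right
        injection h3 with h4
        rw [← hfr] at h4
        rw [comp_unique h2, fr_inj h4]
    · rintro (rfl | rfl)
      · exact Or.inl ⟨_, rfl, (NCell.co_inn d' hd _).2 rfl⟩
      · exact Or.inr ⟨_, _, rfl, mem_compOf m, by rw [hfr]⟩
  · obtain ⟨a1, a2, h12, hP⟩ := NCell.co3 c hc fun d' h1 => hi ⟨d', h1⟩
    refine ⟨.nd m h a1, .nd m h a2, fun h1 => ?_, fun t => ?_⟩
    · injection h1 with h2 h3
      exact h12 h3
    · beta_reduce
      rw [nd_mem_iff]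
      constructor
      · rintro (⟨a', rfl, h2⟩ | ⟨κ, e, rfl, h2, h3⟩)
        · rcases (hP a').1 h2 with rfl | rfl
          · exact Or.inl rfl
          · exact Or.inr rfl
        · exact absurd ⟨_, h3⟩ hi
      · rintro (rfl | rfl)
        · exact Or.inl ⟨_, rfl, (hP _).2 (Or.inl rfl)⟩
        · exact Or.inl ⟨_, rfl, (hP _).2 (Or.inr rfl)⟩

theorem co_cl (κ : D.Comp) (c : TCell) (hc : c.dim = 1) :
    Two fun a : XCell D => XCell.cl κ c ∈ a.facets := by
  obtain ⟨a1, a2, h12, hP⟩ := TCell.coedge c hc
  refine ⟨.cl κ a1, .cl κ a2, fun h1 => ?_, fun t => ?_⟩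
  · injection h1 with h2 h3
    exact h12 h3
  · beta_reduce
    rw [cl_mem_iff]
    constructor
    · rintro ⟨d, rfl, h2⟩
      rcases (hP d).1 h2 with rfl | rfl
      · exact Or.inl rfl
      · exact Or.inr rfl
    · rintro (rfl | rfl)
      · exact ⟨_, rfl, (hP _).2 (Or.inl rfl)⟩
      · exact ⟨_, rfl, (hP _).2 (Or.inr rfl)⟩

theorem pure_x (b : XCell D) (h : b.dim < 4) : ∃ a : XCell D, b ∈ a.facets := by
  cases b with
  | nd m hm c =>
    obtain ⟨a, ha⟩ := NCell.pure c h
    refine ⟨.nd m hm a, ?_⟩
    simp only [XCell.facets, List.mem_map]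
    exact ⟨_, ha, rfl⟩
  | cl κ c =>
    have h1 : ∀ c : TCell, c.dim + 2 < 4 → ∃ d : TCell, c ∈ d.facets := by decide
    obtain ⟨d, hd⟩ := h1 c h
    exact ⟨.cl κ d, (cl_mem_iff κ c _).2 ⟨d, rfl, hd⟩⟩
  | prod q b y =>
    cases b with
    | false =>
      refine ⟨.prod q true y, ?_⟩
      simp [XCell.facets]
    | true =>
      cases q with
      | up k => exact ⟨.prod (.ax k) true y, prod_mem (by simp [ECell.facets])⟩
      | dn k =>
        obtain ⟨j, rfl⟩ := rot_surj k
        exact ⟨.prod (.ax j) true y, prod_mem (by simp [ECell.facets])⟩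
      | pt m e s => exact ⟨.prod (.leg m e s) true y, prod_mem (by simp [ECell.facets])⟩
      | ax k =>
        refine ⟨.prod (.page k (D.side k k)) true y, prod_mem ?_⟩
        simp only [ECell.facets, List.mem_append, List.mem_map, List.mem_filter]
        exact Or.inl (Or.inl ⟨k, ⟨List.mem_finRange k, by simp⟩, rfl⟩)
      | seg m k hk =>
        refine ⟨.prod (.page m (D.side m k)) true y, prod_mem ?_⟩
        simp only [ECell.facets, List.mem_append, List.mem_flatMap]
        refine Or.inl (Or.inr ⟨k, List.mem_finRange k, ?_⟩)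
        rw [dif_pos hk, if_pos rfl]
        simp
      | leg m e s =>
        refine ⟨.prod (.page m s) true y, prod_mem ?_⟩
        simp only [ECell.facets, List.mem_append]
        right
        cases e <;> simp
      | arc m e x =>
        refine ⟨.prod (.ann m x) true y, prod_mem ?_⟩
        cases e <;> simp [ECell.facets]
      | lon m s =>
        refine ⟨.prod (.ann m false) true y, prod_mem ?_⟩
        cases s <;> simp [ECell.facets]
      | page m s =>
        refine ⟨.prod (.chamber m) true y, prod_mem ?_⟩
        cases s <;> simp [ECell.facets]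
      | sec m k =>
        refine ⟨.prod (.chamber m) true y, prod_mem ?_⟩
        simp only [ECell.facets, List.mem_append, List.mem_map]
        exact Or.inr ⟨k, List.mem_finRange k, rfl⟩
      | ann m x =>
        cases x with
        | false => exact ⟨.prod (.chamber m) true y, prod_mem (by simp [ECell.facets])⟩
        | true =>
          obtain ⟨j, rfl⟩ := rot_surj m
          exact ⟨.prod (.chamber j) true y, prod_mem (by simp [ECell.facets])⟩
      | chamber m =>
        exfalso
        simp [XCell.dim, ECell.dim] at h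

end Pool.MP_f18604_gt.LSN
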