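import Mathlib
import Pool.Agent.Helper7.LSN.Orb

/-!
# LSN-06: diamonds in the product with the circle

PROOF of `prod_dia`.
`b = false`: the facets of `prod q false y` are `prod r false y`, `r ∈ q.facets`, so the claim is `e_dia` (injectivity of `prod`).
`b = true`: the facets are `prod q false y`, `prod q false (y + 1)` and `prod r true y`, `r ∈ q.facets`.
* If `x = prod s true y'` then it is a facet of `prod r true y` only, `y' = y`, `s ∈ r.facets`: `e_dia`.
* If `x = prod r false y'`: it is a facet of `prod q false y'` (`r ∈ q.facets`, `y' = y` or `y' = y + 1`) or of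
  `prod r' true y` with `r' ∈ q.facets`, which means `r' = r` and `y' ∈ {y, y + 1}` (dimension: `r ∈ r'.facets` gives only cells `prod _ true y`).  In all cases `r ∈ q.facets` and `y' ∈ {y, y + 1}`, and
  the two cells are `prod q false y'` and `prod r true y`.  (`y ≠ y + 1` in `Fin 4`.)
`prod_edge`: `b = false`: `e_edge`; `b = true`, `q.dim = 0`: the facets are the two ends (`q.facets = []`, cases).
-/

set_option autoImplicit false

namespace Pool.MP_f18604_gt.LSN

open Pool.MP_f18604_gt.LS

variable {N : ℕ} {D : Diagram N}

private theorem mem_prod_false (q : ECell D) (y : Fin 4) (x : XCell D) :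
    x ∈ (XCell.prod q false y).facets ↔ ∃ r ∈ q.facets, x = .prod r false y := by
  simp only [XCell.facets, Bool.false_eq_true, if_false, List.nil_append, List.mem_map]
  constructor
  · rintro ⟨r, hr, rfl⟩
    exact ⟨r, hr, rfl⟩
  · rintro ⟨r, hr, rfl⟩
    exact ⟨r, hr, rfl⟩

private theorem mem_prod_true (q : ECell D) (y : Fin 4) (x : XCell D) :
    x ∈ (XCell.prod q true y).facets ↔ x = .prod q false y ∨ x = .prod q false (y + 1) ∨
      ∃ r ∈ q.facets, x = .prod r true y := by
  simp only [XCell.facets, if_true, List.mem_append, List.mem_cons, List.not_mem_nil, or_false,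
    List.mem_map, or_assoc]
  refine or_congr_right (or_congr_right ?_)
  constructor
  · rintro ⟨r, hr, rfl⟩
    exact ⟨r, hr, rfl⟩
  · rintro ⟨r, hr, rfl⟩
    exact ⟨r, hr, rfl⟩

private theorem y_ne (y : Fin 4) : y ≠ y + 1 := by
  revert y; decide

theorem prod_dia (q : ECell D) (b : Bool) (y : Fin 4) (x : XCell D)
    (hx : ∃ r ∈ (XCell.prod q b y).facets, x ∈ r.facets) :
    Two fun r => r ∈ (XCell.prod q b y).facets ∧ x ∈ r.facets := by
  cases b
  · obtain ⟨r, hr, hxr⟩ := hx
    obtain ⟨r', hr', rfl⟩ := (mem_prod_false q y r).1 hr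
    obtain ⟨s, hs, rfl⟩ := (mem_prod_false r' y x).1 hxr
    obtain ⟨u, v, huv, h⟩ := e_dia q s ⟨r', hr', hs⟩
    refine ⟨.prod u false y, .prod v false y, fun h' => huv ?_, fun t => ?_⟩
    · injection h'
    · constructor
      · rintro ⟨h1, h2⟩
        obtain ⟨t', ht', rfl⟩ := (mem_prod_false q y t).1 h1
        obtain ⟨s', hs', he⟩ := (mem_prod_false t' y _).1 h2
        have hs1 : s = s' := by injection he
        subst hs1
        rcases (h t').1 ⟨ht', hs'⟩ with rfl | rfl
        · exact Or.inl rfl
        · exact Or.inr rfl
      · rintro (rfl | rfl)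
        · have := (h u).2 (Or.inl rfl)
          exact ⟨(mem_prod_false q y _).2 ⟨u, this.1, rfl⟩,
            (mem_prod_false u y _).2 ⟨s, this.2, rfl⟩⟩
        · have := (h v).2 (Or.inr rfl)
          exact ⟨(mem_prod_false q y _).2 ⟨v, this.1, rfl⟩,
            (mem_prod_false v y _).2 ⟨s, this.2, rfl⟩⟩
  · -- the two kinds of `x`
    have key : (∃ s r, r ∈ q.facets ∧ s ∈ r.facets ∧ x = XCell.prod s true y) ∨
        (∃ r ∈ q.facets, ∃ y', (y' = y ∨ y' = y + 1) ∧ x = XCell.prod r false y') := by
      obtain ⟨r, hr, hxr⟩ := hx
      rcases (mem_prod_true q y r).1 hr with rfl | rfl | ⟨r', hr', rfl⟩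
      · obtain ⟨s, hs, rfl⟩ := (mem_prod_false q _ x).1 hxr
        exact Or.inr ⟨s, hs, y, Or.inl rfl, rfl⟩
      · obtain ⟨s, hs, rfl⟩ := (mem_prod_false q _ x).1 hxr
        exact Or.inr ⟨s, hs, y + 1, Or.inr rfl, rfl⟩
      · rcases (mem_prod_true r' y x).1 hxr with rfl | rfl | ⟨s, hs, rfl⟩
        · exact Or.inr ⟨r', hr', y, Or.inl rfl, rfl⟩
        · exact Or.inr ⟨r', hr', y + 1, Or.inr rfl, rfl⟩
        · exact Or.inl ⟨s, r', hr', hs, rfl⟩
    rcases key with ⟨s, r, hr, hs, rfl⟩ | ⟨r, hr, y', hy', rfl⟩
    · obtain ⟨u, v, huv, h⟩ := e_dia q s ⟨r, hr, hs⟩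
      refine ⟨.prod u true y, .prod v true y, fun h' => huv ?_, fun t => ?_⟩
      · injection h'
      · constructor
        · rintro ⟨h1, h2⟩
          rcases (mem_prod_true q y t).1 h1 with rfl | rfl | ⟨t', ht', rfl⟩
          · obtain ⟨s', hs', he⟩ := (mem_prod_false q _ _).1 h2
            injection he with _ hb _
            exact absurd hb (by decide)
          · obtain ⟨s', hs', he⟩ := (mem_prod_false q _ _).1 h2
            injection he with _ hb _
            exact absurd hb (by decide)
          · rcases (mem_prod_true t' y _).1 h2 with he | he | ⟨s', hs', he⟩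
            · injection he with _ hb _
              exact absurd hb (by decide)
            · injection he with _ hb _
              exact absurd hb (by decide)
            · have hs1 : s = s' := by injection he
              subst hs1
              rcases (h t').1 ⟨ht', hs'⟩ with rfl | rfl
              · exact Or.inl rfl
              · exact Or.inr rfl
        · rintro (rfl | rfl)
          · have := (h u).2 (Or.inl rfl)
            exact ⟨(mem_prod_true q y _).2 (Or.inr (Or.inr ⟨u, this.1, rfl⟩)),
              (mem_prod_true u y _).2 (Or.inr (Or.inr ⟨s, this.2, rfl⟩))⟩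
          · have := (h v).2 (Or.inr rfl)
            exact ⟨(mem_prod_true q y _).2 (Or.inr (Or.inr ⟨v, this.1, rfl⟩)),
              (mem_prod_true v y _).2 (Or.inr (Or.inr ⟨s, this.2, rfl⟩))⟩
    · refine ⟨.prod q false y', .prod r true y, fun h' => ?_, fun t => ?_⟩
      · injection h' with _ hb _
        exact absurd hb (by decide)
      · constructor
        · rintro ⟨h1, h2⟩
          rcases (mem_prod_true q y t).1 h1 with rfl | rfl | ⟨t', ht', rfl⟩
          · obtain ⟨s', hs', he⟩ := (mem_prod_false q _ _).1 h2
            injection he with _ _ hb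
            subst hb
            exact Or.inl rfl
          · obtain ⟨s', hs', he⟩ := (mem_prod_false q _ _).1 h2
            injection he with _ _ hb
            subst hb
            exact Or.inl rfl
          · rcases (mem_prod_true t' y _).1 h2 with he | he | ⟨s', hs', he⟩
            · injection he with hb _ _
              subst hb
              exact Or.inr rfl
            · injection he with hb _ _
              subst hb
              exact Or.inr rfl
            · injection he with _ hb _
              exact absurd hb (by decide)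
        · rintro (rfl | rfl)
          · refine ⟨(mem_prod_true q y _).2 ?_, (mem_prod_false q y' _).2 ⟨r, hr, rfl⟩⟩
            rcases hy' with rfl | rfl
            · exact Or.inl rfl
            · exact Or.inr (Or.inl rfl)
          · refine ⟨(mem_prod_true q y _).2 (Or.inr (Or.inr ⟨r, hr, rfl⟩)),
              (mem_prod_true r y _).2 ?_⟩
            rcases hy' with rfl | rfl
            · exact Or.inl rfl
            · exact Or.inr (Or.inl rfl)

theorem prod_edge (q : ECell D) (b : Bool) (y : Fin 4) (h : (XCell.prod q b y).dim = 1) :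
    Two fun r => r ∈ (XCell.prod q b y).facets := by
  cases b
  · have hq : q.dim = 1 := by simpa [XCell.dim] using h
    obtain ⟨u, v, huv, h1⟩ := e_edge q hq
    refine ⟨.prod u false y, .prod v false y, fun h' => huv ?_, fun t => ?_⟩
    · injection h'
    · constructor
      · intro ht
        obtain ⟨t', ht', rfl⟩ := (mem_prod_false q y t).1 ht
        rcases (h1 t').1 ht' with rfl | rfl
        · exact Or.inl rfl
        · exact Or.inr rfl
      · rintro (rfl | rfl)
        · exact (mem_prod_false q y _).2 ⟨u, (h1 u).2 (Or.inl rfl), rfl⟩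
        · exact (mem_prod_false q y _).2 ⟨v, (h1 v).2 (Or.inr rfl), rfl⟩
  · have hq : q.dim = 0 := by simpa [XCell.dim] using h
    refine ⟨.prod q false y, .prod q false (y + 1), fun h' => y_ne y ?_, fun t => ?_⟩
    · injection h'
    · refine (mem_prod_true q y t).trans ?_
      constructor
      · rintro (h1 | h1 | ⟨r, hr, _⟩)
        · exact Or.inl h1
        · exact Or.inr h1
        · have := e_dim q r hr
          omega
      · rintro (h1 | h1)
        · exact Or.inl h1
        · exact Or.inr (Or.inl h1)

end Pool.MP_f18604_gt.LSN
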