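import Mathlib
import Pool.Agent.Helper7.LSN.ProdDia
import Pool.Agent.Helper7.LSN.ClDia
import Pool.Agent.Helper7.LSN.CoA
import Pool.Agent.Helper7.LSN.CoB
import Pool.Agent.Helper7.LSN.CoC

/-!
# LSN-19: the certificate

PROOF.  `x_dim` (`grade`): cases on `a`: `prod`: `e_dim`; `nd`: `mem_place`, `place_dim`, `LCell.dim_facets`; `cl`: `mem_cl`, `mem_layer`: `TCell.dim_facets`; `fr_dim`; `tube_dim` and `TCell.real_dim`; a corner cell of `z` has dimension
`z.dim + 1` (`mem_corner_false`, `mem_corner_true`).  `dim_le`: cases (`TCell.dim ≤ 2` by `decide`).  `edge`: `prod_edge`, `nd_edge`; no `cl` has dimension 1.  `diamond`: `prod_dia`, `nd_dia`, `cl_dia`.  `pure`: `pure_x`.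
`closed`: cases on `b` of dimension 3: `prod (chamber m) false y`, `prod q true y` with `q.dim = 2`, `co_nd`, `co_cl`.
-/

set_option autoImplicit false

namespace Pool.MP_f18604_gt.LSN

open Pool.MP_f18604_gt.LS

variable {N : ℕ} {D : Diagram N}

private theorem ct_corner_dim (m : Fin N) (z : SCell) (x : XCell D)
    (h : x ∈ (XCell.corner m z : List (XCell D))) : x.dim = z.dim + 1 := by
  rcases hza : z.a with _ | _
  · have hz : z.dim = if z.b then 1 else 0 := by
      unfold SCell.dim
      rw [hza]
      simp
    rcases (mem_corner_false m z hza x).1 h with rfl | rfl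
    · rw [hz]
      simp only [XCell.dim, ECell.dim]
      omega
    · rw [hz]
      simp only [XCell.dim, ECell.dim]
      omega
  · have hz : z.dim = 1 + if z.b then 1 else 0 := by
      unfold SCell.dim
      rw [hza]
      simp
    obtain ⟨l, _, rfl⟩ := (mem_corner_true m z hza x).1 h
    rw [hz]
    simp only [XCell.dim, ECell.dim]
    omega

theorem x_dim (a b : XCell D) (h : b ∈ a.facets) : a.dim = b.dim + 1 := by
  cases a with
  | prod q bb y =>
    simp only [XCell.facets, List.mem_append, List.mem_map] at h
    rcases h with h | ⟨r, hr, rfl⟩
    · cases bb with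
      | false => simp at h
      | true =>
        simp only [if_true, List.mem_cons, List.not_mem_nil, or_false] at h
        rcases h with rfl | rfl <;> simp [XCell.dim]
    · have h1 := e_dim q r hr
      simp only [XCell.dim]
      omega
  | nd m hm c =>
    have h' : b ∈ c.facets.map (XCell.place m hm) := h
    obtain ⟨d, hd, rfl⟩ := List.mem_map.1 h'
    have h1 := LCell.dim_facets (.nd c) d hd
    rw [place_dim]
    exact h1
  | cl κ c =>
    rcases (mem_cl κ c b).1 h with ⟨d, hd, rfl⟩ | ⟨m, _, hm⟩
    · have h1 := TCell.dim_facets c d hd
      simp only [XCell.dim]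
      omega
    · rcases (mem_layer m c b).1 hm with ⟨hn, rfl⟩ | ⟨_, z, hz, rfl⟩ | ⟨z, hz, hx⟩
      · have h1 := fr_dim (D := D) m c
        simp only [XCell.dim, NCell.dim]
        omega
      · have h1 := tube_dim (D := D) m none z
        have h2 := TCell.real_dim (D.st m) c z hz
        simp only at h1
        rw [h1, h2]
        rfl
      · have h1 := ct_corner_dim m z b hx
        have h2 := TCell.real_dim (D.st (D.next m)) c z hz
        rw [h1, h2]
        rfl

private theorem ct_tcell_dim : ∀ c : TCell, c.dim ≤ 2 := by decide

private theorem ct_closed (b : XCell D) (hb : b.dim = 3) :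
    Two fun a : XCell D => b ∈ a.facets := by
  cases b with
  | prod q bb y =>
    cases bb with
    | false =>
      have hq : q.dim = 3 := hb
      cases q with
      | chamber m => exact co_chamber m y
      | _ => exact absurd hq (by simp [ECell.dim])
    | true =>
      have hq : q.dim = 2 := by
        have h' : q.dim + 1 = 3 := hb
        omega
      cases q with
      | page m s => exact co_page m s y
      | sec m k => exact co_sec m k y
      | ann m x => exact co_ann m x y
      | _ => exact absurd hq (by simp [ECell.dim])
  | nd m h c => exact co_nd m h c hb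
  | cl κ c =>
    have hc : c.dim = 1 := by
      have h' : c.dim + 2 = 3 := hb
      omega
    exact co_cl κ c hc

theorem closedThin : ClosedThin (XCell.facets (D := D)) XCell.dim where
  grade a b h := x_dim a b h
  dim_le a := by
    cases a with
    | prod q bb y => cases q <;> cases bb <;> simp [XCell.dim, ECell.dim]
    | nd m h c =>
      cases c with
      | apex => simp [XCell.dim, NCell.dim]
      | star c hc =>
        have := ct_tcell_dim c
        simp only [XCell.dim, NCell.dim]
        omega
      | rad e c =>
        have := ct_tcell_dim c
        simp only [XCell.dim, NCell.dim]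
        omega
      | tri c =>
        have := ct_tcell_dim c
        simp only [XCell.dim, NCell.dim]
        omega
      | inn c =>
        have := ct_tcell_dim c
        simp only [XCell.dim, NCell.dim]
        omega
      | fil c =>
        have := ct_tcell_dim c
        simp only [XCell.dim, NCell.dim]
        omega
    | cl κ c =>
      have := ct_tcell_dim c
      simp only [XCell.dim]
      omega
  edge a h := by
    cases a with
    | prod q bb y => exact prod_edge q bb y h
    | nd m hm c => exact nd_edge m hm c h
    | cl κ c =>
      exfalso
      have h' : c.dim + 2 = 1 := h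
      omega
  diamond a c h := by
    cases a with
    | prod q bb y => exact prod_dia q bb y c h
    | nd m hm c' => exact nd_dia m hm c' c h
    | cl κ c' => exact cl_dia κ c' c h
  pure b h := pure_x b h
  closed b h := ct_closed b h

end Pool.MP_f18604_gt.LSN
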