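import Mathlib
import Pool.Agent.Helper7.LSN.ToLS
import Pool.Agent.Helper7.LS.Marks

/-!
# LSN-21: the two marks of a row (from LS)
-/

set_option autoImplicit false

namespace Pool.MP_f18604_gt.LSN

open Pool.MP_f18604_gt.LS

namespace Diagram

variable {N : ℕ} (D : Diagram N)

/-- The end which is at the right mark of row `k`. -/
def rend (k : Fin N) : Bool := D.toLS.rend k

/-- The column of the right mark of row `k`. -/
def rcol (k : Fin N) : Fin N := D.toLS.rcol k

/-- The column of the left mark of row `k`. -/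
def lcol (k : Fin N) : Fin N := D.toLS.lcol k

theorem row_rcol (k : Fin N) : D.row (D.rcol k) (D.rend k) = k := D.toLS.row_rcol k

theorem row_lcol (k : Fin N) : D.row (D.lcol k) (!D.rend k) = k := D.toLS.row_lcol k

theorem lcol_lt (k : Fin N) : D.lcol k < D.rcol k := D.toLS.lcol_lt k

theorem mark_cases (m : Fin N) (e : Bool) :
    (m = D.lcol (D.row m e) ∧ e = !D.rend (D.row m e)) ∨
      (m = D.rcol (D.row m e) ∧ e = D.rend (D.row m e)) := D.toLS.mark_cases m e

theorem row_ne (m : Fin N) (e : Bool) : D.row m e ≠ D.row m !e := D.toLS.row_ne m e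

theorem crosses_iff (m : Fin N) (s : Bool) (k : Fin N) :
    D.Crosses m s k ↔ D.side m k = s ∧ D.lcol k < m ∧ m < D.rcol k := D.toLS.crosses_iff m s k

/-- A row which has no mark in column `m`. -/
theorem not_mark {m k : Fin N} (h : m ≠ D.lcol k) (h' : m ≠ D.rcol k) :
    k ≠ D.sig m ∧ k ≠ D.tau m := D.toLS.not_mark h h'

end Diagram

end Pool.MP_f18604_gt.LSN
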