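import Mathlib
import Pool.Agent.Helper7.LS.Perc
import Pool.Agent.Helper7.LSN.Marks
import Pool.Agent.Helper7.LSN.Cert

/-!
# LSN-22: the spanning tree and the free edges

`D` has `n + 1` columns; the root is the vertex `up (last)` at the vertex `0` of `S^1`.  `parE q`, `parV q` are the edge to the parent and the
parent of a vertex `q` of the exterior, and `rkQ q` its rank.  Over the other vertices `y` of `S^1` a vertex is joined to its copy over `y - 1`.  The vertices of a node are joined to the end `false` of the arc.

PROOFS (compare `LS/Tree.lean`, the part about the exterior is the same).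
`parX_spec`: cases on the vertex.  `prod q false y`, `y ≠ 0`: the edge `prod q true (y - 1)` has the facets `prod q false (y - 1)`, `prod q false (y - 1 + 1) = prod q false y` only (`q.facets = []`), `(y - 1).val + 1 = y.val` (`decide`).  `y = 0`: as in LS: `up k` with `k ≠ last`: `rot k = k + 1`
as a number, rank `4 (n - k)` against `4 (n - k - 1) + 3`; `dn k`: `leg (rcol k) (rend k) (!rend k)` has the facets `pt ..`, `dn (row ..) = dn k` (`row_rcol`); `pt m e s`: if `s = e` the edge `leg m e s` ends at `up (row m e)`; otherwise
`arc m e _` joins `pt m e false` and `pt m e true`.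
`nd m h apex`: `NCell.rad false (v false true)` has the facets `tube (some false) ⟨false, false, false, 2⟩`, `apex` (the vertex `v false true` is collapsed for both parities).  `nd m h (star c _)`, `c = v x y`: `rad false c` has the facets
`tube (some false) ⟨false, false, x, dbl y⟩`, `star c`.  The rank of a vertex of the exterior is at most `4 n + 3 + 3`.
The theorem `gradient_of_known` is `LS.exists_gradient` as in `LS/Tree.lean`, with `x_dim`.
-/

set_option autoImplicit false

namespace Pool.MP_f18604_gt.LSN

open Pool.MP_f18604_gt.LS

variable {n : ℕ} (D : Diagram (n + 1))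

/-- The side on which the half meridian at the end `e` of arc `m` belongs to the tree: it faces the outside of the
row (back at the left mark, front at the right mark). -/
def outx (m : Fin (n + 1)) (e : Bool) : Bool := decide (m = D.lcol (D.row m e))

variable {D} in
/-- The edge to the parent. -/
def parE : ECell D → ECell D
  | .up k => .ax k
  | .dn k => .leg (D.rcol k) (D.rend k) (!D.rend k)
  | .pt m e s => if s = e then .leg m e s else .arc m e (outx D m e)
  | q => q

variable {D} in
/-- The parent. -/
def parV : ECell D → ECell D
  | .up k => .dn (rot k)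
  | .dn k => .pt (D.rcol k) (D.rend k) (!D.rend k)
  | .pt m e s => if s = e then .up (D.row m e) else .pt m e e
  | q => q

variable {D} in
/-- The rank of a vertex of the exterior. -/
def rkQ : ECell D → ℕ
  | .up k => 4 * (n - k.val)
  | .dn k => 4 * (n - k.val) + 3
  | .pt m e s => 4 * (n - (D.row m e).val) + (if s = e then 1 else 2)
  | _ => 0

/-- The root. -/
def root : XCell D := .prod (.up (Fin.last n)) false 0

variable {D} in
/-- The edge to the parent, in `X`. -/
def parEX : XCell D → XCell D
  | .prod q false y => if y = 0 then .prod (parE q) false 0 else .prod q true (y - 1)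
  | .nd m h .apex => .nd m h (.rad false (.v false true))
  | .nd m h (.star c _) => .nd m h (.rad false c)
  | x => x

variable {D} in
/-- The parent, in `X`. -/
def parVX : XCell D → XCell D
  | .prod q false y => if y = 0 then .prod (parV q) false 0 else .prod q false (y - 1)
  | .nd m _ .apex => .tube m (some false) ⟨false, false, false, 2⟩
  | .nd m _ (.star (.v x y) _) => .tube m (some false) ⟨false, false, x, TCell.dbl y⟩
  | x => x

variable {D} in
/-- The rank of a vertex of `X`. -/
def rkX : XCell D → ℕ
  | .prod q _ y => rkQ q + y.val
  | _ => 4 * n + 7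

/-- The free edges: the tree edges and one half meridian for every seed. -/
def Free (S : Finset (Fin (n + 1))) : Set (XCell D) :=
  {e | ∃ v : XCell D, v.dim = 0 ∧ v ≠ root D ∧ e = parEX v} ∪
    {e | ∃ k ∈ S, e = .prod (.arc (D.lcol k) (!D.rend k) false) false 0}

/-- The known cells. -/
def Kn (S : Finset (Fin (n + 1))) (a : XCell D) : Prop := Known XCell.facets (Free D S) a

variable {D} in
private theorem par_e (q : ECell D) (h0 : q.dim = 0) (h : q ≠ .up (Fin.last n)) :
    q ∈ (parE q).facets ∧ (∀ b ∈ (parE q).facets, b = q ∨ b = parV q) ∧ rkQ (parV q) < rkQ q := by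
  cases q with
  | up k =>
    refine ⟨?_, fun b hb => ?_, ?_⟩
    · exact List.mem_cons_self
    · have hb' : b ∈ [ECell.up k, ECell.dn (rot k)] := hb
      simp only [List.mem_cons, List.not_mem_nil, or_false] at hb'
      exact hb'
    · show 4 * (n - (rot k).val) + 3 < 4 * (n - k.val)
      have hk : k.val < n := by
        have h1 := k.isLt
        rcases Nat.lt_or_ge k.val n with h2 | h2
        · exact h2
        · exfalso
          apply h
          have h3 : k = Fin.last n := Fin.ext (by rw [Fin.val_last]; omega)
          rw [h3]
      have h2 : (rot k).val = k.val + 1 := by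
        show (k.val + 1) % (n + 1) = k.val + 1
        exact Nat.mod_eq_of_lt (by omega)
      rw [h2]
      omega
  | dn k =>
    have hE : (parE (ECell.dn k : ECell D)).facets =
        [ECell.pt (D.rcol k) (D.rend k) (!D.rend k), ECell.dn k] := by
      show [ECell.pt (D.rcol k) (D.rend k) (!D.rend k),
        if (!D.rend k) = D.rend k then ECell.up (D.row (D.rcol k) (D.rend k))
          else ECell.dn (D.row (D.rcol k) (D.rend k))] = _
      rw [if_neg (by cases D.rend k <;> simp), D.row_rcol]
    rw [hE]
    refine ⟨by simp, fun b hb => ?_, ?_⟩
    · simp only [List.mem_cons, List.not_mem_nil, or_false] at hb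
      exact hb.symm
    · show 4 * (n - (D.row (D.rcol k) (D.rend k)).val) + (if (!D.rend k) = D.rend k then 1 else 2) <
        4 * (n - k.val) + 3
      rw [if_neg (by cases D.rend k <;> simp), D.row_rcol]
      omega
  | pt m e s =>
    by_cases hs : s = e
    · have hE : parE (ECell.pt m e s : ECell D) = ECell.leg m e s := by
        show (if s = e then ECell.leg m e s else ECell.arc m e (outx D m e)) = _
        rw [if_pos hs]
      have hV : parV (ECell.pt m e s : ECell D) = ECell.up (D.row m e) := by
        show (if s = e then ECell.up (D.row m e) else ECell.pt m e e) = _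
        rw [if_pos hs]
      have hB : (ECell.leg m e s : ECell D).facets = [ECell.pt m e s, ECell.up (D.row m e)] := by
        show [ECell.pt m e s, if s = e then ECell.up (D.row m e) else ECell.dn (D.row m e)] = _
        rw [if_pos hs]
      rw [hE, hV, hB]
      refine ⟨by simp, fun b hb => ?_, ?_⟩
      · simp only [List.mem_cons, List.not_mem_nil, or_false] at hb
        exact hb
      · show 4 * (n - (D.row m e).val) < 4 * (n - (D.row m e).val) + (if s = e then 1 else 2)
        rw [if_pos hs]
        omega
    · have hE : parE (ECell.pt m e s : ECell D) = ECell.arc m e (outx D m e) := by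
        show (if s = e then ECell.leg m e s else ECell.arc m e (outx D m e)) = _
        rw [if_neg hs]
      have hV : parV (ECell.pt m e s : ECell D) = ECell.pt m e e := by
        show (if s = e then ECell.up (D.row m e) else ECell.pt m e e) = _
        rw [if_neg hs]
      have hB : (ECell.arc m e (outx D m e) : ECell D).facets =
          [ECell.pt m e false, ECell.pt m e true] := rfl
      rw [hE, hV, hB]
      refine ⟨?_, fun b hb => ?_, ?_⟩
      · cases s <;> simp
      · simp only [List.mem_cons, List.not_mem_nil, or_false] at hb
        cases s <;> cases e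
        · exact absurd rfl hs
        · exact hb
        · exact hb.symm
        · exact absurd rfl hs
      · show 4 * (n - (D.row m e).val) + (if e = e then 1 else 2) <
          4 * (n - (D.row m e).val) + (if s = e then 1 else 2)
        rw [if_neg hs, if_pos rfl]
        omega
  | ax k => exact absurd h0 (by simp [ECell.dim])
  | seg m k hk => exact absurd h0 (by simp [ECell.dim])
  | leg m e s => exact absurd h0 (by simp [ECell.dim])
  | arc m e x => exact absurd h0 (by simp [ECell.dim])
  | lon m s => exact absurd h0 (by simp [ECell.dim])
  | page m s => exact absurd h0 (by simp [ECell.dim])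
  | sec m k => exact absurd h0 (by simp [ECell.dim])
  | ann m x => exact absurd h0 (by simp [ECell.dim])
  | chamber m => exact absurd h0 (by simp [ECell.dim])

variable {D} in
private theorem fac_nil (q : ECell D) (h0 : q.dim = 0) : q.facets = [] := by
  cases q <;> first | rfl | exact absurd h0 (by simp [ECell.dim])

variable {D} in
private theorem rk_tube (m : Fin (n + 1)) (x : Bool) (y : Fin 4) (hy : y.val ≤ 2) :
    rkX (XCell.tube m (some false) ⟨false, false, x, y⟩ : XCell D) < 4 * n + 7 := by
  show 4 * (n - (D.row m false).val) + (if (x ^^ D.eps m) = false then 1 else 2) + y.val < 4 * n + 7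
  split_ifs <;> omega

theorem parX_spec (v : XCell D) (h0 : v.dim = 0) (h : v ≠ root D) :
    v ∈ (parEX v).facets ∧ (∀ b ∈ (parEX v).facets, b = v ∨ b = parVX v) ∧
      rkX (parVX v) < rkX v := by
  cases v with
  | cl κ c => exact absurd h0 (by simp [XCell.dim])
  | prod q b y =>
    have hb : b = false := by
      cases b
      · rfl
      · exact absurd h0 (by simp [XCell.dim])
    subst hb
    have hq : q.dim = 0 := h0
    by_cases hy : y = 0
    · subst hy
      have hne : q ≠ .up (Fin.last n) := by
        rintro rfl
        exact h rfl
      obtain ⟨h1, h2, h3⟩ := par_e q hq hne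
      have hE : (parEX (XCell.prod q false 0)).facets =
          (parE q).facets.map fun r => (XCell.prod r false 0 : XCell D) := by
        show (XCell.prod (parE q) false 0 : XCell D).facets = _
        rfl
      have hV : parVX (XCell.prod q false 0) = XCell.prod (parV q) false 0 := rfl
      rw [hE, hV]
      refine ⟨List.mem_map.2 ⟨q, h1, rfl⟩, fun b hb => ?_, ?_⟩
      · obtain ⟨r, hr, rfl⟩ := List.mem_map.1 hb
        rcases h2 r hr with rfl | rfl
        · exact Or.inl rfl
        · exact Or.inr rfl
      · show rkQ (parV q) + 0 < rkQ q + 0
        omega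
    · have hE : parEX (XCell.prod q false y) = XCell.prod q true (y - 1) := by
        show (if y = 0 then XCell.prod (parE q) false 0 else XCell.prod q true (y - 1)) = _
        rw [if_neg hy]
      have hV : parVX (XCell.prod q false y) = XCell.prod q false (y - 1) := by
        show (if y = 0 then XCell.prod (parV q) false 0 else XCell.prod q false (y - 1)) = _
        rw [if_neg hy]
      have hB : (XCell.prod q true (y - 1)).facets =
          [XCell.prod q false (y - 1), XCell.prod q false y] := by
        show [XCell.prod q false (y - 1), XCell.prod q false (y - 1 + 1)] ++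
          (q.facets.map fun r => XCell.prod r true (y - 1)) = _
        rw [fac_nil q hq, sub_add_cancel]
        rfl
      rw [hE, hV, hB]
      refine ⟨by simp, fun b hb => ?_, ?_⟩
      · simp only [List.mem_cons, List.not_mem_nil, or_false] at hb
        exact hb.symm
      · show rkQ q + (y - 1).val < rkQ q + y.val
        have h1 : ∀ y : Fin 4, y ≠ 0 → (y - 1).val < y.val := by decide
        have := h1 y hy
        omega
  | nd m hm c =>
    cases c with
    | apex =>
      have hB : (parEX (XCell.nd m hm .apex)).facets =
          [XCell.tube m (some false) ⟨false, false, false, 2⟩, XCell.nd m hm .apex] := by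
        have hc : ¬ (TCell.v false true).coll (D.par m) = false := by
          cases D.par m <;> decide
        show (XCell.tube m (some false) ⟨false, false, false, 2⟩ : XCell D) ::
          (((NCell.fib (.v false true)).map LCell.nd) ++ []).map (XCell.place m hm) = _
        rw [NCell.fib, dif_neg hc]
        rfl
      rw [hB]
      refine ⟨by simp, fun b hb => ?_, ?_⟩
      · simp only [List.mem_cons, List.not_mem_nil, or_false] at hb
        exact hb.symm
      · exact rk_tube m false 2 (le_refl 2)
    | star c hc =>
      cases c with
      | v x y =>
        have hB : (parEX (XCell.nd m hm (.star (.v x y) hc))).facets =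
            [XCell.tube m (some false) ⟨false, false, x, TCell.dbl y⟩,
              XCell.nd m hm (.star (.v x y) hc)] := by
          show (XCell.tube m (some false) ⟨false, false, x, TCell.dbl y⟩ : XCell D) ::
            (((NCell.fib (.v x y)).map LCell.nd) ++ []).map (XCell.place m hm) = _
          rw [NCell.fib, dif_pos hc]
          rfl
        rw [hB]
        refine ⟨by simp, fun b hb => ?_, ?_⟩
        · simp only [List.mem_cons, List.not_mem_nil, or_false] at hb
          exact hb.symm
        · exact rk_tube m x (TCell.dbl y) (by cases y <;> decide)
      | m x y => exact absurd h0 (by simp [XCell.dim, NCell.dim, TCell.dim])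
      | t x y => exact absurd h0 (by simp [XCell.dim, NCell.dim, TCell.dim])
      | s x y => exact absurd h0 (by simp [XCell.dim, NCell.dim, TCell.dim])
      | lo x y => exact absurd h0 (by simp [XCell.dim, NCell.dim, TCell.dim])
      | hi x y => exact absurd h0 (by simp [XCell.dim, NCell.dim, TCell.dim])
    | rad e c => exact absurd h0 (by simp [XCell.dim, NCell.dim])
    | tri c => exact absurd h0 (by simp [XCell.dim, NCell.dim])
    | inn c => exact absurd h0 (by simp [XCell.dim, NCell.dim])
    | fil c => exact absurd h0 (by simp [XCell.dim, NCell.dim])

/-- All edges known: the theorem. -/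
theorem gradient_of_known (S : Finset (Fin (n + 1))) (h : ∀ e : XCell D, e.dim = 1 → Kn D S e) :
    ∃ G : Gradient (XCell.facets (D := D)), (∃! a, G.Critical a ∧ a.dim = 0) ∧
      {a | G.Critical a ∧ a.dim = 1}.ncard ≤ S.card := by
  classical
  obtain ⟨G, hG, hsub⟩ := exists_gradient (XCell.facets (D := D)) XCell.dim
    (fun a b hb => x_dim a b hb)
    (root D) rfl parVX parEX rkX (fun v h0 h1 => parX_spec D v h0 h1)
    {e | ∃ k ∈ S, e = .prod (.arc (D.lcol k) (!D.rend k) false) false 0}
    (by rintro a ⟨k, _, rfl⟩; rfl) h
  refine ⟨G, hG, ?_⟩
  have himg : {e : XCell D | ∃ k ∈ S, e = .prod (.arc (D.lcol k) (!D.rend k) false) false 0} =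
      (fun k => XCell.prod (.arc (D.lcol k) (!D.rend k) false) false 0) ''
        (S : Set (Fin (n + 1))) := by
    ext e
    constructor
    · rintro ⟨k, hk, rfl⟩
      exact ⟨k, hk, rfl⟩
    · rintro ⟨k, hk, rfl⟩
      exact ⟨k, hk, rfl⟩
  rw [himg] at hsub
  calc {a | G.Critical a ∧ a.dim = 1}.ncard ≤ _ :=
        Set.ncard_le_ncard hsub (S.finite_toSet.image _)
    _ ≤ (S : Set (Fin (n + 1))).ncard := Set.ncard_image_le S.finite_toSet
    _ = S.card := Set.ncard_coe_finset S

end Pool.MP_f18604_gt.LSN
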