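import Mathlib
import Pool.Agent.Helper7.LSN.Tree

/-!
# LSN-23: the four levels

`KQ D S q`: the edge `q` of the exterior is known over all vertices of `S^1`.

PROOFS (compare `LS/Sheet.lean`).
`thick_lt`: `q` has dimension 0 and `y ≠ 3`; the vertex `prod q false (y + 1)` is not the root and `parEX` of it is `prod q true (y + 1 - 1) = prod q true y` (`y + 1 ≠ 0`).
`kq_of`: the 2-cell `prod q true y`, `y ≠ 3`, has the facets `prod q false y`, `prod q false (y + 1)` and `prod r true y` for `r ∈ q.facets`; the latter are known by `thick_lt` (`r.dim = 0` by `e_dim`), so one of the first two gives the other.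
Go from the given `y` up to 3 and down to 0.
`kq_cell`: the 2-cell `prod t false 0` has the facets `prod r false 0`, `r ∈ t.facets`; then `kq_of` (`q.dim = 1` by `e_dim`).
`thick_three`: the 2-cell `prod q true 3` of an edge `q` has the facets `prod q false 3`, `prod q false (3 + 1)` and `prod r true 3`, `r ∈ q.facets`.
`free_edge`: for a vertex `q ≠ up last` of the exterior the edge `parEX (prod q false 0) = prod (parE q) false 0` is free; then `kq_of`.  The four special cases: `up k`, `pt m e e`, `pt m e (!e)`, `dn k`.
`free_seed`: the second kind of free edges.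
-/

set_option autoImplicit false

namespace Pool.MP_f18604_gt.LSN

open Pool.MP_f18604_gt.LS

variable {n : ℕ} (D : Diagram (n + 1)) (S : Finset (Fin (n + 1)))

/-- `q` is known over all vertices of `S^1`. -/
def KQ (q : ECell D) : Prop := ∀ y, Kn D S (.prod q false y)

variable {D}

theorem thick_lt (q : ECell D) (h : q.dim = 0) (y : Fin 4) (hy : y ≠ 3) :
    Kn D S (.prod q true y) := by
  have hy1 : y + 1 ≠ 0 := by
    intro h0
    apply hy
    revert h0
    revert y
    decide
  have hy2 : y + 1 - 1 = y := add_sub_cancel_right y 1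
  have hd : (XCell.prod q false (y + 1) : XCell D).dim = 0 := by
    show q.dim + (if false = true then 1 else 0) = 0
    rw [h]
    rfl
  have hp : parEX (XCell.prod q false (y + 1) : XCell D) = XCell.prod q true y := by
    show (if y + 1 = 0 then XCell.prod (parE q) false 0 else XCell.prod q true (y + 1 - 1) : XCell D) =
      XCell.prod q true y
    rw [if_neg hy1, hy2]
  refine Known.free (Or.inl ⟨.prod q false (y + 1), hd, ?_, hp.symm⟩)
  intro h1
  have h2 : (XCell.prod q false (y + 1) : XCell D) = XCell.prod (.up (Fin.last n)) false 0 := h1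
  rw [XCell.prod.injEq] at h2
  exact hy1 h2.2.2

private theorem lev_mem (q : ECell D) (y : Fin 4) (b : XCell D) :
    b ∈ (XCell.prod q true y : XCell D).facets ↔
      b = .prod q false y ∨ b = .prod q false (y + 1) ∨ ∃ r ∈ q.facets, b = .prod r true y := by
  show b ∈ ([XCell.prod q false y, XCell.prod q false (y + 1)] ++
    q.facets.map fun r => XCell.prod r true y : List (XCell D)) ↔ _
  rw [List.mem_append, List.mem_cons, List.mem_cons, List.mem_map]
  constructor
  · rintro ((h | h | h) | ⟨r, hr, h⟩)
    · exact Or.inl h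
    · exact Or.inr (Or.inl h)
    · exact absurd h List.not_mem_nil
    · exact Or.inr (Or.inr ⟨r, hr, h.symm⟩)
  · rintro (h | h | ⟨r, hr, h⟩)
    · exact Or.inl (Or.inl h)
    · exact Or.inl (Or.inr (Or.inl h))
    · exact Or.inr ⟨r, hr, h.symm⟩

private theorem lev_up {q : ECell D} (h : q.dim = 1) {y : Fin 4} (hy : y ≠ 3)
    (h1 : Kn D S (.prod q false y)) : Kn D S (.prod q false (y + 1)) := by
  refine Known.cell (.prod q true y) ((lev_mem q y _).2 (Or.inr (Or.inl rfl))) ?_
  intro b hb hne
  rcases (lev_mem q y b).1 hb with rfl | rfl | ⟨r, hr, rfl⟩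
  · exact h1
  · exact absurd rfl hne
  · refine thick_lt S r ?_ y hy
    have h2 := e_dim q r hr
    omega

private theorem lev_down {q : ECell D} (h : q.dim = 1) {y : Fin 4} (hy : y ≠ 3)
    (h1 : Kn D S (.prod q false (y + 1))) : Kn D S (.prod q false y) := by
  refine Known.cell (.prod q true y) ((lev_mem q y _).2 (Or.inl rfl)) ?_
  intro b hb hne
  rcases (lev_mem q y b).1 hb with rfl | rfl | ⟨r, hr, rfl⟩
  · exact absurd rfl hne
  · exact h1
  · refine thick_lt S r ?_ y hy
    have h2 := e_dim q r hr
    omega

theorem kq_of {q : ECell D} (h : q.dim = 1) {y : Fin 4} (h1 : Kn D S (.prod q false y)) :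
    KQ D S q := by
  have h0 : Kn D S (.prod q false 0) := by
    fin_cases y
    · exact h1
    · exact lev_down S h (y := 0) (by decide) h1
    · exact lev_down S h (y := 0) (by decide) (lev_down S h (y := 1) (by decide) h1)
    · exact lev_down S h (y := 0) (by decide) (lev_down S h (y := 1) (by decide)
        (lev_down S h (y := 2) (by decide) h1))
  have h1' : Kn D S (.prod q false 1) := lev_up S h (y := 0) (by decide) h0
  have h2' : Kn D S (.prod q false 2) := lev_up S h (y := 1) (by decide) h1'
  have h3' : Kn D S (.prod q false 3) := lev_up S h (y := 2) (by decide) h2'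
  intro z
  fin_cases z
  · exact h0
  · exact h1'
  · exact h2'
  · exact h3'

theorem kq_cell {q t : ECell D} (ht : t.dim = 2) (h : q ∈ t.facets)
    (h1 : ∀ r ∈ t.facets, r ≠ q → KQ D S r) : KQ D S q := by
  have h3 := e_dim t q h
  have hf : (XCell.prod t false 0 : XCell D).facets = t.facets.map fun r => XCell.prod r false 0 := rfl
  refine kq_of S (by omega) (y := 0) (Known.cell (.prod t false 0) ?_ ?_)
  · rw [hf]
    exact List.mem_map_of_mem (f := fun r : ECell D => XCell.prod r false 0) h
  · intro b hb hne
    rw [hf, List.mem_map] at hb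
    obtain ⟨r, hr, rfl⟩ := hb
    refine h1 r hr ?_ 0
    intro hrq
    exact hne (by rw [hrq])

theorem thick_three {q v : ECell D} (h : q.dim = 1) (hq : KQ D S q) (hv : v ∈ q.facets)
    (h1 : ∀ r ∈ q.facets, r ≠ v → Kn D S (.prod r true 3)) : Kn D S (.prod v true 3) := by
  refine Known.cell (.prod q true 3) ((lev_mem q 3 _).2 (Or.inr (Or.inr ⟨v, hv, rfl⟩))) ?_
  intro b hb hne
  rcases (lev_mem q 3 b).1 hb with rfl | rfl | ⟨r, hr, rfl⟩
  · exact hq _
  · exact hq _
  · refine h1 r hr ?_
    intro hrv
    exact hne (by rw [hrv])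

theorem free_edge (q : ECell D) (h : q.dim = 0) (h1 : q ≠ .up (Fin.last n)) :
    KQ D S (parE q) := by
  have hd : (parE q).dim = 1 := by
    cases q with
    | up k => rfl
    | dn k => rfl
    | pt m e s =>
      change (if s = e then ECell.leg m e s else ECell.arc m e (outx D m e) : ECell D).dim = 1
      split_ifs <;> rfl
    | ax k => exact absurd h (by simp [ECell.dim])
    | seg m k hh => exact absurd h (by simp [ECell.dim])
    | leg m e s => exact absurd h (by simp [ECell.dim])
    | arc m e s => exact absurd h (by simp [ECell.dim])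
    | lon m s => exact absurd h (by simp [ECell.dim])
    | page m s => exact absurd h (by simp [ECell.dim])
    | sec m k => exact absurd h (by simp [ECell.dim])
    | ann m x => exact absurd h (by simp [ECell.dim])
    | chamber m => exact absurd h (by simp [ECell.dim])
  have hd0 : (XCell.prod q false 0 : XCell D).dim = 0 := by
    show q.dim + (if false = true then 1 else 0) = 0
    rw [h]
    rfl
  refine kq_of S hd (y := 0) (Known.free (Or.inl ⟨.prod q false 0, hd0, ?_, rfl⟩))
  intro h2
  have h3 : (XCell.prod q false 0 : XCell D) = XCell.prod (.up (Fin.last n)) false 0 := h2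
  rw [XCell.prod.injEq] at h3
  exact h1 h3.1

theorem free_ax (k : Fin (n + 1)) (h : k ≠ Fin.last n) : KQ D S (.ax k) := by
  refine free_edge S (.up k) rfl ?_
  intro h1
  rw [ECell.up.injEq] at h1
  exact h h1

theorem free_leg (m : Fin (n + 1)) (e : Bool) : KQ D S (.leg m e e) := by
  have h1 := free_edge S (.pt m e e : ECell D) rfl (by simp)
  have h2 : parE (.pt m e e : ECell D) = .leg m e e := by simp [parE]
  rw [h2] at h1
  exact h1

theorem free_arc (m : Fin (n + 1)) (e : Bool) : KQ D S (.arc m e (outx D m e)) := by
  have h1 := free_edge S (.pt m e (!e) : ECell D) rfl (by simp)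
  have h2 : parE (.pt m e (!e) : ECell D) = .arc m e (outx D m e) := by
    change (if (!e) = e then ECell.leg m e (!e) else ECell.arc m e (outx D m e) : ECell D) = _
    rw [if_neg]
    cases e <;> decide
  rw [h2] at h1
  exact h1

theorem free_rleg (k : Fin (n + 1)) :
    KQ D S (.leg (D.rcol k) (D.rend k) (!D.rend k)) := by
  exact free_edge S (.dn k : ECell D) rfl (by simp)

theorem free_seed (k : Fin (n + 1)) (h : k ∈ S) :
    KQ D S (.arc (D.lcol k) (!D.rend k) false) := by
  exact kq_of S rfl (y := 0) (Known.free (Or.inr ⟨k, h, rfl⟩))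

end Pool.MP_f18604_gt.LSN
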