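import Mathlib
import Pool.Agent.Helper7.LSN.Level

/-!
# LSN-24: passing a sector

`RimK D S m k x`: all edges of page `m` at the point `a_k`, pushed to the side `x` of the arc, are known: the elements of the list `rim m k x`.

PROOF of `rim_step`.  The 2-cell `sec m k` (in the sheet `false`) has the facets `rim m k false ++ rim (rot m) k true`. `rim m k false` is known; all elements of
`rim (rot m) k true` except possibly `q` are known by `h1`; so `q` is known by `kq_cell` (the sheet of all facets is `false`).
`rim_step_back` is the same with the roles exchanged.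
-/

set_option autoImplicit false

namespace Pool.MP_f18604_gt.LSN

open Pool.MP_f18604_gt.LS

variable {n : ℕ} {D : Diagram (n + 1)} (S : Finset (Fin (n + 1)))

/-- The edges of page `m` at `a_k` on the side `x` are known. -/
def RimK (D : Diagram (n + 1)) (S : Finset (Fin (n + 1))) (m k : Fin (n + 1)) (x : Bool) : Prop :=
  ∀ q ∈ (ECell.rim m k x : List (ECell D)), KQ D S q

/-- From page `m` to page `m + 1`. -/
theorem rim_step {m k : Fin (n + 1)} (h : RimK D S m k false)
    (q : ECell D) (hq : q ∈ (ECell.rim (rot m) k true : List (ECell D)))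
    (h1 : ∀ q' ∈ (ECell.rim (rot m) k true : List (ECell D)), q' ≠ q → KQ D S q') :
    RimK D S (rot m) k true := by
  intro q' hq'
  by_cases hqq : q' = q
  · subst hqq
    refine kq_cell S (t := .sec m k) rfl (List.mem_append.mpr (Or.inr hq')) ?_
    intro r hr hne
    rcases List.mem_append.mp hr with hr | hr
    · exact h r hr
    · exact h1 r hr hne
  · exact h1 q' hq' hqq

/-- From page `m + 1` to page `m`. -/
theorem rim_step_back {m k : Fin (n + 1)} (h : RimK D S (rot m) k true)
    (q : ECell D) (hq : q ∈ (ECell.rim m k false : List (ECell D)))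
    (h1 : ∀ q' ∈ (ECell.rim m k false : List (ECell D)), q' ≠ q → KQ D S q') :
    RimK D S m k false := by
  intro q' hq'
  by_cases hqq : q' = q
  · subst hqq
    refine kq_cell S (t := .sec m k) rfl (List.mem_append.mpr (Or.inl hq')) ?_
    intro r hr hne
    rcases List.mem_append.mp hr with hr | hr
    · exact h1 r hr hne
    · exact h r hr
  · exact h1 q' hq' hqq

/-- A page without a mark at `a_k`: both sides are the same. -/
theorem rim_plain {m k : Fin (n + 1)} (h : k ≠ D.sig m ∧ k ≠ D.tau m) (x : Bool) :
    RimK D S m k x ↔ KQ D S (.seg m k h) := by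
  have h1 : (ECell.rim m k x : List (ECell D)) = [.seg m k h] := by
    unfold ECell.rim
    rw [dif_neg h.1, dif_neg h.2]
  unfold RimK
  rw [h1]
  simp

/-- At a mark. -/
theorem rim_mark (m : Fin (n + 1)) (e x : Bool) : RimK D S m (D.row m e) x ↔
    KQ D S (.leg m e false) ∧ KQ D S (.leg m e true) ∧ KQ D S (.arc m e x) := by
  have h1 : (ECell.rim m (D.row m e) x : List (ECell D)) =
      [.leg m e false, .leg m e true, .arc m e x] := by
    unfold ECell.rim
    cases e
    · have e1 : D.row m false = D.sig m := rfl
      exact dif_pos e1
    · have e2 : ¬ D.row m true = D.sig m := fun h => D.ne m h.symm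
      have e3 : D.row m true = D.tau m := rfl
      exact (dif_neg e2).trans (dif_pos e3)
  unfold RimK
  rw [h1]
  simp

end Pool.MP_f18604_gt.LSN
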