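import Mathlib
import Pool.Agent.Helper7.LSN.Base

/-!
# LSN-26: all axis segments are known

PROOF.  Page `0`: every row without a mark in column `0` has `0 < lcol k`, so `seg 0 k` is known (`base_seg`).  Let
`s = !D.side 0 (last)`, so the page piece `(0, s)` does not contain the axis segment `ax last`: all facets of `page 0 s` except `lon 0 0 s` are known (`free_ax`,
`base_seg`, `base_leg`), so `lon 0 0 s` is known (`kq_cell`).  The annulus `ann 0 0 true` has the facets `lon 0 0 false`, `lon 0 0 true`,
`arc 0 false true`, `arc 0 true true`; both arcs are free (`free_arc`, column `0` is the left mark of both of its rows: `outx D 0 e = true`). So `lon 0 0 (!s)` is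
known, and then the page piece `(0, !s)` gives `ax last`.
-/

set_option autoImplicit false

namespace Pool.MP_f18604_gt.LSN

open Pool.MP_f18604_gt.LS

variable {n : ℕ} {D : Diagram (n + 1)} (S : Finset (Fin (n + 1)))

/-- Column `0` is the left mark of both of its rows. -/
private theorem ax_outx (e : Bool) : outx D 0 e = true := by
  unfold outx
  rcases D.mark_cases 0 e with ⟨h1, _⟩ | ⟨h1, _⟩
  · exact decide_eq_true h1
  · exfalso
    have h2 := D.lcol_lt (D.row 0 e)
    rw [← h1] at h2
    exact absurd h2 (Fin.not_lt_zero _)

/-- A row without a mark in column `0`. -/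
private theorem ax_lcol {k : Fin (n + 1)} (h : k ≠ D.sig 0 ∧ k ≠ D.tau 0) : 0 < D.lcol k := by
  rcases Nat.eq_zero_or_pos (D.lcol k).val with h1 | h1
  · exfalso
    have h2 : D.lcol k = 0 := Fin.ext h1
    have h3 := D.row_lcol k
    rw [h2] at h3
    cases hb : D.rend k
    · rw [hb] at h3
      exact h.2 h3.symm
    · rw [hb] at h3
      exact h.1 h3.symm
  · exact h1

/-- The facets of the page pieces. -/
private theorem ax_page {s : Bool} {p : ECell D} (hp : p ∈ (ECell.page 0 s : ECell D).facets) :
    (∃ k, D.side 0 k = s ∧ p = .ax k) ∨ (∃ k h, p = .seg 0 k h) ∨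
      (∃ e, p = .leg 0 e s) ∨ p = .lon 0 s := by
  simp only [ECell.facets] at hp
  rcases List.mem_append.1 hp with h | h
  · rcases List.mem_append.1 h with h | h
    · obtain ⟨k, hk, rfl⟩ := List.mem_map.1 h
      refine Or.inl ⟨k, ?_, rfl⟩
      simpa using (List.mem_filter.1 hk).2
    · obtain ⟨k, _, hk⟩ := List.mem_flatMap.1 h
      split_ifs at hk with h1 h2
      · simp only [List.mem_cons, List.not_mem_nil, or_false] at hk
        subst hk
        exact Or.inr (Or.inl ⟨k, h1, rfl⟩)
      · simp at hk
      · simp at hk
  · simp only [List.mem_cons, List.not_mem_nil, or_false] at h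
    rcases h with rfl | rfl | rfl
    · exact Or.inr (Or.inr (Or.inl ⟨false, rfl⟩))
    · exact Or.inr (Or.inr (Or.inl ⟨true, rfl⟩))
    · exact Or.inr (Or.inr (Or.inr rfl))

private theorem ax_mem_lon (s : Bool) :
    (ECell.lon 0 s : ECell D) ∈ (ECell.page 0 s : ECell D).facets := by
  simp only [ECell.facets]
  exact List.mem_append.2 (Or.inr (by simp))

private theorem ax_mem_ax (k : Fin (n + 1)) :
    (ECell.ax k : ECell D) ∈ (ECell.page 0 (D.side 0 k) : ECell D).facets := by
  simp only [ECell.facets]
  refine List.mem_append.2 (Or.inl (List.mem_append.2 (Or.inl (List.mem_map.2 ⟨k, ?_, rfl⟩))))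
  simp

theorem all_ax (k : Fin (n + 1)) : KQ D S (.ax k) := by
  by_cases hk : k = Fin.last n
  · subst hk
    have h1 : KQ D S (.lon 0 (!D.side 0 (Fin.last n))) := by
      refine kq_cell S (t := .page 0 (!D.side 0 (Fin.last n))) rfl (ax_mem_lon _) ?_
      intro p hp hne
      rcases ax_page hp with ⟨k, h2, h3⟩ | ⟨k, h2, h3⟩ | ⟨e, h3⟩ | h3
      · rw [h3]
        refine free_ax S k ?_
        rintro rfl
        cases hb : D.side 0 (Fin.last n) <;> rw [hb] at h2 <;> exact absurd h2 (by decide)
      · rw [h3]
        exact base_seg S (Or.inl (ax_lcol h2)) h2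
      · rw [h3]
        exact base_leg S 0 e _
      · exact absurd h3 hne
    have harc : ∀ e, KQ D S (.arc 0 e true) := by
      intro e
      have h2 := free_arc (D := D) S 0 e
      rw [ax_outx] at h2
      exact h2
    have h2 : KQ D S (.lon 0 (D.side 0 (Fin.last n))) := by
      refine kq_cell S (t := .ann 0 true) rfl ?_ ?_
      · cases D.side 0 (Fin.last n) <;> simp [ECell.facets]
      · intro p hp hne
        simp only [ECell.facets, List.mem_cons, List.not_mem_nil, or_false] at hp
        rcases hp with rfl | rfl | rfl | rfl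
        · cases hb : D.side 0 (Fin.last n)
          · rw [hb] at hne
            exact absurd rfl hne
          · rw [hb] at h1
            exact h1
        · cases hb : D.side 0 (Fin.last n)
          · rw [hb] at h1
            exact h1
          · rw [hb] at hne
            exact absurd rfl hne
        · exact harc false
        · exact harc true
    refine kq_cell S (t := .page 0 (D.side 0 (Fin.last n))) rfl (ax_mem_ax _) ?_
    intro p hp hne
    rcases ax_page hp with ⟨k, _, h3⟩ | ⟨k, h3, h4⟩ | ⟨e, h3⟩ | h3
    · rw [h3] at hne ⊢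
      refine free_ax S k ?_
      rintro rfl
      exact hne rfl
    · rw [h4]
      exact base_seg S (Or.inl (ax_lcol h3)) h3
    · rw [h3]
      exact base_leg S 0 e _
    · rw [h3]
      exact h2
  · exact free_ax S k hk

end Pool.MP_f18604_gt.LSN
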