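import Mathlib
import Pool.Agent.Helper7.LSN.Row
import Pool.Agent.Helper7.LSN.AxLast

/-!
# LSN-28: a colour passes a column

`lon_of_crosses`: all facets of `page m s` except `lon m s` are known: `ax k` (`all_ax`), legs (`base_leg`), `seg m k` with `side m k = s`: if
`m < lcol k` or `rcol k < m` by `base_seg`; otherwise `lcol k < m < rcol k` (a row without a mark in column `m`), so it crosses (`crosses_iff`) and `RowK` applies.
`row_pass`: let `e' = !e` and `x0 = outx D m e'`. The annulus `ann m x0` has the facets `lon m false`, `lon m true`,
`arc m false x0`, `arc m true x0`: all known except possibly `lon m (!s)`; so it is known. Then the annulus `ann m (!x0)`: all known except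
`arc m e' (!x0)`. So both half meridians at `e'` are known: `row_of_arcs`.
-/

set_option autoImplicit false

namespace Pool.MP_f18604_gt.LSN

open Pool.MP_f18604_gt.LS

variable {n : ℕ} {D : Diagram (n + 1)} (S : Finset (Fin (n + 1)))

theorem lon_of_crosses (m : Fin (n + 1)) (s : Bool) (h : ∀ k, D.Crosses m s k → RowK D S k) :
    KQ D S (.lon m s) := by
  refine kq_cell S (t := .page m s) rfl (by simp [ECell.facets]) ?_
  intro p hp hne
  simp only [ECell.facets, List.mem_append, List.mem_map, List.mem_flatMap, List.mem_cons,
    List.not_mem_nil, or_false] at hp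
  rcases hp with (⟨k, _, rfl⟩ | ⟨k, _, hk⟩) | (rfl | rfl | rfl)
  · exact all_ax S k
  · split_ifs at hk with h1 h2
    · rw [List.mem_singleton] at hk
      subst hk
      by_cases h3 : D.lcol k < m ∧ m < D.rcol k
      · exact (h k ((D.crosses_iff m s k).2 ⟨h2, h3.1, h3.2⟩)).1 m h1
      · rw [not_and_or, not_lt, not_lt] at h3
        have h4 : m ≠ D.lcol k := by
          rintro rfl
          have h5 := D.row_lcol k
          rcases hb : D.rend k with _ | _
          · rw [hb] at h5
            exact h1.2 h5.symm
          · rw [hb] at h5
            exact h1.1 h5.symm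
        have h6 : m ≠ D.rcol k := by
          rintro rfl
          have h5 := D.row_rcol k
          rcases hb : D.rend k with _ | _
          · rw [hb] at h5
            exact h1.1 h5.symm
          · rw [hb] at h5
            exact h1.2 h5.symm
        refine base_seg S ?_ h1
        rcases h3 with h3 | h3
        · exact Or.inl (lt_of_le_of_ne h3 h4)
        · exact Or.inr (lt_of_le_of_ne h3 (Ne.symm h6))
    · simp at hk
    · simp at hk
  · exact base_leg S m false s
  · exact base_leg S m true s
  · exact absurd rfl hne

private theorem lon_other (m : Fin (n + 1)) (s x : Bool) (h : KQ D S (.lon m s))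
    (h1 : KQ D S (.arc m false x)) (h2 : KQ D S (.arc m true x)) : KQ D S (.lon m !s) := by
  refine kq_cell S (t := .ann m x) rfl (by cases s <;> simp [ECell.facets]) ?_
  intro p hp hne
  simp only [ECell.facets, List.mem_cons, List.not_mem_nil, or_false] at hp
  rcases hp with rfl | rfl | rfl | rfl
  · cases s
    · exact h
    · exact absurd rfl hne
  · cases s
    · exact absurd rfl hne
    · exact h
  · exact h1
  · exact h2

private theorem arc_other (m : Fin (n + 1)) (x e : Bool) (h : ∀ s, KQ D S (.lon m s))
    (h1 : KQ D S (.arc m e x)) : KQ D S (.arc m (!e) x) := by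
  refine kq_cell S (t := .ann m x) rfl (by cases e <;> simp [ECell.facets]) ?_
  intro p hp hne
  simp only [ECell.facets, List.mem_cons, List.not_mem_nil, or_false] at hp
  rcases hp with rfl | rfl | rfl | rfl
  · exact h false
  · exact h true
  · cases e
    · exact h1
    · exact absurd rfl hne
  · cases e
    · exact absurd rfl hne
    · exact h1

theorem row_pass (m : Fin (n + 1)) (s e : Bool) (h : KQ D S (.lon m s))
    (h1 : RowK D S (D.row m e)) : RowK D S (D.row m !e) := by
  have hf := free_arc (D := D) S m (!e)
  have ha : ∀ x, KQ D S (.arc m e x) := fun x => h1.2 m e rfl x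
  have hl : KQ D S (.lon m !s) := by
    cases e
    · exact lon_other S m s _ h (ha _) hf
    · exact lon_other S m s _ h hf (ha _)
  have hl' : ∀ s', KQ D S (.lon m s') := by
    intro s'
    by_cases hs : s' = s
    · rw [hs]; exact h
    · have h3 : s' = !s := by
        cases s <;> cases s' <;> simp_all
      rw [h3]; exact hl
  exact row_of_arcs S m (!e) fun x => arc_other S m x e hl' (ha x)

end Pool.MP_f18604_gt.LSN
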