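import Mathlib
import Pool.Agent.Helper7.LSN.Col

/-!
# LSN-29: a node in an even state colours the row of its end `false`

`tree_v`: `rad false (v false true)` is a tree edge: `parEX` of the vertex `apex` (not the root: `nd` is not `prod`); `v false true` is collapsed for both parities.
`tree_star`: for a vertex `c` which is not collapsed `rad false c` is `parEX` of the vertex `star c`.

PROOF of `row_node_even` (`par m = false`).  The 2-cells `rad false (m x true)` (the edge `m x true` is collapsed: `coll false (m x true) = true`) have the facets `tube (some false) ⟨true, false, x, 2⟩` (as `even (m x true) = [⟨true, false, x, dbl true⟩]`), which is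
`prod (arc m false (x ^^ eps m)) false 2`, and `rad false (v x true)`, `rad false (v (!x) true)` (and nothing in the nodal fibre: `fib (m x true) = []`, dimension 1).  For `x` with `x ^^ eps m = outx D m false` the half meridian is
known (`free_arc`), and `rad false (v false true)` is known (`tree_v`): so `rad false (v true true)` is known.  Then the other 2-cell (`!x`) gives `prod (arc m false !(outx D m false)) false 2`, so `KQ` of it (`kq_of`).  Now
`row_of_arcs S m false` (both half meridians), and `D.row m false = D.sig m`.
(The parity is a parameter of the type of the cells: generalise `D.par m = p` with `obtain ⟨p, hp⟩ : ∃ p, D.par m = p` is not directly possible; state an auxiliary lemma for the facets of `XCell.nd m h (.rad false c)` with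
`mem_place` and `simp [NCell.facets, NCell.fib, TCell.coll, hpar]`.)
-/

set_option autoImplicit false

namespace Pool.MP_f18604_gt.LSN

open Pool.MP_f18604_gt.LS

variable {n : ℕ} {D : Diagram (n + 1)} (S : Finset (Fin (n + 1)))

theorem tree_v (m : Fin (n + 1)) (h : D.node m = true) :
    Kn D S (.nd m h (.rad false (.v false true))) :=
  Known.free (Or.inl ⟨.nd m h .apex, rfl, (by intro he; unfold root at he; cases he), rfl⟩)

theorem tree_star (m : Fin (n + 1)) (h : D.node m = true) (c : TCell) (hc : c.dim = 0)
    (hn : c.coll (D.par m) = false) : Kn D S (.nd m h (.rad false c)) :=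
  Known.free (Or.inl ⟨.nd m h (.star c hn), hc, (by intro he; unfold root at he; cases he), rfl⟩)

/-- The facets of `rad e c` for an edge `c`. -/
theorem mem_rad (m : Fin (n + 1)) (h : D.node m = true) (e : Bool) (c : TCell) (x : XCell D) :
    x ∈ (XCell.nd m h (.rad e c)).facets ↔
      (∃ z ∈ c.even, x = XCell.tube m (some e) z) ∨ (∃ d ∈ NCell.fib c, x = .nd m h d) ∨
      ∃ d ∈ c.facets, x = .nd m h (.rad e d) := by
  constructor
  · intro hx
    obtain ⟨l, hl, rfl⟩ := List.mem_map.1 hx
    rcases List.mem_append.1 hl with hl | hl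
    · rcases List.mem_append.1 hl with hl | hl
      · obtain ⟨z, hz, rfl⟩ := List.mem_map.1 hl
        exact Or.inl ⟨z, hz, rfl⟩
      · obtain ⟨d, hd, rfl⟩ := List.mem_map.1 hl
        exact Or.inr (Or.inl ⟨d, hd, rfl⟩)
    · obtain ⟨d, hd, rfl⟩ := List.mem_map.1 hl
      exact Or.inr (Or.inr ⟨d, hd, rfl⟩)
  · rintro (⟨z, hz, rfl⟩ | ⟨d, hd, rfl⟩ | ⟨d, hd, rfl⟩)
    · exact List.mem_map.2 ⟨.tube (some e) z, List.mem_append.2 (Or.inl (List.mem_append.2
        (Or.inl (List.mem_map.2 ⟨z, hz, rfl⟩)))), rfl⟩
    · exact List.mem_map.2 ⟨.nd d, List.mem_append.2 (Or.inl (List.mem_append.2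
        (Or.inr (List.mem_map.2 ⟨d, hd, rfl⟩)))), rfl⟩
    · exact List.mem_map.2 ⟨.nd (.rad e d), List.mem_append.2 (Or.inr
        (List.mem_map.2 ⟨d, hd, rfl⟩)), rfl⟩

/-- The facets of the collapsed 2-cells in an even state. -/
private theorem mem_rad_m (m : Fin (n + 1)) (h : D.node m = true) (hp : D.par m = false)
    (x : Bool) (b : XCell D) :
    b ∈ (XCell.nd m h (.rad false (.m x true))).facets ↔
      b = .prod (.arc m false (x ^^ D.eps m)) false 2 ∨ b = .nd m h (.rad false (.v x true)) ∨
        b = .nd m h (.rad false (.v (!x) true)) := by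
  have hf : (NCell.fib (.m x true) : List (NCell (D.par m))) = [] := by
    have hc : (TCell.m x true).coll (D.par m) = true := by
      rw [hp]
      rfl
    unfold NCell.fib
    rw [dif_neg (by rw [hc]; decide), if_neg (by intro h0; exact absurd h0 (by show ¬ (1 = 0); decide))]
  rw [mem_rad, hf]
  have h1 : XCell.tube m (some false) ⟨true, false, x, TCell.dbl true⟩ =
      (.prod (.arc m false (x ^^ D.eps m)) false 2 : XCell D) := rfl
  constructor
  · rintro (⟨z, hz, rfl⟩ | ⟨d, hd, _⟩ | ⟨d, hd, rfl⟩)
    · rw [List.mem_singleton.1 hz]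
      exact Or.inl h1
    · exact absurd hd List.not_mem_nil
    · rcases List.mem_cons.1 hd with rfl | hd
      · exact Or.inr (Or.inl rfl)
      · rw [List.mem_singleton.1 hd]
        exact Or.inr (Or.inr rfl)
  · rintro (rfl | rfl | rfl)
    · exact Or.inl ⟨_, List.mem_singleton.2 rfl, h1.symm⟩
    · exact Or.inr (Or.inr ⟨_, List.mem_cons_self, rfl⟩)
    · exact Or.inr (Or.inr ⟨_, List.mem_cons_of_mem _ (List.mem_singleton.2 rfl), rfl⟩)

theorem row_node_even (m : Fin (n + 1)) (h : D.node m = true) (hp : D.par m = false) :
    RowK D S (D.sig m) := by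
  have h0 : Kn D S (.nd m h (.rad false (.v false true))) := tree_v S m h
  have hf := free_arc (D := D) S m false
  obtain ⟨x0, hx0⟩ : ∃ x0 : Bool, (x0 ^^ D.eps m) = outx D m false :=
    ⟨outx D m false ^^ D.eps m, by cases outx D m false <;> cases D.eps m <;> rfl⟩
  have h1 : Kn D S (.nd m h (.rad false (.v true true))) := by
    refine Known.cell (.nd m h (.rad false (.m x0 true))) ?_ ?_
    · rw [mem_rad_m m h hp]
      cases x0
      · exact Or.inr (Or.inr rfl)
      · exact Or.inr (Or.inl rfl)
    · intro b hb hne
      rw [mem_rad_m m h hp] at hb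
      rcases hb with rfl | rfl | rfl
      · rw [hx0]
        exact hf 2
      · cases x0
        · exact h0
        · exact absurd rfl hne
      · cases x0
        · exact absurd rfl hne
        · exact h0
  have hv : ∀ x, Kn D S (.nd m h (.rad false (.v x true))) := by
    intro x
    cases x
    · exact h0
    · exact h1
  have h2 : Kn D S (.prod (.arc m false ((!x0) ^^ D.eps m)) false 2) := by
    refine Known.cell (.nd m h (.rad false (.m (!x0) true))) ?_ ?_
    · rw [mem_rad_m m h hp]
      exact Or.inl rfl
    · intro b hb hne
      rw [mem_rad_m m h hp] at hb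
      rcases hb with rfl | rfl | rfl
      · exact absurd rfl hne
      · exact hv _
      · exact hv _
  have h3 : KQ D S (.arc m false ((!x0) ^^ D.eps m)) := kq_of S rfl h2
  have h4 : ((!x0) ^^ D.eps m) = !outx D m false := by
    rw [← hx0]
    cases x0 <;> cases D.eps m <;> rfl
  rw [h4] at h3
  refine row_of_arcs S m false fun x => ?_
  by_cases hx : x = outx D m false
  · rw [hx]
    exact hf
  · have h5 : x = !outx D m false := by
      revert hx
      cases x <;> cases outx D m false <;> simp
    rw [h5]
    exact h3

end Pool.MP_f18604_gt.LSN
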