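import Mathlib
import Pool.Agent.Helper7.LSN.NodeA

/-!
# LSN-30: a node in an odd state

Let `par m = true`.  The 2-cells `rad false (s x (!x))` (the edges `s true false`, `s false true` are collapsed) have the facets (`mem_rad`, `even (s x y) = [⟨false, true, x, dbl y⟩, ⟨true, false, x, dbl y + 1⟩, ⟨false, true, !x, dbl y + 1⟩]`, `fib = []`):
* `s true false`: `prod (pt m false (!eps m)) true 0`, `prod (arc m false (!eps m)) false 1`, `prod (pt m false (eps m)) true 1`, `rad false (v true false)`, `rad false (v false true)`;
* `s false true`: `prod (pt m false (eps m)) true 2`, `prod (arc m false (eps m)) false 3`, `prod (pt m false (!eps m)) true 3`, `rad false (v false true)`, `rad false (v true false)`.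
(`true ^^ b = !b`, `false ^^ b = b`.)  `rad false (v false true)` is known (`tree_v`) and `prod (pt ..) true y`, `y ≠ 3`, too (`thick_lt`).

PROOF of `tau_of_row` (the row `sig m` is coloured): both half meridians `arc m false _` are known (`RowK`, `D.row m false = D.sig m`); the first 2-cell gives `rad false (v true false)`, and then the second one gives
`prod (pt m false (!eps m)) true 3`.

PROOF of `row_node_odd` (`prod (pt m false s) true 3` is known for both `s`): if `outx D m false = !eps m` the first 2-cell gives `rad false (v true false)` and then the second one gives `prod (arc m false (eps m)) false 3`; if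
`outx D m false = eps m` the second 2-cell gives `rad false (v true false)` and then the first one `prod (arc m false (!eps m)) false 1`.  In both cases `kq_of`, `free_arc` and `row_of_arcs S m false`.

PROOF of `thick_all`.  For every vertex `q ≠ up last` of the exterior `prod q true 3` is known if and only if `prod (parV q) true 3` is (`thick_three` for the edge `parE q`, known by `free_edge`, which joins them, both directions); by induction on
the rank `rkQ q` (as in `parX_spec`; compare `thick_iff`, `par_facts` in `LS/All.lean`) `prod q true 3` is known if and only if `prod (up last) true 3` is known. So all are known as soon as one is.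
-/

set_option autoImplicit false

namespace Pool.MP_f18604_gt.LSN

open Pool.MP_f18604_gt.LS

variable {n : ℕ} {D : Diagram (n + 1)} (S : Finset (Fin (n + 1)))

/-- The facets of the collapsed 2-cells in an odd state. -/
private theorem mem_rad_s (m : Fin (n + 1)) (h : D.node m = true) (hp : D.par m = true)
    (x : Bool) (b : XCell D) :
    b ∈ (XCell.nd m h (.rad false (.s x (!x)))).facets ↔
      b = .prod (.pt m false (x ^^ D.eps m)) true (TCell.dbl (!x)) ∨
      b = .prod (.arc m false (x ^^ D.eps m)) false (TCell.dbl (!x) + 1) ∨
      b = .prod (.pt m false ((!x) ^^ D.eps m)) true (TCell.dbl (!x) + 1) ∨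
      b = .nd m h (.rad false (.v x (!x))) ∨ b = .nd m h (.rad false (.v (!x) x)) := by
  have hf : (NCell.fib (.s x (!x)) : List (NCell (D.par m))) = [] := by
    have hc : (TCell.s x (!x)).coll (D.par m) = true := by
      rw [hp]
      cases x <;> rfl
    unfold NCell.fib
    rw [dif_neg (by rw [hc]; decide), if_neg (by intro h0; exact absurd h0 (by show ¬ (1 = 0); decide))]
  rw [mem_rad, hf]
  have h1 : XCell.tube m (some false) ⟨false, true, x, TCell.dbl (!x)⟩ =
      (.prod (.pt m false (x ^^ D.eps m)) true (TCell.dbl (!x)) : XCell D) := rfl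
  have h2 : XCell.tube m (some false) ⟨true, false, x, TCell.dbl (!x) + 1⟩ =
      (.prod (.arc m false (x ^^ D.eps m)) false (TCell.dbl (!x) + 1) : XCell D) := rfl
  have h3 : XCell.tube m (some false) ⟨false, true, !x, TCell.dbl (!x) + 1⟩ =
      (.prod (.pt m false ((!x) ^^ D.eps m)) true (TCell.dbl (!x) + 1) : XCell D) := rfl
  have h4 : (TCell.s x (!x)).facets = [TCell.v x (!x), TCell.v (!x) x] := by
    cases x <;> rfl
  rw [h4]
  constructor
  · rintro (⟨z, hz, rfl⟩ | ⟨d, hd, _⟩ | ⟨d, hd, rfl⟩)
    · have hz' : z ∈ ([⟨false, true, x, TCell.dbl (!x)⟩, ⟨true, false, x, TCell.dbl (!x) + 1⟩,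
        ⟨false, true, !x, TCell.dbl (!x) + 1⟩] : List SCell) := hz
      simp only [List.mem_cons, List.not_mem_nil, or_false] at hz'
      rcases hz' with rfl | rfl | rfl
      · exact Or.inl h1
      · exact Or.inr (Or.inl h2)
      · exact Or.inr (Or.inr (Or.inl h3))
    · exact absurd hd List.not_mem_nil
    · simp only [List.mem_cons, List.not_mem_nil, or_false] at hd
      rcases hd with rfl | rfl
      · exact Or.inr (Or.inr (Or.inr (Or.inl rfl)))
      · exact Or.inr (Or.inr (Or.inr (Or.inr rfl)))
  · rintro (rfl | rfl | rfl | rfl | rfl)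
    · exact Or.inl ⟨_, List.mem_cons_self, h1.symm⟩
    · exact Or.inl ⟨_, List.mem_cons_of_mem _ List.mem_cons_self, h2.symm⟩
    · exact Or.inl ⟨_, List.mem_cons_of_mem _ (List.mem_cons_of_mem _ List.mem_cons_self), h3.symm⟩
    · exact Or.inr (Or.inr ⟨_, List.mem_cons_self, rfl⟩)
    · exact Or.inr (Or.inr ⟨_, List.mem_cons_of_mem _ List.mem_cons_self, rfl⟩)

/-- The first 2-cell. -/
private theorem mem_rad_1 (m : Fin (n + 1)) (h : D.node m = true) (hp : D.par m = true)
    (b : XCell D) :
    b ∈ (XCell.nd m h (.rad false (.s true false))).facets ↔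
      b = .prod (.pt m false (!D.eps m)) true 0 ∨ b = .prod (.arc m false (!D.eps m)) false 1 ∨
      b = .prod (.pt m false (D.eps m)) true 1 ∨ b = .nd m h (.rad false (.v true false)) ∨
      b = .nd m h (.rad false (.v false true)) := by
  have h1 := mem_rad_s m h hp true b
  rw [show ((!true) ^^ D.eps m) = D.eps m by cases D.eps m <;> rfl,
    show (true ^^ D.eps m) = !D.eps m by cases D.eps m <;> rfl] at h1
  exact h1

/-- The second 2-cell. -/
private theorem mem_rad_2 (m : Fin (n + 1)) (h : D.node m = true) (hp : D.par m = true)
    (b : XCell D) :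
    b ∈ (XCell.nd m h (.rad false (.s false true))).facets ↔
      b = .prod (.pt m false (D.eps m)) true 2 ∨ b = .prod (.arc m false (D.eps m)) false 3 ∨
      b = .prod (.pt m false (!D.eps m)) true 3 ∨ b = .nd m h (.rad false (.v false true)) ∨
      b = .nd m h (.rad false (.v true false)) := by
  have h1 := mem_rad_s m h hp false b
  rw [show ((!false) ^^ D.eps m) = !D.eps m by cases D.eps m <;> rfl,
    show (false ^^ D.eps m) = D.eps m by cases D.eps m <;> rfl] at h1
  exact h1

private theorem dim_pt (m : Fin (n + 1)) (e s : Bool) : (ECell.pt m e s : ECell D).dim = 0 := rfl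

/-- `rad false (v true false)` from the first 2-cell. -/
private theorem v_of_1 (m : Fin (n + 1)) (h : D.node m = true) (hp : D.par m = true)
    (h1 : Kn D S (.prod (.arc m false (!D.eps m)) false 1)) :
    Kn D S (.nd m h (.rad false (.v true false))) := by
  refine Known.cell (.nd m h (.rad false (.s true false))) ?_ ?_
  · rw [mem_rad_1 m h hp]
    exact Or.inr (Or.inr (Or.inr (Or.inl rfl)))
  · intro b hb hne
    rw [mem_rad_1 m h hp] at hb
    rcases hb with rfl | rfl | rfl | rfl | rfl
    · exact thick_lt S _ (dim_pt _ _ _) _ (by decide)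
    · exact h1
    · exact thick_lt S _ (dim_pt _ _ _) _ (by decide)
    · exact absurd rfl hne
    · exact tree_v S m h

theorem tau_of_row (m : Fin (n + 1)) (h : D.node m = true) (hp : D.par m = true)
    (h1 : RowK D S (D.sig m)) : ∃ s, Kn D S (.prod (.pt m false s) true 3) := by
  have ha : ∀ x, KQ D S (.arc m false x) := fun x => h1.2 m false rfl x
  have hv := v_of_1 S m h hp (ha _ 1)
  refine ⟨!D.eps m, Known.cell (.nd m h (.rad false (.s false true))) ?_ ?_⟩
  · rw [mem_rad_2 m h hp]
    exact Or.inr (Or.inr (Or.inl rfl))
  · intro b hb hne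
    rw [mem_rad_2 m h hp] at hb
    rcases hb with rfl | rfl | rfl | rfl | rfl
    · exact thick_lt S _ (dim_pt _ _ _) _ (by decide)
    · exact ha _ _
    · exact absurd rfl hne
    · exact tree_v S m h
    · exact hv

theorem row_node_odd (m : Fin (n + 1)) (h : D.node m = true) (hp : D.par m = true)
    (h1 : ∀ s, Kn D S (.prod (.pt m false s) true 3)) : RowK D S (D.sig m) := by
  have hf := free_arc (D := D) S m false
  suffices hh : KQ D S (.arc m false (D.eps m)) ∧ KQ D S (.arc m false (!D.eps m)) by
    refine row_of_arcs S m false fun x => ?_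
    by_cases hx : x = D.eps m
    · rw [hx]
      exact hh.1
    · have h5 : x = !D.eps m := by
        revert hx
        cases x <;> cases D.eps m <;> simp
      rw [h5]
      exact hh.2
  by_cases ho : outx D m false = D.eps m
  · rw [ho] at hf
    have hv : Kn D S (.nd m h (.rad false (.v true false))) := by
      refine Known.cell (.nd m h (.rad false (.s false true))) ?_ ?_
      · rw [mem_rad_2 m h hp]
        exact Or.inr (Or.inr (Or.inr (Or.inr rfl)))
      · intro b hb hne
        rw [mem_rad_2 m h hp] at hb
        rcases hb with rfl | rfl | rfl | rfl | rfl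
        · exact thick_lt S _ (dim_pt _ _ _) _ (by decide)
        · exact hf _
        · exact h1 _
        · exact tree_v S m h
        · exact absurd rfl hne
    refine ⟨hf, kq_of S rfl (y := 1) ?_⟩
    refine Known.cell (.nd m h (.rad false (.s true false))) ?_ ?_
    · rw [mem_rad_1 m h hp]
      exact Or.inr (Or.inl rfl)
    · intro b hb hne
      rw [mem_rad_1 m h hp] at hb
      rcases hb with rfl | rfl | rfl | rfl | rfl
      · exact thick_lt S _ (dim_pt _ _ _) _ (by decide)
      · exact absurd rfl hne
      · exact thick_lt S _ (dim_pt _ _ _) _ (by decide)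
      · exact hv
      · exact tree_v S m h
  · have ho' : outx D m false = !D.eps m := by
      revert ho
      cases outx D m false <;> cases D.eps m <;> simp
    rw [ho'] at hf
    have hv := v_of_1 S m h hp (hf 1)
    refine ⟨kq_of S rfl (y := 3) ?_, hf⟩
    refine Known.cell (.nd m h (.rad false (.s false true))) ?_ ?_
    · rw [mem_rad_2 m h hp]
      exact Or.inr (Or.inl rfl)
    · intro b hb hne
      rw [mem_rad_2 m h hp] at hb
      rcases hb with rfl | rfl | rfl | rfl | rfl
      · exact thick_lt S _ (dim_pt _ _ _) _ (by decide)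
      · exact absurd rfl hne
      · exact h1 _
      · exact tree_v S m h
      · exact hv

private theorem par_facts (q : ECell D) (hq : q.dim = 0) (h1 : q ≠ .up (Fin.last n)) :
    (parE q).dim = 1 ∧ (parV q).dim = 0 ∧ q ∈ (parE q).facets ∧ parV q ∈ (parE q).facets ∧
      (∀ r ∈ (parE q).facets, r = q ∨ r = parV q) ∧ rkQ (parV q) < rkQ q := by
  obtain ⟨a1, a2, a3⟩ := parX_spec D (.prod q false 0) (by
    show q.dim + (if false = true then 1 else 0) = 0
    rw [hq]
    rfl) (by
    intro h
    apply h1
    have h3 : (XCell.prod q false 0 : XCell D) = XCell.prod (.up (Fin.last n)) false 0 := h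
    rw [XCell.prod.injEq] at h3
    exact h3.1)
  have hE : (parEX (XCell.prod q false 0)).facets =
      (parE q).facets.map fun r => (XCell.prod r false 0 : XCell D) := rfl
  rw [hE] at a1 a2
  have b1 : q ∈ (parE q).facets := by
    obtain ⟨r, hr, hr2⟩ := List.mem_map.1 a1
    rw [XCell.prod.injEq] at hr2
    rw [hr2.1] at hr
    exact hr
  have b2 : ∀ r ∈ (parE q).facets, r = q ∨ r = parV q := by
    intro r hr
    have h2 : (XCell.prod r false 0 : XCell D) = .prod q false 0 ∨
        (XCell.prod r false 0 : XCell D) = .prod (parV q) false 0 :=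
      a2 (.prod r false 0) (List.mem_map.2 ⟨r, hr, rfl⟩)
    rw [XCell.prod.injEq, XCell.prod.injEq] at h2
    rcases h2 with h2 | h2
    · exact Or.inl h2.1
    · exact Or.inr h2.1
  have b3 : rkQ (parV q) < rkQ q := by
    have h2 : rkQ (parV q) + 0 < rkQ q + 0 := a3
    omega
  refine ⟨?_, ?_, b1, ?_, b2, b3⟩
  · cases q with
    | up k => rfl
    | dn k => rfl
    | pt m e s =>
      simp only [parE]
      split <;> rfl
    | _ => simp [ECell.dim] at hq
  · cases q with
    | up k => rfl
    | dn k => rfl
    | pt m e s =>
      simp only [parV]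
      split <;> rfl
    | _ => simp [ECell.dim] at hq
  · cases q with
    | up k => simp [parE, parV, ECell.facets]
    | dn k => simp [parE, parV, ECell.facets]
    | pt m e s =>
      by_cases hs : s = e
      · simp [parE, parV, ECell.facets, hs]
      · simp only [parE, parV, hs, if_false, ECell.facets]
        cases e <;> simp
    | _ => simp [ECell.dim] at hq

private theorem thick_step (q : ECell D) (hq : q.dim = 0) (h1 : q ≠ .up (Fin.last n)) :
    Kn D S (.prod q true 3) ↔ Kn D S (.prod (parV q) true 3) := by
  obtain ⟨d1, d2, b1, b2, b3, -⟩ := par_facts q hq h1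
  constructor
  · intro hk
    refine thick_three S d1 (free_edge S q hq h1) b2 (fun r hr hne => ?_)
    rcases b3 r hr with e | e
    · rw [e]
      exact hk
    · exact absurd e hne
  · intro hk
    refine thick_three S d1 (free_edge S q hq h1) b1 (fun r hr hne => ?_)
    rcases b3 r hr with e | e
    · exact absurd e hne
    · rw [e]
      exact hk

private theorem thick_iff : ∀ (N : ℕ) (q : ECell D), rkQ q ≤ N → q.dim = 0 →
    (Kn D S (.prod q true 3) ↔ Kn D S (.prod (.up (Fin.last n)) true 3)) := by
  intro N
  induction N with
  | zero =>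
    intro q hN hq
    by_cases h1 : q = .up (Fin.last n)
    · rw [h1]
    · obtain ⟨-, -, -, -, -, hr⟩ := par_facts q hq h1
      omega
  | succ N ih =>
    intro q hN hq
    by_cases h1 : q = .up (Fin.last n)
    · rw [h1]
    · obtain ⟨-, d2, -, -, -, hr⟩ := par_facts q hq h1
      rw [thick_step S q hq h1]
      exact ih (parV q) (by omega) d2

theorem thick_all {q : ECell D} (hq : q.dim = 0) (h : Kn D S (.prod q true 3)) (r : ECell D)
    (hr : r.dim = 0) (y : Fin 4) : Kn D S (.prod r true y) := by
  by_cases hy : y = 3
  · rw [hy]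
    exact (thick_iff S _ r le_rfl hr).2 ((thick_iff S _ q le_rfl hq).1 h)
  · exact thick_lt S r hr y hy

end Pool.MP_f18604_gt.LSN
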