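import Mathlib
import Pool.Agent.Helper7.LSN.NodeB

/-!
# LSN-31: all edges are known

PROOF of `row_of_coloured_even`: by induction on `Coloured S false`: `seed`: `row_of_left` with `free_seed`; `node`: the condition `par m = true → false = true` gives `par m = false`, `row_node_even`; `pass`: `row_pass` with `lon_of_crosses`.
`all_thick`: `Sufficient` gives a column `m` with a node in an odd state whose row `sig m` is coloured; `tau_of_row`, `thick_all`.
`row_of_coloured`: by induction on `Coloured S true`, the nodes in an odd state with `row_node_odd`.
`all_known`: let `e` have dimension 1.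
* `prod q true y`, `q.dim = 0`: `all_thick`.  `prod q false y`, `q.dim = 1`: `ax k`: `all_ax`; `seg`, `arc`: `RowK`; `leg`: `base_leg`; `lon m s`: `lon_of_crosses`.
* `nd m h (rad false c)`, `c.dim = 0`: if `c` is not collapsed: `tree_star`; if `c = v false true`: `tree_v`; the other collapsed vertex is `v true true` (even) or `v true false` (odd): the 2-cell
  `rad false (m false true)` (even) or `rad false (s false true)` (odd) has the facets `rad false (v false true)`, `rad false c` and `tube m (some false) z`, which are edges `prod ..`, known (`mem_rad`, `fib = []`).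
* `nd m h (rad true c)`: the 2-cell `tri c` has the facets `tube m none z`, `z ∈ c.even` (edges `prod (lon ..) false _`), `rad false c`, `rad true c`.
* `nd m h (star c _)`, `c.dim = 1`: the 2-cell `rad false c` has the facets `tube m (some false) z` (edges `prod ..`), `star c`, and `rad false d`, `d ∈ c.facets` (known).
* `nd m h (inn c)`, `c.dim = 0`: the 2-cell `fil c` has the facets `inn c`, `rad false _`, `rad true _` of vertices (the cap is empty for a vertex).
* `cl κ c` has dimension at least 2; the other `nd`s have the wrong dimension.
-/

set_option autoImplicit false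

namespace Pool.MP_f18604_gt.LSN

open Pool.MP_f18604_gt.LS

variable {n : ℕ} {D : Diagram (n + 1)} (S : Finset (Fin (n + 1)))

theorem row_of_coloured_even {k : Fin (n + 1)} (h : D.Coloured S false k) : RowK D S k := by
  induction h with
  | seed k hk => exact row_of_left S k (free_seed S k hk)
  | node m hn hp =>
    refine row_node_even S m hn ?_
    cases hb : D.par m
    · rfl
    · exact absurd (hp hb) (by decide)
  | pass m s e _ _ ih1 ih2 => exact row_pass S m s e (lon_of_crosses S m s ih1) ih2

theorem all_thick (h : D.Sufficient S) (q : ECell D) (hq : q.dim = 0) (y : Fin 4) :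
    Kn D S (.prod q true y) := by
  obtain ⟨m, hn, hp, hc⟩ := h.1
  obtain ⟨s, hs⟩ := tau_of_row S m hn hp (row_of_coloured_even S hc)
  exact thick_all S rfl hs q hq y

theorem row_of_coloured (hs : D.Sufficient S) {k : Fin (n + 1)} (h : D.Coloured S true k) :
    RowK D S k := by
  induction h with
  | seed k hk => exact row_of_left S k (free_seed S k hk)
  | node m hn hp =>
    rcases Bool.eq_false_or_eq_true (D.par m) with hb | hb
    · exact row_node_odd S m hn hb fun s => all_thick S hs _ rfl 3
    · exact row_node_even S m hn hb
  | pass m s e _ _ ih1 ih2 => exact row_pass S m s e (lon_of_crosses S m s ih1) ih2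

private theorem all_KQ (h : D.Sufficient S) (q : ECell D) (hq : q.dim = 1) : KQ D S q := by
  have hr : ∀ k, RowK D S k := fun k => row_of_coloured S h (h.2 k)
  cases q with
  | ax k => exact all_ax S k
  | seg m k hk => exact (hr k).1 m hk
  | leg m e s => exact base_leg S m e s
  | arc m e x => exact (hr (D.row m e)).2 m e rfl x
  | lon m s => exact lon_of_crosses S m s fun k _ => hr k
  | up k => simp [ECell.dim] at hq
  | dn k => simp [ECell.dim] at hq
  | pt m e s => simp [ECell.dim] at hq
  | page m s => simp [ECell.dim] at hq
  | sec m k => simp [ECell.dim] at hq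
  | ann m x => simp [ECell.dim] at hq
  | chamber m => simp [ECell.dim] at hq

private theorem prod_known (h : D.Sufficient S) (q : ECell D) (b : Bool) (y : Fin 4)
    (hd : (XCell.prod q b y : XCell D).dim = 1) : Kn D S (.prod q b y) := by
  cases b with
  | true => exact all_thick S h q (by simpa [XCell.dim] using hd) y
  | false => exact all_KQ S h q (by simpa [XCell.dim] using hd) y

private theorem tube_some (h : D.Sufficient S) (m : Fin (n + 1)) (z : SCell)
    (hz : (z.a ^^ z.b) = true) : Kn D S (XCell.tube m (some false) z) := by
  obtain ⟨a, b, x, y⟩ := z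
  cases a <;> cases b
  · simp at hz
  · exact prod_known S h _ _ _ rfl
  · exact prod_known S h _ _ _ rfl
  · simp at hz

private theorem even_xor : ∀ c : TCell, c.dim = 1 → ∀ z ∈ c.even, (z.a ^^ z.b) = true := by
  decide

private theorem facets_dim : ∀ c : TCell, c.dim = 1 → ∀ d ∈ c.facets, d.dim = 0 := by
  decide

private theorem fib_nil {p : Bool} {c : TCell} (h : c.coll p = true) (hd : c.dim = 1) :
    (NCell.fib c : List (NCell p)) = [] := by
  unfold NCell.fib
  rw [dif_neg (by rw [h]; decide), if_neg (by rw [hd]; decide)]

/-- One vertex of a collapsed edge from the other one. -/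
private theorem rad_other (h : D.Sufficient S) (m : Fin (n + 1)) (hn : D.node m = true)
    (c a b : TCell) (hc : c.dim = 1) (hcoll : c.coll (D.par m) = true)
    (hf : ∀ d ∈ c.facets, d = a ∨ d = b) (hb : b ∈ c.facets)
    (ha : Kn D S (.nd m hn (.rad false a))) : Kn D S (.nd m hn (.rad false b)) := by
  refine Known.cell (.nd m hn (.rad false c)) ?_ ?_
  · exact (mem_rad m hn false c _).2 (Or.inr (Or.inr ⟨b, hb, rfl⟩))
  · intro x hx hne
    rcases (mem_rad m hn false c x).1 hx with ⟨z, hz, rfl⟩ | ⟨d, hd, rfl⟩ | ⟨d, hd, rfl⟩
    · exact tube_some S h m z (even_xor c hc z hz)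
    · rw [fib_nil hcoll hc] at hd
      simp at hd
    · rcases hf d hd with rfl | rfl
      · exact ha
      · exact absurd rfl hne

private theorem rad_false (h : D.Sufficient S) (m : Fin (n + 1)) (hn : D.node m = true)
    (c : TCell) (hc : c.dim = 0) : Kn D S (.nd m hn (.rad false c)) := by
  by_cases hcoll : c.coll (D.par m) = false
  · exact tree_star S m hn c hc hcoll
  · cases c with
    | v x y =>
      rcases Bool.eq_false_or_eq_true (D.par m) with hb | hb
      · rw [hb] at hcoll
        cases x <;> cases y
        · simp [TCell.coll] at hcoll
        · exact tree_v S m hn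
        · exact rad_other S h m hn (.s false true) (.v false true) (.v true false) rfl
            (by rw [hb]; rfl) (by decide) (by decide) (tree_v S m hn)
        · simp [TCell.coll] at hcoll
      · rw [hb] at hcoll
        cases x <;> cases y
        · simp [TCell.coll] at hcoll
        · exact tree_v S m hn
        · simp [TCell.coll] at hcoll
        · exact rad_other S h m hn (.m false true) (.v false true) (.v true true) rfl
            (by rw [hb]; rfl) (by decide) (by decide) (tree_v S m hn)
    | m x y => simp [TCell.dim] at hc
    | t x y => simp [TCell.dim] at hc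
    | s x y => simp [TCell.dim] at hc
    | lo x y => simp [TCell.dim] at hc
    | hi x y => simp [TCell.dim] at hc

private theorem rad_known (h : D.Sufficient S) (m : Fin (n + 1)) (hn : D.node m = true)
    (e : Bool) (c : TCell) (hc : c.dim = 0) : Kn D S (.nd m hn (.rad e c)) := by
  cases e with
  | false => exact rad_false S h m hn c hc
  | true =>
    cases c with
    | v x y =>
      refine Known.cell (.nd m hn (.tri (.v x y))) ?_ ?_
      · exact List.mem_map.2 ⟨.nd (.rad true (.v x y)), by simp [NCell.facets], rfl⟩
      · intro b hb hne
        obtain ⟨l, hl, rfl⟩ := List.mem_map.1 hb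
        simp only [NCell.facets, TCell.even, TCell.facets, List.map_cons, List.map_nil,
          List.append_nil, List.cons_append, List.nil_append, List.mem_cons, List.not_mem_nil,
          or_false] at hl
        rcases hl with rfl | rfl | rfl
        · exact prod_known S h _ _ _ rfl
        · exact rad_false S h m hn _ rfl
        · exact absurd rfl hne
    | m x y => simp [TCell.dim] at hc
    | t x y => simp [TCell.dim] at hc
    | s x y => simp [TCell.dim] at hc
    | lo x y => simp [TCell.dim] at hc
    | hi x y => simp [TCell.dim] at hc

private theorem star_known (h : D.Sufficient S) (m : Fin (n + 1)) (hn : D.node m = true)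
    (c : TCell) (hcoll : c.coll (D.par m) = false) (hc : c.dim = 1) :
    Kn D S (.nd m hn (.star c hcoll)) := by
  have hfib : (NCell.fib c : List (NCell (D.par m))) = [.star c hcoll] := by
    unfold NCell.fib
    rw [dif_pos hcoll]
  refine Known.cell (.nd m hn (.rad false c)) ?_ ?_
  · refine (mem_rad m hn false c _).2 (Or.inr (Or.inl ⟨.star c hcoll, ?_, rfl⟩))
    rw [hfib]
    exact List.mem_singleton.2 rfl
  · intro x hx hne
    rcases (mem_rad m hn false c x).1 hx with ⟨z, hz, rfl⟩ | ⟨d, hd, rfl⟩ | ⟨d, hd, rfl⟩
    · exact tube_some S h m z (even_xor c hc z hz)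
    · rw [hfib] at hd
      rw [List.mem_singleton.1 hd] at hne
      exact absurd rfl hne
    · exact rad_false S h m hn d (facets_dim c hc d hd)

private theorem inn_known (h : D.Sufficient S) (m : Fin (n + 1)) (hn : D.node m = true)
    (c : TCell) (hc : c.dim = 0) : Kn D S (.nd m hn (.inn c)) := by
  cases c with
  | v x y =>
    refine Known.cell (.nd m hn (.fil (.v x y))) ?_ ?_
    · exact List.mem_map.2 ⟨.nd (.inn (.v x y)), by simp [NCell.facets], rfl⟩
    · intro b hb hne
      obtain ⟨l, hl, rfl⟩ := List.mem_map.1 hb
      simp only [NCell.facets, TCell.psi, TCell.rho, TCell.cap, TCell.facets, List.flatMap_nil,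
        List.map_nil, List.append_nil, List.mem_append, List.mem_cons, List.not_mem_nil,
        or_false, List.mem_map] at hl
      rcases hl with (rfl | ⟨d, hd, rfl⟩) | ⟨d, hd, rfl⟩
      · exact absurd rfl hne
      · refine rad_false S h m hn d ?_
        split_ifs at hd
        · rw [List.mem_singleton.1 hd]; rfl
        · rw [List.mem_singleton.1 hd]; rfl
      · refine rad_known S h m hn true d ?_
        split_ifs at hd
        · rw [List.mem_singleton.1 hd]; rfl
        · rw [List.mem_singleton.1 hd]; rfl
  | m x y => simp [TCell.dim] at hc
  | t x y => simp [TCell.dim] at hc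
  | s x y => simp [TCell.dim] at hc
  | lo x y => simp [TCell.dim] at hc
  | hi x y => simp [TCell.dim] at hc

theorem all_known (h : D.Sufficient S) (e : XCell D) (he : e.dim = 1) : Kn D S e := by
  cases e with
  | prod q b y => exact prod_known S h q b y he
  | nd m hn c =>
    cases c with
    | apex => simp [XCell.dim, NCell.dim] at he
    | star c hc => exact star_known S h m hn c hc he
    | rad e c => exact rad_known S h m hn e c (by simpa [XCell.dim, NCell.dim] using he)
    | tri c => simp [XCell.dim, NCell.dim] at he
    | inn c => exact inn_known S h m hn c (by simpa [XCell.dim, NCell.dim] using he)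
    | fil c => simp [XCell.dim, NCell.dim] at he
  | cl κ c => simp [XCell.dim] at he

end Pool.MP_f18604_gt.LSN
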