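import Mathlib
import Pool.Agent.Helper7.LSN.Cert

/-!
# LSN-20: the Euler characteristic

PROOF (compare `LS/Euler.lean`, `LS/EulerC.lean`).  `∑ x, (-1)^(x.dim)` over `XCell D`, as a sum over the three constructors (an `Equiv` of `XCell D` with
`(ECell D × Bool × Fin 4) ⊕ ((m : {m // D.node m = true}) × NCell (D.par m)) ⊕ (D.Comp × TCell)`): the sum over `prod q b y` vanishes (`b = false`, `b = true` cancel), the sum over `nd m h _` is 1 for every node column (`NCell.euler`), the sum over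
`cl κ _` vanishes (`∑ c : TCell, (-1)^(c.dim + 2) = 0`, `decide`).
-/

set_option autoImplicit false

namespace Pool.MP_f18604_gt.LSN

open Pool.MP_f18604_gt.LS

variable {N : ℕ} {D : Diagram N}

private def cellEquiv (D : Diagram N) :
    XCell D ≃ (ECell D × Bool × Fin 4) ⊕
      ((m : {m // D.node m = true}) × NCell (D.par m.1)) ⊕ (D.Comp × TCell) where
  toFun
    | .prod q b y => .inl (q, b, y)
    | .nd m h c => .inr (.inl ⟨⟨m, h⟩, c⟩)
    | .cl κ c => .inr (.inr (κ, c))
  invFun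
    | .inl (q, b, y) => .prod q b y
    | .inr (.inl ⟨⟨m, h⟩, c⟩) => .nd m h c
    | .inr (.inr (κ, c)) => .cl κ c
  left_inv x := by cases x <;> rfl
  right_inv y := by rcases y with ⟨q, b, y⟩ | ⟨⟨m, h⟩, c⟩ | ⟨κ, c⟩ <;> rfl

private theorem tcell_sum : ∑ c : TCell, (-1 : ℤ) ^ (c.dim + 2) = 0 := by decide

private theorem euler_x :
    ∑ x : XCell D, (-1 : ℤ) ^ x.dim = Fintype.card {m // D.node m = true} := by
  rw [← (cellEquiv D).symm.sum_comp]
  simp only [Fintype.sum_sum_type]
  have h1 : ∑ y : ECell D × Bool × Fin 4, (-1 : ℤ) ^ ((cellEquiv D).symm (.inl y)).dim = 0 := by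
    rw [Fintype.sum_prod_type]
    refine Finset.sum_eq_zero fun q _ => ?_
    rw [Fintype.sum_prod_type, Fintype.sum_bool]
    change (∑ _y : Fin 4, (-1 : ℤ) ^ (q.dim + 1)) + (∑ _y : Fin 4, (-1 : ℤ) ^ (q.dim + 0)) = 0
    rw [← Finset.sum_add_distrib]
    refine Finset.sum_eq_zero fun y _ => ?_
    rw [pow_succ, add_zero]
    ring
  have h2 : ∑ y : (m : {m // D.node m = true}) × NCell (D.par m.1),
      (-1 : ℤ) ^ ((cellEquiv D).symm (.inr (.inl y))).dim =
      Fintype.card {m // D.node m = true} := by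
    rw [Fintype.sum_sigma]
    have h : ∀ m : {m // D.node m = true}, ∑ c : NCell (D.par m.1),
        (-1 : ℤ) ^ ((cellEquiv D).symm (.inr (.inl ⟨m, c⟩))).dim = 1 := fun m =>
      NCell.euler (p := D.par m.1)
    rw [Finset.sum_congr rfl fun m _ => h m, Finset.sum_const, Finset.card_univ, nsmul_eq_mul,
      mul_one]
  have h3 : ∑ y : D.Comp × TCell, (-1 : ℤ) ^ ((cellEquiv D).symm (.inr (.inr y))).dim = 0 := by
    rw [Fintype.sum_prod_type]
    exact Finset.sum_eq_zero fun κ _ => tcell_sum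
  rw [h1, h2, h3]
  ring

theorem euler_card : ∑ i ∈ Finset.range 5, (-1 : ℤ) ^ i * Nat.card {x : XCell D // x.dim = i} =
    Fintype.card {m // D.node m = true} := by
  classical
  rw [← euler_x]
  have hdim : ∀ x ∈ (Finset.univ : Finset (XCell D)), x.dim ∈ Finset.range 5 := fun x _ =>
    Finset.mem_range.2 (Nat.lt_succ_of_le (closedThin.dim_le x))
  rw [← Finset.sum_fiberwise_of_maps_to hdim]
  refine Finset.sum_congr rfl fun i _ => ?_
  have h : ∀ x ∈ (Finset.univ : Finset (XCell D)).filter (fun x => x.dim = i),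
      (-1 : ℤ) ^ x.dim = (-1) ^ i := fun x hx => by rw [(Finset.mem_filter.1 hx).2]
  rw [Finset.sum_congr rfl h, Finset.sum_const, nsmul_eq_mul, mul_comm, Nat.card_eq_fintype_card,
    Fintype.card_subtype]

end Pool.MP_f18604_gt.LSN
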