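import Mathlib
import Pool.Agent.Helper7.LSN.All

/-!
# LSN-32: the gradient
-/

set_option autoImplicit false

namespace Pool.MP_f18604_gt.LSN

open Pool.MP_f18604_gt.LS

theorem main {N : ℕ} (D : Diagram N) (S : Finset (Fin N)) (h : D.Sufficient S) :
    ∃ G : Gradient (XCell.facets (D := D)), (∃! a, G.Critical a ∧ a.dim = 0) ∧
      {a | G.Critical a ∧ a.dim = 1}.ncard ≤ S.card := by
  obtain ⟨m, _⟩ := h.1
  obtain ⟨n, rfl⟩ : ∃ n, N = n + 1 := ⟨N - 1, by have := m.pos; omega⟩
  exact gradient_of_known D S fun e he => all_known S h e he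

end Pool.MP_f18604_gt.LSN
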