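import Mathlib
import Pool.Agent.Helper7.LSN.Cells

/-!
# Grid diagrams of links with labelled components, stabilisation, colouring

`Grid ι N`: a grid diagram of a link with `N` rows and columns; the label of a column is the component of the link.  `stab m` is the stabilisation
at the end `false` of column `m`, which is in row `k = sig m`: a new column `c` directly before column `m` and a new row directly after row `k`; the new arc in column `c` goes
from row `k` to the new row, and the arc in column `m` starts in the new row.  The link type does not change.
-/

set_option autoImplicit false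

namespace Pool.MP_f18604_gt.LSN

open Pool.MP_f18604_gt.LS

/-- A grid diagram of a link with `N` rows and `N` columns whose components are labelled by `ι`. -/
structure Grid (ι : Type) (N : ℕ) where
  sig : Equiv.Perm (Fin N)
  tau : Equiv.Perm (Fin N)
  ne : ∀ m, sig m ≠ tau m
  lab : Fin N → ι
  lab_next : ∀ m, lab (sig.symm (tau m)) = lab m
  conn : ∀ m m', lab m = lab m' → ∃ i : ℕ, (fun l => sig.symm (tau l))^[i] m = m'

namespace Grid

variable {ι : Type} {N : ℕ} (G : Grid ι N)

/-- The row of the end `e` of the arc in column `m`. -/
def row (m : Fin N) (e : Bool) : Fin N := if e then G.tau m else G.sig m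

/-- The piece of page `m` which contains the axis segment `A_k`. -/
def side (m k : Fin N) : Bool := !cyc (G.sig m) (G.tau m) k

/-- Row `k`, not on the arc of column `m`, crosses the page piece `(m, s)`. -/
def Crosses (m : Fin N) (s : Bool) (k : Fin N) : Prop :=
  G.side m k = s ∧ (∃ l e, l < m ∧ G.row l e = k) ∧ ∃ l e, m < l ∧ G.row l e = k

/-- The colouring rule of the Wirtinger number with the seeds `S`. -/
inductive Coloured (S : Finset (Fin N)) : Fin N → Prop
  | seed (k : Fin N) : k ∈ S → Coloured S k
  | pass (m : Fin N) (s e : Bool) : (∀ k, G.Crosses m s k → Coloured S k) →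
      Coloured S (G.row m e) → Coloured S (G.row m !e)

/-- The permutation which is `f` on the old elements and maps the new element `a` to the new element `b`. -/
def extend (f : Equiv.Perm (Fin N)) (a b : Fin (N + 1)) : Equiv.Perm (Fin (N + 1)) :=
  ((finSuccEquiv' a).trans f.optionCongr).trans (finSuccEquiv' b).symm

end Grid

/-- `H` is the stabilisation of `G` at the end `false` of column `m`: the new column is the one with the number of `m`, the new row follows
the row `k = sig m`. -/
structure IsStab {ι : Type} {N : ℕ} (G : Grid ι N) (m : Fin N) (H : Grid ι (N + 1)) : Prop where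
  sig : H.sig = Grid.extend G.sig m.castSucc (G.sig m).castSucc
  tau : H.tau = Grid.extend G.tau m.castSucc (G.sig m).succ
  lab_new : H.lab m.castSucc = G.lab m
  lab_old : ∀ l, H.lab (m.castSucc.succAbove l) = G.lab l

/-- `H` is obtained from `G` by stabilisations. -/
inductive Stab {ι : Type} {N : ℕ} (G : Grid ι N) : (M : ℕ) → Grid ι M → Prop
  | refl : Stab G N G
  | step {M : ℕ} {H : Grid ι M} (m : Fin M) (H' : Grid ι (M + 1)) : Stab G M H → IsStab H m H' →
      Stab G (M + 1) H'

end Pool.MP_f18604_gt.LSN
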