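import Mathlib
import Pool.Agent.Helper7.LSN.Grid

/-!
# LSN-41: the values of a stabilisation

Let `c = m.castSucc` be the new column and `k = G.sig m`; an old column `l` has the number `c.succAbove l`, in particular column `m` has the number `m.succ`.
PROOFS.  `finSuccEquiv'_at`, `finSuccEquiv'_succAbove`, `finSuccEquiv'_symm_none`, `finSuccEquiv'_symm_some`.  `sa_self`, `sb_self`, `sa_ne`: `Fin.ext`, `Fin.succAbove`, `omega`.
`next_new`: `H.tau c = k.succ = k.castSucc.succAbove (G.sig m) = H.sig (c.succAbove m)`.  `next_old`: `H.tau (c.succAbove l) = k.succ.succAbove (G.tau l)`; if `G.tau l = k` this is `k.castSucc = H.sig c`; otherwise it is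
`k.castSucc.succAbove (G.tau l)` (`sa_ne`) `= H.sig (c.succAbove (G.sig.symm (G.tau l)))`.
`exists_stab`: the functions are given by `IsStab`; `lab` is defined by `Fin.insertNth` (or `fun x => if x = c then G.lab m else ..`, `Fin.exists_succAbove_eq`).  `ne`: for `c`: `k.castSucc ≠ k.succ`; for `l`: if
`k.castSucc.succAbove a = k.succ.succAbove b`, `a = G.sig l ≠ b = G.tau l`: for `a = k` the left side is `k.succ`, not in the range of `k.succ.succAbove`; for `b = k` the right side is `k.castSucc`, not in the range of
`k.castSucc.succAbove`; otherwise both maps agree and `a = b`.  `lab_next`: `next_new`, `next_old`, `G.lab_next` (if `G.tau l = G.sig m` then `G.sig.symm (G.tau l) = m`).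
`conn`: from `c` one step leads to `c.succAbove m`; from `c.succAbove l` one or two steps lead to `c.succAbove (next l)`; so every `c.succAbove l'` with `G.lab l' = G.lab l` is reached from `c.succAbove l` (induction on `i`), and `c` is
reached from `c.succAbove l0` with `G.tau l0 = G.sig m` in one step, where `G.lab l0 = G.lab m` (`lab_next`).
-/

set_option autoImplicit false

namespace Pool.MP_f18604_gt.LSN

open Pool.MP_f18604_gt.LS

variable {ι : Type} {N : ℕ} {G : Grid ι N} {m : Fin N} {H : Grid ι (N + 1)}

theorem extend_new (f : Equiv.Perm (Fin N)) (a b : Fin (N + 1)) : Grid.extend f a b a = b := by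
  simp [Grid.extend]

theorem extend_old (f : Equiv.Perm (Fin N)) (a b : Fin (N + 1)) (l : Fin N) :
    Grid.extend f a b (a.succAbove l) = b.succAbove (f l) := by
  simp [Grid.extend]

theorem sa_self (m : Fin N) : m.castSucc.succAbove m = m.succ := by
  simp

theorem sb_self (m : Fin N) : m.succ.succAbove m = m.castSucc := by
  simp

theorem sa_ne {k r : Fin N} (h : r ≠ k) : k.succ.succAbove r = k.castSucc.succAbove r := by
  rcases lt_or_gt_of_ne h with h' | h'
  · rw [Fin.succAbove_of_castSucc_lt, Fin.succAbove_of_castSucc_lt]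
    · exact Fin.castSucc_lt_castSucc_iff.2 h'
    · exact lt_trans (Fin.castSucc_lt_castSucc_iff.2 h') Fin.castSucc_lt_succ
  · rw [Fin.succAbove_of_le_castSucc, Fin.succAbove_of_le_castSucc]
    · exact Fin.castSucc_le_castSucc_iff.2 h'.le
    · rw [Fin.le_def]
      simp only [Fin.val_succ, Fin.val_castSucc]
      exact h'

theorem IsStab.sig_new (h : IsStab G m H) : H.sig m.castSucc = (G.sig m).castSucc := by
  rw [h.sig, extend_new]

theorem IsStab.sig_old (h : IsStab G m H) (l : Fin N) :
    H.sig (m.castSucc.succAbove l) = (G.sig m).castSucc.succAbove (G.sig l) := by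
  rw [h.sig, extend_old]

theorem IsStab.tau_new (h : IsStab G m H) : H.tau m.castSucc = (G.sig m).succ := by
  rw [h.tau, extend_new]

theorem IsStab.tau_old (h : IsStab G m H) (l : Fin N) :
    H.tau (m.castSucc.succAbove l) = (G.sig m).succ.succAbove (G.tau l) := by
  rw [h.tau, extend_old]

theorem raw_new (s : Equiv.Perm (Fin N)) (t : Equiv.Perm (Fin N)) (m : Fin N) :
    (Grid.extend s m.castSucc (s m).castSucc).symm
      (Grid.extend t m.castSucc (s m).succ m.castSucc) = m.succ := by
  rw [Equiv.symm_apply_eq, extend_new, ← sa_self m, extend_old, sa_self]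

theorem raw_old (s : Equiv.Perm (Fin N)) (t : Equiv.Perm (Fin N)) (m l : Fin N) :
    (Grid.extend s m.castSucc (s m).castSucc).symm
      (Grid.extend t m.castSucc (s m).succ (m.castSucc.succAbove l)) =
      if t l = s m then m.castSucc else m.castSucc.succAbove (s.symm (t l)) := by
  rw [Equiv.symm_apply_eq, extend_old]
  split_ifs with hc
  · rw [hc, sb_self, extend_new]
  · rw [sa_ne hc, extend_old, Equiv.apply_symm_apply]

theorem IsStab.next_new (h : IsStab G m H) : H.sig.symm (H.tau m.castSucc) = m.succ := by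
  rw [h.sig, h.tau]
  exact raw_new G.sig G.tau m

theorem IsStab.next_old (h : IsStab G m H) (l : Fin N) :
    H.sig.symm (H.tau (m.castSucc.succAbove l)) =
      if G.tau l = G.sig m then m.castSucc else m.castSucc.succAbove (G.sig.symm (G.tau l)) := by
  rw [h.sig, h.tau]
  exact raw_old G.sig G.tau m l

theorem raw_ne (G : Grid ι N) (m : Fin N) (x : Fin (N + 1)) :
    Grid.extend G.sig m.castSucc (G.sig m).castSucc x ≠
      Grid.extend G.tau m.castSucc (G.sig m).succ x := by
  rcases Fin.eq_self_or_eq_succAbove m.castSucc x with rfl | ⟨l, rfl⟩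
  · rw [extend_new, extend_new]
    exact (Fin.castSucc_lt_succ).ne
  · rw [extend_old, extend_old]
    by_cases hb : G.tau l = G.sig m
    · rw [hb, sb_self]
      exact Fin.succAbove_ne _ _
    · rw [sa_ne hb]
      intro hx
      exact G.ne l (Fin.succAbove_right_injective hx)

theorem exists_stab (G : Grid ι N) (m : Fin N) : ∃ H : Grid ι (N + 1), IsStab G m H := by
  have hlab : ∃ lab : Fin (N + 1) → ι, lab m.castSucc = G.lab m ∧
      ∀ l, lab (m.castSucc.succAbove l) = G.lab l :=
    ⟨Fin.insertNth (α := fun _ => ι) m.castSucc (G.lab m) G.lab, by simp, by simp⟩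
  obtain ⟨lab, hl1, hl2⟩ := hlab
  set S := Grid.extend G.sig m.castSucc (G.sig m).castSucc with hS
  set T := Grid.extend G.tau m.castSucc (G.sig m).succ with hT
  have hn : S.symm (T m.castSucc) = m.castSucc.succAbove m := by
    rw [sa_self]
    exact raw_new G.sig G.tau m
  have ho : ∀ l, S.symm (T (m.castSucc.succAbove l)) =
      if G.tau l = G.sig m then m.castSucc else m.castSucc.succAbove (G.sig.symm (G.tau l)) :=
    fun l => raw_old G.sig G.tau m l
  have hm : ∀ l, G.tau l = G.sig m → G.lab l = G.lab m := by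
    intro l hl
    have := G.lab_next l
    rw [hl, Equiv.symm_apply_apply] at this
    exact this.symm
  have step : ∀ l, ∃ j : ℕ, (fun x => S.symm (T x))^[j] (m.castSucc.succAbove l) =
      m.castSucc.succAbove (G.sig.symm (G.tau l)) := by
    intro l
    by_cases hl : G.tau l = G.sig m
    · refine ⟨2, ?_⟩
      simp only [Function.iterate_succ, Function.iterate_zero, Function.comp_apply, id_eq]
      rw [ho l, if_pos hl, hn, hl, Equiv.symm_apply_apply]
    · refine ⟨1, ?_⟩
      simp only [Function.iterate_one]
      rw [ho l, if_neg hl]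
  have steps : ∀ (i : ℕ) (l : Fin N), ∃ j : ℕ,
      (fun x => S.symm (T x))^[j] (m.castSucc.succAbove l) =
        m.castSucc.succAbove ((fun l => G.sig.symm (G.tau l))^[i] l) := by
    intro i
    induction i with
    | zero => intro l; exact ⟨0, rfl⟩
    | succ i ih =>
      intro l
      obtain ⟨j, hj⟩ := step l
      obtain ⟨j', hj'⟩ := ih (G.sig.symm (G.tau l))
      refine ⟨j' + j, ?_⟩
      rw [Function.iterate_add_apply, hj, hj', Function.iterate_succ_apply]
  have reach : ∀ l l', G.lab l = G.lab l' → ∃ j : ℕ,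
      (fun x => S.symm (T x))^[j] (m.castSucc.succAbove l) = m.castSucc.succAbove l' := by
    intro l l' hll
    obtain ⟨i, hi⟩ := G.conn l l' hll
    obtain ⟨j, hj⟩ := steps i l
    exact ⟨j, by rw [hj, hi]⟩
  refine ⟨⟨S, T, raw_ne G m, lab, ?_, ?_⟩, rfl, rfl, hl1, hl2⟩
  · intro x
    rcases Fin.eq_self_or_eq_succAbove m.castSucc x with rfl | ⟨l, rfl⟩
    · rw [hn, hl2, hl1]
    · rw [ho l, hl2]
      split_ifs with hc
      · rw [hl1, hm l hc]
      · rw [hl2, G.lab_next]
  · intro x x' hxx
    rcases Fin.eq_self_or_eq_succAbove m.castSucc x with rfl | ⟨l, rfl⟩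
    · rcases Fin.eq_self_or_eq_succAbove m.castSucc x' with rfl | ⟨l', rfl⟩
      · exact ⟨0, rfl⟩
      · rw [hl1, hl2] at hxx
        obtain ⟨j, hj⟩ := reach m l' hxx
        refine ⟨j + 1, ?_⟩
        rw [Function.iterate_succ_apply]
        simp only [hn]
        exact hj
    · rcases Fin.eq_self_or_eq_succAbove m.castSucc x' with rfl | ⟨l', rfl⟩
      · rw [hl1, hl2] at hxx
        have h0 : G.tau (G.tau.symm (G.sig m)) = G.sig m := Equiv.apply_symm_apply _ _
        obtain ⟨j, hj⟩ := reach l (G.tau.symm (G.sig m)) (hxx.trans (hm _ h0).symm)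
        refine ⟨j + 1, ?_⟩
        rw [Function.iterate_succ_apply', hj]
        simp only [ho]
        rw [if_pos h0]
      · rw [hl2, hl2] at hxx
        exact reach l l' hxx

end Pool.MP_f18604_gt.LSN
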