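import Mathlib
import Pool.Agent.Helper7.LSN.GridVal

/-!
# LSN-42: colourings and stabilisation

`AllCol A`: the rows `sig m`, `m ∈ A`, colour all rows.

PROOFS.  `coloured_mono`: induction.
`crosses_kink`: if the arc of column `c` goes from row `k` to row `k + 1`, then no row crosses its piece `false`: `side c r = false` means `cyc k (k + 1) r = true`, that is `r = k = sig c` (as numbers), and row `k` has its marks in the columns `c` (end `false`) and
`tau⁻¹ k ≠ c`: if `l < c < l'` both have a mark in row `k`, then both are different from `c`, so both have the end `true` (`sig` is injective), so `l = l' = tau⁻¹ k`, contradiction.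
`allCol_stab`.  Let `c = m.castSucc`, `k = G.sig m`; a row `r'` of `H` lies over `r ≠ k` if `r' = k.castSucc.succAbove r`, and over `k` if it is `k.castSucc` or `k.succ`.  Put `B = A.image c.succAbove`.
(i) `k.succ = H.sig (c.succAbove m)` is a seed as `m ∈ A`; column `c` goes from row `k.castSucc` to row `k.succ`, so `k.castSucc` is coloured by `pass c false true` (`crosses_kink`).
(ii) by induction on `G.Coloured (A.image G.sig) r` all rows of `H` over `r` are coloured.  Seed `r = G.sig l`, `l ∈ A`: if `r ≠ k` then `H.sig (c.succAbove l) = k.castSucc.succAbove r` is a seed.  `pass l s e`: let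
`l' = c.succAbove l`.  Every row `r'` of `H` which crosses `(l', s)` is coloured: over `k` by (i); over `r ≠ k`: the marks of `r'` are the columns `c.succAbove _` of the marks of `r` (`H.row (c.succAbove j) e = r'` iff `G.row j e = r` by
`sig_old`, `tau_old`, `sa_ne`; column `c` has no mark there), `succAbove` is monotone, and `H.side l' r' = G.side l r`: the comparisons of `r'` with `H.sig l' = k.castSucc.succAbove (G.sig l)` and
`H.tau l' = k.succ.succAbove (G.tau l)`, and of these two numbers, are the same as the comparisons of `r`, `G.sig l`, `G.tau l` (`r ≠ k`; write out `succAbove` and use `omega`).  So `r` crosses `(l, s)` in `G` and `r'` is coloured by induction.  Hence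
`H.row l' (!e)` is coloured by `pass l' s e` (the row `H.row l' e` lies over `G.row l e`), and it lies over `G.row l (!e)`; if this row is `≠ k`, it is the only row over it; if it is `k`, use (i).
-/

set_option autoImplicit false

namespace Pool.MP_f18604_gt.LSN

open Pool.MP_f18604_gt.LS

variable {ι : Type} {N : ℕ} {G : Grid ι N} {m : Fin N} {H : Grid ι (N + 1)}

/-- The rows of the ends `false` of the columns in `A` colour all rows. -/
def AllCol (G : Grid ι N) (A : Finset (Fin N)) : Prop := ∀ k, G.Coloured (A.image G.sig) k

theorem coloured_mono {S T : Finset (Fin N)} (h : S ⊆ T) {k : Fin N} (hk : G.Coloured S k) :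
    G.Coloured T k := by
  induction hk with
  | seed k hk => exact Grid.Coloured.seed k (h hk)
  | pass m s e _ _ ih1 ih2 => exact Grid.Coloured.pass m s e ih1 ih2

theorem allCol_mono {A B : Finset (Fin N)} (h : A ⊆ B) (hA : AllCol G A) : AllCol G B := by
  intro k
  exact coloured_mono (Finset.image_subset_image h) (hA k)

theorem crosses_kink {c k : Fin N} (h : (G.tau c).val = (G.sig c).val + 1) :
    ¬ G.Crosses c false k := by
  rintro ⟨h1, ⟨l, e, hl, hle⟩, ⟨l', e', hl', hle'⟩⟩
  have hs : cyc (G.sig c) (G.tau c) k = true := by
    unfold Grid.side at h1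
    simpa using h1
  have hk : k = G.sig c := by
    unfold cyc at hs
    rw [if_pos (by omega)] at hs
    simp only [decide_eq_true_eq] at hs
    apply Fin.ext
    omega
  have key : ∀ (l : Fin N) (e : Bool), l ≠ c → G.row l e = k → G.tau l = k := by
    intro l e hlc hr
    cases e with
    | false =>
      exfalso
      apply hlc
      apply G.sig.injective
      rw [← hk, ← hr]
      rfl
    | true => exact hr
  have a1 := key l e (ne_of_lt hl) hle
  have a2 := key l' e' (ne_of_gt hl') hle'
  have : l = l' := G.tau.injective (a1.trans a2.symm)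
  subst this
  exact absurd hl (not_lt.mpr (le_of_lt hl'))

private theorem val_sa (k x : Fin N) :
    (k.castSucc.succAbove x).val = if x.val < k.val then x.val else x.val + 1 := by
  by_cases hx : x.val < k.val
  · rw [if_pos hx, Fin.succAbove_of_castSucc_lt _ _ (by
      rw [Fin.lt_def]; exact hx)]
    rfl
  · rw [if_neg hx, Fin.succAbove_of_le_castSucc _ _ (by
      rw [Fin.le_def]; simp only [Fin.val_castSucc]; omega)]
    rfl

private theorem val_sb (k x : Fin N) :
    (k.succ.succAbove x).val = if x.val ≤ k.val then x.val else x.val + 1 := by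
  by_cases hx : x.val ≤ k.val
  · rw [if_pos hx, Fin.succAbove_of_castSucc_lt _ _ (by
      rw [Fin.lt_def]; simp only [Fin.val_castSucc, Fin.val_succ]; omega)]
    rfl
  · rw [if_neg hx, Fin.succAbove_of_le_castSucc _ _ (by
      rw [Fin.le_def]; simp only [Fin.val_castSucc, Fin.val_succ]; omega)]
    rfl

private theorem cyc_stab {k s t r : Fin N} (hr : r ≠ k) (hst : s ≠ t) :
    cyc (k.castSucc.succAbove s) (k.succ.succAbove t) (k.castSucc.succAbove r) = cyc s t r := by
  have hr' : r.val ≠ k.val := fun h => hr (Fin.ext h)
  have hst' : s.val ≠ t.val := fun h => hst (Fin.ext h)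
  unfold cyc
  simp only [Fin.lt_def, Fin.le_def]
  rw [val_sa, val_sb, val_sa]
  by_cases h1 : s.val < t.val
  · rw [if_pos h1]
    rw [if_pos (by split_ifs <;> omega)]
    rw [decide_eq_decide]
    split_ifs <;> omega
  · rw [if_neg h1]
    rw [if_neg (by split_ifs <;> omega)]
    rw [decide_eq_decide]
    split_ifs <;> omega

private theorem side_stab (h : IsStab G m H) {r : Fin N} (hr : r ≠ G.sig m) (l : Fin N) :
    H.side (m.castSucc.succAbove l) ((G.sig m).castSucc.succAbove r) = G.side l r := by
  unfold Grid.side
  rw [h.sig_old, h.tau_old, cyc_stab hr (G.ne l)]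

private theorem row_stab (h : IsStab G m H) {r : Fin N} (hr : r ≠ G.sig m) (l : Fin N) (e : Bool)
    (hl : H.row (m.castSucc.succAbove l) e = (G.sig m).castSucc.succAbove r) :
    G.row l e = r := by
  cases e with
  | false =>
    have h1 : H.sig (m.castSucc.succAbove l) = (G.sig m).castSucc.succAbove r := hl
    rw [h.sig_old] at h1
    exact Fin.succAbove_right_injective h1
  | true =>
    have h1 : H.tau (m.castSucc.succAbove l) = (G.sig m).castSucc.succAbove r := hl
    rw [h.tau_old, ← sa_ne hr] at h1
    exact Fin.succAbove_right_injective h1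

private theorem row_new (h : IsStab G m H) {r : Fin N} (hr : r ≠ G.sig m) (e : Bool) :
    H.row m.castSucc e ≠ (G.sig m).castSucc.succAbove r := by
  cases e with
  | false =>
    intro h1
    have h2 : H.sig m.castSucc = (G.sig m).castSucc.succAbove r := h1
    rw [h.sig_new] at h2
    exact Fin.succAbove_ne _ _ h2.symm
  | true =>
    intro h1
    have h2 : H.tau m.castSucc = (G.sig m).castSucc.succAbove r := h1
    rw [h.tau_new, ← sa_self] at h2
    exact hr (Fin.succAbove_right_injective h2).symm

private theorem crosses_stab (h : IsStab G m H) {r : Fin N} (hr : r ≠ G.sig m) (l : Fin N)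
    (s : Bool) (hc : H.Crosses (m.castSucc.succAbove l) s ((G.sig m).castSucc.succAbove r)) :
    G.Crosses l s r := by
  obtain ⟨h1, ⟨a, e, ha, hae⟩, ⟨b, e', hb, hbe⟩⟩ := hc
  refine ⟨?_, ?_, ?_⟩
  · rw [← h1, side_stab h hr]
  · have hac : a ≠ m.castSucc := by
      rintro rfl
      exact row_new h hr e hae
    obtain ⟨j, rfl⟩ := Fin.exists_succAbove_eq hac
    exact ⟨j, e, (Fin.strictMono_succAbove _).lt_iff_lt.mp ha, row_stab h hr j e hae⟩
  · have hbc : b ≠ m.castSucc := by
      rintro rfl
      exact row_new h hr e' hbe
    obtain ⟨j, rfl⟩ := Fin.exists_succAbove_eq hbc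
    exact ⟨j, e', (Fin.strictMono_succAbove _).lt_iff_lt.mp hb, row_stab h hr j e' hbe⟩

private theorem col_row (h : IsStab G m H) {S : Finset (Fin (N + 1))}
    (h1 : H.Coloured S (G.sig m).castSucc) (h2 : H.Coloured S (G.sig m).succ) (l : Fin N)
    (e : Bool) : H.Coloured S (H.row (m.castSucc.succAbove l) e) ↔
      H.Coloured S ((G.sig m).castSucc.succAbove (G.row l e)) := by
  cases e with
  | false =>
    change H.Coloured S (H.sig (m.castSucc.succAbove l)) ↔
      H.Coloured S ((G.sig m).castSucc.succAbove (G.sig l))
    rw [h.sig_old]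
  | true =>
    change H.Coloured S (H.tau (m.castSucc.succAbove l)) ↔
      H.Coloured S ((G.sig m).castSucc.succAbove (G.tau l))
    rw [h.tau_old]
    by_cases ht : G.tau l = G.sig m
    · rw [ht, sa_self, sb_self]
      exact ⟨fun _ => h2, fun _ => h1⟩
    · rw [sa_ne ht]

theorem allCol_stab (h : IsStab G m H) {A : Finset (Fin N)} (hm : m ∈ A) (hA : AllCol G A) :
    AllCol H (A.image m.castSucc.succAbove) := by
  set S := (A.image m.castSucc.succAbove).image H.sig with hS
  have h2 : H.Coloured S (G.sig m).succ := by
    apply Grid.Coloured.seed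
    rw [hS, Finset.mem_image]
    refine ⟨m.castSucc.succAbove m, Finset.mem_image_of_mem _ hm, ?_⟩
    rw [h.sig_old, sa_self]
  have h1 : H.Coloured S (G.sig m).castSucc := by
    have h3 := Grid.Coloured.pass (G := H) (S := S) m.castSucc false true
      (fun k hk => absurd hk (crosses_kink (by rw [h.sig_new, h.tau_new]; rfl)))
      (by
        change H.Coloured S (H.tau m.castSucc)
        rw [h.tau_new]
        exact h2)
    have h4 : H.row m.castSucc (!true) = (G.sig m).castSucc := by
      rw [← h.sig_new]
      rfl
    rw [h4] at h3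
    exact h3
  have main : ∀ r, G.Coloured (A.image G.sig) r →
      H.Coloured S ((G.sig m).castSucc.succAbove r) := by
    intro r hr
    induction hr with
    | seed r hr =>
      rw [Finset.mem_image] at hr
      obtain ⟨l, hl, rfl⟩ := hr
      apply Grid.Coloured.seed
      rw [hS, Finset.mem_image]
      exact ⟨m.castSucc.succAbove l, Finset.mem_image_of_mem _ hl, h.sig_old l⟩
    | pass l s e _ _ ih1 ih2 =>
      rw [← col_row h h1 h2]
      refine Grid.Coloured.pass _ s e ?_ ?_
      · intro r' hr'
        by_cases hrc : r' = (G.sig m).castSucc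
        · rw [hrc]
          exact h1
        · obtain ⟨r, rfl⟩ := Fin.exists_succAbove_eq hrc
          by_cases hrk : r = G.sig m
          · rw [hrk, sa_self]
            exact h2
          · exact ih1 r (crosses_stab h hrk l s hr')
      · rw [col_row h h1 h2]
        exact ih2
  intro r'
  by_cases hrc : r' = (G.sig m).castSucc
  · rw [hrc]
    exact h1
  · obtain ⟨r, rfl⟩ := Fin.exists_succAbove_eq hrc
    exact main r (hA r)

end Pool.MP_f18604_gt.LSN
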