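import Mathlib
import Pool.Agent.Helper7.LSN.GridCol

/-!
# LSN-43: numbers of columns, one stabilisation, every component has a seed

PROOFS.  `cols_stab`: the columns of `H` are `c = m.castSucc` and the `c.succAbove l` (`Fin.univ_succAbove`), with the labels of `IsStab`.  `cnt_image`, `cnt_insert`: `succAbove` is injective and never `c`.
`exists_seed`: by induction on `Coloured S k` there is `k' ∈ S` with `lab (sig.symm k') = lab (sig.symm k)`: for `pass m s e`: `lab (sig.symm (sig m)) = lab m = lab (sig.symm (tau m))` (`lab_next`).  Apply this to `k = sig l`.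
`add_kink`: take `H` from `exists_stab`, `B = insert c (A.image c.succAbove)`, `m' = c.succAbove m`, `allCol_stab`, `allCol_mono`, the kink `c`: `H.tau c = (G.sig m).succ`, `H.sig c = (G.sig m).castSucc`, `next_new`.
`add_plain`: the same with `B = A.image c.succAbove`.
-/

set_option autoImplicit false

namespace Pool.MP_f18604_gt.LSN

open Pool.MP_f18604_gt.LS

variable {ι : Type} [DecidableEq ι] {N : ℕ} {G : Grid ι N} {m : Fin N} {H : Grid ι (N + 1)}

/-- The number of columns with the label `i`. -/
def cols (G : Grid ι N) (i : ι) : ℕ := (Finset.univ.filter fun m => G.lab m = i).card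

/-- The number of columns in `A` with the label `i`. -/
def cnt (G : Grid ι N) (A : Finset (Fin N)) (i : ι) : ℕ := (A.filter fun m => G.lab m = i).card

/-- A column in `B` whose arc joins two consecutive rows, and the next column is in `B`, too. -/
def Pair (G : Grid ι N) (B : Finset (Fin N)) : Prop :=
  ∃ c ∈ B, G.sig.symm (G.tau c) ∈ B ∧ (G.tau c).val = (G.sig c).val + 1

theorem cnt_image (h : IsStab G m H) (A : Finset (Fin N)) (i : ι) :
    cnt H (A.image m.castSucc.succAbove) i = cnt G A i := by
  unfold cnt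
  have h1 : (A.image m.castSucc.succAbove).filter (fun l => H.lab l = i)
      = (A.filter fun l => G.lab l = i).image m.castSucc.succAbove := by
    ext x
    simp only [Finset.mem_filter, Finset.mem_image]
    constructor
    · rintro ⟨⟨l, hl, rfl⟩, hx⟩
      exact ⟨l, ⟨hl, by rw [← h.lab_old l]; exact hx⟩, rfl⟩
    · rintro ⟨l, ⟨hl, hx⟩, rfl⟩
      exact ⟨⟨l, hl, rfl⟩, by rw [h.lab_old l]; exact hx⟩
  rw [h1, Finset.card_image_of_injective _ Fin.succAbove_right_injective]

theorem cnt_insert (h : IsStab G m H) (A : Finset (Fin N)) (i : ι) :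
    cnt H (insert m.castSucc (A.image m.castSucc.succAbove)) i =
      cnt G A i + if G.lab m = i then 1 else 0 := by
  rw [← cnt_image h A i]
  unfold cnt
  rw [Finset.filter_insert, h.lab_new]
  by_cases hi : G.lab m = i
  · rw [if_pos hi, if_pos hi, Finset.card_insert_of_notMem]
    intro hc
    rw [Finset.mem_filter, Finset.mem_image] at hc
    obtain ⟨⟨l, _, hl⟩, _⟩ := hc
    exact Fin.succAbove_ne _ _ hl
  · rw [if_neg hi, if_neg hi]
    rfl

theorem cols_stab (h : IsStab G m H) (i : ι) :
    cols H i = cols G i + if G.lab m = i then 1 else 0 := by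
  have h1 : (Finset.univ : Finset (Fin (N + 1))) =
      insert m.castSucc ((Finset.univ : Finset (Fin N)).image m.castSucc.succAbove) := by
    symm
    rw [Finset.eq_univ_iff_forall]
    intro x
    rw [Finset.mem_insert]
    by_cases hx : x = m.castSucc
    · exact Or.inl hx
    · obtain ⟨j, rfl⟩ := Fin.exists_succAbove_eq hx
      exact Or.inr (Finset.mem_image_of_mem _ (Finset.mem_univ j))
  have h2 := cnt_insert h Finset.univ i
  rw [← h1] at h2
  exact h2

theorem exists_seed {A : Finset (Fin N)} (hA : AllCol G A) (l : Fin N) :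
    ∃ m ∈ A, G.lab m = G.lab l := by
  have key : ∀ k, G.Coloured (A.image G.sig) k →
      ∃ k' ∈ A.image G.sig, G.lab (G.sig.symm k') = G.lab (G.sig.symm k) := by
    intro k hk
    induction hk with
    | seed k hk => exact ⟨k, hk, rfl⟩
    | pass m s e _ _ _ ih =>
      obtain ⟨k', hk', hlab⟩ := ih
      refine ⟨k', hk', hlab.trans ?_⟩
      have h1 : ∀ b : Bool, G.lab (G.sig.symm (G.row m b)) = G.lab m := by
        intro b
        cases b with
        | false =>
          change G.lab (G.sig.symm (G.sig m)) = G.lab m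
          rw [Equiv.symm_apply_apply]
        | true => exact G.lab_next m
      rw [h1, h1]
  obtain ⟨k', hk', hlab⟩ := key (G.sig l) (hA _)
  rw [Finset.mem_image] at hk'
  obtain ⟨a, ha, rfl⟩ := hk'
  rw [Equiv.symm_apply_apply, Equiv.symm_apply_apply] at hlab
  exact ⟨a, ha, hlab⟩

theorem add_kink (G : Grid ι N) {A : Finset (Fin N)} (m : Fin N) (hm : m ∈ A) (hA : AllCol G A) :
    ∃ (H : Grid ι (N + 1)) (B : Finset (Fin (N + 1))), IsStab G m H ∧ AllCol H B ∧ Pair H B ∧
      (∃ m' ∈ B, H.lab m' = G.lab m) ∧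
      (∀ i, cols H i = cols G i + if G.lab m = i then 1 else 0) ∧
      ∀ i, cnt H B i = cnt G A i + if G.lab m = i then 1 else 0 := by
  obtain ⟨H, h⟩ := exists_stab G m
  have hmem : m.castSucc.succAbove m ∈ insert m.castSucc (A.image m.castSucc.succAbove) :=
    Finset.mem_insert_of_mem (Finset.mem_image_of_mem _ hm)
  refine ⟨H, insert m.castSucc (A.image m.castSucc.succAbove), h,
    allCol_mono (Finset.subset_insert _ _) (allCol_stab h hm hA), ?_,
    ⟨m.castSucc.succAbove m, hmem, h.lab_old m⟩, cols_stab h, cnt_insert h A⟩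
  refine ⟨m.castSucc, Finset.mem_insert_self _ _, ?_, ?_⟩
  · rw [h.next_new]
    have h1 : m.castSucc.succAbove m = m.succ := Fin.succAbove_castSucc_self m
    rw [← h1]
    exact hmem
  · rw [h.tau_new, h.sig_new]
    rfl

theorem add_plain (G : Grid ι N) {A : Finset (Fin N)} (m : Fin N) (hm : m ∈ A) (hA : AllCol G A) :
    ∃ (H : Grid ι (N + 1)) (B : Finset (Fin (N + 1))), IsStab G m H ∧ AllCol H B ∧
      (∃ m' ∈ B, H.lab m' = G.lab m) ∧
      (∀ i, cols H i = cols G i + if G.lab m = i then 1 else 0) ∧ ∀ i, cnt H B i = cnt G A i := by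
  obtain ⟨H, h⟩ := exists_stab G m
  exact ⟨H, A.image m.castSucc.succAbove, h, allCol_stab h hm hA,
    ⟨m.castSucc.succAbove m, Finset.mem_image_of_mem _ hm, h.lab_old m⟩, cols_stab h,
    cnt_image h A⟩

end Pool.MP_f18604_gt.LSN
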