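import Mathlib
import Pool.Agent.Helper7.LSN.GridCount

/-!
# LSN-44: one component

`stab_trans`: by induction on the second chain.  `cols_pos`: a label occurs iff `0 < cols G i`.

PROOF of `many_kinks`: induction on `t` with `add_kink` at the column `m'` given by the step before (the column must be in `A` and have the label `i`).
PROOF of `process`: let `m ∈ A` have the label `i` (`exists_seed`).  Put `t' = t - cnt G A i`.  If `cols G i + t'` is odd apply `add_plain` first; then apply `many_kinks` with `t'`.  The other labels do not change.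
-/

set_option autoImplicit false

namespace Pool.MP_f18604_gt.LSN

open Pool.MP_f18604_gt.LS

variable {ι : Type} [DecidableEq ι] {N : ℕ}

theorem stab_trans {G : Grid ι N} {M : ℕ} {H : Grid ι M} {M' : ℕ} {H' : Grid ι M'}
    (h : Stab G M H) (h' : Stab H M' H') : Stab G M' H' := by
  induction h' with
  | refl => exact h
  | step m H'' _ his ih => exact Stab.step m H'' ih his

theorem cols_pos (G : Grid ι N) (i : ι) : 0 < cols G i ↔ ∃ l, G.lab l = i := by
  unfold cols
  rw [Finset.card_pos]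
  constructor
  · rintro ⟨l, hl⟩
    exact ⟨l, (Finset.mem_filter.1 hl).2⟩
  · rintro ⟨l, hl⟩
    exact ⟨l, Finset.mem_filter.2 ⟨Finset.mem_univ l, hl⟩⟩

private theorem cnt_pos (G : Grid ι N) (A : Finset (Fin N)) (i : ι) :
    0 < cnt G A i ↔ ∃ l ∈ A, G.lab l = i := by
  unfold cnt
  rw [Finset.card_pos]
  constructor
  · rintro ⟨l, hl⟩
    exact ⟨l, (Finset.mem_filter.1 hl).1, (Finset.mem_filter.1 hl).2⟩
  · rintro ⟨l, hl, hi⟩
    exact ⟨l, Finset.mem_filter.2 ⟨hl, hi⟩⟩

theorem many_kinks (t : ℕ) : ∀ {N : ℕ} (G : Grid ι N) (A : Finset (Fin N)) (m : Fin N), m ∈ A →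
    AllCol G A → ∃ (M : ℕ) (H : Grid ι M) (B : Finset (Fin M)), Stab G M H ∧ AllCol H B ∧
      (0 < t → Pair H B) ∧
      (∀ i, cols H i = cols G i + if G.lab m = i then t else 0) ∧
      ∀ i, cnt H B i = cnt G A i + if G.lab m = i then t else 0 := by
  induction t with
  | zero =>
    intro N G A m hm hA
    refine ⟨N, G, A, Stab.refl, hA, fun h => absurd h (lt_irrefl 0), fun i => ?_, fun i => ?_⟩
    · split_ifs <;> rfl
    · split_ifs <;> rfl
  | succ t ih =>
    intro N G A m hm hA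
    obtain ⟨M, H, B, hst, hB, _, hcols, hcnt⟩ := ih G A m hm hA
    have hpos : 0 < cnt H B (G.lab m) := by
      rw [hcnt]
      exact Nat.lt_of_lt_of_le ((cnt_pos G A (G.lab m)).2 ⟨m, hm, rfl⟩) (Nat.le_add_right _ _)
    obtain ⟨m', hm', hlab⟩ := (cnt_pos H B (G.lab m)).1 hpos
    obtain ⟨H', B', his, hB', hP, _, hcols', hcnt'⟩ := add_kink H m' hm' hB
    refine ⟨M + 1, H', B', Stab.step m' H' hst his, hB', fun _ => hP, fun i => ?_, fun i => ?_⟩
    · rw [hcols' i, hcols i, hlab]
      by_cases h : G.lab m = i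
      · rw [if_pos h, if_pos h, if_pos h]; omega
      · rw [if_neg h, if_neg h, if_neg h]
    · rw [hcnt' i, hcnt i, hlab]
      by_cases h : G.lab m = i
      · rw [if_pos h, if_pos h, if_pos h]; omega
      · rw [if_neg h, if_neg h, if_neg h]

theorem process (G : Grid ι N) (A : Finset (Fin N)) (hA : AllCol G A) (i : ι) (hi : 0 < cols G i)
    (t : ℕ) (ht : cnt G A i ≤ t) :
    ∃ (M : ℕ) (H : Grid ι M) (B : Finset (Fin M)), Stab G M H ∧ AllCol H B ∧
      (cnt G A i < t → Pair H B) ∧ cnt H B i = t ∧ Even (cols H i) ∧ 0 < cols H i ∧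
      ∀ j, j ≠ i → cols H j = cols G j ∧ cnt H B j = cnt G A j := by
  obtain ⟨l, hl⟩ := (cols_pos G i).1 hi
  obtain ⟨m, hm, hml⟩ := exists_seed hA l
  have hmi : G.lab m = i := hml.trans hl
  rcases Nat.even_or_odd (cols G i + (t - cnt G A i)) with he | ho
  · obtain ⟨M, H, B, hst, hB, hP, hcols, hcnt⟩ := many_kinks (t - cnt G A i) G A m hm hA
    have h1 := hcols i
    have h2 := hcnt i
    rw [if_pos hmi] at h1 h2
    refine ⟨M, H, B, hst, hB, fun h => hP (Nat.sub_pos_of_lt h), by omega, ?_, by omega,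
      fun j hj => ⟨?_, ?_⟩⟩
    · rw [h1]; exact he
    · rw [hcols j, if_neg (fun h => hj (h.symm.trans hmi)), Nat.add_zero]
    · rw [hcnt j, if_neg (fun h => hj (h.symm.trans hmi)), Nat.add_zero]
  · obtain ⟨H1, B1, his, hB1, ⟨m', hm', hlab⟩, hc1, hn1⟩ := add_plain G m hm hA
    obtain ⟨M, H, B, hst, hB, hP, hcols, hcnt⟩ := many_kinks (t - cnt G A i) H1 B1 m' hm' hB1
    have h1 := hcols i
    have h2 := hcnt i
    have hmi' : H1.lab m' = i := hlab.trans hmi
    rw [if_pos hmi', hc1 i, if_pos hmi] at h1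
    rw [if_pos hmi', hn1 i] at h2
    refine ⟨M, H, B, stab_trans (Stab.step m H1 Stab.refl his) hst, hB,
      fun h => hP (Nat.sub_pos_of_lt h), by omega, ?_, by omega, fun j hj => ⟨?_, ?_⟩⟩
    · rw [h1]
      obtain ⟨k, hk⟩ := ho
      exact ⟨k + 1, by omega⟩
    · rw [hcols j, if_neg (fun h => hj (h.symm.trans hmi')), Nat.add_zero, hc1 j,
        if_neg (fun h => hj (h.symm.trans hmi)), Nat.add_zero]
    · rw [hcnt j, if_neg (fun h => hj (h.symm.trans hmi')), Nat.add_zero, hn1 j]

end Pool.MP_f18604_gt.LSN
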