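import Mathlib
import Pool.Agent.Helper7.LSN.GridLabel

/-!
# LSN-45: all components

PROOF of `process_set`: induction on the finite set `T` of labels (`Finset.induction_on`) with `process`; the labels not in `T` do not change.
PROOF of `process_all`: `process_set` for the set of all labels which occur in `G` except `i0` (`(Finset.univ.image G.lab).erase i0`), then `process` for `i0`, whose numbers have not changed; it gives the `Pair`.  A label `j` with `0 < cols H j` occurs in `G`
(for the labels outside `T ∪ {i0}` the number has not changed, it is 0).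
-/

set_option autoImplicit false

namespace Pool.MP_f18604_gt.LSN

open Pool.MP_f18604_gt.LS

variable {ι : Type} [DecidableEq ι] {N : ℕ}

theorem process_set (t : ι → ℕ) (T : Finset ι) : ∀ {N : ℕ} (G : Grid ι N) (A : Finset (Fin N)),
    AllCol G A → (∀ i ∈ T, 0 < cols G i) → (∀ i ∈ T, cnt G A i ≤ t i) →
    ∃ (M : ℕ) (H : Grid ι M) (B : Finset (Fin M)), Stab G M H ∧ AllCol H B ∧
      (∀ i ∈ T, cnt H B i = t i ∧ Even (cols H i) ∧ 0 < cols H i) ∧
      ∀ j, j ∉ T → cols H j = cols G j ∧ cnt H B j = cnt G A j := by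
  induction T using Finset.induction_on with
  | empty =>
    intro N G A hA _ _
    exact ⟨N, G, A, Stab.refl, hA, fun i hi => absurd hi (Finset.notMem_empty i), fun j _ => ⟨rfl, rfl⟩⟩
  | insert i T hi ih =>
    intro N G A hA h1 h2
    obtain ⟨M, H, B, hS, hB, h3, h4⟩ := ih G A hA
      (fun j hj => h1 j (Finset.mem_insert_of_mem hj)) (fun j hj => h2 j (Finset.mem_insert_of_mem hj))
    have h5 := h4 i hi
    obtain ⟨M', H', B', hS', hB', -, h6, h7, h8, h9⟩ := process H B hB i
      (by rw [h5.1]; exact h1 i (Finset.mem_insert_self i T)) (t i)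
      (by rw [h5.2]; exact h2 i (Finset.mem_insert_self i T))
    refine ⟨M', H', B', stab_trans hS hS', hB', fun j hj => ?_, fun j hj => ?_⟩
    · rcases Finset.mem_insert.1 hj with rfl | hj'
      · exact ⟨h6, h7, h8⟩
      · have hji : j ≠ i := fun h => hi (h ▸ hj')
        rw [(h9 j hji).1, (h9 j hji).2]
        exact h3 j hj'
    · have hji : j ≠ i := fun h => hj (h ▸ Finset.mem_insert_self i T)
      rw [(h9 j hji).1, (h9 j hji).2]
      exact h4 j fun h => hj (Finset.mem_insert_of_mem h)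

theorem process_all (G : Grid ι N) (A : Finset (Fin N)) (hA : AllCol G A) (t : ι → ℕ)
    (h1 : ∀ i, cnt G A i ≤ t i) (i0 : ι) (h0 : 0 < cols G i0) (h2 : cnt G A i0 < t i0) :
    ∃ (M : ℕ) (H : Grid ι M) (B : Finset (Fin M)), Stab G M H ∧ AllCol H B ∧ Pair H B ∧
      ∀ j, (0 < cols H j ↔ 0 < cols G j) ∧
        (0 < cols G j → cnt H B j = t j ∧ Even (cols H j)) := by
  obtain ⟨M, H, B, hS, hB, h3, h4⟩ := process_set t ((Finset.univ.image G.lab).erase i0) G A hA
    (fun i hi => by
      obtain ⟨l, -, hl⟩ := Finset.mem_image.1 (Finset.mem_of_mem_erase hi)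
      exact (cols_pos G i).2 ⟨l, hl⟩) (fun i _ => h1 i)
  have h5 := h4 i0 (Finset.notMem_erase i0 _)
  obtain ⟨M', H', B', hS', hB', hP, h6, h7, h8, h9⟩ := process H B hB i0
    (by rw [h5.1]; exact h0) (t i0) (by rw [h5.2]; exact h1 i0)
  refine ⟨M', H', B', stab_trans hS hS', hB', hP (by rw [h5.2]; exact h2), fun j => ?_⟩
  by_cases hj : j = i0
  · subst hj
    exact ⟨⟨fun _ => h0, fun _ => h8⟩, fun _ => ⟨h6, h7⟩⟩
  · rw [(h9 j hj).1, (h9 j hj).2]
    by_cases hT : j ∈ (Finset.univ.image G.lab).erase i0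
    · obtain ⟨l, -, hl⟩ := Finset.mem_image.1 (Finset.mem_of_mem_erase hT)
      have h10 := h3 j hT
      exact ⟨⟨fun _ => (cols_pos G j).2 ⟨l, hl⟩, fun _ => h10.2.2⟩, fun _ => ⟨h10.1, h10.2.1⟩⟩
    · have h10 : ¬ 0 < cols G j := by
        intro h11
        obtain ⟨l, hl⟩ := (cols_pos G j).1 h11
        exact hT (Finset.mem_erase.2 ⟨hj, Finset.mem_image.2 ⟨l, Finset.mem_univ l, hl⟩⟩)
      rw [(h4 j hT).1]
      exact ⟨Iff.rfl, fun h => absurd h h10⟩

end Pool.MP_f18604_gt.LSN
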