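import Mathlib

/-!
# LSN-46: potentials along the cycles of a permutation

PROOF.  Choose for every label `i` which occurs a base point `b i` with the label `i`.  For `a` with the label `i` choose `r a : ℕ` with `p^[r a] (b i) = a` (`conn`), and put `s a = ∑ j < r a, f (p^[j] (b i))`.  The orbit of `b i` has the length
`L = minimalPeriod p (b i)`, and its points `p^[j] (b i)`, `j < L`, are exactly the points with the label `i` (`lab_next`, `conn`), each once; so `∑ j < L, f (p^[j] (b i)) = 0`, hence
`F n = ∑ j < n, f (p^[j] (b i))` depends on `n mod L` only.  Now `p a = p^[r a + 1] (b i) = p^[r (p a)] (b i)`, so `r (p a) ≡ r a + 1 (mod L)` and `s (p a) = F (r a + 1) = s a + f a`.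
`exists_parity`: the case `M = ZMod 2`, `f = 1`, `eps a = decide (s a = 1)`.  `exists_state`: the case `M = Fin 12` (`AddCommGroup`), `f a = if node a then 1 else 0`; the sum over a label is the number of the nodes, a multiple of 12.
-/

set_option autoImplicit false

namespace Pool.MP_f18604_gt.LSN

/-- The partial sums of `f` along the orbit of `b`. -/
private def psum {N : ℕ} {M : Type} [AddCommGroup M] (p : Fin N → Fin N) (f : Fin N → M)
    (b : Fin N) (n : ℕ) : M := ∑ j ∈ Finset.range n, f (p^[j] b)

private lemma psum_period {ι : Type} [DecidableEq ι] {N : ℕ} {M : Type} [AddCommGroup M]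
    (p : Fin N → Fin N) (hp : Function.Injective p) (lab : Fin N → ι)
    (lab_next : ∀ a, lab (p a) = lab a) (conn : ∀ a b, lab a = lab b → ∃ i : ℕ, p^[i] a = b)
    (f : Fin N → M) (h : ∀ i, ∑ a ∈ Finset.univ.filter (fun a => lab a = i), f a = 0)
    (b : Fin N) : psum p f b (Function.minimalPeriod p b) = 0 := by
  have hlab : ∀ (j : ℕ) (c : Fin N), lab (p^[j] c) = lab c := by
    intro j
    induction j with
    | zero => intro c; rfl
    | succ j ih => intro c; rw [Function.iterate_succ_apply, ih, lab_next]
  have hper : b ∈ Function.periodicPts p := by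
    have := (Finite.injective_iff_bijective.mp hp)
    exact Function.Injective.mem_periodicPts hp b
  have hL : 0 < Function.minimalPeriod p b := Function.minimalPeriod_pos_of_mem_periodicPts hper
  rw [← h (lab b)]
  unfold psum
  refine Finset.sum_nbij (fun j => p^[j] b) ?_ ?_ ?_ ?_
  · intro j _
    simp [hlab]
  · intro x hx y hy hxy
    have hx' : x ∈ Set.Iio (Function.minimalPeriod p b) := by simpa using hx
    have hy' : y ∈ Set.Iio (Function.minimalPeriod p b) := by simpa using hy
    exact Function.iterate_injOn_Iio_minimalPeriod hx' hy' hxy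
  · intro a ha
    have ha' : lab a = lab b := by simpa using ha
    obtain ⟨i, hi⟩ := conn b a ha'.symm
    refine ⟨i % Function.minimalPeriod p b, ?_, ?_⟩
    · simpa using Nat.mod_lt i hL
    · show p^[i % Function.minimalPeriod p b] b = a
      rw [Function.iterate_mod_minimalPeriod_eq, hi]
  · intro j _
    rfl

private lemma psum_add {N : ℕ} {M : Type} [AddCommGroup M] (p : Fin N → Fin N) (f : Fin N → M)
    (b : Fin N) (h0 : psum p f b (Function.minimalPeriod p b) = 0) (n k : ℕ) :
    psum p f b (n + Function.minimalPeriod p b * k) = psum p f b n := by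
  induction k with
  | zero => simp
  | succ k ih =>
    have e : n + Function.minimalPeriod p b * (k + 1)
        = Function.minimalPeriod p b + (n + Function.minimalPeriod p b * k) := by ring
    rw [e]
    unfold psum at h0 ih ⊢
    rw [Finset.sum_range_add, h0, zero_add, ← ih]
    refine Finset.sum_congr rfl ?_
    intro j _
    rw [Nat.add_comm, Function.iterate_add_apply, Function.iterate_minimalPeriod]

private lemma psum_congr {N : ℕ} {M : Type} [AddCommGroup M] (p : Fin N → Fin N)
    (hp : Function.Injective p) (f : Fin N → M)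
    (b : Fin N) (h0 : psum p f b (Function.minimalPeriod p b) = 0) (m n : ℕ)
    (h : p^[m] b = p^[n] b) : psum p f b m = psum p f b n := by
  have hper : b ∈ Function.periodicPts p := Function.Injective.mem_periodicPts hp b
  have hL : 0 < Function.minimalPeriod p b := Function.minimalPeriod_pos_of_mem_periodicPts hper
  have e : m % Function.minimalPeriod p b = n % Function.minimalPeriod p b := by
    apply Function.iterate_injOn_Iio_minimalPeriod (f := p) (x := b)
      (Nat.mod_lt m hL) (Nat.mod_lt n hL)
    show p^[m % Function.minimalPeriod p b] b = p^[n % Function.minimalPeriod p b] b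
    rw [Function.iterate_mod_minimalPeriod_eq, Function.iterate_mod_minimalPeriod_eq, h]
  rw [← Nat.mod_add_div m (Function.minimalPeriod p b), psum_add p f b h0,
    ← Nat.mod_add_div n (Function.minimalPeriod p b), psum_add p f b h0, e]

theorem potential {ι : Type} [DecidableEq ι] {N : ℕ} {M : Type} [AddCommGroup M]
    (p : Fin N → Fin N) (hp : Function.Injective p) (lab : Fin N → ι)
    (lab_next : ∀ a, lab (p a) = lab a) (conn : ∀ a b, lab a = lab b → ∃ i : ℕ, p^[i] a = b)
    (f : Fin N → M) (h : ∀ i, ∑ a ∈ Finset.univ.filter (fun a => lab a = i), f a = 0) :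
    ∃ s : Fin N → M, ∀ a, s (p a) = s a + f a := by
  classical
  have hex : ∀ a, ∃ c, lab c = lab a := fun a => ⟨a, rfl⟩
  let g : (i : ι) → (∃ c, lab c = i) → Fin N := fun i hi => Classical.choose hi
  have hg : ∀ (i : ι) (hi : ∃ c, lab c = i), lab (g i hi) = i := fun i hi =>
    Classical.choose_spec hi
  let b : Fin N → Fin N := fun a => g (lab a) (hex a)
  have hb : ∀ a, lab (b a) = lab a := fun a => hg (lab a) (hex a)
  have hgg : ∀ (i j : ι) (hi : ∃ c, lab c = i) (hj : ∃ c, lab c = j), i = j → g i hi = g j hj := by
    intro i j hi hj hij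
    subst hij
    rfl
  have hbn : ∀ a, b (p a) = b a := fun a => hgg _ _ _ _ (lab_next a)
  have hr : ∀ a, ∃ i : ℕ, p^[i] (b a) = a := fun a => conn (b a) a (hb a)
  choose r hr using hr
  refine ⟨fun a => psum p f (b a) (r a), ?_⟩
  intro a
  have h0 := psum_period p hp lab lab_next conn f h (b a)
  show psum p f (b (p a)) (r (p a)) = psum p f (b a) (r a) + f a
  have e1 : p^[r (p a)] (b a) = p^[r a + 1] (b a) := by
    have := hr (p a)
    rw [hbn] at this
    rw [this, Function.iterate_succ_apply', hr a]
  rw [hbn, psum_congr p hp f (b a) h0 _ _ e1]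
  unfold psum
  rw [Finset.sum_range_succ, hr a]

theorem exists_parity {ι : Type} [DecidableEq ι] {N : ℕ}
    (p : Fin N → Fin N) (hp : Function.Injective p) (lab : Fin N → ι)
    (lab_next : ∀ a, lab (p a) = lab a) (conn : ∀ a b, lab a = lab b → ∃ i : ℕ, p^[i] a = b)
    (h : ∀ i, Even (Finset.univ.filter fun a => lab a = i).card) :
    ∃ eps : Fin N → Bool, ∀ a, eps (p a) = !eps a := by
  obtain ⟨s, hs⟩ := potential p hp lab lab_next conn (fun _ => (1 : ZMod 2)) (by
    intro i
    rw [Finset.sum_const, nsmul_eq_mul, mul_one]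
    exact (ZMod.natCast_eq_zero_iff_even).mpr (h i))
  refine ⟨fun a => decide (s a = 1), ?_⟩
  intro a
  have h2 : ∀ x : ZMod 2, decide (x + 1 = 1) = !decide (x = 1) := by decide
  show decide (s (p a) = 1) = !decide (s a = 1)
  rw [hs a, h2]

theorem exists_state {ι : Type} [DecidableEq ι] {N : ℕ}
    (p : Fin N → Fin N) (hp : Function.Injective p) (lab : Fin N → ι)
    (lab_next : ∀ a, lab (p a) = lab a) (conn : ∀ a b, lab a = lab b → ∃ i : ℕ, p^[i] a = b)
    (node : Fin N → Bool)
    (h : ∀ i, 12 ∣ (Finset.univ.filter fun a => node a = true ∧ lab a = i).card) :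
    ∃ st : Fin N → Fin 12, ∀ a, st (p a) = st a + if node a then 1 else 0 := by
  obtain ⟨s, hs⟩ := potential p hp lab lab_next conn
    (fun a => if node a = true then (1 : ZMod 12) else 0) (by
    intro i
    rw [← Finset.sum_filter, Finset.filter_filter, Finset.sum_const, nsmul_eq_mul, mul_one]
    have e : (Finset.univ.filter fun a => lab a = i ∧ node a = true)
        = Finset.univ.filter fun a => node a = true ∧ lab a = i := by
      ext a
      simp [and_comm]
    rw [e]
    exact (ZMod.natCast_eq_zero_iff _ _).mpr (h i))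
  exact ⟨s, hs⟩

end Pool.MP_f18604_gt.LSN
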