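import Mathlib
import Pool.Agent.Helper7.LSN.GridAll
import Pool.Agent.Helper7.LSN.Potential

/-!
# LSN-47: the diagram with nodes

PROOF.  `node m = decide (m ∈ B)`, `p l = H.sig.symm (H.tau l)`; `eps` and `st` by `exists_parity`, `exists_state` (for a label `i` with `cols H i = 0` the sets are empty).
`coloured_of_grid`: if `D.sig = H.sig`, `D.tau = H.tau` and all columns in `B` have nodes, then `H.Coloured (B.image H.sig) k` implies `D.Coloured ∅ true k` (induction; `D.row`, `D.side`, `D.Crosses` are defined like those of `H`: seeds are rows `sig m` with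
`node m`).
`Sufficient`: let `c` be the column of `Pair`, `m' = next c`, both in `B`: both have nodes and `st m' = st c + 1`, so one of the states is odd and the other one even (`decide` over `Fin 12`).  No row crosses the piece `false` of column `c` (`crosses_kink`), so a colour passes column `c` in
both directions (`Coloured.pass c false false`, `Coloured.pass c false true`), between the rows `sig c` and `tau c = sig m'`.  If `c` is in an even state then `sig c` is coloured with `all = false`, hence `sig m'`, and `m'` is the node in an odd state; otherwise `m'` is in an even state,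
`sig m' = tau c` is coloured, hence `sig c`.
-/

set_option autoImplicit false

namespace Pool.MP_f18604_gt.LSN

open Pool.MP_f18604_gt.LS

variable {ι : Type} [DecidableEq ι] {N : ℕ}

theorem coloured_of_grid (H : Grid ι N) (D : Diagram N) (h1 : D.sig = H.sig) (h2 : D.tau = H.tau)
    (B : Finset (Fin N)) (h3 : ∀ m ∈ B, D.node m = true) {k : Fin N}
    (hk : H.Coloured (B.image H.sig) k) : D.Coloured ∅ true k := by
  have hrow : ∀ l e, D.row l e = H.row l e := by
    intro l e
    unfold Diagram.row Grid.row
    rw [h1, h2]
  have hside : ∀ l k, D.side l k = H.side l k := by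
    intro l k
    unfold Diagram.side Grid.side
    rw [h1, h2]
  induction hk with
  | seed k hk =>
    obtain ⟨m, hm, rfl⟩ := Finset.mem_image.1 hk
    rw [← h1]
    exact Diagram.Coloured.node m (h3 m hm) (fun _ => rfl)
  | pass m s e _ _ ih1 ih2 =>
    rw [← hrow]
    refine Diagram.Coloured.pass m s e (fun k hk => ih1 k ?_) (by rw [hrow]; exact ih2)
    obtain ⟨a, ⟨l, e, hl, hle⟩, ⟨l', e', hl', hle'⟩⟩ := hk
    exact ⟨by rw [← hside]; exact a, ⟨l, e, hl, by rw [← hrow]; exact hle⟩,
      ⟨l', e', hl', by rw [← hrow]; exact hle'⟩⟩

theorem exists_diagram (H : Grid ι N) (B : Finset (Fin N)) (hB : AllCol H B) (hP : Pair H B)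
    (h1 : ∀ i, Even (cols H i)) (h2 : ∀ i, 12 ∣ cnt H B i) :
    ∃ D : Diagram N, D.sig = H.sig ∧ D.tau = H.tau ∧ (∀ m, D.node m = decide (m ∈ B)) ∧
      D.Sufficient ∅ := by
  obtain ⟨eps, heps⟩ := exists_parity (fun l => H.sig.symm (H.tau l))
    (H.sig.symm.injective.comp H.tau.injective) H.lab H.lab_next H.conn h1
  obtain ⟨st, hst⟩ := exists_state (fun l => H.sig.symm (H.tau l))
    (H.sig.symm.injective.comp H.tau.injective) H.lab H.lab_next H.conn
    (fun m => decide (m ∈ B)) (by
      intro i
      have h3 := h2 i
      unfold cnt at h3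
      have h4 : (Finset.univ.filter fun a => decide (a ∈ B) = true ∧ H.lab a = i) =
          B.filter fun m => H.lab m = i := by
        ext a
        simp
      rw [h4]
      exact h3)
  let D : Diagram N := ⟨H.sig, H.tau, H.ne, fun m => decide (m ∈ B), eps, st, heps, hst⟩
  refine ⟨D, rfl, rfl, fun _ => rfl, ?_, ?_⟩
  · obtain ⟨c, hc, hc', hv⟩ := hP
    have hno : ∀ k, ¬ D.Crosses c false k := by
      intro k hk
      refine crosses_kink (G := H) (c := c) (k := k) hv ?_
      obtain ⟨a, b, b'⟩ := hk
      exact ⟨a, b, b'⟩
    have hn : ∀ m ∈ B, D.node m = true := fun m hm => decide_eq_true hm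
    have hst' : D.st (H.sig.symm (H.tau c)) = D.st c + 1 := by
      have h3 := hst c
      have h4 : decide (c ∈ B) = true := decide_eq_true hc
      rw [h4, if_pos rfl] at h3
      exact h3
    have key : ∀ x : Fin 12, ((x + 1).val.bodd) = !(x.val.bodd) := by decide
    have hpar : D.par (H.sig.symm (H.tau c)) = !D.par c := by
      unfold Diagram.par
      rw [hst', key]
    have hsig : D.sig (H.sig.symm (H.tau c)) = H.tau c := H.sig.apply_symm_apply _
    cases hp : D.par c with
    | false =>
      refine ⟨H.sig.symm (H.tau c), hn _ hc', by rw [hpar, hp]; rfl, ?_⟩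
      have h5 : D.Coloured ∅ false (D.row c false) :=
        Diagram.Coloured.node c (hn c hc) (fun h => by rw [hp] at h; exact absurd h (by decide))
      have h6 := Diagram.Coloured.pass c false false (fun k hk => absurd hk (hno k)) h5
      rw [hsig]
      exact h6
    | true =>
      refine ⟨c, hn _ hc, hp, ?_⟩
      have h5 : D.Coloured ∅ false (D.sig (H.sig.symm (H.tau c))) :=
        Diagram.Coloured.node _ (hn _ hc') (fun h => by
          rw [hpar, hp] at h
          exact absurd h (by decide))
      rw [hsig] at h5
      exact Diagram.Coloured.pass c false true (fun k hk => absurd hk (hno k)) h5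
  · intro k
    exact coloured_of_grid H D rfl rfl B (fun m hm => decide_eq_true hm) (hB k)

end Pool.MP_f18604_gt.LSN
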