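import Mathlib
import Pool.Agent.Helper7.LSN.GridDiag

/-!
# LSN-48: every link with few bridges

PROOF.  `A = S.image G.sig.symm`: `A.image G.sig = S`, so `AllCol G A`, and `cnt G A i` is the number of the `k ∈ S` with `lab (sig.symm k) = i`.  `process_all` with `t i = 12 * n i` and `i0 = G.lab l`; then `exists_diagram` (for a label `j` which does not occur `cols H j = 0`, `cnt H B j = 0`).
The number of the nodes with the label `G.lab l` is `cnt H B (G.lab l)`.  `hn` (there is a label for every column of `H`): `0 < cols H j ↔ 0 < cols G j`.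
-/

set_option autoImplicit false

namespace Pool.MP_f18604_gt.LSN

open Pool.MP_f18604_gt.LS

variable {ι : Type} [DecidableEq ι] {N : ℕ}

private theorem cnt_seeds (G : Grid ι N) (S : Finset (Fin N)) (i : ι) :
    cnt G (S.image G.sig.symm) i = (S.filter fun k => G.lab (G.sig.symm k) = i).card := by
  unfold cnt
  rw [Finset.filter_image, Finset.card_image_of_injective _ G.sig.symm.injective]

theorem grid_main (G : Grid ι N) (S : Finset (Fin N)) (hS : ∀ k, G.Coloured S k) (n : ι → ℕ)
    (h1 : ∀ i, (S.filter fun k => G.lab (G.sig.symm k) = i).card ≤ 12 * n i)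
    (h2 : ∃ l, (S.filter fun k => G.lab (G.sig.symm k) = G.lab l).card < 12 * n (G.lab l)) :
    ∃ (M : ℕ) (H : Grid ι M) (D : Diagram M), Stab G M H ∧ D.sig = H.sig ∧ D.tau = H.tau ∧
      (∀ m, ∃ l, H.lab m = G.lab l) ∧
      (∀ l, (Finset.univ.filter fun m => D.node m = true ∧ H.lab m = G.lab l).card =
        12 * n (G.lab l)) ∧ D.Sufficient ∅ := by
  obtain ⟨l, hl⟩ := h2
  have hA : AllCol G (S.image G.sig.symm) := by
    intro k
    have h3 : (S.image G.sig.symm).image G.sig = S := by
      rw [Finset.image_image]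
      have h4 : (G.sig ∘ G.sig.symm : Fin N → Fin N) = id := by
        funext x
        simp
      rw [h4, Finset.image_id]
    rw [h3]
    exact hS k
  obtain ⟨M, H, B, hSt, hB, hP, hj⟩ := process_all G (S.image G.sig.symm) hA (fun i => 12 * n i)
    (fun i => by rw [cnt_seeds]; exact h1 i) (G.lab l) ((cols_pos G _).2 ⟨l, rfl⟩)
    (by rw [cnt_seeds]; exact hl)
  have hle : ∀ i, cnt H B i ≤ cols H i := by
    intro i
    exact Finset.card_le_card (Finset.filter_subset_filter _ (Finset.subset_univ B))
  obtain ⟨D, hs, ht, hn, hD⟩ := exists_diagram H B hB hP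
    (fun i => by
      by_cases h : 0 < cols G i
      · exact ((hj i).2 h).2
      · have h5 : ¬ 0 < cols H i := fun h6 => h ((hj i).1.1 h6)
        rw [Nat.eq_zero_of_not_pos h5]
        exact Even.zero)
    (fun i => by
      by_cases h : 0 < cols G i
      · rw [((hj i).2 h).1]
        exact Dvd.intro _ rfl
      · have h5 : ¬ 0 < cols H i := fun h6 => h ((hj i).1.1 h6)
        have h6 := hle i
        rw [Nat.eq_zero_of_not_pos h5, Nat.le_zero] at h6
        rw [h6]
        exact dvd_zero 12)
  refine ⟨M, H, D, hSt, hs, ht, ?_, ?_, hD⟩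
  · intro m
    obtain ⟨l', hl'⟩ := (cols_pos G _).1 ((hj (H.lab m)).1.1 ((cols_pos H _).2 ⟨m, rfl⟩))
    exact ⟨l', hl'.symm⟩
  · intro l'
    have h7 := ((hj (G.lab l')).2 ((cols_pos G _).2 ⟨l', rfl⟩)).1
    have h8 : (Finset.univ.filter fun m => D.node m = true ∧ H.lab m = G.lab l') =
        B.filter fun m => H.lab m = G.lab l' := by
      ext m
      simp [hn]
    rw [h8]
    exact h7

end Pool.MP_f18604_gt.LSN
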