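import Mathlib
import Pool.Agent.Helper7.LSN.GridLabel

/-!
# LSN-51: stabilisation with additional seeds

`A` are the columns with a node, `P` the other seed columns.
-/

set_option autoImplicit false

namespace Pool.MP_f18604_gt.LSN

open Pool.MP_f18604_gt.LS

variable {ι : Type} [DecidableEq ι] {N : ℕ}

theorem image_union_sub {A P : Finset (Fin N)} (c : Fin (N + 1)) (x : Finset (Fin (N + 1)))
    (h : A.image c.succAbove ⊆ x) : (A ∪ P).image c.succAbove ⊆ x ∪ P.image c.succAbove := by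
  rw [Finset.image_union]
  exact Finset.union_subset_union h (Finset.Subset.refl _)

theorem add_kinkP (G : Grid ι N) {A P : Finset (Fin N)} (m : Fin N) (hm : m ∈ A)
    (hA : AllCol G (A ∪ P)) :
    ∃ (H : Grid ι (N + 1)) (B Q : Finset (Fin (N + 1))), IsStab G m H ∧ AllCol H (B ∪ Q) ∧
      Pair H B ∧ (∃ m' ∈ B, H.lab m' = G.lab m) ∧
      (∀ i, cols H i = cols G i + if G.lab m = i then 1 else 0) ∧
      (∀ i, cnt H B i = cnt G A i + if G.lab m = i then 1 else 0) ∧ Q.card ≤ P.card := by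
  obtain ⟨H, h⟩ := exists_stab G m
  refine ⟨H, insert m.castSucc (A.image m.castSucc.succAbove), P.image m.castSucc.succAbove, h,
    allCol_mono (image_union_sub _ _ (Finset.subset_insert _ _))
      (allCol_stab h (Finset.mem_union_left _ hm) hA), ⟨m.castSucc, Finset.mem_insert_self _ _,
      ?_, ?_⟩, ⟨m.castSucc.succAbove m, Finset.mem_insert_of_mem (Finset.mem_image_of_mem _ hm),
      h.lab_old m⟩, cols_stab h, cnt_insert h A, Finset.card_image_le⟩
  · rw [h.next_new, ← sa_self]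
    exact Finset.mem_insert_of_mem (Finset.mem_image_of_mem _ hm)
  · rw [h.tau_new, h.sig_new]
    rfl

theorem add_plainP (G : Grid ι N) {A P : Finset (Fin N)} (m : Fin N) (hm : m ∈ A)
    (hA : AllCol G (A ∪ P)) :
    ∃ (H : Grid ι (N + 1)) (B Q : Finset (Fin (N + 1))), IsStab G m H ∧ AllCol H (B ∪ Q) ∧
      (∃ m' ∈ B, H.lab m' = G.lab m) ∧
      (∀ i, cols H i = cols G i + if G.lab m = i then 1 else 0) ∧
      (∀ i, cnt H B i = cnt G A i) ∧ Q.card ≤ P.card := by
  obtain ⟨H, h⟩ := exists_stab G m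
  exact ⟨H, A.image m.castSucc.succAbove, P.image m.castSucc.succAbove, h,
    allCol_mono (image_union_sub _ _ (Finset.Subset.refl _))
      (allCol_stab h (Finset.mem_union_left _ hm) hA),
    ⟨m.castSucc.succAbove m, Finset.mem_image_of_mem _ hm, h.lab_old m⟩, cols_stab h,
    cnt_image h A, Finset.card_image_le⟩

theorem cnt_pos (G : Grid ι N) (A : Finset (Fin N)) (i : ι) :
    0 < cnt G A i ↔ ∃ l ∈ A, G.lab l = i := by
  unfold cnt
  rw [Finset.card_pos]
  constructor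
  · rintro ⟨l, hl⟩
    exact ⟨l, (Finset.mem_filter.1 hl).1, (Finset.mem_filter.1 hl).2⟩
  · rintro ⟨l, hl, hi⟩
    exact ⟨l, Finset.mem_filter.2 ⟨hl, hi⟩⟩

theorem many_kinksP (t : ℕ) : ∀ {N : ℕ} (G : Grid ι N) (A P : Finset (Fin N)) (m : Fin N), m ∈ A →
    AllCol G (A ∪ P) → ∃ (M : ℕ) (H : Grid ι M) (B Q : Finset (Fin M)), Stab G M H ∧
      AllCol H (B ∪ Q) ∧ (0 < t → Pair H B) ∧
      (∀ i, cols H i = cols G i + if G.lab m = i then t else 0) ∧
      (∀ i, cnt H B i = cnt G A i + if G.lab m = i then t else 0) ∧ Q.card ≤ P.card := by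
  induction t with
  | zero =>
    intro N G A P m hm hA
    refine ⟨N, G, A, P, Stab.refl, hA, fun h => absurd h (lt_irrefl 0), fun i => ?_, fun i => ?_,
      le_rfl⟩
    · split_ifs <;> rfl
    · split_ifs <;> rfl
  | succ t ih =>
    intro N G A P m hm hA
    obtain ⟨M, H, B, Q, hst, hB, _, hcols, hcnt, hQ⟩ := ih G A P m hm hA
    have hpos : 0 < cnt H B (G.lab m) := by
      rw [hcnt]
      exact Nat.lt_of_lt_of_le ((cnt_pos G A (G.lab m)).2 ⟨m, hm, rfl⟩) (Nat.le_add_right _ _)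
    obtain ⟨m', hm', hlab⟩ := (cnt_pos H B (G.lab m)).1 hpos
    obtain ⟨H', B', Q', his, hB', hP, _, hcols', hcnt', hQ'⟩ := add_kinkP H m' hm' hB
    refine ⟨M + 1, H', B', Q', Stab.step m' H' hst his, hB', fun _ => hP, fun i => ?_,
      fun i => ?_, hQ'.trans hQ⟩
    · rw [hcols' i, hcols i, hlab]
      by_cases h : G.lab m = i
      · rw [if_pos h, if_pos h, if_pos h]; omega
      · rw [if_neg h, if_neg h, if_neg h]
    · rw [hcnt' i, hcnt i, hlab]
      by_cases h : G.lab m = i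
      · rw [if_pos h, if_pos h, if_pos h]; omega
      · rw [if_neg h, if_neg h, if_neg h]

theorem processP (G : Grid ι N) (A P : Finset (Fin N)) (hA : AllCol G (A ∪ P)) (i : ι)
    (hi : 0 < cnt G A i) (t : ℕ) (ht : cnt G A i ≤ t) :
    ∃ (M : ℕ) (H : Grid ι M) (B Q : Finset (Fin M)), Stab G M H ∧ AllCol H (B ∪ Q) ∧
      (cnt G A i < t → Pair H B) ∧ cnt H B i = t ∧ Even (cols H i) ∧ 0 < cols H i ∧
      (∀ j, j ≠ i → cols H j = cols G j ∧ cnt H B j = cnt G A j) ∧ Q.card ≤ P.card := by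
  obtain ⟨m, hm, hmi⟩ := (cnt_pos G A i).1 hi
  have hc : 0 < cols G i := (cols_pos G i).2 ⟨m, hmi⟩
  rcases Nat.even_or_odd (cols G i + (t - cnt G A i)) with he | ho
  · obtain ⟨M, H, B, Q, hst, hB, hP, hcols, hcnt, hQ⟩ :=
      many_kinksP (t - cnt G A i) G A P m hm hA
    have h1 := hcols i
    have h2 := hcnt i
    rw [if_pos hmi] at h1 h2
    refine ⟨M, H, B, Q, hst, hB, fun h => hP (Nat.sub_pos_of_lt h), by omega, ?_, by omega,
      fun j hj => ⟨?_, ?_⟩, hQ⟩
    · rw [h1]; exact he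
    · rw [hcols j, if_neg (fun h => hj (h.symm.trans hmi)), Nat.add_zero]
    · rw [hcnt j, if_neg (fun h => hj (h.symm.trans hmi)), Nat.add_zero]
  · obtain ⟨H1, B1, Q1, his, hB1, ⟨m', hm', hlab⟩, hc1, hn1, hQ1⟩ := add_plainP G m hm hA
    obtain ⟨M, H, B, Q, hst, hB, hP, hcols, hcnt, hQ⟩ :=
      many_kinksP (t - cnt G A i) H1 B1 Q1 m' hm' hB1
    have h1 := hcols i
    have h2 := hcnt i
    have hmi' : H1.lab m' = i := hlab.trans hmi
    rw [if_pos hmi', hc1 i, if_pos hmi] at h1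
    rw [if_pos hmi', hn1 i] at h2
    refine ⟨M, H, B, Q, stab_trans (Stab.step m H1 Stab.refl his) hst, hB,
      fun h => hP (Nat.sub_pos_of_lt h), by omega, ?_, by omega, fun j hj => ⟨?_, ?_⟩,
      hQ.trans hQ1⟩
    · rw [h1]
      obtain ⟨k, hk⟩ := ho
      exact ⟨k + 1, by omega⟩
    · rw [hcols j, if_neg (fun h => hj (h.symm.trans hmi')), Nat.add_zero, hc1 j,
        if_neg (fun h => hj (h.symm.trans hmi)), Nat.add_zero]
    · rw [hcnt j, if_neg (fun h => hj (h.symm.trans hmi')), Nat.add_zero, hn1 j]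

end Pool.MP_f18604_gt.LSN
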