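import Mathlib
import Pool.Agent.Helper7.LSN.SeedStep

/-!
# LSN-52: all components, with additional seeds
-/

set_option autoImplicit false

namespace Pool.MP_f18604_gt.LSN

open Pool.MP_f18604_gt.LS

variable {ι : Type} [DecidableEq ι] {N : ℕ}

theorem process_setP (t : ι → ℕ) (T : Finset ι) : ∀ {N : ℕ} (G : Grid ι N)
    (A P : Finset (Fin N)), AllCol G (A ∪ P) → (∀ i ∈ T, 0 < cnt G A i) →
    (∀ i ∈ T, cnt G A i ≤ t i) →
    ∃ (M : ℕ) (H : Grid ι M) (B Q : Finset (Fin M)), Stab G M H ∧ AllCol H (B ∪ Q) ∧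
      (∀ i ∈ T, cnt H B i = t i ∧ Even (cols H i) ∧ 0 < cols H i) ∧
      (∀ j, j ∉ T → cols H j = cols G j ∧ cnt H B j = cnt G A j) ∧ Q.card ≤ P.card := by
  induction T using Finset.induction_on with
  | empty =>
    intro N G A P hA _ _
    exact ⟨N, G, A, P, Stab.refl, hA, fun i hi => absurd hi (Finset.notMem_empty i),
      fun j _ => ⟨rfl, rfl⟩, le_rfl⟩
  | insert i T hi ih =>
    intro N G A P hA h1 h2
    obtain ⟨M, H, B, Q, hS, hB, h3, h4, hQ⟩ := ih G A P hA
      (fun j hj => h1 j (Finset.mem_insert_of_mem hj)) (fun j hj => h2 j (Finset.mem_insert_of_mem hj))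
    have h5 := h4 i hi
    obtain ⟨M', H', B', Q', hS', hB', -, h6, h7, h8, h9, hQ'⟩ := processP H B Q hB i
      (by rw [h5.2]; exact h1 i (Finset.mem_insert_self i T)) (t i)
      (by rw [h5.2]; exact h2 i (Finset.mem_insert_self i T))
    refine ⟨M', H', B', Q', stab_trans hS hS', hB', fun j hj => ?_, fun j hj => ?_,
      hQ'.trans hQ⟩
    · rcases Finset.mem_insert.1 hj with rfl | hj'
      · exact ⟨h6, h7, h8⟩
      · have hji : j ≠ i := fun h => hi (h ▸ hj')
        rw [(h9 j hji).1, (h9 j hji).2]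
        exact h3 j hj'
    · have hji : j ≠ i := fun h => hj (h ▸ Finset.mem_insert_self i T)
      rw [(h9 j hji).1, (h9 j hji).2]
      exact h4 j fun h => hj (Finset.mem_insert_of_mem h)

theorem process_allP (G : Grid ι N) (A P : Finset (Fin N)) (hA : AllCol G (A ∪ P)) (t : ι → ℕ)
    (h0 : ∀ i, 0 < cols G i → 0 < cnt G A i) (h1 : ∀ i, cnt G A i ≤ t i) (i0 : ι)
    (hi0 : 0 < cols G i0) (h2 : cnt G A i0 < t i0) :
    ∃ (M : ℕ) (H : Grid ι M) (B Q : Finset (Fin M)), Stab G M H ∧ AllCol H (B ∪ Q) ∧ Pair H B ∧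
      (∀ j, (0 < cols H j ↔ 0 < cols G j) ∧
        (0 < cols G j → cnt H B j = t j ∧ Even (cols H j))) ∧ Q.card ≤ P.card := by
  obtain ⟨M, H, B, Q, hS, hB, h3, h4, hQ⟩ := process_setP t ((Finset.univ.image G.lab).erase i0)
    G A P hA
    (fun i hi => by
      obtain ⟨l, -, hl⟩ := Finset.mem_image.1 (Finset.mem_of_mem_erase hi)
      exact h0 i ((cols_pos G i).2 ⟨l, hl⟩)) (fun i _ => h1 i)
  have h5 := h4 i0 (Finset.notMem_erase i0 _)
  obtain ⟨M', H', B', Q', hS', hB', hP, h6, h7, h8, h9, hQ'⟩ := processP H B Q hB i0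
    (by rw [h5.2]; exact h0 i0 hi0) (t i0) (by rw [h5.2]; exact h1 i0)
  refine ⟨M', H', B', Q', stab_trans hS hS', hB', hP (by rw [h5.2]; exact h2), fun j => ?_,
    hQ'.trans hQ⟩
  by_cases hj : j = i0
  · subst hj
    exact ⟨⟨fun _ => hi0, fun _ => h8⟩, fun _ => ⟨h6, h7⟩⟩
  · rw [(h9 j hj).1, (h9 j hj).2]
    by_cases hT : j ∈ (Finset.univ.image G.lab).erase i0
    · obtain ⟨l, -, hl⟩ := Finset.mem_image.1 (Finset.mem_of_mem_erase hT)
      have h10 := h3 j hT
      exact ⟨⟨fun _ => (cols_pos G j).2 ⟨l, hl⟩, fun _ => h10.2.2⟩, fun _ => ⟨h10.1, h10.2.1⟩⟩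
    · have h10 : ¬ 0 < cols G j := by
        intro h11
        obtain ⟨l, hl⟩ := (cols_pos G j).1 h11
        exact hT (Finset.mem_erase.2 ⟨hj, Finset.mem_image.2 ⟨l, Finset.mem_univ l, hl⟩⟩)
      rw [(h4 j hT).1]
      exact ⟨Iff.rfl, fun h => absurd h h10⟩

/-- The choice of the nodes: `A` a set of seed columns with `min (cnt C i) (t i)` elements of every label `i`. -/
theorem exists_choice (G : Grid ι N) (C : Finset (Fin N)) (t : ι → ℕ) :
    ∃ A ⊆ C, (∀ i, cnt G A i = min (cnt G C i) (t i)) ∧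
      (C \ A).card = ∑ i ∈ Finset.univ.image G.lab, (cnt G C i - t i) := by
  have h1 : ∀ i, ∃ B ⊆ C.filter fun m => G.lab m = i, B.card = min (cnt G C i) (t i) := fun i =>
    Finset.exists_subset_card_eq (min_le_left _ _)
  choose B hB hBc using h1
  refine ⟨C.filter fun m => m ∈ B (G.lab m), Finset.filter_subset _ _, fun i => ?_, ?_⟩
  · rw [← hBc i]
    unfold cnt
    congr 1
    ext m
    simp only [Finset.mem_filter]
    constructor
    · rintro ⟨⟨_, h2⟩, h3⟩
      rw [← h3]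
      exact h2
    · intro h2
      have h3 := Finset.mem_filter.1 (hB i h2)
      exact ⟨⟨h3.1, by rw [h3.2]; exact h2⟩, h3.2⟩
  · rw [Finset.card_eq_sum_card_fiberwise (f := G.lab) (t := Finset.univ.image G.lab)
      (fun m _ => Finset.mem_coe.2 (Finset.mem_image_of_mem _ (Finset.mem_univ m)))]
    refine Finset.sum_congr rfl fun i _ => ?_
    have h2 : ((C \ C.filter fun m => m ∈ B (G.lab m)).filter fun m => G.lab m = i) =
        (C.filter fun m => G.lab m = i) \ B i := by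
      ext m
      simp only [Finset.mem_filter, Finset.mem_sdiff]
      constructor
      · rintro ⟨⟨h3, h4⟩, h5⟩
        exact ⟨⟨h3, h5⟩, fun h6 => h4 ⟨h3, by rw [h5]; exact h6⟩⟩
      · rintro ⟨⟨h3, h4⟩, h5⟩
        exact ⟨⟨h3, fun h6 => h5 (by rw [← h4]; exact h6.2)⟩, h4⟩
    rw [h2, Finset.card_sdiff_of_subset (hB i), hBc i]
    unfold cnt
    omega

end Pool.MP_f18604_gt.LSN
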