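import Mathlib
import Pool.Agent.Helper7.LSN.SeedAll
import Pool.Agent.Helper7.LSN.Potential

/-!
# LSN-53: the diagram with nodes and additional seeds

The same as `GridDiag.lean` (LSN-47, helper4) with additional seed columns `Q`: the nodes are the columns in `B`, the seeds are the rows `sig m`, `m ∈ Q`.
-/

set_option autoImplicit false

namespace Pool.MP_f18604_gt.LSN

open Pool.MP_f18604_gt.LS

variable {ι : Type} [DecidableEq ι] {N : ℕ}

theorem coloured_of_gridP (H : Grid ι N) (D : Diagram N) (h1 : D.sig = H.sig) (h2 : D.tau = H.tau)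
    (B Q : Finset (Fin N)) (h3 : ∀ m ∈ B, D.node m = true) {k : Fin N}
    (hk : H.Coloured ((B ∪ Q).image H.sig) k) : D.Coloured (Q.image H.sig) true k := by
  have hrow : ∀ l e, D.row l e = H.row l e := by
    intro l e
    unfold Diagram.row Grid.row
    rw [h1, h2]
  have hside : ∀ l k, D.side l k = H.side l k := by
    intro l k
    unfold Diagram.side Grid.side
    rw [h1, h2]
  induction hk with
  | seed k hk =>
    obtain ⟨m, hm, rfl⟩ := Finset.mem_image.1 hk
    rcases Finset.mem_union.1 hm with hm | hm
    · rw [← h1]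
      exact Diagram.Coloured.node m (h3 m hm) (fun _ => rfl)
    · exact Diagram.Coloured.seed _ (Finset.mem_image_of_mem _ hm)
  | pass m s e _ _ ih1 ih2 =>
    rw [← hrow]
    refine Diagram.Coloured.pass m s e (fun k hk => ih1 k ?_) (by rw [hrow]; exact ih2)
    obtain ⟨a, ⟨l, e, hl, hle⟩, ⟨l', e', hl', hle'⟩⟩ := hk
    exact ⟨by rw [← hside]; exact a, ⟨l, e, hl, by rw [← hrow]; exact hle⟩,
      ⟨l', e', hl', by rw [← hrow]; exact hle'⟩⟩

theorem exists_diagramP (H : Grid ι N) (B Q : Finset (Fin N)) (hB : AllCol H (B ∪ Q))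
    (hP : Pair H B) (h1 : ∀ i, Even (cols H i)) (h2 : ∀ i, 12 ∣ cnt H B i) :
    ∃ D : Diagram N, D.sig = H.sig ∧ D.tau = H.tau ∧ (∀ m, D.node m = decide (m ∈ B)) ∧
      D.Sufficient (Q.image H.sig) := by
  obtain ⟨eps, heps⟩ := exists_parity (fun l => H.sig.symm (H.tau l))
    (H.sig.symm.injective.comp H.tau.injective) H.lab H.lab_next H.conn h1
  obtain ⟨st, hst⟩ := exists_state (fun l => H.sig.symm (H.tau l))
    (H.sig.symm.injective.comp H.tau.injective) H.lab H.lab_next H.conn
    (fun m => decide (m ∈ B)) (by
      intro i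
      have h3 := h2 i
      unfold cnt at h3
      have h4 : (Finset.univ.filter fun a => decide (a ∈ B) = true ∧ H.lab a = i) =
          B.filter fun m => H.lab m = i := by
        ext a
        simp
      rw [h4]
      exact h3)
  let D : Diagram N := ⟨H.sig, H.tau, H.ne, fun m => decide (m ∈ B), eps, st, heps, hst⟩
  refine ⟨D, rfl, rfl, fun _ => rfl, ?_, ?_⟩
  · obtain ⟨c, hc, hc', hv⟩ := hP
    have hno : ∀ k, ¬ D.Crosses c false k := by
      intro k hk
      refine crosses_kink (G := H) (c := c) (k := k) hv ?_
      obtain ⟨a, b, b'⟩ := hk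
      exact ⟨a, b, b'⟩
    have hn : ∀ m ∈ B, D.node m = true := fun m hm => decide_eq_true hm
    have hst' : D.st (H.sig.symm (H.tau c)) = D.st c + 1 := by
      have h3 := hst c
      have h4 : decide (c ∈ B) = true := decide_eq_true hc
      rw [h4, if_pos rfl] at h3
      exact h3
    have key : ∀ x : Fin 12, ((x + 1).val.bodd) = !(x.val.bodd) := by decide
    have hpar : D.par (H.sig.symm (H.tau c)) = !D.par c := by
      unfold Diagram.par
      rw [hst', key]
    have hsig : D.sig (H.sig.symm (H.tau c)) = H.tau c := H.sig.apply_symm_apply _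
    cases hp : D.par c with
    | false =>
      refine ⟨H.sig.symm (H.tau c), hn _ hc', by rw [hpar, hp]; rfl, ?_⟩
      have h5 : D.Coloured (Q.image H.sig) false (D.row c false) :=
        Diagram.Coloured.node c (hn c hc) (fun h => by rw [hp] at h; exact absurd h (by decide))
      have h6 := Diagram.Coloured.pass c false false (fun k hk => absurd hk (hno k)) h5
      rw [hsig]
      exact h6
    | true =>
      refine ⟨c, hn _ hc, hp, ?_⟩
      have h5 : D.Coloured (Q.image H.sig) false (D.sig (H.sig.symm (H.tau c))) :=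
        Diagram.Coloured.node _ (hn _ hc') (fun h => by
          rw [hpar, hp] at h
          exact absurd h (by decide))
      rw [hsig] at h5
      exact Diagram.Coloured.pass c false true (fun k hk => absurd hk (hno k)) h5
  · intro k
    exact coloured_of_gridP H D rfl rfl B Q (fun m hm => decide_eq_true hm) (hB k)

end Pool.MP_f18604_gt.LSN
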