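import Mathlib
import Pool.Agent.Helper7.LSN.SeedDiag
import Pool.Agent.Helper7.LSN.Final
import Pool.Agent.Helper7.LSN.Euler

/-!
# LSN-54: the theorem
-/

set_option autoImplicit false

namespace Pool.MP_f18604_gt.LSN

open Pool.MP_f18604_gt.LS

variable {ι : Type} [DecidableEq ι] {N : ℕ}

private theorem cnt_seedsP (G : Grid ι N) (S : Finset (Fin N)) (i : ι) :
    cnt G (S.image G.sig.symm) i = (S.filter fun k => G.lab (G.sig.symm k) = i).card := by
  unfold cnt
  rw [Finset.filter_image, Finset.card_image_of_injective _ G.sig.symm.injective]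

theorem seed_main (G : Grid ι N) (S : Finset (Fin N)) (hS : ∀ k, G.Coloured S k) (n : ι → ℕ)
    (hn : ∀ l, 0 < n (G.lab l)) (l0 : Fin N) :
    ∃ (M : ℕ) (H : Grid ι M) (D : Diagram M), Stab G M H ∧ D.sig = H.sig ∧ D.tau = H.tau ∧
      (∀ m, ∃ l, H.lab m = G.lab l) ∧
      (∀ l, (Finset.univ.filter fun m => D.node m = true ∧ H.lab m = G.lab l).card =
        12 * n (G.lab l)) ∧
      ∃ V : Gradient (XCell.facets (D := D)), (∃! a, V.Critical a ∧ a.dim = 0) ∧
        {a | V.Critical a ∧ a.dim = 1}.ncard ≤ ∑ i ∈ Finset.univ.image G.lab,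
          ((S.filter fun k => G.lab (G.sig.symm k) = i).card -
            (12 * n i - if i = G.lab l0 then 1 else 0)) := by
  have hA : AllCol G (S.image G.sig.symm) := by
    intro k
    have h3 : (S.image G.sig.symm).image G.sig = S := by
      rw [Finset.image_image]
      have h4 : (G.sig ∘ G.sig.symm : Fin N → Fin N) = id := by
        funext x
        simp
      rw [h4, Finset.image_id]
    rw [h3]
    exact hS k
  obtain ⟨A, hAC, hAc, hAs⟩ := exists_choice G (S.image G.sig.symm)
    (fun i => 12 * n i - if i = G.lab l0 then 1 else 0)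
  have hU : A ∪ (S.image G.sig.symm \ A) = S.image G.sig.symm := Finset.union_sdiff_of_subset hAC
  have hpos : ∀ i, 0 < cols G i → 0 < cnt G A i := by
    intro i hi
    obtain ⟨l, hl⟩ := (cols_pos G i).1 hi
    obtain ⟨m, hm, hml⟩ := exists_seed hA l
    have h1 : 0 < cnt G (S.image G.sig.symm) i := (cnt_pos G _ i).2 ⟨m, hm, hml.trans hl⟩
    have h2 := hn l
    rw [hl] at h2
    rw [hAc i]
    have h3 : 0 < 12 * n i - (if i = G.lab l0 then 1 else 0) := by split_ifs <;> omega
    exact lt_min h1 h3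
  have hle : ∀ i, cnt G A i ≤ 12 * n i := by
    intro i
    rw [hAc i]
    exact (min_le_right _ _).trans (Nat.sub_le _ _)
  have hlt : cnt G A (G.lab l0) < 12 * n (G.lab l0) := by
    have h2 := hn l0
    rw [hAc (G.lab l0)]
    refine lt_of_le_of_lt (min_le_right _ _) ?_
    rw [if_pos rfl]
    omega
  obtain ⟨M, H, B, Q, hSt, hB, hP, hj, hQ⟩ := process_allP G A (S.image G.sig.symm \ A)
    (by rw [hU]; exact hA) (fun i => 12 * n i) hpos hle (G.lab l0) ((cols_pos G _).2 ⟨l0, rfl⟩) hlt
  have hcc : ∀ i, cnt H B i ≤ cols H i := by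
    intro i
    exact Finset.card_le_card (Finset.filter_subset_filter _ (Finset.subset_univ B))
  have hnp : ∀ i, ¬ 0 < cols G i → cols H i = 0 := fun i h =>
    Nat.eq_zero_of_not_pos fun h6 => h ((hj i).1.1 h6)
  obtain ⟨D, hs, ht, hnode, hD⟩ := exists_diagramP H B Q hB hP
    (fun i => by
      by_cases h : 0 < cols G i
      · exact ((hj i).2 h).2
      · rw [hnp i h]
        exact Even.zero)
    (fun i => by
      by_cases h : 0 < cols G i
      · rw [((hj i).2 h).1]
        exact Dvd.intro _ rfl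
      · have h6 := hcc i
        rw [hnp i h] at h6
        rw [Nat.le_zero.1 h6]
        exact dvd_zero 12)
  obtain ⟨V, hV0, hV1⟩ := main D (Q.image H.sig) hD
  refine ⟨M, H, D, hSt, hs, ht, fun m => ?_, fun l => ?_, V, hV0, ?_⟩
  · have h1 : 0 < cols G (H.lab m) := (hj _).1.1 ((cols_pos H _).2 ⟨m, rfl⟩)
    obtain ⟨l, hl⟩ := (cols_pos G _).1 h1
    exact ⟨l, hl.symm⟩
  · have h1 := ((hj (G.lab l)).2 ((cols_pos G _).2 ⟨l, rfl⟩)).1
    rw [← h1]
    unfold cnt
    congr 1
    ext m
    simp only [Finset.mem_filter, Finset.mem_univ, true_and, hnode m, decide_eq_true_eq]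
  · refine hV1.trans (Finset.card_image_le.trans (hQ.trans ?_))
    rw [hAs]
    refine le_of_eq (Finset.sum_congr rfl fun i _ => ?_)
    rw [cnt_seedsP]

end Pool.MP_f18604_gt.LSN
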