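import Mathlib
import Pool.Agent.Helper7.LSN.Cells

/-!
# A grid diagram of the torus link `T(n p, n q)` with 12 nodes on every component

The standard grid diagram of `T(n p, n q)` has the size `n (p + q)`; column `m` has its marks in the rows `m` and `m + n p` modulo
`n (p + q)`.  The `n` components are the residue classes modulo `n` (if `p` and `q` are coprime).  We stabilise it `K` times at the row `i`, `0 ≤ i < n`, of every component: the row and column `i`
are replaced by `K + 1` rows and columns `i (K + 1) + j`, `0 ≤ j ≤ K`, where the columns with `j < K` join two consecutive rows; all other rows and columns are shifted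
by `n K`.  The nodes are on the last `12 - p` of these `K` columns, and on the columns of the `p` bridges of every component.
-/

set_option autoImplicit false

namespace Pool.MP_f18604_gt.LSN

/-- The second mark of column `m` (the first one is in row `m`). -/
def torusTau (n p q K m : ℕ) : ℕ :=
  if m < n * (K + 1) then (if (m + 1) % (K + 1) = 0 then m / (K + 1) + n * (K + p) else m + 1)
  else if m < n * (K + q) then m + n * p
  else if m < n * (K + q + 1) then (m - n * (K + q)) * (K + 1)
  else m - n * q

/-- The columns with a node. -/
def torusNode (n p K m : ℕ) : Bool :=
  if m < n * (K + 1) then decide (K + p - 12 ≤ m % (K + 1)) else decide (m < n * (K + p))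

/-- The number of stabilisations: every component has an even number `K + p + q` of columns. -/
def kinks (p q : ℕ) : ℕ := 12 + (p + q) % 2

end Pool.MP_f18604_gt.LSN
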