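import Mathlib
import Pool.Agent.Helper7.LSN.TorusDefs

/-!
# LSN-33: the second marks are a permutation

PROOF.  Let `M = n (K + p + q)`.  The cases of `torusTau` for `m < M`:
* A1: `m < n (K + 1)`, `(m + 1) % (K + 1) ≠ 0`: the value `m + 1` is less than `n (K + 1)` (as `n (K + 1)` is a multiple of `K + 1`) and not divisible by `K + 1`;
* A2: `m < n (K + 1)`, `(m + 1) % (K + 1) = 0`: the value is in `[n (K + p), n (K + p) + n)`, and `m + 1 = (m / (K + 1) + 1) (K + 1)`;
* B: `n (K + 1) ≤ m < n (K + q)`: the value is in `[n (K + 1 + p), n (K + q + p))`;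
* C: `n (K + q) ≤ m < n (K + q + 1)`: the value is `i (K + 1)`, `i < n`;
* D: `n (K + q + 1) ≤ m`: the value is in `[n (K + 1), n (K + p))`.
The ranges are disjoint and the map is injective in each case. `torusTau_ne`: in the cases A1, A2, B the value is larger than `m` (A2: `n (K + p) ≥ n (K + 1) > m`), in C, D smaller (C: the value is less than `n (K + 1) ≤ n (K + q) ≤ m`, `q > 0`; D: `n q > 0`).
-/

set_option autoImplicit false

namespace Pool.MP_f18604_gt.LSN

/-- the five cases -/
private theorem torusTau_cases (n p q K : ℕ) (m : ℕ) :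
    (m < n * K + n ∧ torusTau n p q K m = m + 1 ∧ m + 1 < n * K + n ∧ (m + 1) % (K + 1) ≠ 0) ∨
    (m < n * K + n ∧ ∃ j, j < n ∧ m + 1 = (j + 1) * (K + 1) ∧
      torusTau n p q K m = j + (n * K + n * p)) ∨
    (n * K + n ≤ m ∧ m < n * K + n * q ∧ torusTau n p q K m = m + n * p) ∨
    (∃ i, i < n ∧ m = n * K + n * q + i ∧ torusTau n p q K m = i * (K + 1) ∧
      i * (K + 1) < n * K + n) ∨
    (n * K + n * q + n ≤ m ∧ torusTau n p q K m + n * q = m) := by
  have e1 : n * (K + 1) = n * K + n := by ring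
  have e2 : n * (K + q) = n * K + n * q := by ring
  have e3 : n * (K + q + 1) = n * K + n * q + n := by ring
  have e4 : n * (K + p) = n * K + n * p := by ring
  unfold torusTau
  rw [e1, e2, e3, e4]
  by_cases h1 : m < n * K + n
  · rw [if_pos h1]
    by_cases h2 : (m + 1) % (K + 1) = 0
    · rw [if_pos h2]
      refine Or.inr (Or.inl ⟨h1, m / (K + 1), ?_, ?_, rfl⟩)
      · apply Nat.div_lt_of_lt_mul
        rw [mul_comm, e1]
        exact h1
      · have h3 := Nat.div_add_mod m (K + 1)
        have h4 : m % (K + 1) < K + 1 := Nat.mod_lt m (Nat.succ_pos K)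
        have h5 : m % (K + 1) = K := by
          by_contra h6
          have h7 : m % (K + 1) + 1 < K + 1 := by omega
          have h8 : (m + 1) % (K + 1) = m % (K + 1) + 1 := by
            rw [Nat.add_mod, Nat.mod_eq_of_lt (show 1 < K + 1 by omega), Nat.mod_eq_of_lt h7]
          omega
        rw [h5] at h3
        have h9 : (m / (K + 1) + 1) * (K + 1) = (K + 1) * (m / (K + 1)) + K + 1 := by ring
        omega
    · rw [if_neg h2]
      refine Or.inl ⟨h1, rfl, ?_, h2⟩
      rcases Nat.lt_or_ge (m + 1) (n * K + n) with h | h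
      · exact h
      · exfalso
        apply h2
        have h3 : m + 1 = n * (K + 1) := by omega
        rw [h3]
        exact Nat.mul_mod_left _ _
  · rw [if_neg h1]
    by_cases h2 : m < n * K + n * q
    · rw [if_pos h2]
      exact Or.inr (Or.inr (Or.inl ⟨by omega, h2, rfl⟩))
    · rw [if_neg h2]
      by_cases h3 : m < n * K + n * q + n
      · rw [if_pos h3]
        refine Or.inr (Or.inr (Or.inr (Or.inl ⟨m - (n * K + n * q), by omega, by omega, rfl, ?_⟩)))
        rw [← e1]
        exact Nat.mul_lt_mul_of_pos_right (by omega) (Nat.succ_pos K)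
      · rw [if_neg h3]
        exact Or.inr (Or.inr (Or.inr (Or.inr ⟨by omega, by omega⟩)))

theorem torusTau_lt (n p q K : ℕ) (hn : 0 < n) (hp : 0 < p) (hq : 0 < q) (m : ℕ)
    (hm : m < n * (K + p + q)) : torusTau n p q K m < n * (K + p + q) := by
  have b1 : n ≤ n * p := Nat.le_mul_of_pos_right n hp
  have b2 : n ≤ n * q := Nat.le_mul_of_pos_right n hq
  have e0 : n * (K + p + q) = n * K + n * p + n * q := by ring
  rcases torusTau_cases n p q K m with h | ⟨h, j, hj, h2, h3⟩ | h | ⟨i, hi, h2, h3, h4⟩ | h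
  · omega
  · omega
  · omega
  · omega
  · omega

theorem torusTau_inj (n p q K : ℕ) (hn : 0 < n) (hp : 0 < p) (hq : 0 < q) (m m' : ℕ)
    (hm : m < n * (K + p + q)) (hm' : m' < n * (K + p + q))
    (h : torusTau n p q K m = torusTau n p q K m') : m = m' := by
  have b1 : n ≤ n * p := Nat.le_mul_of_pos_right n hp
  have b2 : n ≤ n * q := Nat.le_mul_of_pos_right n hq
  have e0 : n * (K + p + q) = n * K + n * p + n * q := by ring
  have hmul : ∀ i j : ℕ, i * (K + 1) = j * (K + 1) → i = j := fun i j h =>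
    Nat.eq_of_mul_eq_mul_right (Nat.succ_pos K) h
  have hmod : ∀ i : ℕ, (i * (K + 1)) % (K + 1) = 0 := fun i => Nat.mul_mod_left _ _
  rcases torusTau_cases n p q K m with g | ⟨g, j, hj, g2, g3⟩ | g | ⟨i, hi, g2, g3, g4⟩ | g <;>
  rcases torusTau_cases n p q K m' with g' | ⟨g', j', hj', g2', g3'⟩ | g' |
    ⟨i', hi', g2', g3', g4'⟩ | g'
  · omega
  · omega
  · omega
  · exfalso
    apply g.2.2.2
    rw [← g.2.1, h, g3']
    exact hmod i'
  · omega
  · omega
  · have h5 : j = j' := by omega
    have h6 : m + 1 = m' + 1 := by rw [g2, g2', h5]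
    exact Nat.succ_injective h6
  · omega
  · omega
  · omega
  · omega
  · omega
  · omega
  · omega
  · omega
  · exfalso
    apply g'.2.2.2
    rw [← g'.2.1, ← h, g3]
    exact hmod i
  · omega
  · omega
  · have : i = i' := hmul i i' (by omega)
    omega
  · omega
  · omega
  · omega
  · omega
  · omega
  · omega

theorem torusTau_ne (n p q K : ℕ) (hn : 0 < n) (hp : 0 < p) (hq : 0 < q) (m : ℕ)
    (hm : m < n * (K + p + q)) : torusTau n p q K m ≠ m := by
  have b1 : n ≤ n * p := Nat.le_mul_of_pos_right n hp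
  have b2 : n ≤ n * q := Nat.le_mul_of_pos_right n hq
  rcases torusTau_cases n p q K m with h | ⟨h, j, hj, h2, h3⟩ | h | ⟨i, hi, h2, h3, h4⟩ | h
  · omega
  · omega
  · omega
  · omega
  · omega

/-- The permutation of the second marks. -/
noncomputable def torusPerm (n p q K : ℕ) (hn : 0 < n) (hp : 0 < p) (hq : 0 < q) :
    Equiv.Perm (Fin (n * (K + p + q))) :=
  Equiv.ofBijective (fun m => ⟨torusTau n p q K m.val, torusTau_lt n p q K hn hp hq m.val m.2⟩)
    (Finite.injective_iff_bijective.1 fun m m' h =>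
      Fin.ext (torusTau_inj n p q K hn hp hq m.val m'.val m.2 m'.2 (congrArg Fin.val h)))

theorem torusPerm_val (n p q K : ℕ) (hn : 0 < n) (hp : 0 < p) (hq : 0 < q)
    (m : Fin (n * (K + p + q))) : (torusPerm n p q K hn hp hq m).val = torusTau n p q K m.val := rfl

end Pool.MP_f18604_gt.LSN
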