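import Mathlib
import Pool.Agent.Helper7.LSN.TorusPerm

/-!
# LSN-35: the nodes colour the torus link

Let `D` be a diagram with the marks and nodes of `TorusDefs`, `0 < p < 12`, `12 ≤ K`.  The first mark of column `m` is in row `m` (`sig m = m`).

PROOFS.
`kink`: a column `m < n (K + 1)` with `(m + 1) % (K + 1) ≠ 0` joins the rows `m` and `m + 1`.  No row crosses its piece `false`: `side m k = false` means `cyc m (m + 1) k`, that is `k = m`, and row `m` has a mark in column `m`, so it has not both a mark to the left and a
mark to the right (its marks are in the columns `m` and `tau⁻¹ m` only: `row l e = m` with `l ≠ m` means `e = true` and `tau l = m`, one column).  So a colour passes in both directions (`Coloured.pass m false e` with `e = false` and `e = true`).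
`block`: the rows `i (K + 1) + j`, `i < n`, `j ≤ K`, are coloured if `i (K + 1) + K` is (`kink`, downwards induction on `j`).
`all`: the column `i (K + 1) + K` has a node (`K + p - 12 ≤ K`), so its row is coloured, and with `block` all rows less than `n (K + 1)`.  The rows `k` with `n (K + 1) ≤ k < n (K + p)` have a node.  A row `k ≥ n (K + p)` is the second mark of a column `m < k`:
`m = i (K + 1) + K` for `k = n (K + p) + i`, `i < n`; `m = k - n p` for `k ≥ n (K + p + 1)`.  The rows on the piece `false` of page `m` are those of `[m, k)`, by strong induction on `k` they are coloured; so `Coloured.pass m false false`.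
`torus_sufficient`: the columns `m0 = K - 1` and `m1 = K` (block `i = 0`) have nodes (`p ≤ 11`), and `st m1 = st m0 + 1` as `tau m0 = m1`: one of them is in an odd state (the parity of `s + 1` is the opposite one for all `s : Fin 12`, `decide`) and the other one in an even state,
so that its row is coloured with `all = false`; by `kink` for the column `m0` the other row is coloured, too.
-/

set_option autoImplicit false

namespace Pool.MP_f18604_gt.LSN

open Pool.MP_f18604_gt.LS

private theorem side_false' {N : ℕ} {D : Diagram N} {m k : Fin N} (hs : D.sig m = m)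
    (h : D.side m k = false) (hlt : m < D.tau m) : m ≤ k ∧ k < D.tau m := by
  unfold Diagram.side cyc at h
  rw [hs, if_pos hlt] at h
  simpa using h

private theorem kink_cross {N : ℕ} {D : Diagram N} (hs : ∀ m, D.sig m = m) {m : Fin N}
    (ht : (D.tau m).val = m.val + 1) (k : Fin N) (h : D.Crosses m false k) : False := by
  obtain ⟨h1, ⟨l, e, hl, hle⟩, ⟨l', e', hl', hle'⟩⟩ := h
  have hlt : m < D.tau m := by
    rw [Fin.lt_def, ht]
    omega
  obtain ⟨h2, h3⟩ := side_false' (hs m) h1 hlt
  have hk : k = m := by
    apply Fin.ext
    rw [Fin.le_def] at h2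
    rw [Fin.lt_def, ht] at h3
    omega
  subst hk
  have h4 : ∀ l e, l ≠ k → D.row l e = k → D.tau l = k := by
    intro l e hne h
    unfold Diagram.row at h
    cases e with
    | false =>
      rw [if_neg (by decide), hs] at h
      exact absurd h hne
    | true =>
      rw [if_pos rfl] at h
      exact h
  have h5 := h4 l e hl.ne hle
  have h6 := h4 l' e' hl'.ne' hle'
  have h7 : l = l' := D.tau.injective (h5.trans h6.symm)
  subst h7
  exact absurd hl (not_lt.2 hl'.le)

private theorem row_f {N : ℕ} {D : Diagram N} (hs : ∀ m, D.sig m = m) (m : Fin N) :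
    D.row m false = m := by
  unfold Diagram.row
  rw [if_neg (by decide), hs]

private theorem row_t {N : ℕ} (D : Diagram N) (m : Fin N) : D.row m true = D.tau m := by
  unfold Diagram.row
  rw [if_pos rfl]

private theorem kink_iff {N : ℕ} {D : Diagram N} (hs : ∀ m, D.sig m = m) {m : Fin N}
    (ht : (D.tau m).val = m.val + 1) (all : Bool) :
    D.Coloured ∅ all m ↔ D.Coloured ∅ all (D.tau m) := by
  have hc : ∀ k, D.Crosses m false k → D.Coloured ∅ all k :=
    fun k hk => (kink_cross hs ht k hk).elim
  constructor
  · intro h
    have h1 := Diagram.Coloured.pass (D := D) (S := ∅) (all := all) m false false hc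
      (by rw [row_f hs]; exact h)
    rw [Bool.not_false, row_t] at h1
    exact h1
  · intro h
    have h1 := Diagram.Coloured.pass (D := D) (S := ∅) (all := all) m false true hc
      (by rw [row_t]; exact h)
    rw [Bool.not_true, row_f hs] at h1
    exact h1

private theorem node_col {N : ℕ} {D : Diagram N} (hs : ∀ m, D.sig m = m) {m : Fin N}
    (hn : D.node m = true) (all : Bool) (h : D.par m = true → all = true) :
    D.Coloured ∅ all m := by
  have h1 := Diagram.Coloured.node (D := D) (S := ∅) (all := all) m hn h
  rw [hs] at h1
  exact h1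

private theorem step_col {N : ℕ} {D : Diagram N} (hs : ∀ m, D.sig m = m) {m k : Fin N}
    (ht : D.tau m = k) (hmk : m < k) (hc : ∀ l, l < k → D.Coloured ∅ true l) :
    D.Coloured ∅ true k := by
  have h1 := Diagram.Coloured.pass (D := D) (S := ∅) (all := true) m false false
    (fun l hl => hc l (by
      have h2 := (side_false' (hs m) hl.1 (by rw [ht]; exact hmk)).2
      rw [ht] at h2
      exact h2))
    (by rw [row_f hs]; exact hc m hmk)
  rw [Bool.not_false, row_t, ht] at h1
  exact h1

private theorem tt_kink {n p q K m : ℕ} (h1 : m < n * (K + 1)) (h2 : (m + 1) % (K + 1) ≠ 0) :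
    torusTau n p q K m = m + 1 := by
  unfold torusTau
  rw [if_pos h1, if_neg h2]

private theorem blk_lt {n K i j : ℕ} (hi : i < n) (hj : j ≤ K) : i * (K + 1) + j < n * (K + 1) := by
  have h1 : (i + 1) * (K + 1) ≤ n * (K + 1) := Nat.mul_le_mul_right _ hi
  have h2 : (i + 1) * (K + 1) = i * (K + 1) + (K + 1) := by ring
  omega

private theorem blk_mod {K i j : ℕ} (hj : j ≤ K) : (i * (K + 1) + j) % (K + 1) = j := by
  exact Nat.mul_add_mod_of_lt (by omega)

private theorem node_last {n p K i : ℕ} (hi : i < n) (hp' : p < 12) :
    torusNode n p K (i * (K + 1) + K) = true := by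
  unfold torusNode
  rw [if_pos (blk_lt hi le_rfl), blk_mod le_rfl, decide_eq_true_iff]
  omega

private theorem all_col (n p q K : ℕ) (hn : 0 < n) (hp : 0 < p) (hp' : p < 12) (hq : 0 < q)
    (D : Diagram (n * (K + p + q)))
    (h : ∀ m, D.sig m = m ∧ (D.tau m).val = torusTau n p q K m.val ∧
      D.node m = torusNode n p K m.val) (k : ℕ) :
    ∀ hk : k < n * (K + p + q), D.Coloured ∅ true ⟨k, hk⟩ := by
  have hs : ∀ m, D.sig m = m := fun m => (h m).1
  have e1 : n * (K + p + q) = n * K + n * p + n * q := by ring
  have e2 : n * (K + 1) = n * K + n := by ring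
  have e3 : n * (K + q) = n * K + n * q := by ring
  have e4 : n * (K + q + 1) = n * K + n * q + n := by ring
  have e5 : n * (K + p) = n * K + n * p := by ring
  have e6 : n * (K + p + 1) = n * K + n * p + n := by ring
  have e7 : n ≤ n * p := Nat.le_mul_of_pos_right n hp
  have e8 : n ≤ n * q := Nat.le_mul_of_pos_right n hq
  induction k using Nat.strong_induction_on with
  | _ k ih =>
    intro hk
    rcases Nat.lt_or_ge k (n * (K + 1)) with h1 | h1
    · -- the blocks
      have hi : k / (K + 1) < n := Nat.div_lt_of_lt_mul (by rw [mul_comm]; exact h1)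
      have hj : k % (K + 1) ≤ K := Nat.lt_succ_iff.1 (Nat.mod_lt _ (Nat.succ_pos K))
      have hdec : k = (k / (K + 1)) * (K + 1) + k % (K + 1) := (Nat.div_add_mod' k (K + 1)).symm
      have key : ∀ r : ℕ, ∀ j : ℕ, j + r = K →
          ∀ hj : (k / (K + 1)) * (K + 1) + j < n * (K + p + q),
            D.Coloured ∅ true ⟨(k / (K + 1)) * (K + 1) + j, hj⟩ := by
        intro r
        induction r with
        | zero =>
          intro j hj' hjl
          have hjK : j = K := by omega
          subst hjK
          refine node_col hs ?_ true (fun _ => rfl)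
          rw [(h _).2.2]
          exact node_last hi hp'
        | succ r ihr =>
          intro j hj' hjl
          have hlt := blk_lt (n := n) (K := K) (j := j) hi (by omega)
          have hlt' := blk_lt (n := n) (K := K) (j := j + 1) hi (by omega)
          have hmod : (k / (K + 1) * (K + 1) + j + 1) % (K + 1) ≠ 0 := by
            have h2 := blk_mod (K := K) (i := k / (K + 1)) (j := j + 1) (by omega)
            rw [← add_assoc] at h2
            rw [h2]
            omega
          have ht : (D.tau ⟨k / (K + 1) * (K + 1) + j, hjl⟩).val =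
              (⟨k / (K + 1) * (K + 1) + j, hjl⟩ : Fin (n * (K + p + q))).val + 1 := by
            rw [(h _).2.1]
            exact tt_kink hlt hmod
          rw [kink_iff hs ht true]
          have hn' := ihr (j + 1) (by omega) (by omega)
          have heq : D.tau ⟨k / (K + 1) * (K + 1) + j, hjl⟩ =
              ⟨k / (K + 1) * (K + 1) + (j + 1), by omega⟩ := Fin.ext (by rw [ht]; rfl)
          rw [heq]
          exact hn'
      have h2 := key (K - k % (K + 1)) (k % (K + 1)) (by omega) (by omega)
      have heq : (⟨k, hk⟩ : Fin (n * (K + p + q))) =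
          ⟨(k / (K + 1)) * (K + 1) + k % (K + 1), by omega⟩ := Fin.ext hdec
      rw [heq]
      exact h2
    · rcases Nat.lt_or_ge k (n * (K + p)) with h2 | h2
      · refine node_col hs ?_ true (fun _ => rfl)
        rw [(h _).2.2]
        unfold torusNode
        rw [if_neg (not_lt.2 h1), decide_eq_true_iff]
        exact h2
      · have hc : ∀ l : Fin (n * (K + p + q)), l < ⟨k, hk⟩ → D.Coloured ∅ true l :=
          fun l hl => ih l.val hl l.isLt
        rcases Nat.lt_or_ge k (n * (K + p + 1)) with h3 | h3
        · obtain ⟨i, hi, rfl⟩ : ∃ i, i < n ∧ k = n * (K + p) + i := ⟨k - n * (K + p), by omega, by omega⟩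
          have hlt := blk_lt (n := n) (K := K) (j := K) hi le_rfl
          refine step_col hs (m := ⟨i * (K + 1) + K, by omega⟩) ?_ ?_ hc
          · apply Fin.ext
            rw [(h _).2.1]
            show torusTau n p q K (i * (K + 1) + K) = n * (K + p) + i
            unfold torusTau
            have hm : (i * (K + 1) + K + 1) % (K + 1) = 0 := by
              have : i * (K + 1) + K + 1 = (i + 1) * (K + 1) := by ring
              rw [this]
              exact Nat.mul_mod_left _ _
            have hd : (i * (K + 1) + K) / (K + 1) = i := by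
              rw [mul_comm, Nat.mul_add_div (Nat.succ_pos K), Nat.div_eq_of_lt (Nat.lt_succ_self K),
                add_zero]
            rw [if_pos hlt, if_pos hm, hd]
            omega
          · rw [Fin.lt_def]
            show i * (K + 1) + K < n * (K + p) + i
            omega
        · refine step_col hs (m := ⟨k - n * p, by omega⟩) ?_ ?_ hc
          · apply Fin.ext
            rw [(h _).2.1]
            show torusTau n p q K (k - n * p) = k
            unfold torusTau
            rw [if_neg (by omega), if_pos (by omega)]
            omega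
          · rw [Fin.lt_def]
            show k - n * p < k
            omega

private theorem bodd_succ : ∀ s : Fin 12, (s + 1).val.bodd = !s.val.bodd := by
  decide

theorem torus_sufficient (n p q K : ℕ) (hn : 0 < n) (hp : 0 < p) (hp' : p < 12) (hq : 0 < q)
    (hK : 12 ≤ K) (D : Diagram (n * (K + p + q)))
    (h : ∀ m, D.sig m = m ∧ (D.tau m).val = torusTau n p q K m.val ∧
      D.node m = torusNode n p K m.val) : D.Sufficient ∅ := by
  have hs : ∀ m, D.sig m = m := fun m => (h m).1
  refine ⟨?_, fun k => all_col n p q K hn hp hp' hq D h k.val k.isLt⟩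
  have e0 : 1 * (K + 1) ≤ n * (K + 1) := Nat.mul_le_mul_right _ hn
  have e1 : n * (K + 1) ≤ n * (K + p + q) := Nat.mul_le_mul_left _ (by omega)
  obtain ⟨m0, hm0⟩ : ∃ m0 : Fin (n * (K + p + q)), m0.val = K - 1 := ⟨⟨K - 1, by omega⟩, rfl⟩
  obtain ⟨m1, hm1⟩ : ∃ m1 : Fin (n * (K + p + q)), m1.val = K := ⟨⟨K, by omega⟩, rfl⟩
  have hn0 : D.node m0 = true := by
    rw [(h m0).2.2, hm0]
    unfold torusNode
    rw [if_pos (by omega), Nat.mod_eq_of_lt (by omega), decide_eq_true_iff]
    omega
  have hn1 : D.node m1 = true := by
    rw [(h m1).2.2, hm1]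
    unfold torusNode
    rw [if_pos (by omega), Nat.mod_eq_of_lt (by omega), decide_eq_true_iff]
    omega
  have ht : (D.tau m0).val = m0.val + 1 := by
    rw [(h m0).2.1]
    refine tt_kink (by omega) ?_
    rw [hm0, Nat.mod_eq_of_lt (by omega)]
    omega
  have ht' : D.tau m0 = m1 := Fin.ext (by rw [ht, hm0, hm1]; omega)
  have hst : D.st m1 = D.st m0 + 1 := by
    have h1 := D.st_next m0
    rw [if_pos hn0, ht'] at h1
    have h2 : D.sig.symm m1 = m1 := by
      rw [Equiv.symm_apply_eq]
      exact (hs m1).symm
    rw [h2] at h1
    exact h1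
  have hpar : D.par m1 = !D.par m0 := by
    unfold Diagram.par
    rw [hst]
    exact bodd_succ _
  have hk := kink_iff hs ht false
  rw [ht'] at hk
  cases hp0 : D.par m0 with
  | true =>
    rw [hp0, Bool.not_true] at hpar
    refine ⟨m0, hn0, hp0, ?_⟩
    rw [hs, hk]
    exact node_col hs hn1 false (fun h2 => by rw [hpar] at h2; exact h2)
  | false =>
    rw [hp0, Bool.not_false] at hpar
    refine ⟨m1, hn1, hpar, ?_⟩
    rw [hs, ← hk]
    exact node_col hs hn0 false (fun h2 => by rw [hp0] at h2; exact h2)

end Pool.MP_f18604_gt.LSN
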