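import Mathlib
import Pool.Agent.Helper7.LSN.TorusDefs

/-!
# LSN-34b: the state along the components of the torus link (`eps` is in `TorusEps.lean`)

Let `K = kinks p q`, `P = p + q`.  A column `m < n (K + 1)` is the column `j = m % (K + 1)` of the block `i = m / (K + 1)`; a column `m ≥ n (K + 1)` is `m = n K + n t + i` with `i = (m - n K) % n` and
`t = (m - n K) / n`, `1 ≤ t < P`.  The map `torusTau` keeps `i`, goes from `j` to `j + 1` in the block, from `j = K` to `t = p`, and from `t` to `(t + p) mod P`, where `t = 0` stands for the beginning `j = 0` of the block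
(check the cases: `m = n (K + t) + i`, `t < q`: value `n (K + t + p) + i`; `t = q`: value `i (K + 1)`; `t > q`: value `n (K + t - q) + i`, and `t - q = t + p - P`).
As `p` and `P` are coprime, there is for every `t` a number `u(t) < P` with `p u(t) ≡ t (mod P)`, `u(0) = 0`, and `u((t + p) mod P) = (u(t) + 1) mod P`.
* `eps`: in the block the parity of `j`; otherwise the parity of `K + u(t)`.  From `j = K` to `t = p`, `u(p) = 1`; the last step, from `t = q` (`u = P - 1`) to `j = 0`: `K + P - 1` is odd, because `K + P = 12 + (P mod 2) + P` is even.
* `st`: in the block the number of the nodes before `j`, that is `j - (K + p - 12)` (truncated subtraction; at the end of the block `K + 1 - (K + p - 12) = 13 - p`); otherwise `13 - p` plus the number of `v` with `1 ≤ v < u(t)` and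
  `(p v) mod P < p`.  (A column `m ≥ n (K + 1)` has a node iff `t < p`.)  In the last step the state becomes `13 - p` plus the number of all `1 ≤ v < P` with `(p v) mod P < p`; as `v ↦ (p v) mod P` is a permutation of
  `{1, ..., P - 1}` this number is `p - 1`, and the state is `12 = 0`.
It is convenient to prove first a lemma in terms of `i`, `j`, `t`, or to take the values modulo 12 (`Fin 12` or `ZMod 12`) and modulo 2 of one function `F : ℕ → ℕ` of the position.
-/

set_option autoImplicit false

namespace Pool.MP_f18604_gt.LSN

/-- the residue `t` is reached: `p u = P w + t` with `u < P` -/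
theorem tst_exists {p P : ℕ} (hP : 0 < P) (h : Nat.Coprime p P) (t : ℕ) (ht : t < P) :
    ∃ x : ℕ × ℕ, x.1 < P ∧ p * x.1 = P * x.2 + t := by
  obtain ⟨m, -, hm⟩ := Nat.exists_mul_mod_eq_of_coprime (n := p) (k := P) t h hP.ne'
  refine ⟨(m % P, p * (m % P) / P), Nat.mod_lt _ hP, ?_⟩
  have h1 : (p * (m % P)) % P = t := by
    rw [Nat.mul_mod, Nat.mod_mod, ← Nat.mul_mod]
    rw [hm, Nat.mod_eq_of_lt ht]
  simp only
  have := Nat.div_add_mod (p * (m % P)) P
  rw [h1] at this
  omega

theorem tst_step {p P u u' w w' t t' e : ℕ} (h : Nat.Coprime p P) (hp : 0 < p)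
    (hu : u < P) (hu' : u' < P) (h1 : p * u = P * w + t) (h2 : p * u' = P * w' + t')
    (h3 : t' + P * e = t + p) (ht' : 0 < t') : w' = w + e := by
  have hP : 0 < P := by omega
  have e1 : (p : ℤ) * ((u' : ℤ) - u - 1) = P * ((w' : ℤ) - w - e) := by
    have h1' : (p : ℤ) * u = P * w + t := by exact_mod_cast h1
    have h2' : (p : ℤ) * u' = P * w' + t' := by exact_mod_cast h2
    have h3' : (t' : ℤ) + P * e = t + p := by exact_mod_cast h3
    linear_combination h2' - h1' + h3'
  have hdvd : (P : ℤ) ∣ ((u' : ℤ) - u - 1) := by
    have hc : IsCoprime (P : ℤ) (p : ℤ) := by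
      rw [Int.isCoprime_iff_gcd_eq_one]
      simpa [Int.gcd, Nat.Coprime, Nat.gcd_comm] using h
    exact hc.dvd_of_dvd_mul_left ⟨_, e1⟩
  obtain ⟨k, hk⟩ := hdvd
  have hu0 : 0 < u' := by
    rcases Nat.eq_zero_or_pos u' with h0 | h0
    · exfalso
      rw [h0, mul_zero] at h2
      omega
    · exact h0
  have hk0 : k = 0 := by
    have hb1 : (P : ℤ) * k < P * 1 := by rw [← hk]; push_cast; omega
    have hb2 : (P : ℤ) * (-1) < P * k := by rw [← hk]; omega
    have hPz : (0 : ℤ) < P := by exact_mod_cast hP
    have := lt_of_mul_lt_mul_left hb1 hPz.le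
    have := lt_of_mul_lt_mul_left hb2 hPz.le
    omega
  rw [hk0, mul_zero] at hk
  rw [hk, mul_zero] at e1
  have hPz : (P : ℤ) ≠ 0 := by exact_mod_cast hP.ne'
  have := (mul_eq_zero.mp e1.symm).resolve_left hPz
  omega

theorem tst_last {p q u w : ℕ} (h : Nat.Coprime p (p + q)) (hp : 0 < p) (hu : u < p + q)
    (h1 : p * u = (p + q) * w + q) : w + 1 = p := by
  have e1 : p * (u + 1) = (p + q) * (w + 1) := by
    rw [mul_add, mul_add, h1]; ring
  have hd : (p + q) ∣ u + 1 := by
    apply h.symm.dvd_of_dvd_mul_left
    exact ⟨_, e1⟩
  have hle := Nat.le_of_dvd (by omega) hd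
  have hu1 : u + 1 = p + q := by omega
  rw [hu1, mul_comm] at e1
  exact (Nat.eq_of_mul_eq_mul_left (by omega) e1).symm

theorem tst_first {p P u w : ℕ} (h : Nat.Coprime p P) (hp : 0 < p) (hpP : p < P) (hu : u < P)
    (h1 : p * u = P * w + p) : w = 0 := by
  have h2 : p * 0 = P * 0 + 0 := by simp
  have := tst_step (p := p) (P := P) (u := 0) (u' := u) (w := 0) (w' := w) (t := 0) (t' := p)
    (e := 0) h hp (by omega) hu h2 h1 (by simp) hp
  simpa using this

theorem torus_st (n p q : ℕ) (hn : 0 < n) (hp : 0 < p) (hp' : p < 12) (hq : 0 < q)
    (h : Nat.Coprime p q) : ∃ st : ℕ → Fin 12, ∀ m < n * (kinks p q + p + q),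
      st (torusTau n p q (kinks p q) m) = st m + if torusNode n p (kinks p q) m then 1 else 0 := by
  set K := kinks p q with hK
  have hK12 : 12 ≤ K := by simp [hK, kinks]
  clear_value K
  have hcop : Nat.Coprime p (p + q) := by simpa using h
  have hP : 0 < p + q := by omega
  choose x hx using fun (t : ℕ) (ht : t < p + q) => tst_exists hP hcop t ht
  let w : ℕ → ℕ := fun t => if ht : t < p + q then (x t ht).2 else 0
  have hw : ∀ t, t < p + q → ∃ u, u < p + q ∧ p * u = (p + q) * w t + t := by
    intro t ht
    refine ⟨(x t ht).1, (hx t ht).1, ?_⟩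
    simp only [w, ht, dif_pos]
    exact (hx t ht).2
  clear_value w
  have hwp : w p = 0 := by
    obtain ⟨u, hu, h1⟩ := hw p (by omega)
    exact tst_first hcop hp (by omega) hu h1
  have hwq : w q + 1 = p := by
    obtain ⟨u, hu, h1⟩ := hw q (by omega)
    exact tst_last hcop hp hu h1
  have hw1 : ∀ t, 1 ≤ t → t < q → w (t + p) = w t := by
    intro t h1 h2
    obtain ⟨u, hu, e1⟩ := hw t (by omega)
    obtain ⟨u', hu', e2⟩ := hw (t + p) (by omega)
    exact tst_step (e := 0) hcop hp hu hu' e1 e2 (by simp) (by omega)
  have hw2 : ∀ t, q < t → t < p + q → w (t - q) = w t + 1 := by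
    intro t h1 h2
    obtain ⟨u, hu, e1⟩ := hw t (by omega)
    obtain ⟨u', hu', e2⟩ := hw (t - q) (by omega)
    exact tst_step (e := 1) hcop hp hu hu' e1 e2 (by omega) (by omega)
  let V : ℕ → ℕ := fun m => if m < n * (K + 1) then m % (K + 1) - (K + p - 12)
    else 13 - p + w ((m - n * K) / n) + (if (m - n * K) / n < p then 11 else 0)
  have main : ∀ m < n * (K + p + q),
      V (torusTau n p q K m) % 12 = (V m + if torusNode n p K m then 1 else 0) % 12 := by
    intro m hm
    have hnK : n * (K + 1) = n * K + n := by ring
    have hnq : n * (K + q) = n * K + n * q := by ring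
    have hnq1 : n * (K + q + 1) = n * K + n * q + n := by ring
    have hnp : n * (K + p) = n * K + n * p := by ring
    have hnP : n * (K + p + q) = n * K + n * p + n * q := by ring
    have hpn : n ≤ n * p := Nat.le_mul_of_pos_right n hp
    have hqn : n ≤ n * q := Nat.le_mul_of_pos_right n hq
    by_cases hb : m < n * (K + 1)
    · by_cases hl : (m + 1) % (K + 1) = 0
      · -- last column of a block
        have hi : m / (K + 1) < n := by
          rw [Nat.div_lt_iff_lt_mul (by omega)]; exact hb
        have hj : m % (K + 1) = K := by
          have hlt := Nat.mod_lt m (show 0 < K + 1 by omega)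
          by_contra hne
          have : (m + 1) % (K + 1) = m % (K + 1) + 1 := by
            rw [Nat.add_mod, Nat.mod_eq_of_lt (show 1 < K + 1 by omega)]
            exact Nat.mod_eq_of_lt (by omega)
          omega
        have ht : torusTau n p q K m = m / (K + 1) + n * (K + p) := by
          simp [torusTau, hb, hl]
        generalize m / (K + 1) = i at hi ht
        have h1 : ¬ (i + n * (K + p) < n * (K + 1)) := by omega
        have h2 : (i + n * (K + p) - n * K) / n = p := by
          have : i + n * (K + p) - n * K = i + n * p := by omega
          rw [this, Nat.add_mul_div_left _ _ hn, Nat.div_eq_of_lt hi, zero_add]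
        have h3 : torusNode n p K m = true := by
          simp only [torusNode, hb, if_true, decide_eq_true_eq, hj]; omega
        rw [ht, h3]
        simp only [V, h1, h2, hb, if_true, if_false, hj, hwp, lt_irrefl]
        omega
      · have ht : torusTau n p q K m = m + 1 := by simp [torusTau, hb, hl]
        have h1 : m + 1 < n * (K + 1) := by
          rcases Nat.lt_or_ge (m + 1) (n * (K + 1)) with h | h
          · exact h
          · exfalso
            have : m + 1 = n * (K + 1) := by omega
            rw [this, Nat.mul_mod_left] at hl
            exact hl rfl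
        have hj : (m + 1) % (K + 1) = m % (K + 1) + 1 := by
          have hlt := Nat.mod_lt m (show 0 < K + 1 by omega)
          have e1 : (m + 1) % (K + 1) = (m % (K + 1) + 1) % (K + 1) := by
            rw [Nat.add_mod, Nat.mod_eq_of_lt (show 1 < K + 1 by omega)]
          rcases Nat.lt_or_ge (m % (K + 1) + 1) (K + 1) with h | h
          · rw [e1, Nat.mod_eq_of_lt h]
          · exfalso
            have : m % (K + 1) + 1 = K + 1 := by omega
            rw [e1, this, Nat.mod_self] at hl
            exact hl rfl
        rw [ht]
        simp only [V, h1, hb, if_true, hj, torusNode, decide_eq_true_eq]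
        split_ifs <;> omega
    · -- outside of the blocks
      obtain ⟨t, i, hi, hr⟩ : ∃ t i, i < n ∧ m = n * K + (n * t + i) := by
        refine ⟨(m - n * K) / n, (m - n * K) % n, Nat.mod_lt _ hn, ?_⟩
        have := Nat.div_add_mod (m - n * K) n
        omega
      have htd : (m - n * K) / n = t := by
        have : m - n * K = i + n * t := by omega
        rw [this, Nat.add_mul_div_left _ _ hn, Nat.div_eq_of_lt hi, zero_add]
      have ht1 : 1 ≤ t := by
        rcases Nat.eq_zero_or_pos t with h0 | h0
        · exfalso; rw [h0, mul_zero] at hr; omega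
        · exact h0
      have lt_iff : ∀ s, (n * t + i < n * s ↔ t < s) := by
        intro s
        constructor
        · intro hh
          by_contra hge
          have : n * s ≤ n * t := Nat.mul_le_mul_left n (by omega)
          omega
        · intro hh
          have : n * (t + 1) ≤ n * s := Nat.mul_le_mul_left n hh
          rw [mul_add] at this
          omega
      have htP : t < p + q := by
        rw [← lt_iff, mul_add]; omega
      have hnode : (torusNode n p K m = true) ↔ t < p := by
        simp only [torusNode, hb, if_false, decide_eq_true_eq]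
        rw [← lt_iff]; omega
      have hVm : V m = 13 - p + w t + (if t < p then 11 else 0) := by
        simp only [V, hb, if_false, htd]
      have hVn : (V m + if torusNode n p K m then 1 else 0) % 12 = (13 - p + w t) % 12 := by
        rw [hVm]
        by_cases h1 : t < p
        · simp only [h1, if_true, hnode.mpr h1]; omega
        · have : torusNode n p K m = false := by
            rw [← Bool.not_eq_true, hnode]; exact h1
          simp [h1, this]
      rw [hVn]
      by_cases h1 : m < n * (K + q)
      · have htq : t < q := by rw [← lt_iff]; omega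
        have ht : torusTau n p q K m = m + n * p := by simp [torusTau, hb, h1]
        have h2 : ¬ (m + n * p < n * (K + 1)) := by omega
        have h3 : (m + n * p - n * K) / n = t + p := by
          have : m + n * p - n * K = i + n * (t + p) := by rw [mul_add]; omega
          rw [this, Nat.add_mul_div_left _ _ hn, Nat.div_eq_of_lt hi, zero_add]
        have h4 : ¬ (t + p < p) := by omega
        rw [ht]
        simp only [V, h2, h3, h4, if_false, hw1 t ht1 htq]
        omega
      · by_cases h2 : m < n * (K + q + 1)
        · have htq : t = q := by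
            have h3 : ¬ (t < q) := by rw [← lt_iff]; omega
            have h4 : t < q + 1 := by rw [← lt_iff, mul_add]; omega
            omega
          have ht : torusTau n p q K m = (m - n * (K + q)) * (K + 1) := by
            simp [torusTau, hb, h1, h2]
          have h3 : (m - n * (K + q)) * (K + 1) < n * (K + 1) := by
            apply Nat.mul_lt_mul_of_pos_right _ (by omega)
            omega
          rw [ht]
          simp only [V, h3, if_true, Nat.mul_mod_left, htq]
          omega
        · have htq : q < t := by
            have h4 : ¬ (t < q + 1) := by rw [← lt_iff, mul_add]; omega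
            omega
          have ht : torusTau n p q K m = m - n * q := by simp [torusTau, hb, h1, h2]
          have h3 : ¬ (m - n * q < n * (K + 1)) := by omega
          have h5 : n * (t - q) + n * q = n * t := by rw [← mul_add]; congr 1; omega
          have h4 : (m - n * q - n * K) / n = t - q := by
            have : m - n * q - n * K = i + n * (t - q) := by omega
            rw [this, Nat.add_mul_div_left _ _ hn, Nat.div_eq_of_lt hi, zero_add]
          have h6 : t - q < p := by omega
          rw [ht]
          simp only [V, h3, h4, h6, if_true, if_false, hw2 t htq htP]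
          omega
  refine ⟨fun m => ⟨V m % 12, Nat.mod_lt _ (by norm_num)⟩, ?_⟩
  intro m hm
  have := main m hm
  apply Fin.ext
  by_cases hnd : torusNode n p K m = true
  · simp only [hnd, if_true] at this ⊢
    rw [Fin.val_add]
    simp only [this]
    simp
  · simp only [hnd, if_false] at this ⊢
    rw [Fin.val_add]
    simp only [this]
    simp

end Pool.MP_f18604_gt.LSN
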