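import Mathlib
import Pool.Agent.Helper7.LSN.GridMain

/-!
# LSN-49: the torus links

The standard grid diagram of the torus link `T(n p, n q)`: size `M = n (p + q)`, column `m` has its marks in the rows `m` and `(m + n p) mod M`; the component of column `m` is `m mod n`.

PROOFS.
`torus_grid`: `tau` is the rotation by `n p` (`finRotate`, or `Equiv.addRight` on `Fin M`, or an explicit inverse `(k + n q) mod M`); `ne`: `0 < n p < M`.  `lab_next`: `M` and `n p` are divisible by `n`.  `conn`: `next^[i] m = (m + i n p) mod M`; if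
`m ≡ m' (mod n)`, `m' - m ≡ n s (mod M)` with some `s`, and `i p ≡ s (mod p + q)` has a solution `i` because `p` and `p + q` are coprime.
`coloured`: all rows `k < n p` are seeds.  A row `k ≥ n p` is the second mark of the column `m = k - n p`, whose first mark is row `m < k`; the rows which cross the piece `false` of column `m` lie in `[m, k)`, and by strong induction all rows less than `k` are coloured:
`pass m false false`.
`count`: the numbers `k < n p` with `k mod n = i` are `p` in number.
`torus_main`: `grid_main` with `S` the rows less than `n p` and `n i = 1` (`p < 12`).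
-/

set_option autoImplicit false

namespace Pool.MP_f18604_gt.LSN

open Pool.MP_f18604_gt.LS

private def tgTau (n p q : ℕ) (hM : 0 < n * (p + q)) : Equiv.Perm (Fin (n * (p + q))) where
  toFun k := ⟨(k.val + n * p) % (n * (p + q)), Nat.mod_lt _ hM⟩
  invFun k := ⟨(k.val + n * q) % (n * (p + q)), Nat.mod_lt _ hM⟩
  left_inv k := by
    apply Fin.ext
    change ((k.val + n * p) % (n * (p + q)) + n * q) % (n * (p + q)) = k.val
    rw [Nat.mod_add_mod, show k.val + n * p + n * q = k.val + n * (p + q) by ring,
      Nat.add_mod_right, Nat.mod_eq_of_lt k.2]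
  right_inv k := by
    apply Fin.ext
    change ((k.val + n * q) % (n * (p + q)) + n * p) % (n * (p + q)) = k.val
    rw [Nat.mod_add_mod, show k.val + n * q + n * p = k.val + n * (p + q) by ring,
      Nat.add_mod_right, Nat.mod_eq_of_lt k.2]

private theorem tg_iter (n p q : ℕ) (hM : 0 < n * (p + q)) (i : ℕ) (m : Fin (n * (p + q))) :
    ((fun l => (Equiv.refl (Fin (n * (p + q)))).symm (tgTau n p q hM l))^[i] m).val =
      (m.val + i * (n * p)) % (n * (p + q)) := by
  induction i with
  | zero => simp [Nat.mod_eq_of_lt m.2]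
  | succ i ih =>
    rw [Function.iterate_succ_apply']
    change (((fun l => (Equiv.refl (Fin (n * (p + q)))).symm (tgTau n p q hM l))^[i] m).val
      + n * p) % (n * (p + q)) = _
    rw [ih, Nat.mod_add_mod]
    congr 1
    ring

private theorem tg_conn (n p q : ℕ) (hn : 0 < n) (hp : 0 < p) (hq : 0 < q) (h : Nat.Coprime p q)
    (m m' : ℕ) (hm : m < n * (p + q)) (hm' : m' < n * (p + q)) (hl : m % n = m' % n) :
    ∃ i : ℕ, (m + i * (n * p)) % (n * (p + q)) = m' := by
  have hc : Nat.Coprime p (p + q) := Nat.coprime_self_add_right.2 h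
  obtain ⟨c, hc1⟩ := Nat.exists_mul_mod_eq_one_of_coprime hc (by omega)
  have ha : m / n < p + q := by
    rw [Nat.div_lt_iff_lt_mul hn]
    rw [Nat.mul_comm]
    exact hm
  refine ⟨c * (m' / n + (p + q) - m / n), ?_⟩
  have h1 : m / n + c * (m' / n + (p + q) - m / n) * p ≡ m' / n [MOD (p + q)] := by
    have h2 : p * c ≡ 1 [MOD (p + q)] := by
      rw [Nat.ModEq, hc1.2, Nat.mod_eq_of_lt (by omega)]
    have h3 : c * (m' / n + (p + q) - m / n) * p ≡ m' / n + (p + q) - m / n [MOD (p + q)] := by
      have := h2.mul_right (m' / n + (p + q) - m / n)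
      rw [one_mul] at this
      rw [show c * (m' / n + (p + q) - m / n) * p = p * c * (m' / n + (p + q) - m / n) by ring]
      exact this
    have h4 := h3.add_left (m / n)
    refine h4.trans ?_
    rw [Nat.add_sub_cancel' (le_trans ha.le (Nat.le_add_left _ _))]
    exact Nat.add_mod_right _ _
  have h5 := (h1.mul_left' n).add_right (m % n)
  have h6 : n * (m / n + c * (m' / n + (p + q) - m / n) * p) + m % n =
      m + c * (m' / n + (p + q) - m / n) * (n * p) := by
    have h7 := Nat.div_add_mod m n
    calc n * (m / n + c * (m' / n + (p + q) - m / n) * p) + m % n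
        = (n * (m / n) + m % n) + c * (m' / n + (p + q) - m / n) * (n * p) := by ring
      _ = _ := by rw [h7]
  rw [h6] at h5
  rw [hl, Nat.div_add_mod] at h5
  rw [h5, Nat.mod_eq_of_lt hm']

private def tgGrid (n p q : ℕ) (hn : 0 < n) (hp : 0 < p) (hq : 0 < q) (h : Nat.Coprime p q) :
    Grid (Fin n) (n * (p + q)) where
  sig := Equiv.refl _
  tau := tgTau n p q (Nat.mul_pos hn (by omega))
  ne m := by
    have hnp : 0 < n * p := Nat.mul_pos hn hp
    have hnq : 0 < n * q := Nat.mul_pos hn hq
    have hM : n * (p + q) = n * p + n * q := by ring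
    intro he
    have he' : m.val = (m.val + n * p) % (n * (p + q)) := congrArg Fin.val he
    have hm := m.2
    by_cases hlt : m.val + n * p < n * (p + q)
    · rw [Nat.mod_eq_of_lt hlt] at he'
      omega
    · rw [Nat.mod_eq_sub_mod (not_lt.1 hlt), Nat.mod_eq_of_lt (by omega)] at he'
      omega
  lab m := ⟨m.val % n, Nat.mod_lt _ hn⟩
  lab_next m := by
    apply Fin.ext
    change ((m.val + n * p) % (n * (p + q))) % n = m.val % n
    rw [Nat.mod_mod_of_dvd _ (Dvd.intro _ rfl), Nat.add_mul_mod_self_left]
  conn m m' hl := by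
    obtain ⟨i, hi⟩ := tg_conn n p q hn hp hq h m.val m'.val m.2 m'.2 (congrArg Fin.val hl)
    refine ⟨i, Fin.ext ?_⟩
    rw [tg_iter, hi]

theorem torus_grid (n p q : ℕ) (hn : 0 < n) (hp : 0 < p) (hq : 0 < q) (h : Nat.Coprime p q) :
    ∃ G : Grid (Fin n) (n * (p + q)),
      (∀ m, G.sig m = m ∧ (G.tau m).val = (m.val + n * p) % (n * (p + q)) ∧
        (G.lab m).val = m.val % n) ∧
      (∀ k, G.Coloured (Finset.univ.filter fun k => k.val < n * p) k) ∧
      ∀ i, ((Finset.univ.filter fun k : Fin (n * (p + q)) => k.val < n * p).filter fun k =>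
        G.lab (G.sig.symm k) = i).card = p := by
  have hnp : 0 < n * p := Nat.mul_pos hn hp
  have hM : n * (p + q) = n * p + n * q := by ring
  refine ⟨tgGrid n p q hn hp hq h, fun m => ⟨rfl, rfl, rfl⟩, ?_, ?_⟩
  · suffices H : ∀ K : ℕ, ∀ k : Fin (n * (p + q)), k.val < K →
        (tgGrid n p q hn hp hq h).Coloured (Finset.univ.filter fun k => k.val < n * p) k from
      fun k => H (k.val + 1) k (Nat.lt_succ_self _)
    intro K
    induction K with
    | zero => intro k hk; omega
    | succ K ih =>
      intro k hk
      by_cases hlt : k.val < n * p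
      · exact Grid.Coloured.seed k (by simpa using hlt)
      · have hkM := k.2
        let m : Fin (n * (p + q)) := ⟨k.val - n * p, by omega⟩
        have hr : (tgGrid n p q hn hp hq h).row m true = k := by
          apply Fin.ext
          change (k.val - n * p + n * p) % (n * (p + q)) = k.val
          rw [Nat.sub_add_cancel (not_lt.1 hlt), Nat.mod_eq_of_lt hkM]
        have hr' : (tgGrid n p q hn hp hq h).row m false = m := rfl
        have ht : (tgGrid n p q hn hp hq h).tau m = k := hr
        have hs : (tgGrid n p q hn hp hq h).sig m = m := rfl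
        have hmk : m < k := by
          rw [Fin.lt_def]
          change k.val - n * p < k.val
          omega
        have := Grid.Coloured.pass (G := tgGrid n p q hn hp hq h)
          (S := Finset.univ.filter fun k => k.val < n * p) m false false ?_ ?_
        · rw [Bool.not_false, hr] at this
          exact this
        · intro j hj
          have hside := hj.1
          rw [Grid.side, ht, hs, cyc, if_pos hmk] at hside
          have hjk : j < k := by
            by_contra hcon
            rw [decide_eq_false (fun hh => hcon hh.2)] at hside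
            exact absurd hside (by simp)
          apply ih j
          have : j.val < k.val := hjk
          omega
        · rw [hr']
          apply ih m
          have : m.val < k.val := hmk
          omega
  · intro i
    have hi := i.2
    refine Eq.trans ?_ (Finset.card_fin p)
    symm
    refine Finset.card_bij (fun (s : Fin p) _ => (⟨n * s.val + i.val, ?_⟩ : Fin (n * (p + q)))) ?_ ?_ ?_
    · have h1 : n * s.val + n ≤ n * p := by
        rw [← Nat.mul_succ]
        exact Nat.mul_le_mul_left n s.2
      omega
    · intro s _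
      have h1 : n * s.val + n ≤ n * p := by
        rw [← Nat.mul_succ]
        exact Nat.mul_le_mul_left n s.2
      rw [Finset.mem_filter, Finset.mem_filter]
      refine ⟨⟨Finset.mem_univ _, ?_⟩, ?_⟩
      · change n * s.val + i.val < n * p
        omega
      · apply Fin.ext
        change (n * s.val + i.val) % n = i.val
        rw [Nat.mul_add_mod, Nat.mod_eq_of_lt hi]
    · intro s _ t _ hst
      have h1 : n * s.val + i.val = n * t.val + i.val := congrArg Fin.val hst
      apply Fin.ext
      exact Nat.eq_of_mul_eq_mul_left hn (Nat.add_right_cancel h1)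
    · intro k hk
      rw [Finset.mem_filter, Finset.mem_filter] at hk
      obtain ⟨⟨-, h1⟩, h2⟩ := hk
      have h3 : k.val % n = i.val := congrArg Fin.val h2
      refine ⟨⟨k.val / n, ?_⟩, Finset.mem_univ _, ?_⟩
      · rw [Nat.div_lt_iff_lt_mul hn]
        exact lt_of_lt_of_eq h1 (Nat.mul_comm _ _)
      · apply Fin.ext
        change n * (k.val / n) + i.val = k.val
        rw [← h3, Nat.div_add_mod]

theorem torus_main (n p q : ℕ) (hn : 0 < n) (hp : 0 < p) (hp' : p < 12) (hq : 0 < q)
    (h : Nat.Coprime p q) :
    ∃ G : Grid (Fin n) (n * (p + q)),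
      (∀ m, G.sig m = m ∧ (G.tau m).val = (m.val + n * p) % (n * (p + q)) ∧
        (G.lab m).val = m.val % n) ∧
      ∃ (M : ℕ) (H : Grid (Fin n) M) (D : Diagram M), Stab G M H ∧ D.sig = H.sig ∧ D.tau = H.tau ∧
        (∀ i, (Finset.univ.filter fun m => D.node m = true ∧ H.lab m = i).card = 12) ∧
        D.Sufficient ∅ := by
  obtain ⟨G, hG, hcol, hcount⟩ := torus_grid n p q hn hp hq h
  have hM : n ≤ n * (p + q) := Nat.le_mul_of_pos_right n (by omega)
  refine ⟨G, hG, ?_⟩
  obtain ⟨M, H, D, h1, h2, h3, -, h5, h6⟩ := grid_main G _ hcol (fun _ => 1)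
    (fun i => by rw [hcount i]; omega) ⟨⟨0, by omega⟩, by rw [hcount]; omega⟩
  refine ⟨M, H, D, h1, h2, h3, ?_, h6⟩
  intro i
  have hl : G.lab ⟨i.val, lt_of_lt_of_le i.2 hM⟩ = i := by
    apply Fin.ext
    rw [(hG _).2.2]
    exact Nat.mod_eq_of_lt i.2
  have := h5 ⟨i.val, lt_of_lt_of_le i.2 hM⟩
  rw [hl] at this
  exact this

end Pool.MP_f18604_gt.LSN
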