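import Mathlib
import Pool.Agent.Helper7.LSN.TorusEps
import Pool.Agent.Helper7.LSN.TorusSt
import Pool.Agent.Helper7.LSN.TorusCol

/-!
# LSN-36: the torus links
-/

set_option autoImplicit false

namespace Pool.MP_f18604_gt.LSN

theorem torus_link (n p q : ℕ) (hn : 0 < n) (hp : 0 < p) (hp' : p < 12) (hq : 0 < q)
    (h : Nat.Coprime p q) : ∃ D : Diagram (n * (kinks p q + p + q)),
      (∀ m, D.sig m = m ∧ (D.tau m).val = torusTau n p q (kinks p q) m.val ∧
        D.node m = torusNode n p (kinks p q) m.val) ∧ D.Sufficient ∅ := by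
  obtain ⟨eps, heps⟩ := torus_eps n p q hn hp hp' hq h
  obtain ⟨st, hst⟩ := torus_st n p q hn hp hp' hq h
  let D : Diagram (n * (kinks p q + p + q)) :=
    { sig := Equiv.refl _
      tau := torusPerm n p q (kinks p q) hn hp hq
      ne := fun m h0 => torusTau_ne n p q (kinks p q) hn hp hq m.val m.2 (congrArg Fin.val h0).symm
      node := fun m => torusNode n p (kinks p q) m.val
      eps := fun m => eps m.val
      st := fun m => st m.val
      eps_next := fun m => heps m.val m.2
      st_next := fun m => hst m.val m.2 }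
  have hD : ∀ m, D.sig m = m ∧ (D.tau m).val = torusTau n p q (kinks p q) m.val ∧
      D.node m = torusNode n p (kinks p q) m.val := fun m => ⟨rfl, rfl, rfl⟩
  exact ⟨D, hD, torus_sufficient n p q (kinks p q) hn hp hp' hq (by unfold kinks; omega) D hD⟩

end Pool.MP_f18604_gt.LSN
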